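import Mathlib

/-! Twisted fourth moment, block D: the additive divisor problem `a m - b n = r`. Definitions. -/

set_option autoImplicit false

namespace Pool.Agent.LibF4D

open MeasureTheory Set Filter Topology

/-- Gaussian density (variance 2) -/
noncomputable def gk (l : ℝ) : ℝ := 1 / (2 * √Real.pi) * Real.exp (-l ^ 2 / 4)

/-- Smooth cutoff: `kp y + kp y⁻¹ = 1`, small for small `y`. -/
noncomputable def kp (y : ℝ) : ℝ := ∫ x in Iic (Real.log y), gk x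

/-- first derivative of `kp` -/
noncomputable def kp1 (y : ℝ) : ℝ := gk (Real.log y) / y

/-- second derivative of `kp` -/
noncomputable def kp2 (y : ℝ) : ℝ := -(gk (Real.log y) * (Real.log y / 2 + 1)) / y ^ 2

/-- number of divisors -/
noncomputable def dv (n : ℕ) : ℝ := (n.divisors.card : ℝ)

/-- decay weight -/
noncomputable def Wt (X y : ℝ) : ℝ := (X / (X + y)) ^ 4

/-- Flat functions of size `K` on `(0, X]`, decaying beyond `X`. -/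
structure Flat (f f1 f2 : ℝ → ℂ) (K X : ℝ) : Prop where
  d1 : ∀ y : ℝ, 0 < y → HasDerivAt f (f1 y) y
  d2 : ∀ y : ℝ, 0 < y → HasDerivAt f1 (f2 y) y
  c2 : ContinuousOn f2 (Ioi 0)
  b0 : ∀ y : ℝ, 0 < y → ‖f y‖ ≤ K * Wt X y
  b1 : ∀ y : ℝ, 0 < y → ‖f1 y‖ ≤ K * Wt X y / y
  b2 : ∀ y : ℝ, 0 < y → ‖f2 y‖ ≤ K * Wt X y / y ^ 2

/-- The shifted divisor sum `∑_{a m = b n + r} d(a) d(b) f(b n)`. -/
noncomputable def Sr (m n r : ℕ) (f : ℝ → ℂ) : ℂ :=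
  ∑' b : ℕ, if 1 ≤ b ∧ m ∣ b * n + r then ((dv ((b * n + r) / m) * dv b : ℝ) : ℂ) * f ((b * n : ℕ) : ℝ) else 0

/-- Ramanujan sum -/
def cr (l r : ℕ) : ℤ := ∑ d ∈ (Nat.gcd l r).divisors, (d : ℤ) * ArithmeticFunction.moebius (l / d)

/-- reduced modulus -/
def lr (l m : ℕ) : ℕ := l / Nat.gcd l m

/-- `log Y + 2γ` -/
noncomputable def Lg (Y : ℝ) : ℝ := Real.log Y + 2 * Real.eulerMascheroniConstant

/-- The main term of the shifted divisor sum. -/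
noncomputable def MM (m n r : ℕ) (f : ℝ → ℂ) : ℂ :=
  (1 / ((m : ℂ) * n)) * ∑' l : ℕ, if 1 ≤ l then ((cr l r : ℝ) / (lr l m * lr l n) : ℝ) *
    ∫ y in Ioi (0 : ℝ), f y * ((Lg (y / (m * (lr l m : ℝ) ^ 2)) * Lg (y / (n * (lr l n : ℝ) ^ 2)) : ℝ) : ℂ) else 0

/-- `f(y) kp(y/κ)`, extended by zero -/
noncomputable def P0 (κ : ℝ) (f : ℝ → ℂ) (y : ℝ) : ℂ := if 0 < y then f y * (kp (y / κ) : ℝ) else 0

noncomputable def P1 (κ : ℝ) (f f1 : ℝ → ℂ) (y : ℝ) : ℂ :=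
  if 0 < y then f1 y * (kp (y / κ) : ℝ) + f y * ((kp1 (y / κ) / κ : ℝ) : ℂ) else 0

noncomputable def P2 (κ : ℝ) (f f1 f2 : ℝ → ℂ) (y : ℝ) : ℂ :=
  if 0 < y then f2 y * (kp (y / κ) : ℝ) + 2 * f1 y * ((kp1 (y / κ) / κ : ℝ) : ℂ) +
    f y * ((kp2 (y / κ) / κ ^ 2 : ℝ) : ℂ) else 0

/-- the weight in the variables `u, v` (`a = u v`), for `κ = c² n` -/
noncomputable def H0 (m r κ : ℝ) (f : ℝ → ℂ) (u v : ℝ) : ℂ := P0 κ f (u * v * m - r) * (kp (v / u) : ℝ)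

noncomputable def Hv (m r κ : ℝ) (f f1 : ℝ → ℂ) (u v : ℝ) : ℂ :=
  ((u * m : ℝ) : ℂ) * P1 κ f f1 (u * v * m - r) * (kp (v / u) : ℝ) +
    P0 κ f (u * v * m - r) * ((kp1 (v / u) / u : ℝ) : ℂ)

noncomputable def Huv (m r κ : ℝ) (f f1 f2 : ℝ → ℂ) (u v : ℝ) : ℂ :=
  ((m : ℂ) * P1 κ f f1 (u * v * m - r) + ((u * v * m ^ 2 : ℝ) : ℂ) * P2 κ f f1 f2 (u * v * m - r)) * (kp (v / u) : ℝ) -
    P0 κ f (u * v * m - r) * (((kp2 (v / u) * (v / u) + kp1 (v / u)) / u ^ 2 : ℝ) : ℂ)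

/-- the part of the sum with `d(b)` replaced by the divisor `c` -/
noncomputable def Tc (m n r c : ℕ) (f : ℝ → ℂ) : ℂ :=
  ∑' p : ℕ × ℕ, if 1 ≤ p.1 ∧ 1 ≤ p.2 ∧ ((c * n : ℕ) : ℤ) ∣ ((p.1 * p.2 * m : ℕ) : ℤ) - (r : ℤ) then
    H0 m r ((c : ℝ) ^ 2 * n) f p.1 p.2 else 0

/-- sum over a modular hyperbola -/
noncomputable def Inner (q : ℕ) (b : ZMod q) (H : ℝ → ℝ → ℂ) : ℂ :=
  ∑' u : ℕ, if 1 ≤ u ∧ Nat.Coprime u q then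
    ∑' v : ℕ, (if 1 ≤ v ∧ (v : ZMod q) = b * ((u : ZMod q))⁻¹ then H u v else 0) else 0

/-- its expected value -/
noncomputable def InnerM (q : ℕ) (H : ℝ → ℝ → ℂ) : ℂ :=
  ∑' u : ℕ, if 1 ≤ u ∧ Nat.Coprime u q then (1 / (q : ℂ)) * ∫ v in Ioi (0 : ℝ), H u v else 0

/-- regular weights -/
structure Reg (H Hv Huv : ℝ → ℝ → ℂ) (B : ℝ) : Prop where
  d1 : ∀ u v : ℝ, 0 < u → 0 < v → HasDerivAt (fun v => H u v) (Hv u v) v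
  d2 : ∀ u v : ℝ, 0 < u → 0 < v → HasDerivAt (fun u => Hv u v) (Huv u v) u
  c1 : ContinuousOn (fun p : ℝ × ℝ => Hv p.1 p.2) (Ioi 0 ×ˢ Ioi 0)
  c2 : ContinuousOn (fun p : ℝ × ℝ => Huv p.1 p.2) (Ioi 0 ×ˢ Ioi 0)
  b0 : ∀ u v : ℝ, 1 ≤ u → 0 < v → ‖H u v‖ ≤ B * v / (u ^ 2 * (1 + v) ^ 3)
  b1 : ∀ u v : ℝ, 1 ≤ u → 0 < v → ‖Hv u v‖ ≤ B / (u ^ 2 * (1 + v) ^ 3)
  b2 : ∀ u v : ℝ, 1 ≤ u → 0 < v → ‖Huv u v‖ ≤ B / (u ^ 3 * (1 + v) ^ 3)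

/-- the set of `g = (u, c n/(m, c n))` that occur -/
def gS (m n r c : ℕ) : Finset ℕ :=
  (c * n / Nat.gcd m (c * n)).divisors.filter (fun g => g * Nat.gcd m (c * n) ∣ r)

/-- the modulus that belongs to `g` -/
def qg (m n c g : ℕ) : ℕ := c * n / Nat.gcd m (c * n) / g

/-- the residue that belongs to `g` -/
def bg (m n r c g : ℕ) : ZMod (qg m n c g) :=
  ((r / (g * Nat.gcd m (c * n)) : ℕ) : ZMod (qg m n c g)) * ((m / Nat.gcd m (c * n) : ℕ) : ZMod (qg m n c g))⁻¹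

/-- the main term of `Tc` -/
noncomputable def TM (m n r c : ℕ) (f : ℝ → ℂ) : ℂ :=
  ∑ g ∈ gS m n r c, InnerM (qg m n c g) (fun u v => H0 m r ((c : ℝ) ^ 2 * n) f (g * u) v)

/-- the smooth harmonic sum -/
noncomputable def KK (Y : ℝ) : ℝ := 2 * ∑' k : ℕ, if 1 ≤ k then kp (Y / (k : ℝ) ^ 2) / k else 0

end Pool.Agent.LibF4D
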