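import Mathlib

/-! Twisted fourth moment, block K: Kloosterman sums of general modulus. Definitions. -/

set_option autoImplicit false

namespace Pool.Agent.LibF4D

open Finset

/-- Kloosterman sum of the additive character `ψ` -/
noncomputable def kl {q : ℕ} [NeZero q] (ψ : AddChar (ZMod q) ℂ) (a b : ZMod q) : ℂ :=
  ∑ u : (ZMod q)ˣ, ψ (a * (u : ZMod q) + b * ((u⁻¹ : (ZMod q)ˣ) : ZMod q))

/-- The powerful part: product of `p ^ v_p(q)` over the primes with `v_p(q) ≥ 2`. -/
noncomputable def pw (q : ℕ) : ℕ := ∏ p ∈ q.primeFactors.filter (fun p => 2 ≤ q.factorization p), p ^ q.factorization p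

/-- The size of the bound for Kloosterman sums modulo `q` with second argument `b`. -/
noncomputable def KB (q b : ℕ) : ℝ := 2 ^ q.primeFactors.card * √((q : ℝ) * pw q * Nat.gcd b q)

/-- Number of `1 ≤ v ≤ V` in the residue class `x`. -/
noncomputable def cnt (q : ℕ) (x : ZMod q) (V : ℝ) : ℕ := ((Finset.Icc 1 ⌊V⌋₊).filter (fun v : ℕ => (v : ZMod q) = x)).card

/-- Discrepancy of a residue class. -/
noncomputable def Dl (q : ℕ) (x : ZMod q) (V : ℝ) : ℝ := cnt q x V - V / q

/-- The accumulated discrepancy on the modular hyperbola `u v = b`. -/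
noncomputable def AA (q : ℕ) (b : ZMod q) (U V : ℝ) : ℝ :=
  ∑ u ∈ (Finset.Icc 1 ⌊U⌋₊).filter (fun u : ℕ => Nat.Coprime u q), Dl q (b * ((u : ZMod q))⁻¹) V

end Pool.Agent.LibF4D
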