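import Mathlib
import Pool.Agent.LibF4D.KDefs
import Pool.Agent.LibF4D.DDefs

/-! Row D14.
∑_{l|g} ∑_{d | gcd(l,r)} d μ(l/d) = ∑_{d | g, d | r} d ∑_{e | g/d} μ(e) (l = d e), inner sum = [d = g]. lr l m = l / gcd l m; Nat.Coprime.dvd_of_dvd_mul_right.
-/

set_option autoImplicit false

namespace Pool.Agent.LibF4D

open MeasureTheory Set Filter Topology

/-- auxiliary arithmetic function `d ↦ d [d ∣ r]` -/
def D14_F (r : ℕ) : ArithmeticFunction ℤ :=
  ⟨fun d => if d = 0 then 0 else if d ∣ r then (d : ℤ) else 0, by simp⟩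

theorem D14_F_apply (r : ℕ) {d : ℕ} (hd : d ≠ 0) :
    D14_F r d = if d ∣ r then (d : ℤ) else 0 := by
  change (if d = 0 then (0 : ℤ) else if d ∣ r then (d : ℤ) else 0) = _
  rw [if_neg hd]

theorem D14_cr_eq {l r : ℕ} (hl : l ≠ 0) :
    cr l r = (D14_F r * ArithmeticFunction.moebius) l := by
  rw [ArithmeticFunction.mul_apply,
    Nat.sum_divisorsAntidiagonal (f := fun a b => D14_F r a * ArithmeticFunction.moebius b)]
  unfold cr
  have hsub : (Nat.gcd l r).divisors ⊆ l.divisors :=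
    Nat.divisors_subset_of_dvd hl (Nat.gcd_dvd_left l r)
  rw [← Finset.sum_subset hsub (f := fun d => D14_F r d * ArithmeticFunction.moebius (l / d))]
  · apply Finset.sum_congr rfl
    intro d hd
    have h1 := Nat.mem_divisors.mp hd
    have hd0 : d ≠ 0 := by
      rintro rfl
      exact h1.2 (Nat.eq_zero_of_zero_dvd h1.1)
    rw [D14_F_apply r hd0, if_pos (dvd_trans h1.1 (Nat.gcd_dvd_right l r))]
  · intro d hd hd'
    have h1 := Nat.mem_divisors.mp hd
    have hd0 : d ≠ 0 := by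
      rintro rfl
      exact hl (Nat.eq_zero_of_zero_dvd h1.1)
    have h2 : ¬ d ∣ r := by
      intro h
      apply hd'
      rw [Nat.mem_divisors]
      exact ⟨Nat.dvd_gcd h1.1 h, fun h0 => hl (Nat.eq_zero_of_gcd_eq_zero_left h0)⟩
    rw [D14_F_apply r hd0, if_neg h2, zero_mul]

/-- D14: Ramanujan sums -/
theorem D14_cr {g r : ℕ} (hg : 1 ≤ g) : ∑ l ∈ g.divisors, cr l r = if g ∣ r then (g : ℤ) else 0 := by
  have h1 : ∑ l ∈ g.divisors, cr l r =
      ∑ l ∈ g.divisors, (D14_F r * ArithmeticFunction.moebius) l := by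
    apply Finset.sum_congr rfl
    intro l hl
    apply D14_cr_eq
    have h := Nat.mem_divisors.mp hl
    rintro rfl
    exact h.2 (Nat.eq_zero_of_zero_dvd h.1)
  rw [h1, ← ArithmeticFunction.coe_mul_zeta_apply, mul_assoc,
    ArithmeticFunction.moebius_mul_coe_zeta, mul_one, D14_F_apply r (by omega)]

theorem D14_cr_le {l r : ℕ} (hr : 1 ≤ r) : |cr l r| ≤ (r : ℤ) ^ 2 := by
  unfold cr
  have h1 : |∑ d ∈ (Nat.gcd l r).divisors, (d : ℤ) * ArithmeticFunction.moebius (l / d)| ≤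
      ∑ d ∈ (Nat.gcd l r).divisors, (d : ℤ) := by
    refine le_trans (Finset.abs_sum_le_sum_abs _ _) (Finset.sum_le_sum ?_)
    intro d _
    rw [abs_mul, Nat.abs_cast]
    have h2 : |ArithmeticFunction.moebius (l / d)| ≤ 1 := ArithmeticFunction.abs_moebius_le_one
    have h3 : (0 : ℤ) ≤ d := Int.natCast_nonneg d
    nlinarith
  have hsub : (Nat.gcd l r).divisors ⊆ r.divisors :=
    Nat.divisors_subset_of_dvd (by omega) (Nat.gcd_dvd_right l r)
  have h4 : ∑ d ∈ (Nat.gcd l r).divisors, (d : ℤ) ≤ ∑ d ∈ r.divisors, (d : ℤ) :=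
    Finset.sum_le_sum_of_subset_of_nonneg hsub (fun d _ _ => Int.natCast_nonneg d)
  have h5 : ∑ d ∈ r.divisors, (d : ℤ) ≤ ∑ d ∈ r.divisors, (r : ℤ) := by
    apply Finset.sum_le_sum
    intro d hd
    exact_mod_cast Nat.divisor_le hd
  have h6 : ∑ d ∈ r.divisors, (r : ℤ) ≤ (r : ℤ) ^ 2 := by
    rw [Finset.sum_const, nsmul_eq_mul, sq]
    have : (r.divisors.card : ℤ) ≤ r := by exact_mod_cast Nat.card_divisors_le_self r
    have h7 : (0 : ℤ) ≤ r := Int.natCast_nonneg r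
    exact mul_le_mul_of_nonneg_right this h7
  linarith

theorem D14_lr {l m u : ℕ} (hl : 1 ≤ l) (hm : 1 ≤ m) : l ∣ u * m ↔ lr l m ∣ u := by
  unfold lr
  have hg : 0 < Nat.gcd l m := Nat.gcd_pos_of_pos_left _ hl
  obtain ⟨l', hl'⟩ := Nat.gcd_dvd_left l m
  obtain ⟨m', hm'⟩ := Nat.gcd_dvd_right l m
  have hq : l / Nat.gcd l m = l' := Nat.div_eq_of_eq_mul_right hg hl'
  have hq' : m / Nat.gcd l m = m' := Nat.div_eq_of_eq_mul_right hg hm'
  have hc : Nat.Coprime l' m' := by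
    have := Nat.coprime_div_gcd_div_gcd hg
    rwa [hq, hq'] at this
  rw [hq]
  have h1 : l ∣ u * m ↔ l' ∣ u * m' := by
    generalize Nat.gcd l m = g at hg hl' hm'
    subst hl' hm'
    rw [show u * (g * m') = g * (u * m') by ring]
    exact Nat.mul_dvd_mul_iff_left hg
  rw [h1]
  exact hc.dvd_mul_right

theorem D14_lr_ge {l m : ℕ} (hl : 1 ≤ l) (hm : 1 ≤ m) : 1 ≤ lr l m ∧ lr l m ≤ l ∧ l ≤ lr l m * m := by
  unfold lr
  have hg : 0 < Nat.gcd l m := Nat.gcd_pos_of_pos_left _ hl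
  refine ⟨?_, Nat.div_le_self _ _, ?_⟩
  · exact (Nat.one_le_div_iff hg).mpr (Nat.le_of_dvd hl (Nat.gcd_dvd_left l m))
  · have h1 : l / Nat.gcd l m * Nat.gcd l m = l := Nat.div_mul_cancel (Nat.gcd_dvd_left l m)
    calc l = l / Nat.gcd l m * Nat.gcd l m := h1.symm
      _ ≤ l / Nat.gcd l m * m := Nat.mul_le_mul_left _ (Nat.le_of_dvd hm (Nat.gcd_dvd_right l m))

end Pool.Agent.LibF4D
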