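import Mathlib
import Pool.Agent.LibF4D.KDefs
import Pool.Agent.LibF4D.DDefs

/-! Row D01a.
gk is the density of the Gaussian with variance 2: integral over the line is 1 (integral_gaussian with b = 1/4), even, positive, continuous.
kp y + kp y⁻¹ = 1: Iic(-l) by evenness is the complement of Iic l. Derivative: FTC (l ↦ ∫_{Iic l} gk has derivative gk l: intervalIntegral / integral_Iic) composed with log.
(LibM3.PhR is the same function by rfl; PhR facts in LibM3/A1.lean can be copied.)
-/

set_option autoImplicit false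

namespace Pool.Agent.LibF4D

open MeasureTheory Set Filter Topology

theorem F4D01a_gk_eq (x : ℝ) : gk x = 1 / (2 * √Real.pi) * Real.exp (-(1 / 4) * x ^ 2) := by
  unfold gk
  congr 2
  ring

theorem F4D01a_pos (x : ℝ) : 0 < gk x := by
  unfold gk
  have h4 : (0:ℝ) < √Real.pi := Real.sqrt_pos.mpr Real.pi_pos
  positivity

theorem F4D01a_cont : Continuous gk := by
  unfold gk
  fun_prop

theorem F4D01a_int : Integrable gk := by
  have h := (integrable_exp_neg_mul_sq (b := (1 / 4 : ℝ)) (by norm_num)).const_mul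
    (1 / (2 * √Real.pi))
  exact h.congr (Eventually.of_forall fun x => (F4D01a_gk_eq x).symm)

theorem F4D01a_total : ∫ x, gk x = 1 := by
  have h := integral_gaussian (1 / 4)
  simp_rw [F4D01a_gk_eq]
  rw [integral_const_mul, h]
  have h1 : Real.pi / (1 / 4) = 2 ^ 2 * Real.pi := by ring
  rw [h1, Real.sqrt_mul (by norm_num), Real.sqrt_sq (by norm_num)]
  have h4 : (0:ℝ) < √Real.pi := Real.sqrt_pos.mpr Real.pi_pos
  field_simp

theorem F4D01a_even (x : ℝ) : gk (-x) = gk x := by
  unfold gk
  rw [neg_sq]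

theorem F4D01a_G (l : ℝ) : HasDerivAt (fun l => ∫ x in Iic l, gk x) (gk l) l := by
  have h1 : (fun l => ∫ x in Iic l, gk x) =
      fun l => (∫ x in Iic (0 : ℝ), gk x) + ∫ x in (0 : ℝ)..l, gk x := by
    funext l
    have h := intervalIntegral.integral_Iic_sub_Iic (a := (0 : ℝ)) (b := l) (f := gk) (μ := volume)
      F4D01a_int.integrableOn F4D01a_int.integrableOn
    rw [← h]
    ring
  rw [h1]
  exact (F4D01a_cont.integral_hasStrictDerivAt 0 l).hasDerivAt.const_add _

theorem F4D01a_gk' (l : ℝ) : HasDerivAt gk (-(l / 2) * gk l) l := by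
  have h1 : HasDerivAt (fun l : ℝ => -l ^ 2 / 4) (-(l / 2)) l := by
    have h := ((hasDerivAt_pow 2 l).neg).div_const 4
    have e : -(l / 2) = -(((2 : ℕ) : ℝ) * l ^ (2 - 1)) / 4 := by
      push_cast
      ring
    rw [e]
    exact h
  have h2 := (h1.exp).const_mul (1 / (2 * √Real.pi))
  have h3 : -(l / 2) * gk l = 1 / (2 * √Real.pi) * (Real.exp (-l ^ 2 / 4) * -(l / 2)) := by
    unfold gk
    ring
  rw [h3]
  exact h2

/-- D01: the cutoff -/
theorem D01_kp_nonneg (y : ℝ) : 0 ≤ kp y := by
  unfold kp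
  exact integral_nonneg fun x => (F4D01a_pos x).le

theorem D01_kp_le_one (y : ℝ) : kp y ≤ 1 := by
  unfold kp
  rw [← F4D01a_total]
  exact setIntegral_le_integral F4D01a_int (Eventually.of_forall fun x => (F4D01a_pos x).le)

theorem D01_kp_inv {y : ℝ} (hy : 0 < y) : kp y + kp y⁻¹ = 1 := by
  unfold kp
  rw [Real.log_inv]
  have h1 : ∫ x in Iic (-Real.log y), gk x = ∫ x in Ioi (Real.log y), gk x := by
    have h := integral_comp_neg_Iic (-Real.log y) gk
    rw [neg_neg] at h
    rw [← h]
    simp only [F4D01a_even]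
  rw [h1, intervalIntegral.integral_Iic_add_Ioi F4D01a_int.integrableOn F4D01a_int.integrableOn,
    F4D01a_total]

theorem D01_kp_deriv {y : ℝ} (hy : 0 < y) : HasDerivAt kp (kp1 y) y ∧ HasDerivAt kp1 (kp2 y) y := by
  constructor
  · have h := (F4D01a_G (Real.log y)).comp y (Real.hasDerivAt_log hy.ne')
    have h2 : kp1 y = gk (Real.log y) * y⁻¹ := by
      unfold kp1
      rw [div_eq_mul_inv]
    rw [h2]
    exact h
  · have h1 := (F4D01a_gk' (Real.log y)).comp y (Real.hasDerivAt_log hy.ne')
    have h2 := h1.div (hasDerivAt_id y) hy.ne'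
    have h3 : kp2 y = (-(Real.log y / 2) * gk (Real.log y) * y⁻¹ * id y -
        (gk ∘ Real.log) y * 1) / id y ^ 2 := by
      unfold kp2
      simp only [id, Function.comp]
      field_simp
      ring
    rw [h3]
    exact h2

theorem D01_cont : ContinuousOn kp (Ioi 0) ∧ ContinuousOn kp1 (Ioi 0) ∧ ContinuousOn kp2 (Ioi 0) := by
  refine ⟨fun y hy => (D01_kp_deriv hy).1.continuousAt.continuousWithinAt,
    fun y hy => (D01_kp_deriv hy).2.continuousAt.continuousWithinAt, ?_⟩
  intro y hy
  have hy' : (0 : ℝ) < y := hy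
  apply ContinuousAt.continuousWithinAt
  have h1 : ContinuousAt Real.log y := Real.continuousAt_log hy'.ne'
  have h2 : ContinuousAt (fun y => gk (Real.log y)) y :=
    F4D01a_cont.continuousAt.comp h1
  have h3 : ContinuousAt (fun y : ℝ => y ^ 2) y := (continuous_pow 2).continuousAt
  exact ((h2.mul ((h1.div_const 2).add continuousAt_const)).neg).div h3 (pow_pos hy' 2).ne'

end Pool.Agent.LibF4D
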