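import Mathlib
import Pool.Agent.LibF4D.KDefs
import Pool.Agent.LibF4D.DDefs
import Pool.Agent.LibF4D.D01a

/-! Row D01b.
With l = log y: gk l (|l|/2+1) ≤ C e^{6 l} for all l ≤ 0 because -l²/4 + 6|l| ≤ 36 (complete the square, use e^{-l²/8} to absorb |l|);
kp y = ∫_{Iic l} gk ≤ ∫_{Iic l} C e^{6x} dx = C e^{6l}/6. For y ≥ 1 bounded by constants. y^6 = e^{6 l}.
-/

set_option autoImplicit false

namespace Pool.Agent.LibF4D

open MeasureTheory Set Filter Topology

theorem F4D01b_gk (l : ℝ) : gk l * (|l| / 2 + 1) ≤ Real.exp 43 * Real.exp (-6 * |l|) := by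
  have h1 : |l| / 2 + 1 ≤ Real.exp (|l| / 2) := Real.add_one_le_exp _
  have h2 : 1 / (2 * √Real.pi) ≤ 1 := by
    have h3 : (1 : ℝ) ≤ √Real.pi := by
      rw [Real.one_le_sqrt]
      linarith [Real.pi_gt_three]
    rw [div_le_one (by positivity)]
    linarith
  have h3 : gk l ≤ Real.exp (-l ^ 2 / 4) := by
    unfold gk
    have h4 : 0 < Real.exp (-l ^ 2 / 4) := Real.exp_pos _
    nlinarith
  calc gk l * (|l| / 2 + 1) ≤ Real.exp (-l ^ 2 / 4) * Real.exp (|l| / 2) :=
        mul_le_mul h3 h1 (by positivity) (Real.exp_pos _).le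
    _ = Real.exp (-l ^ 2 / 4 + |l| / 2) := by rw [← Real.exp_add]
    _ ≤ Real.exp (43 + -6 * |l|) := by
        apply Real.exp_le_exp.2
        rw [← sq_abs l]
        nlinarith [sq_nonneg (|l| / 2 - 13 / 2)]
    _ = Real.exp 43 * Real.exp (-6 * |l|) := by rw [Real.exp_add]

theorem F4D01b_pos (x : ℝ) : 0 < gk x := by
  unfold gk
  have h4 : (0:ℝ) < √Real.pi := Real.sqrt_pos.mpr Real.pi_pos
  positivity

theorem F4D01b_min {y : ℝ} (hy : 0 < y) : Real.exp (-6 * |Real.log y|) ≤ min 1 (y ^ 6) := by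
  have h0 : Real.exp (-6 * |Real.log y|) ≤ 1 := by
    rw [Real.exp_le_one_iff]
    have := abs_nonneg (Real.log y)
    linarith
  apply le_min h0
  have h1 : y ^ 6 = Real.exp (6 * Real.log y) := by
    rw [mul_comm, Real.exp_mul, Real.exp_log hy]
    norm_cast
  rw [h1]
  apply Real.exp_le_exp.2
  have := neg_abs_le (Real.log y)
  linarith

theorem D01_kp_bound : ∃ C : ℝ, 1 ≤ C ∧ ∀ y : ℝ, 0 < y → kp y ≤ C * min 1 (y ^ 6) ∧
    |kp1 y| * y ≤ C * min 1 (y ^ 6) ∧ |kp2 y| * y ^ 2 ≤ C * min 1 (y ^ 6) := by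
  refine ⟨Real.exp 43, Real.one_le_exp (by norm_num), fun y hy => ?_⟩
  have hE : (1 : ℝ) ≤ Real.exp 43 := Real.one_le_exp (by norm_num)
  have hmin := F4D01b_min hy
  have hb := F4D01b_gk (Real.log y)
  have hb' : gk (Real.log y) * (|Real.log y| / 2 + 1) ≤ Real.exp 43 * min 1 (y ^ 6) :=
    hb.trans (mul_le_mul_of_nonneg_left hmin (Real.exp_pos _).le)
  have hg := F4D01b_pos (Real.log y)
  have ha := abs_nonneg (Real.log y)
  refine ⟨?_, ?_, ?_⟩
  · rcases le_total 1 (y ^ 6) with h | h
    · rw [min_eq_left h]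
      have := D01_kp_le_one y
      linarith
    · rw [min_eq_right h]
      have h1 : y ^ 6 = Real.exp (6 * Real.log y) := by
        rw [mul_comm, Real.exp_mul, Real.exp_log hy]
        norm_cast
      have h2 : ∀ x : ℝ, gk x ≤ Real.exp 43 * Real.exp (6 * x) := by
        intro x
        have h3 := F4D01b_gk x
        have h4 := F4D01b_pos x
        have h5 : gk x ≤ gk x * (|x| / 2 + 1) := by
          have := abs_nonneg x
          nlinarith
        have h6 : Real.exp (-6 * |x|) ≤ Real.exp (6 * x) := by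
          apply Real.exp_le_exp.2
          have := neg_abs_le x
          linarith
        have h7 : Real.exp 43 * Real.exp (-6 * |x|) ≤ Real.exp 43 * Real.exp (6 * x) :=
          mul_le_mul_of_nonneg_left h6 (Real.exp_pos _).le
        linarith
      have h3 : kp y ≤ ∫ x in Iic (Real.log y), Real.exp 43 * Real.exp (6 * x) := by
        unfold kp
        apply integral_mono_of_nonneg
        · exact Eventually.of_forall fun x => (F4D01b_pos x).le
        · exact (integrableOn_exp_mul_Iic (by norm_num) _).const_mul _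
        · exact Eventually.of_forall h2
      refine h3.trans ?_
      rw [integral_const_mul, integral_exp_mul_Iic (by norm_num), h1]
      have h4 : 0 < Real.exp (6 * Real.log y) := Real.exp_pos _
      have h5 : Real.exp (6 * Real.log y) / 6 ≤ Real.exp (6 * Real.log y) := by linarith
      exact mul_le_mul_of_nonneg_left h5 (Real.exp_pos _).le
  · have h1 : |kp1 y| * y = gk (Real.log y) := by
      unfold kp1
      rw [abs_div, abs_of_pos hg, abs_of_pos hy]
      field_simp
    rw [h1]
    refine le_trans ?_ hb'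
    nlinarith
  · have h1 : |kp2 y| * y ^ 2 = gk (Real.log y) * |Real.log y / 2 + 1| := by
      unfold kp2
      rw [abs_div, abs_neg, abs_mul, abs_of_pos hg, abs_of_pos (pow_pos hy 2)]
      field_simp
    rw [h1]
    refine le_trans ?_ hb'
    apply mul_le_mul_of_nonneg_left _ hg.le
    have h2 := abs_add_le (Real.log y / 2) 1
    rw [abs_div, abs_one] at h2
    have h3 : |(2 : ℝ)| = 2 := by norm_num
    rw [h3] at h2
    exact h2

end Pool.Agent.LibF4D
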