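import Mathlib
import Pool.Agent.LibF4D.KDefs
import Pool.Agent.LibF4D.DDefs
import Pool.Agent.LibF4D.D01a
import Pool.Agent.LibF4D.D01b

/-! Row D03b.
On y > 0 unfold P0, P1, P2; triangle inequality; |kp1(y/κ)/κ| y = |kp1(y/κ)| (y/κ). C' = 4 C.
-/

set_option autoImplicit false

namespace Pool.Agent.LibF4D

open MeasureTheory Set Filter Topology

theorem D03b_Wt_nonneg {X y : ℝ} (hX : 1 ≤ X) (hy : 0 < y) : 0 ≤ Wt X y := by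
  unfold Wt
  positivity

theorem D03_bound : ∃ C : ℝ, 1 ≤ C ∧ ∀ (κ K X : ℝ) (f f1 f2 : ℝ → ℂ), 1 ≤ κ → Flat f f1 f2 K X → 0 ≤ K → 1 ≤ X →
    ∀ y : ℝ, 0 < y → ‖P0 κ f y‖ ≤ C * K * Wt X y * min 1 ((y / κ) ^ 6) ∧
      ‖P1 κ f f1 y‖ * y ≤ C * K * Wt X y * min 1 ((y / κ) ^ 6) ∧
      ‖P2 κ f f1 f2 y‖ * y ^ 2 ≤ C * K * Wt X y * min 1 ((y / κ) ^ 6) := by
  obtain ⟨C, hC1, hC⟩ := D01_kp_bound
  refine ⟨4 * C, by linarith, ?_⟩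
  intro κ K X f f1 f2 hκ hf hK hX y hy
  have hκ0 : 0 < κ := by linarith
  have ht : 0 < y / κ := by positivity
  obtain ⟨k0, k1, k2⟩ := hC (y / κ) ht
  set t : ℝ := y / κ with htdef
  have hty : y = t * κ := by rw [htdef]; field_simp
  set M : ℝ := min 1 (t ^ 6) with hM
  have hM0 : 0 ≤ M := le_min zero_le_one (by positivity)
  set W : ℝ := Wt X y with hW
  have hW0 : 0 ≤ W := D03b_Wt_nonneg hX hy
  have hKW : 0 ≤ K * W := mul_nonneg hK hW0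
  have b0 : ‖f y‖ ≤ K * W := hf.b0 y hy
  have b1 : ‖f1 y‖ * y ≤ K * W := by
    have := hf.b1 y hy
    rwa [le_div_iff₀ hy] at this
  have b2 : ‖f2 y‖ * y ^ 2 ≤ K * W := by
    have := hf.b2 y hy
    rwa [le_div_iff₀ (by positivity)] at this
  have hkp0 : 0 ≤ kp t := D01_kp_nonneg t
  have nkp : ‖((kp t : ℝ) : ℂ)‖ = kp t := by rw [Complex.norm_real, Real.norm_of_nonneg hkp0]
  have nkp1 : ‖((kp1 t / κ : ℝ) : ℂ)‖ * y = |kp1 t| * t := by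
    rw [Complex.norm_real, Real.norm_eq_abs, abs_div, abs_of_pos hκ0, hty]
    field_simp
  have nkp2 : ‖((kp2 t / κ ^ 2 : ℝ) : ℂ)‖ * y ^ 2 = |kp2 t| * t ^ 2 := by
    rw [Complex.norm_real, Real.norm_eq_abs, abs_div, abs_of_pos (show (0 : ℝ) < κ ^ 2 by positivity), hty]
    field_simp
  have hCM : 0 ≤ C * M := mul_nonneg (by linarith) hM0
  have hKWCM : 0 ≤ (K * W) * (C * M) := mul_nonneg hKW hCM
  refine ⟨?_, ?_, ?_⟩
  · have e : P0 κ f y = f y * ((kp t : ℝ) : ℂ) := by unfold P0; rw [if_pos hy]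
    rw [e, norm_mul, nkp]
    have h := mul_le_mul b0 k0 hkp0 hKW
    nlinarith
  · have e : P1 κ f f1 y = f1 y * ((kp t : ℝ) : ℂ) + f y * ((kp1 t / κ : ℝ) : ℂ) := by unfold P1; rw [if_pos hy]
    have h1 : ‖P1 κ f f1 y‖ * y ≤ (‖f1 y‖ * y) * kp t + ‖f y‖ * (|kp1 t| * t) := by
      rw [e]
      calc ‖f1 y * ((kp t : ℝ) : ℂ) + f y * ((kp1 t / κ : ℝ) : ℂ)‖ * y
          ≤ (‖f1 y‖ * kp t + ‖f y‖ * ‖((kp1 t / κ : ℝ) : ℂ)‖) * y := by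
            refine mul_le_mul_of_nonneg_right ((norm_add_le _ _).trans (le_of_eq ?_)) hy.le
            rw [norm_mul, norm_mul, nkp]
        _ = (‖f1 y‖ * y) * kp t + ‖f y‖ * (‖((kp1 t / κ : ℝ) : ℂ)‖ * y) := by ring
        _ = _ := by rw [nkp1]
    have h2 := mul_le_mul b1 k0 hkp0 hKW
    have h3 := mul_le_mul b0 k1 (by positivity) hKW
    nlinarith
  · have e : P2 κ f f1 f2 y = f2 y * ((kp t : ℝ) : ℂ) + 2 * f1 y * ((kp1 t / κ : ℝ) : ℂ) +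
        f y * ((kp2 t / κ ^ 2 : ℝ) : ℂ) := by unfold P2; rw [if_pos hy]
    have h1 : ‖P2 κ f f1 f2 y‖ * y ^ 2 ≤ (‖f2 y‖ * y ^ 2) * kp t + 2 * ((‖f1 y‖ * y) * (|kp1 t| * t)) +
        ‖f y‖ * (|kp2 t| * t ^ 2) := by
      rw [e]
      calc ‖f2 y * ((kp t : ℝ) : ℂ) + 2 * f1 y * ((kp1 t / κ : ℝ) : ℂ) + f y * ((kp2 t / κ ^ 2 : ℝ) : ℂ)‖ * y ^ 2
          ≤ (‖f2 y‖ * kp t + 2 * ‖f1 y‖ * ‖((kp1 t / κ : ℝ) : ℂ)‖ + ‖f y‖ * ‖((kp2 t / κ ^ 2 : ℝ) : ℂ)‖) * y ^ 2 := by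
            refine mul_le_mul_of_nonneg_right ((norm_add₃_le).trans (le_of_eq ?_)) (by positivity)
            rw [norm_mul, norm_mul, norm_mul, norm_mul, nkp]
            norm_num
        _ = (‖f2 y‖ * y ^ 2) * kp t + 2 * ((‖f1 y‖ * y) * (‖((kp1 t / κ : ℝ) : ℂ)‖ * y)) +
            ‖f y‖ * (‖((kp2 t / κ ^ 2 : ℝ) : ℂ)‖ * y ^ 2) := by ring
        _ = _ := by rw [nkp1, nkp2]
    have h2 := mul_le_mul b2 k0 hkp0 hKW
    have h3 := mul_le_mul b1 k1 (by positivity) hKW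
    have h4 := mul_le_mul b0 k2 (by positivity) hKW
    nlinarith

end Pool.Agent.LibF4D
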