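import Mathlib
import Pool.Agent.LibF4D.KDefs
import Pool.Agent.LibF4D.DDefs
import Pool.Agent.LibF4D.D01a
import Pool.Agent.LibF4D.D03b

/-! Row D03a.
y > 0: product and chain rule (the function agrees with f y * kp(y/κ) near y). y < 0: locally constant 0. y = 0: |P0 h| ≤ C (h/κ)^6, |P1 h| ≤ C h^5: derivative 0 (hasDerivAt via isLittleO / squeeze).
P2 continuous: at y > 0 from continuity of f, f1, f2, kp, kp1, kp2; at 0 squeeze with C h^4.
-/

set_option autoImplicit false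

namespace Pool.Agent.LibF4D

open MeasureTheory Set Filter Topology

theorem D03a_deriv_zero {g : ℝ → ℂ} {B : ℝ} (hg : ∀ h : ℝ, |h| ≤ 1 → ‖g h‖ ≤ B * |h| ^ 2) : HasDerivAt g 0 0 := by
  have g0 : g 0 = 0 := by
    have := hg 0 (by simp)
    simp at this
    exact this
  rw [hasDerivAt_iff_isLittleO_nhds_zero]
  have e : (fun h : ℝ => g (0 + h) - g 0 - h • (0 : ℂ)) = g := by
    funext h; simp [g0]
  rw [e]
  have hO : g =O[𝓝 0] fun h : ℝ => h ^ 2 := by
    refine Asymptotics.IsBigO.of_bound B ?_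
    have : ∀ᶠ h : ℝ in 𝓝 0, |h| ≤ 1 := by
      have hm : Metric.closedBall (0 : ℝ) 1 ∈ 𝓝 (0 : ℝ) := Metric.closedBall_mem_nhds _ one_pos
      filter_upwards [hm] with h hh
      simpa using hh
    filter_upwards [this] with h hh
    have := hg h hh
    rwa [Real.norm_eq_abs, abs_pow]
  exact hO.trans_isLittleO (Asymptotics.isLittleO_pow_id one_lt_two)

theorem D03a_kp {κ y : ℝ} (hκ : 0 < κ) (hy : 0 < y) :
    HasDerivAt (fun z : ℝ => ((kp (z / κ) : ℝ) : ℂ)) ((kp1 (y / κ) / κ : ℝ) : ℂ) y ∧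
      HasDerivAt (fun z : ℝ => ((kp1 (z / κ) / κ : ℝ) : ℂ)) ((kp2 (y / κ) / κ ^ 2 : ℝ) : ℂ) y := by
  have hyk : 0 < y / κ := by positivity
  obtain ⟨h1, h2⟩ := D01_kp_deriv hyk
  have hd : HasDerivAt (fun z : ℝ => z / κ) (1 / κ) y := (hasDerivAt_id y).div_const κ
  refine ⟨?_, ?_⟩
  · have h := h1.comp y hd
    have e : kp1 (y / κ) * (1 / κ) = kp1 (y / κ) / κ := by ring
    rw [e] at h
    exact h.ofReal_comp
  · have h := (h2.comp y hd).div_const κ
    have e : kp2 (y / κ) * (1 / κ) / κ = kp2 (y / κ) / κ ^ 2 := by field_simp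
    rw [e] at h
    exact h.ofReal_comp

/-- D03: `P0` and its derivatives on the whole line -/
theorem D03_P {κ K X : ℝ} {f f1 f2 : ℝ → ℂ} (hκ : 1 ≤ κ) (hf : Flat f f1 f2 K X) (hK : 0 ≤ K) (hX : 1 ≤ X) :
    (∀ y : ℝ, HasDerivAt (P0 κ f) (P1 κ f f1 y) y) ∧ (∀ y : ℝ, HasDerivAt (P1 κ f f1) (P2 κ f f1 f2 y) y) ∧
      Continuous (P2 κ f f1 f2) := by
  obtain ⟨C, hC1, hC⟩ := D03_bound
  have hκ0 : 0 < κ := by linarith
  have hCK : 0 ≤ C * K := mul_nonneg (by linarith) hK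
  -- values for `y ≤ 0`
  have z0 : ∀ y : ℝ, y ≤ 0 → P0 κ f y = 0 := fun y hy => by unfold P0; rw [if_neg (not_lt.mpr hy)]
  have z1 : ∀ y : ℝ, y ≤ 0 → P1 κ f f1 y = 0 := fun y hy => by unfold P1; rw [if_neg (not_lt.mpr hy)]
  have z2 : ∀ y : ℝ, y ≤ 0 → P2 κ f f1 f2 y = 0 := fun y hy => by unfold P2; rw [if_neg (not_lt.mpr hy)]
  -- bounds
  have hpos : ∀ y : ℝ, 0 < y → C * K * Wt X y * min 1 ((y / κ) ^ 6) ≤ C * K * y ^ 6 := by
    intro y hy
    have hW1 : Wt X y ≤ 1 := by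
      unfold Wt
      have a0 : 0 ≤ X / (X + y) := by positivity
      have a1 : X / (X + y) ≤ 1 := by rw [div_le_one (by positivity)]; linarith
      exact pow_le_one₀ a0 a1
    have hW0 : 0 ≤ Wt X y := by unfold Wt; positivity
    have hm : min 1 ((y / κ) ^ 6) ≤ y ^ 6 := by
      refine (min_le_right _ _).trans ?_
      refine pow_le_pow_left₀ (by positivity) ?_ 6
      rw [div_le_iff₀ hκ0]; nlinarith
    have hm0 : 0 ≤ min 1 ((y / κ) ^ 6) := le_min zero_le_one (by positivity)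
    calc C * K * Wt X y * min 1 ((y / κ) ^ 6) = C * K * (Wt X y * min 1 ((y / κ) ^ 6)) := by ring
      _ ≤ C * K * (1 * y ^ 6) := mul_le_mul_of_nonneg_left (mul_le_mul hW1 hm hm0 (by norm_num)) hCK
      _ = C * K * y ^ 6 := by ring
  have B0 : ∀ y : ℝ, ‖P0 κ f y‖ ≤ C * K * |y| ^ 6 := by
    intro y
    rcases le_or_gt y 0 with h | h
    · rw [z0 y h, norm_zero]; positivity
    · rw [abs_of_pos h]
      exact (hC κ K X f f1 f2 hκ hf hK hX y h).1.trans (hpos y h)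
  have B1 : ∀ y : ℝ, ‖P1 κ f f1 y‖ ≤ C * K * |y| ^ 5 := by
    intro y
    rcases le_or_gt y 0 with h | h
    · rw [z1 y h, norm_zero]; positivity
    · rw [abs_of_pos h]
      have h1 := (hC κ K X f f1 f2 hκ hf hK hX y h).2.1.trans (hpos y h)
      have e : C * K * y ^ 6 = C * K * y ^ 5 * y := by ring
      rw [e] at h1
      exact le_of_mul_le_mul_right h1 h
  have B2 : ∀ y : ℝ, ‖P2 κ f f1 f2 y‖ ≤ C * K * |y| ^ 4 := by
    intro y
    rcases le_or_gt y 0 with h | h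
    · rw [z2 y h, norm_zero]; positivity
    · rw [abs_of_pos h]
      have h1 := (hC κ K X f f1 f2 hκ hf hK hX y h).2.2.trans (hpos y h)
      have e : C * K * y ^ 6 = C * K * y ^ 4 * y ^ 2 := by ring
      rw [e] at h1
      exact le_of_mul_le_mul_right h1 (by positivity)
  have e0 : ∀ y : ℝ, 0 < y → (P0 κ f) =ᶠ[𝓝 y] fun z => f z * ((kp (z / κ) : ℝ) : ℂ) := by
    intro y hy
    filter_upwards [Ioi_mem_nhds hy] with z hz
    have hz' : 0 < z := hz
    unfold P0; rw [if_pos hz']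
  have e1 : ∀ y : ℝ, 0 < y → (P1 κ f f1) =ᶠ[𝓝 y] fun z => f1 z * ((kp (z / κ) : ℝ) : ℂ) + f z * ((kp1 (z / κ) / κ : ℝ) : ℂ) := by
    intro y hy
    filter_upwards [Ioi_mem_nhds hy] with z hz
    have hz' : 0 < z := hz
    unfold P1; rw [if_pos hz']
  have e2 : ∀ y : ℝ, 0 < y → (P2 κ f f1 f2) =ᶠ[𝓝 y] fun z => f2 z * ((kp (z / κ) : ℝ) : ℂ) +
      2 * f1 z * ((kp1 (z / κ) / κ : ℝ) : ℂ) + f z * ((kp2 (z / κ) / κ ^ 2 : ℝ) : ℂ) := by
    intro y hy
    filter_upwards [Ioi_mem_nhds hy] with z hz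
    have hz' : 0 < z := hz
    unfold P2; rw [if_pos hz']
  have pw2 : ∀ h : ℝ, |h| ≤ 1 → ∀ k : ℕ, 2 ≤ k → |h| ^ k ≤ |h| ^ 2 := fun h hh k hk =>
    pow_le_pow_of_le_one (abs_nonneg h) hh hk
  refine ⟨?_, ?_, ?_⟩
  · intro y
    rcases lt_trichotomy y 0 with h | h | h
    · rw [z1 y h.le]
      have : (fun _ : ℝ => (0 : ℂ)) =ᶠ[𝓝 y] P0 κ f := by
        filter_upwards [Iio_mem_nhds h] with z hz
        exact (z0 z (le_of_lt hz)).symm
      exact (hasDerivAt_const y (0 : ℂ)).congr_of_eventuallyEq this.symm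
    · subst h
      rw [z1 0 le_rfl]
      exact D03a_deriv_zero (B := C * K) fun h hh =>
        (B0 h).trans (mul_le_mul_of_nonneg_left (pw2 h hh 6 (by norm_num)) hCK)
    · have hd := ((hf.d1 y h).mul (D03a_kp hκ0 h).1).congr_of_eventuallyEq (e0 y h)
      have e : P1 κ f f1 y = f1 y * ((kp (y / κ) : ℝ) : ℂ) + f y * ((kp1 (y / κ) / κ : ℝ) : ℂ) := by
        unfold P1; rw [if_pos h]
      rw [e]
      exact hd
  · intro y
    rcases lt_trichotomy y 0 with h | h | h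
    · rw [z2 y h.le]
      have : (fun _ : ℝ => (0 : ℂ)) =ᶠ[𝓝 y] P1 κ f f1 := by
        filter_upwards [Iio_mem_nhds h] with z hz
        exact (z1 z (le_of_lt hz)).symm
      exact (hasDerivAt_const y (0 : ℂ)).congr_of_eventuallyEq this.symm
    · subst h
      rw [z2 0 le_rfl]
      exact D03a_deriv_zero (B := C * K) fun h hh =>
        (B1 h).trans (mul_le_mul_of_nonneg_left (pw2 h hh 5 (by norm_num)) hCK)
    · have hd := (((hf.d2 y h).mul (D03a_kp hκ0 h).1).add ((hf.d1 y h).mul (D03a_kp hκ0 h).2)).congr_of_eventuallyEq (e1 y h)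
      have e : P2 κ f f1 f2 y = (f2 y * ((kp (y / κ) : ℝ) : ℂ) + f1 y * ((kp1 (y / κ) / κ : ℝ) : ℂ)) +
          (f1 y * ((kp1 (y / κ) / κ : ℝ) : ℂ) + f y * ((kp2 (y / κ) / κ ^ 2 : ℝ) : ℂ)) := by
        unfold P2; rw [if_pos h]; ring
      rw [e]
      exact hd
  · rw [continuous_iff_continuousAt]
    intro y
    rcases lt_trichotomy y 0 with h | h | h
    · have : (fun _ : ℝ => (0 : ℂ)) =ᶠ[𝓝 y] P2 κ f f1 f2 := by
        filter_upwards [Iio_mem_nhds h] with z hz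
        exact (z2 z (le_of_lt hz)).symm
      exact continuousAt_const.congr this
    · subst h
      unfold ContinuousAt
      rw [z2 0 le_rfl]
      refine squeeze_zero_norm B2 ?_
      have : Tendsto (fun y : ℝ => C * K * |y| ^ 4) (𝓝 0) (𝓝 (C * K * |(0 : ℝ)| ^ 4)) := by
        apply Continuous.tendsto
        fun_prop
      simpa using this
    · obtain ⟨ckp, ckp1, ckp2⟩ := D01_cont
      have hyk : 0 < y / κ := by positivity
      have hdiv : ContinuousAt (fun z : ℝ => z / κ) y := by fun_prop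
      have a0 : ContinuousAt kp ((fun z : ℝ => z / κ) y) := ckp.continuousAt (Ioi_mem_nhds hyk)
      have a1 : ContinuousAt kp1 ((fun z : ℝ => z / κ) y) := ckp1.continuousAt (Ioi_mem_nhds hyk)
      have a2 : ContinuousAt kp2 ((fun z : ℝ => z / κ) y) := ckp2.continuousAt (Ioi_mem_nhds hyk)
      have k0 : ContinuousAt (fun z : ℝ => ((kp (z / κ) : ℝ) : ℂ)) y :=
        (Complex.continuous_ofReal.continuousAt).comp (ContinuousAt.comp (g := kp) (f := fun z : ℝ => z / κ) (x := y) a0 hdiv)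
      have k1 : ContinuousAt (fun z : ℝ => ((kp1 (z / κ) / κ : ℝ) : ℂ)) y :=
        (Complex.continuous_ofReal.continuousAt).comp ((ContinuousAt.comp (g := kp1) (f := fun z : ℝ => z / κ) (x := y) a1 hdiv).div_const κ)
      have k2 : ContinuousAt (fun z : ℝ => ((kp2 (z / κ) / κ ^ 2 : ℝ) : ℂ)) y :=
        (Complex.continuous_ofReal.continuousAt).comp ((ContinuousAt.comp (g := kp2) (f := fun z : ℝ => z / κ) (x := y) a2 hdiv).div_const (κ ^ 2))
      have c2 : ContinuousAt f2 y := hf.c2.continuousAt (Ioi_mem_nhds h)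
      have c1 : ContinuousAt f1 y := (hf.d2 y h).continuousAt
      have c0 : ContinuousAt f y := (hf.d1 y h).continuousAt
      have hc : ContinuousAt (fun z => f2 z * ((kp (z / κ) : ℝ) : ℂ) +
          2 * f1 z * ((kp1 (z / κ) / κ : ℝ) : ℂ) + f z * ((kp2 (z / κ) / κ ^ 2 : ℝ) : ℂ)) y :=
        ((c2.mul k0).add ((continuousAt_const.mul c1).mul k1)).add (c0.mul k2)
      exact hc.congr (e2 y h).symm

end Pool.Agent.LibF4D
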