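import Mathlib
import Pool.Agent.LibF4D.KDefs
import Pool.Agent.LibF4D.DDefs
import Pool.Agent.LibF4D.D01a
import Pool.Agent.LibF4D.D01b
import Pool.Agent.LibF4D.D03b

/-! Row D04.
y = u v m - r. u v m P1 = ((y+r)/y) y P1 and (r/y) min(1,(y/κ)^6) ≤ r min(1,(y/κ)^4) (since κ ≥ 1), (r/y)² min(1,(y/κ)^6) ≤ r² min(1,(y/κ)^4).
u v * (kp2(v/u)(v/u)+kp1(v/u))/u² = kp2(v/u)(v/u)² + kp1(v/u)(v/u). All factors with kp from D01_kp_bound.
-/

set_option autoImplicit false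

namespace Pool.Agent.LibF4D

open MeasureTheory Set Filter Topology

theorem D04_min {t y κ : ℝ} (hκ : 1 ≤ κ) (hy : 0 < y) (ht : t = y / κ) :
    min 1 (t ^ 6) ≤ min 1 (t ^ 4) ∧ (1 / y) * min 1 (t ^ 6) ≤ min 1 (t ^ 4) ∧
      (1 / y) ^ 2 * min 1 (t ^ 6) ≤ min 1 (t ^ 4) := by
  have hκ0 : 0 < κ := by linarith
  have ht0 : 0 < t := by rw [ht]; positivity
  have hty : t ≤ y := by rw [ht, div_le_iff₀ hκ0]; nlinarith
  rcases le_total t 1 with h | h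
  · have e6 : min 1 (t ^ 6) = t ^ 6 := min_eq_right (pow_le_one₀ ht0.le h)
    have e4 : min 1 (t ^ 4) = t ^ 4 := min_eq_right (pow_le_one₀ ht0.le h)
    rw [e6, e4]
    have hinv : 1 / y ≤ 1 / t := one_div_le_one_div_of_le ht0 hty
    have hinv0 : 0 ≤ 1 / y := by positivity
    have p64 : t ^ 6 ≤ t ^ 4 := pow_le_pow_of_le_one ht0.le h (by norm_num)
    have p54 : t ^ 5 ≤ t ^ 4 := pow_le_pow_of_le_one ht0.le h (by norm_num)
    refine ⟨p64, ?_, ?_⟩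
    · calc 1 / y * t ^ 6 ≤ 1 / t * t ^ 6 := mul_le_mul_of_nonneg_right hinv (by positivity)
        _ = t ^ 5 := by field_simp
        _ ≤ t ^ 4 := p54
    · calc (1 / y) ^ 2 * t ^ 6 ≤ (1 / t) ^ 2 * t ^ 6 :=
            mul_le_mul_of_nonneg_right (pow_le_pow_left₀ hinv0 hinv 2) (by positivity)
        _ = t ^ 4 := by field_simp
  · have e6 : min 1 (t ^ 6) = 1 := min_eq_left (one_le_pow₀ h)
    have e4 : min 1 (t ^ 4) = 1 := min_eq_left (one_le_pow₀ h)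
    rw [e6, e4]
    have hy1 : 1 ≤ y := h.trans hty
    have hinv : 1 / y ≤ 1 := by rw [div_le_one (by linarith)]; exact hy1
    have hinv0 : 0 ≤ 1 / y := by positivity
    refine ⟨le_refl _, by linarith, ?_⟩
    rw [mul_one]
    exact pow_le_one₀ hinv0 hinv

/-- D04: pointwise bound for the mixed derivative -/
theorem D04_Huv : ∃ C : ℝ, 1 ≤ C ∧ ∀ (m r κ K X : ℝ) (f f1 f2 : ℝ → ℂ), 1 ≤ m → 1 ≤ r → 1 ≤ κ → Flat f f1 f2 K X → 0 ≤ K →
    1 ≤ X → ∀ u v : ℝ, 0 < u → 0 < v → (u * v * m ≤ r → H0 m r κ f u v = 0 ∧ Hv m r κ f f1 u v = 0 ∧ Huv m r κ f f1 f2 u v = 0) ∧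
      (r < u * v * m → ‖H0 m r κ f u v‖ ≤ C * K * r ^ 2 * Wt X (u * v * m - r) * min 1 (((u * v * m - r) / κ) ^ 4) * min 1 ((v / u) ^ 6) ∧
        v * ‖Hv m r κ f f1 u v‖ ≤ C * K * r ^ 2 * Wt X (u * v * m - r) * min 1 (((u * v * m - r) / κ) ^ 4) * min 1 ((v / u) ^ 6) ∧
        u * v * ‖Huv m r κ f f1 f2 u v‖ ≤ C * K * r ^ 2 * Wt X (u * v * m - r) * min 1 (((u * v * m - r) / κ) ^ 4) * min 1 ((v / u) ^ 6)) := by
  obtain ⟨C1, hC1, hD3⟩ := D03_bound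
  obtain ⟨C2, hC2, hkp⟩ := D01_kp_bound
  refine ⟨8 * C1 * C2, by nlinarith, ?_⟩
  intro m r κ K X f f1 f2 hm hr hκ hf hK hX u v hu hv
  have hm0 : 0 < m := by linarith
  have hr0 : 0 < r := by linarith
  refine ⟨?_, ?_⟩
  · intro hle
    have hy : ¬ (0 < u * v * m - r) := by linarith
    have e0 : P0 κ f (u * v * m - r) = 0 := by unfold P0; rw [if_neg hy]
    have e1 : P1 κ f f1 (u * v * m - r) = 0 := by unfold P1; rw [if_neg hy]
    have e2 : P2 κ f f1 f2 (u * v * m - r) = 0 := by unfold P2; rw [if_neg hy]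
    refine ⟨?_, ?_, ?_⟩
    · unfold H0; rw [e0]; simp
    · unfold Hv; rw [e0, e1]; simp
    · unfold Huv; rw [e0, e1, e2]; simp
  · intro hlt
    set y : ℝ := u * v * m - r with hy
    have hy0 : 0 < y := by rw [hy]; linarith
    have huvm : u * v * m = y + r := by rw [hy]; ring
    obtain ⟨q0, q1, q2⟩ := hD3 κ K X f f1 f2 hκ hf hK hX y hy0
    set s : ℝ := v / u with hs
    have hs0 : 0 < s := by positivity
    have hvs : v = s * u := by rw [hs]; field_simp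
    obtain ⟨k0, k1, k2⟩ := hkp s hs0
    have hkp0 : 0 ≤ kp s := D01_kp_nonneg s
    set N : ℝ := min 1 (s ^ 6) with hN
    have hN0 : 0 ≤ N := le_min zero_le_one (by positivity)
    obtain ⟨m1, m2, m3⟩ := D04_min (t := y / κ) hκ hy0 rfl
    set M6 : ℝ := min 1 ((y / κ) ^ 6) with hM6
    set M4 : ℝ := min 1 ((y / κ) ^ 4) with hM4
    have hκ0 : 0 < κ := by linarith
    have hM60 : 0 ≤ M6 := le_min zero_le_one (by positivity)
    have hM40 : 0 ≤ M4 := hM60.trans m1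
    set W : ℝ := Wt X y with hW
    have hW0 : 0 ≤ W := by rw [hW]; unfold Wt; positivity
    set A : ℝ := C1 * K * W with hA
    have hA0 : 0 ≤ A := mul_nonneg (mul_nonneg (by linarith) hK) hW0
    set G : ℝ := C2 * N with hG
    have hG0 : 0 ≤ G := mul_nonneg (by linarith) hN0
    have hfin : 8 * C1 * C2 * K * r ^ 2 * W * M4 * N = 8 * (A * G) * (r ^ 2 * M4) := by rw [hA, hG]; ring
    rw [hfin]
    have hAG : 0 ≤ A * G := mul_nonneg hA0 hG0
    have hr2 : 1 ≤ r ^ 2 := one_le_pow₀ hr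
    have hrr2 : r ≤ r ^ 2 := by nlinarith
    have hR : M6 ≤ r ^ 2 * M4 := by nlinarith
    have hR1 : r * M4 ≤ r ^ 2 * M4 := mul_le_mul_of_nonneg_right hrr2 hM40
    have nkp : ‖((kp s : ℝ) : ℂ)‖ = kp s := by rw [Complex.norm_real, Real.norm_of_nonneg hkp0]
    have nP0 : 0 ≤ ‖P0 κ f y‖ := norm_nonneg _
    have nP1 : 0 ≤ ‖P1 κ f f1 y‖ := norm_nonneg _
    have nP2 : 0 ≤ ‖P2 κ f f1 f2 y‖ := norm_nonneg _
    -- (y + r) * |P1|
    have c1 : (y + r) * ‖P1 κ f f1 y‖ ≤ A * (2 * (r ^ 2 * M4)) := by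
      have e : (y + r) * ‖P1 κ f f1 y‖ = (‖P1 κ f f1 y‖ * y) * (1 + r * (1 / y)) := by field_simp
      rw [e]
      have h1 : (‖P1 κ f f1 y‖ * y) * (1 + r * (1 / y)) ≤ (A * M6) * (1 + r * (1 / y)) :=
        mul_le_mul_of_nonneg_right q1 (by positivity)
      have h2 : r * (1 / y * M6) ≤ r * M4 := mul_le_mul_of_nonneg_left m2 hr0.le
      have h3 : (A * M6) * (1 + r * (1 / y)) = A * (M6 + r * (1 / y * M6)) := by ring
      rw [h3] at h1
      refine h1.trans (mul_le_mul_of_nonneg_left ?_ hA0)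
      linarith
    have c2 : (y + r) ^ 2 * ‖P2 κ f f1 f2 y‖ ≤ A * (4 * (r ^ 2 * M4)) := by
      have e : (y + r) ^ 2 * ‖P2 κ f f1 f2 y‖ = (‖P2 κ f f1 f2 y‖ * y ^ 2) * (1 + r * (1 / y)) ^ 2 := by field_simp
      rw [e]
      have h1 : (‖P2 κ f f1 f2 y‖ * y ^ 2) * (1 + r * (1 / y)) ^ 2 ≤ (A * M6) * (1 + r * (1 / y)) ^ 2 :=
        mul_le_mul_of_nonneg_right q2 (by positivity)
      have h2 : r ^ 2 * ((1 / y) ^ 2 * M6) ≤ r ^ 2 * M4 := mul_le_mul_of_nonneg_left m3 (by positivity)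
      have h3 : (1 + r * (1 / y)) ^ 2 ≤ 2 + 2 * (r ^ 2 * (1 / y) ^ 2) := by nlinarith [sq_nonneg (1 - r * (1 / y))]
      have h4 : (A * M6) * (1 + r * (1 / y)) ^ 2 ≤ (A * M6) * (2 + 2 * (r ^ 2 * (1 / y) ^ 2)) :=
        mul_le_mul_of_nonneg_left h3 (mul_nonneg hA0 hM60)
      have h5 : (A * M6) * (2 + 2 * (r ^ 2 * (1 / y) ^ 2)) = A * (2 * M6 + 2 * (r ^ 2 * ((1 / y) ^ 2 * M6))) := by ring
      rw [h5] at h4
      refine (h1.trans h4).trans (mul_le_mul_of_nonneg_left ?_ hA0)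
      linarith
    have c0 : ‖P0 κ f y‖ ≤ A * (r ^ 2 * M4) := q0.trans (mul_le_mul_of_nonneg_left hR hA0)
    have hrM : 0 ≤ r ^ 2 * M4 := by positivity
    refine ⟨?_, ?_, ?_⟩
    · have e : H0 m r κ f u v = P0 κ f y * ((kp s : ℝ) : ℂ) := rfl
      rw [e, norm_mul, nkp]
      have h := mul_le_mul c0 k0 hkp0 (mul_nonneg hA0 hrM)
      have h0 : A * (r ^ 2 * M4) * (C2 * N) = (A * G) * (r ^ 2 * M4) := by rw [hG]; ring
      rw [h0] at h
      have : 0 ≤ (A * G) * (r ^ 2 * M4) := mul_nonneg hAG hrM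
      linarith
    · have e : Hv m r κ f f1 u v = ((u * m : ℝ) : ℂ) * P1 κ f f1 y * ((kp s : ℝ) : ℂ) +
          P0 κ f y * ((kp1 s / u : ℝ) : ℂ) := rfl
      have n1 : v * ‖((u * m : ℝ) : ℂ) * P1 κ f f1 y * ((kp s : ℝ) : ℂ)‖ = ((y + r) * ‖P1 κ f f1 y‖) * kp s := by
        rw [norm_mul, norm_mul, nkp, Complex.norm_real, Real.norm_of_nonneg (by positivity), ← huvm]
        ring
      have n2 : v * ‖P0 κ f y * ((kp1 s / u : ℝ) : ℂ)‖ = ‖P0 κ f y‖ * (|kp1 s| * s) := by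
        rw [norm_mul, Complex.norm_real, Real.norm_eq_abs, abs_div, abs_of_pos hu]
        nth_rewrite 1 [hvs]
        field_simp
      have h1 : v * ‖Hv m r κ f f1 u v‖ ≤ ((y + r) * ‖P1 κ f f1 y‖) * kp s + ‖P0 κ f y‖ * (|kp1 s| * s) := by
        rw [e, ← n1, ← n2, ← mul_add]
        exact mul_le_mul_of_nonneg_left (norm_add_le _ _) hv.le
      have h2 := mul_le_mul c1 k0 hkp0 (by positivity)
      have h3 := mul_le_mul c0 k1 (by positivity) (mul_nonneg hA0 hrM)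
      have h4 : A * (2 * (r ^ 2 * M4)) * (C2 * N) = 2 * ((A * G) * (r ^ 2 * M4)) := by rw [hG]; ring
      have h5 : A * (r ^ 2 * M4) * (C2 * N) = (A * G) * (r ^ 2 * M4) := by rw [hG]; ring
      rw [h4] at h2
      rw [h5] at h3
      have : 0 ≤ (A * G) * (r ^ 2 * M4) := mul_nonneg hAG hrM
      linarith
    · have e : Huv m r κ f f1 f2 u v = ((m : ℂ) * P1 κ f f1 y + ((u * v * m ^ 2 : ℝ) : ℂ) * P2 κ f f1 f2 y) * ((kp s : ℝ) : ℂ) -
          P0 κ f y * (((kp2 s * s + kp1 s) / u ^ 2 : ℝ) : ℂ) := rfl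
      have n1 : u * v * (‖(m : ℂ) * P1 κ f f1 y‖ * kp s) = ((y + r) * ‖P1 κ f f1 y‖) * kp s := by
        rw [norm_mul, Complex.norm_real, Real.norm_of_nonneg hm0.le, ← huvm]
        ring
      have n2 : u * v * (‖((u * v * m ^ 2 : ℝ) : ℂ) * P2 κ f f1 f2 y‖ * kp s) = ((y + r) ^ 2 * ‖P2 κ f f1 f2 y‖) * kp s := by
        rw [norm_mul, Complex.norm_real, Real.norm_of_nonneg (by positivity), ← huvm]
        ring
      have n3 : u * v * ‖P0 κ f y * (((kp2 s * s + kp1 s) / u ^ 2 : ℝ) : ℂ)‖ ≤ ‖P0 κ f y‖ * (|kp2 s| * s ^ 2 + |kp1 s| * s) := by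
        rw [norm_mul, Complex.norm_real, Real.norm_eq_abs, abs_div, abs_of_pos (show (0 : ℝ) < u ^ 2 by positivity)]
        have ha : |kp2 s * s + kp1 s| ≤ |kp2 s| * s + |kp1 s| := by
          refine (abs_add_le _ _).trans (le_of_eq ?_)
          rw [abs_mul, abs_of_pos hs0]
        have hb : u * v * (‖P0 κ f y‖ * (|kp2 s * s + kp1 s| / u ^ 2)) = ‖P0 κ f y‖ * (|kp2 s * s + kp1 s| * s) := by
          nth_rewrite 1 [hvs]
          field_simp
        rw [hb]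
        refine mul_le_mul_of_nonneg_left ?_ nP0
        nlinarith
      have h1 : u * v * ‖Huv m r κ f f1 f2 u v‖ ≤ ((y + r) * ‖P1 κ f f1 y‖) * kp s + ((y + r) ^ 2 * ‖P2 κ f f1 f2 y‖) * kp s +
          ‖P0 κ f y‖ * (|kp2 s| * s ^ 2 + |kp1 s| * s) := by
        have huv : 0 ≤ u * v := by positivity
        calc u * v * ‖Huv m r κ f f1 f2 u v‖
            ≤ u * v * ((‖(m : ℂ) * P1 κ f f1 y‖ + ‖((u * v * m ^ 2 : ℝ) : ℂ) * P2 κ f f1 f2 y‖) * kp s +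
              ‖P0 κ f y * (((kp2 s * s + kp1 s) / u ^ 2 : ℝ) : ℂ)‖) := by
              refine mul_le_mul_of_nonneg_left ?_ huv
              rw [e]
              refine (norm_sub_le _ _).trans (add_le_add_left ?_ _)
              rw [norm_mul, nkp]
              exact mul_le_mul_of_nonneg_right (norm_add_le _ _) hkp0
          _ = u * v * (‖(m : ℂ) * P1 κ f f1 y‖ * kp s) + u * v * (‖((u * v * m ^ 2 : ℝ) : ℂ) * P2 κ f f1 f2 y‖ * kp s) +
              u * v * ‖P0 κ f y * (((kp2 s * s + kp1 s) / u ^ 2 : ℝ) : ℂ)‖ := by ring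
          _ ≤ _ := by rw [n1, n2]; linarith
      have h2 := mul_le_mul c1 k0 hkp0 (by positivity)
      have h3 := mul_le_mul c2 k0 hkp0 (by positivity)
      have k12 : |kp2 s| * s ^ 2 + |kp1 s| * s ≤ 2 * (C2 * N) := by linarith
      have h4 := mul_le_mul c0 k12 (by positivity) (mul_nonneg hA0 hrM)
      have g2 : A * (2 * (r ^ 2 * M4)) * (C2 * N) = 2 * ((A * G) * (r ^ 2 * M4)) := by rw [hG]; ring
      have g3 : A * (4 * (r ^ 2 * M4)) * (C2 * N) = 4 * ((A * G) * (r ^ 2 * M4)) := by rw [hG]; ring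
      have g4 : A * (r ^ 2 * M4) * (2 * (C2 * N)) = 2 * ((A * G) * (r ^ 2 * M4)) := by rw [hG]; ring
      rw [g2] at h2
      rw [g3] at h3
      rw [g4] at h4
      linarith

end Pool.Agent.LibF4D
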