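import Mathlib
import Pool.Agent.LibF4D.KDefs
import Pool.Agent.LibF4D.DDefs
import Pool.Agent.LibF4D.D01a
import Pool.Agent.LibF4D.D03a
import Pool.Agent.LibF4D.D04

/-! Row D05.
Derivatives: chain rule; in the u-derivative the two terms (v m/u) P1 kp1(v/u) cancel. Continuity of Hv, Huv on (0,∞)²: P1, P2 continuous on ℝ, kp, kp1, kp2 continuous on (0,∞).
Bounds: let Q(u,v) = min(1,(v/u)^6) * Wt X(u v m - r) on u v m > r. Wt X (uvm-r) ≤ (2(X+r)/(u v))^4. v ≤ 1: Q ≤ (v/u)^6. v ≥ 1: Q ≤ B/(u²v²)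
(if v ≥ u use the 4th power; if v < u: (v/u)^6 (B/(uv))^4 ≤ B' u^{-2} v^{-2}). Then |H| ≤ CQ, |Hv| ≤ CQ/v, |Huv| ≤ CQ/(uv) at the point (g u, v), B may depend on everything.
-/

set_option autoImplicit false

namespace Pool.Agent.LibF4D

open MeasureTheory Set Filter Topology

theorem D05_aux1 {X r m g u v : ℝ} (hX : 1 ≤ X) (hr : 1 ≤ r) (hm : 1 ≤ m) (hg : 1 ≤ g) (hu : 1 ≤ u)
    (hv : 0 < v) (h : r < g * u * v * m) :
    Wt X (g * u * v * m - r) * min 1 ((v / (g * u)) ^ 6) ≤ 8 * (X + r) ^ 4 * (v / (u ^ 2 * (1 + v) ^ 3)) := by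
  have hu0 : (0 : ℝ) < u := by linarith
  have hU1 : 1 ≤ g * u := by nlinarith
  have hUu : u ≤ g * u := by nlinarith
  set U := g * u with hU
  have hU0 : (0 : ℝ) < U := by linarith
  have hy : 0 < U * v * m - r := by linarith
  have hX0 : (0 : ℝ) < X := by linarith
  have hD1 : (1 : ℝ) ≤ (X + r) ^ 4 := one_le_pow₀ (by linarith)
  have hW0 : 0 ≤ Wt X (U * v * m - r) := by unfold Wt; positivity
  have hW1 : Wt X (U * v * m - r) ≤ 1 := by
    unfold Wt
    apply pow_le_one₀ (by positivity)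
    rw [div_le_one (by positivity)]
    linarith
  have hq : X / (X + (U * v * m - r)) ≤ (X + r) / (U * v) := by
    rw [div_le_div_iff₀ (by positivity) (by positivity)]
    have h1 : 0 ≤ X * (U * v) * (m - 1) := by
      have : 0 ≤ m - 1 := by linarith
      positivity
    have h2 : 0 ≤ r * (U * v * m - r) := by positivity
    nlinarith
  have hmin0 : 0 ≤ min 1 ((v / U) ^ 6) := by positivity
  rcases le_total v 1 with h1 | h1
  · have ht0 : 0 < v / U := by positivity
    have ht1 : v / U ≤ 1 := by rw [div_le_one hU0]; linarith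
    have e1 : (v / U) ^ 6 ≤ (v / U) ^ 2 := pow_le_pow_of_le_one ht0.le ht1 (by norm_num)
    have e2 : (v / U) ^ 2 ≤ v / u ^ 2 := by
      rw [div_pow, div_le_div_iff₀ (by positivity) (by positivity)]
      have a1 : v ^ 2 ≤ v := by nlinarith
      have a2 : u ^ 2 ≤ U ^ 2 := by gcongr
      calc v ^ 2 * u ^ 2 ≤ v * U ^ 2 := by gcongr
        _ = v * U ^ 2 := rfl
    have e3 : v / u ^ 2 ≤ 8 * (X + r) ^ 4 * (v / (u ^ 2 * (1 + v) ^ 3)) := by
      have a3 : (1 + v) ^ 3 ≤ 8 := by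
        calc (1 + v) ^ 3 ≤ (1 + 1) ^ 3 := by gcongr
          _ = 8 := by norm_num
      have a4 : v / u ^ 2 = 8 * (v / (u ^ 2 * 8)) := by field_simp
      rw [a4]
      calc 8 * (v / (u ^ 2 * 8)) ≤ 8 * (v / (u ^ 2 * (1 + v) ^ 3)) := by gcongr
        _ = 8 * 1 * (v / (u ^ 2 * (1 + v) ^ 3)) := by ring
        _ ≤ 8 * (X + r) ^ 4 * (v / (u ^ 2 * (1 + v) ^ 3)) := by gcongr
    calc Wt X (U * v * m - r) * min 1 ((v / U) ^ 6) ≤ 1 * (v / U) ^ 6 := by
          apply mul_le_mul hW1 (min_le_right _ _) hmin0 zero_le_one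
      _ = (v / U) ^ 6 := one_mul _
      _ ≤ (v / U) ^ 2 := e1
      _ ≤ v / u ^ 2 := e2
      _ ≤ _ := e3
  · have hUv : 1 ≤ U * v := by nlinarith
    have e1 : Wt X (U * v * m - r) ≤ ((X + r) / (U * v)) ^ 4 := by
      unfold Wt
      gcongr
    have e2 : ((X + r) / (U * v)) ^ 4 ≤ (X + r) ^ 4 / (U * v) ^ 2 := by
      rw [div_pow]
      apply div_le_div_of_nonneg_left (by positivity) (by positivity)
      exact pow_le_pow_right₀ hUv (by norm_num)
    have e3 : (X + r) ^ 4 / (U * v) ^ 2 ≤ (X + r) ^ 4 / (u * v) ^ 2 := by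
      gcongr
    have e4 : (X + r) ^ 4 / (u * v) ^ 2 ≤ 8 * (X + r) ^ 4 * (v / (u ^ 2 * (1 + v) ^ 3)) := by
      have a3 : (1 + v) ^ 3 ≤ 8 * v ^ 3 := by
        calc (1 + v) ^ 3 ≤ (v + v) ^ 3 := by gcongr
          _ = 8 * v ^ 3 := by ring
      have a4 : (X + r) ^ 4 / (u * v) ^ 2 = 8 * (X + r) ^ 4 * (v / (u ^ 2 * (8 * v ^ 3))) := by
        field_simp
      rw [a4]
      gcongr
    calc Wt X (U * v * m - r) * min 1 ((v / U) ^ 6) ≤ Wt X (U * v * m - r) * 1 := by
          apply mul_le_mul_of_nonneg_left (min_le_left _ _) hW0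
      _ = Wt X (U * v * m - r) := mul_one _
      _ ≤ _ := e1.trans (e2.trans (e3.trans e4))

theorem D05_aux2 {m r κ K X : ℝ} {f f1 f2 : ℝ → ℂ} (hκ : 1 ≤ κ) (hf : Flat f f1 f2 K X) (hK : 0 ≤ K)
    (hX : 1 ≤ X) {U v : ℝ} (hU : 0 < U) (hv : 0 < v) :
    HasDerivAt (fun v => H0 m r κ f U v) (Hv m r κ f f1 U v) v := by
  obtain ⟨hP0, hP1, -⟩ := D03_P hκ hf hK hX
  have h1 : HasDerivAt (fun v : ℝ => U * v * m - r) (U * m) v := by
    have := (((hasDerivAt_id v).const_mul U).mul_const m).sub_const r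
    simpa using this
  have h2 := (hP0 (U * v * m - r)).scomp v h1
  have h30 : HasDerivAt (fun v : ℝ => v / U) (1 / U) v := (hasDerivAt_id v).div_const U
  have h3 : HasDerivAt (fun v : ℝ => kp (v / U)) (kp1 (v / U) * (1 / U)) v :=
    HasDerivAt.comp (h := fun v : ℝ => v / U) (h₂ := kp) v (D01_kp_deriv (div_pos hv hU)).1 h30
  have h4 := h3.ofReal_comp
  have h5 := h2.mul h4
  refine HasDerivAt.congr_deriv (f := fun v => H0 m r κ f U v) h5 ?_
  simp only [Hv, Function.comp, Complex.real_smul, Pi.mul_apply]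
  push_cast
  ring

theorem D05_aux3 {m r κ K X : ℝ} {f f1 f2 : ℝ → ℂ} (hκ : 1 ≤ κ) (hf : Flat f f1 f2 K X) (hK : 0 ≤ K)
    (hX : 1 ≤ X) {U v : ℝ} (hU : 0 < U) (hv : 0 < v) :
    HasDerivAt (fun U => Hv m r κ f f1 U v) (Huv m r κ f f1 f2 U v) U := by
  obtain ⟨hP0, hP1, -⟩ := D03_P hκ hf hK hX
  have hvU : 0 < v / U := div_pos hv hU
  have h1 : HasDerivAt (fun U : ℝ => U * v * m - r) (v * m) U := by
    have := (((hasDerivAt_id U).mul_const v).mul_const m).sub_const r
    simpa using this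
  have p0 := (hP0 (U * v * m - r)).scomp U h1
  have p1 := (hP1 (U * v * m - r)).scomp U h1
  have h2 : HasDerivAt (fun U : ℝ => v / U) (-v / U ^ 2) U := by
    have := (hasDerivAt_inv hU.ne').const_mul v
    refine (this.congr_deriv ?_)
    ring
  have k00 : HasDerivAt (fun U : ℝ => kp (v / U)) (kp1 (v / U) * (-v / U ^ 2)) U :=
    HasDerivAt.comp U (D01_kp_deriv hvU).1 h2
  have k01 : HasDerivAt (fun U : ℝ => kp1 (v / U)) (kp2 (v / U) * (-v / U ^ 2)) U :=
    HasDerivAt.comp U (D01_kp_deriv hvU).2 h2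
  have k02 : HasDerivAt (fun U : ℝ => kp1 (v / U) / U)
      ((kp2 (v / U) * (-v / U ^ 2) * U - kp1 (v / U) * 1) / U ^ 2) U := k01.div (hasDerivAt_id U) hU.ne'
  have k0 := k00.ofReal_comp
  have k1 := k02.ofReal_comp
  have lin : HasDerivAt (fun U : ℝ => ((U * m : ℝ) : ℂ)) ((m : ℝ) : ℂ) U := by
    have := ((hasDerivAt_id U).mul_const m).ofReal_comp
    simpa using this
  have h5 := ((lin.mul p1).mul k0).add (p0.mul k1)
  refine HasDerivAt.congr_deriv (f := fun U => Hv m r κ f f1 U v) h5 ?_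
  have hUc : (U : ℂ) ≠ 0 := by exact_mod_cast hU.ne'
  simp only [Huv, Function.comp, Complex.real_smul, id, Pi.mul_apply]
  push_cast
  field_simp
  ring

/-- D05: the weight is regular -/
theorem D05_Reg {m r κ K X : ℝ} {f f1 f2 : ℝ → ℂ} (hm : 1 ≤ m) (hr : 1 ≤ r) (hκ : 1 ≤ κ) (hf : Flat f f1 f2 K X) (hK : 0 ≤ K)
    (hX : 1 ≤ X) {g : ℝ} (hg : 1 ≤ g) :
    ∃ B : ℝ, Reg (fun u v => H0 m r κ f (g * u) v) (fun u v => Hv m r κ f f1 (g * u) v)
      (fun u v => (g : ℂ) * Huv m r κ f f1 f2 (g * u) v) B := by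
  obtain ⟨C, hC1, hC⟩ := D04_Huv
  have hg0 : (0 : ℝ) < g := by linarith
  obtain ⟨hP0, hP1, hP2⟩ := D03_P hκ hf hK hX
  obtain ⟨ck0, ck1, ck2⟩ := D01_cont
  have cP0 : Continuous (P0 κ f) := continuous_iff_continuousAt.2 fun y => (hP0 y).continuousAt
  have cP1 : Continuous (P1 κ f f1) := continuous_iff_continuousAt.2 fun y => (hP1 y).continuousAt
  -- continuity of the arguments
  have ca : Continuous (fun p : ℝ × ℝ => g * p.1 * p.2 * m - r) := by fun_prop
  have cb : ContinuousOn (fun p : ℝ × ℝ => p.2 / (g * p.1)) (Ioi 0 ×ˢ Ioi 0) := by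
    apply ContinuousOn.div (by fun_prop) (by fun_prop)
    rintro ⟨a, b⟩ ⟨ha, hb⟩
    simp only [mem_Ioi] at ha
    have : 0 < g * a := by positivity
    exact this.ne'
  have mb : MapsTo (fun p : ℝ × ℝ => p.2 / (g * p.1)) (Ioi 0 ×ˢ Ioi 0) (Ioi 0) := by
    rintro ⟨a, b⟩ ⟨ha, hb⟩
    simp only [mem_Ioi] at ha hb ⊢
    positivity
  have cq0 : ContinuousOn (fun p : ℝ × ℝ => kp (p.2 / (g * p.1))) (Ioi 0 ×ˢ Ioi 0) := ck0.comp cb mb
  have cq1 : ContinuousOn (fun p : ℝ × ℝ => kp1 (p.2 / (g * p.1))) (Ioi 0 ×ˢ Ioi 0) := ck1.comp cb mb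
  have cq2 : ContinuousOn (fun p : ℝ × ℝ => kp2 (p.2 / (g * p.1))) (Ioi 0 ×ˢ Ioi 0) := ck2.comp cb mb
  have cu : ContinuousOn (fun p : ℝ × ℝ => g * p.1) (Ioi 0 ×ˢ Ioi 0) := by fun_prop
  have cne : ∀ p ∈ (Ioi (0 : ℝ) ×ˢ Ioi (0 : ℝ)), g * p.1 ≠ 0 := by
    rintro ⟨a, b⟩ ⟨ha, hb⟩
    simp only [mem_Ioi] at ha
    have : 0 < g * a := by positivity
    exact this.ne'
  have cR0 : Continuous (fun p : ℝ × ℝ => P0 κ f (g * p.1 * p.2 * m - r)) := cP0.comp ca
  have cR1 : Continuous (fun p : ℝ × ℝ => P1 κ f f1 (g * p.1 * p.2 * m - r)) := cP1.comp ca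
  have cR2 : Continuous (fun p : ℝ × ℝ => P2 κ f f1 f2 (g * p.1 * p.2 * m - r)) := hP2.comp ca
  set A : ℝ := C * K * r ^ 2 with hA
  have hA0 : 0 ≤ A := by
    have : 0 ≤ C := by linarith
    positivity
  -- the basic bound
  have key : ∀ u v : ℝ, 1 ≤ u → 0 < v → r < g * u * v * m →
      A * Wt X (g * u * v * m - r) * min 1 (((g * u * v * m - r) / κ) ^ 4) * min 1 ((v / (g * u)) ^ 6) ≤
        A * (8 * (X + r) ^ 4) * (v / (u ^ 2 * (1 + v) ^ 3)) := by
    intro u v hu hv h
    have h1 := D05_aux1 hX hr hm hg hu hv h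
    have hW0 : 0 ≤ Wt X (g * u * v * m - r) := by unfold Wt; positivity
    have hmin0 : 0 ≤ min 1 ((v / (g * u)) ^ 6) := by
      have : 0 < u := by linarith
      positivity
    calc A * Wt X (g * u * v * m - r) * min 1 (((g * u * v * m - r) / κ) ^ 4) * min 1 ((v / (g * u)) ^ 6)
        ≤ A * Wt X (g * u * v * m - r) * 1 * min 1 ((v / (g * u)) ^ 6) := by
          gcongr
          exact min_le_left _ _
      _ = A * (Wt X (g * u * v * m - r) * min 1 ((v / (g * u)) ^ 6)) := by ring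
      _ ≤ A * (8 * (X + r) ^ 4 * (v / (u ^ 2 * (1 + v) ^ 3))) := by gcongr
      _ = _ := by ring
  refine ⟨A * (8 * (X + r) ^ 4), ?_, ?_, ?_, ?_, ?_, ?_, ?_⟩
  · intro u v hu hv
    exact D05_aux2 hκ hf hK hX (by positivity) hv
  · intro u v hu hv
    have h1 := D05_aux3 (m := m) (r := r) hκ hf hK hX (U := g * u) (v := v) (by positivity) hv
    have h2 : HasDerivAt (fun u : ℝ => g * u) g u := by
      simpa using (hasDerivAt_id u).const_mul g
    have h3 := h1.scomp u h2
    simpa [Function.comp_def, Complex.real_smul] using h3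
  · simp only [Hv]
    apply ContinuousOn.add
    · apply ContinuousOn.mul
      · apply ContinuousOn.mul
        · exact (Complex.continuous_ofReal.comp (by fun_prop)).continuousOn
        · exact cR1.continuousOn
      · exact Complex.continuous_ofReal.comp_continuousOn cq0
    · apply ContinuousOn.mul cR0.continuousOn
      exact Complex.continuous_ofReal.comp_continuousOn (cq1.div cu cne)
  · simp only [Huv]
    apply ContinuousOn.mul continuousOn_const
    apply ContinuousOn.sub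
    · apply ContinuousOn.mul
      · apply ContinuousOn.add
        · exact (continuous_const.mul cR1).continuousOn
        · apply ContinuousOn.mul
          · exact (Complex.continuous_ofReal.comp (by fun_prop)).continuousOn
          · exact cR2.continuousOn
      · exact Complex.continuous_ofReal.comp_continuousOn cq0
    · apply ContinuousOn.mul cR0.continuousOn
      apply Complex.continuous_ofReal.comp_continuousOn
      apply ContinuousOn.div
      · exact (cq2.mul cb).add cq1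
      · exact cu.pow 2
      · intro p hp
        exact pow_ne_zero 2 (cne p hp)
  · intro u v hu hv
    have hU : 0 < g * u := by have : 0 < u := by linarith
                              positivity
    have hu0 : (0 : ℝ) < u := by linarith
    obtain ⟨hz, hnz⟩ := hC m r κ K X f f1 f2 hm hr hκ hf hK hX (g * u) v hU hv
    rcases le_or_gt (g * u * v * m) r with h | h
    · simp only [(hz h).1, norm_zero]
      positivity
    · calc ‖H0 m r κ f (g * u) v‖ ≤ _ := (hnz h).1
        _ ≤ _ := key u v hu hv h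
        _ = _ := by ring
  · intro u v hu hv
    have hU : 0 < g * u := by have : 0 < u := by linarith
                              positivity
    have hu0 : (0 : ℝ) < u := by linarith
    obtain ⟨hz, hnz⟩ := hC m r κ K X f f1 f2 hm hr hκ hf hK hX (g * u) v hU hv
    rcases le_or_gt (g * u * v * m) r with h | h
    · simp only [(hz h).2.1, norm_zero]
      positivity
    · have h1 := (hnz h).2.1.trans (key u v hu hv h)
      have h2 : A * (8 * (X + r) ^ 4) * (v / (u ^ 2 * (1 + v) ^ 3)) =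
          v * (A * (8 * (X + r) ^ 4) / (u ^ 2 * (1 + v) ^ 3)) := by ring
      rw [h2] at h1
      exact le_of_mul_le_mul_left h1 hv
  · intro u v hu hv
    have hU : 0 < g * u := by have : 0 < u := by linarith
                              positivity
    have hu0 : (0 : ℝ) < u := by linarith
    obtain ⟨hz, hnz⟩ := hC m r κ K X f f1 f2 hm hr hκ hf hK hX (g * u) v hU hv
    rcases le_or_gt (g * u * v * m) r with h | h
    · simp only [(hz h).2.2, norm_zero, mul_zero]
      positivity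
    · have h1 := (hnz h).2.2.trans (key u v hu hv h)
      have h2 : A * (8 * (X + r) ^ 4) * (v / (u ^ 2 * (1 + v) ^ 3)) =
          (u * v) * (A * (8 * (X + r) ^ 4) / (u ^ 3 * (1 + v) ^ 3)) := by
        field_simp
      have h3 : g * u * v * ‖Huv m r κ f f1 f2 (g * u) v‖ = (u * v) * ‖(g : ℂ) * Huv m r κ f f1 f2 (g * u) v‖ := by
        rw [norm_mul, Complex.norm_real, Real.norm_of_nonneg hg0.le]
        ring
      rw [h2, h3] at h1
      exact le_of_mul_le_mul_left h1 (by positivity)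

end Pool.Agent.LibF4D
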