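import Mathlib
import Pool.Agent.LibF4D.KDefs
import Pool.Agent.LibF4D.DDefs

/-! Row D06a.
Split (1,∞) at max(1,√Y): below min ≤ 1: ∫ (1/u + a) du ≤ log(1+√Y)... ≤ log(1+Y) + a√Y; above: (Y/u²)^6(1/u+a): for Y ≥ 1 substitute: ≤ 1/12 + a √Y/11; for Y < 1: ≤ 1/12 + a/11.
-/

set_option autoImplicit false

namespace Pool.Agent.LibF4D

open MeasureTheory Set Filter Topology

theorem D06a_low {S a : ℝ} (hS : 1 ≤ S) (ha : 0 ≤ a) :
    ∫⁻ u in Ioc (1 : ℝ) S, ENNReal.ofReal ((1 + u * a) / u) ≤ ENNReal.ofReal (Real.log S + a * S) := by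
  have hc : ContinuousOn (fun u : ℝ => u⁻¹ + a) (uIcc 1 S) := by
    intro u hu
    rw [uIcc_of_le hS] at hu
    have : u ≠ 0 := by have := hu.1; linarith
    exact (ContinuousAt.add (continuousAt_inv₀ this) continuousAt_const).continuousWithinAt
  have hint : IntervalIntegrable (fun u : ℝ => u⁻¹ + a) volume 1 S := hc.intervalIntegrable
  have hval : ∫ u in (1 : ℝ)..S, (u⁻¹ + a) = Real.log S + a * (S - 1) := by
    have h1 : IntervalIntegrable (fun u : ℝ => u⁻¹) volume 1 S := by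
      apply ContinuousOn.intervalIntegrable
      intro u hu
      rw [uIcc_of_le hS] at hu
      have : u ≠ 0 := by have := hu.1; linarith
      exact (continuousAt_inv₀ this).continuousWithinAt
    rw [intervalIntegral.integral_add h1 (by simp), integral_inv_of_pos one_pos (by linarith)]
    simp
    ring
  have h1 : ∫⁻ u in Ioc (1 : ℝ) S, ENNReal.ofReal ((1 + u * a) / u) =
      ∫⁻ u in Ioc (1 : ℝ) S, ENNReal.ofReal (u⁻¹ + a) := by
    refine setLIntegral_congr_fun measurableSet_Ioc fun u hu => ?_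
    have : u ≠ 0 := by have := hu.1; linarith
    have e : (1 + u * a) / u = u⁻¹ + a := by field_simp
    show ENNReal.ofReal ((1 + u * a) / u) = ENNReal.ofReal (u⁻¹ + a)
    rw [e]
  rw [h1, ← ofReal_integral_eq_lintegral_ofReal, ← intervalIntegral.integral_of_le hS, hval]
  · refine ENNReal.ofReal_le_ofReal ?_
    nlinarith
  · exact (intervalIntegrable_iff_integrableOn_Ioc_of_le hS).mp hint
  · refine (ae_restrict_iff' measurableSet_Ioc).mpr (Filter.Eventually.of_forall fun u hu => ?_)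
    have : 0 < u := by have := hu.1; linarith
    show 0 ≤ u⁻¹ + a
    positivity

theorem D06a_high {S a : ℝ} (hS : 1 ≤ S) (ha : 0 ≤ a) :
    ∫⁻ u in Ioi S, ENNReal.ofReal (S ^ 2 * (u ^ (-3 : ℝ) + a * u ^ (-2 : ℝ))) ≤ ENNReal.ofReal (1 + a * S) := by
  have hS0 : 0 < S := by linarith
  have i3 : IntegrableOn (fun u : ℝ => u ^ (-3 : ℝ)) (Ioi S) := integrableOn_Ioi_rpow_of_lt (by norm_num) hS0
  have i2 : IntegrableOn (fun u : ℝ => u ^ (-2 : ℝ)) (Ioi S) := integrableOn_Ioi_rpow_of_lt (by norm_num) hS0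
  have v3 : ∫ u in Ioi S, u ^ (-3 : ℝ) = S ^ (-2 : ℝ) / 2 := by
    rw [integral_Ioi_rpow_of_lt (by norm_num) hS0]
    norm_num
  have v2 : ∫ u in Ioi S, u ^ (-2 : ℝ) = S ^ (-1 : ℝ) := by
    rw [integral_Ioi_rpow_of_lt (by norm_num) hS0]
    norm_num
  rw [← ofReal_integral_eq_lintegral_ofReal]
  · rw [integral_const_mul, integral_add i3 (i2.const_mul a), integral_const_mul, v3, v2]
    refine ENNReal.ofReal_le_ofReal ?_
    have e2 : S ^ (-2 : ℝ) = (S ^ 2)⁻¹ := by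
      rw [Real.rpow_neg hS0.le]; norm_num
    have e1 : S ^ (-1 : ℝ) = S⁻¹ := by
      rw [Real.rpow_neg hS0.le]; norm_num
    rw [e2, e1]
    have : S ^ 2 * ((S ^ 2)⁻¹ / 2 + a * S⁻¹) = 1 / 2 + a * S := by field_simp
    rw [this]
    linarith
  · exact (i3.add (i2.const_mul a)).const_mul _
  · refine (ae_restrict_iff' measurableSet_Ioi).mpr (Filter.Eventually.of_forall fun u hu => ?_)
    have : 0 < u := lt_trans hS0 hu
    show 0 ≤ S ^ 2 * (u ^ (-3 : ℝ) + a * u ^ (-2 : ℝ))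
    positivity

/-- D06a: the integral over `u` -/
theorem D06_inner : ∃ C : ℝ, 1 ≤ C ∧ ∀ Y a : ℝ, 0 < Y → 0 ≤ a →
    ∫⁻ u in Ioi (1 : ℝ), ENNReal.ofReal (min 1 ((Y / u ^ 2) ^ 6) * (1 + u * a) / u) ≤
      ENNReal.ofReal (C * (1 + a + Real.log (1 + Y) + a * √(1 + Y))) := by
  refine ⟨2, by norm_num, ?_⟩
  intro Y a hY ha
  set S : ℝ := √(1 + Y) with hSdef
  have hS1 : 1 ≤ S := by rw [hSdef]; exact Real.one_le_sqrt.mpr (by linarith)
  have hS0 : 0 < S := by linarith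
  have hSS : S ^ 2 = 1 + Y := Real.sq_sqrt (by linarith)
  have hlogS : Real.log S ≤ Real.log (1 + Y) := by
    apply Real.log_le_log hS0
    nlinarith
  have hlog0 : 0 ≤ Real.log (1 + Y) := Real.log_nonneg (by linarith)
  have hunion : Ioi (1 : ℝ) = Ioc 1 S ∪ Ioi S := (Ioc_union_Ioi_eq_Ioi hS1).symm
  have low : ∫⁻ u in Ioc (1 : ℝ) S, ENNReal.ofReal (min 1 ((Y / u ^ 2) ^ 6) * (1 + u * a) / u) ≤
      ENNReal.ofReal (Real.log S + a * S) := by
    refine le_trans (setLIntegral_mono' measurableSet_Ioc fun u hu => ENNReal.ofReal_le_ofReal ?_) (D06a_low hS1 ha)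
    have hu0 : 0 < u := by have := hu.1; linarith
    refine div_le_div_of_nonneg_right ?_ hu0.le
    calc min 1 ((Y / u ^ 2) ^ 6) * (1 + u * a) ≤ 1 * (1 + u * a) :=
          mul_le_mul_of_nonneg_right (min_le_left _ _) (by positivity)
      _ = 1 + u * a := one_mul _
  have high : ∫⁻ u in Ioi S, ENNReal.ofReal (min 1 ((Y / u ^ 2) ^ 6) * (1 + u * a) / u) ≤
      ENNReal.ofReal (1 + a * S) := by
    refine le_trans (setLIntegral_mono' measurableSet_Ioi fun u hu => ENNReal.ofReal_le_ofReal ?_) (D06a_high hS1 ha)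
    have hSu : S < u := hu
    have hu0 : 0 < u := by linarith
    have b1 : min 1 ((Y / u ^ 2) ^ 6) ≤ S ^ 2 / u ^ 2 := by
      have hx : Y / u ^ 2 ≤ S ^ 2 / u ^ 2 := div_le_div_of_nonneg_right (by linarith) (by positivity)
      have hx0 : 0 ≤ Y / u ^ 2 := by positivity
      have hx1 : Y / u ^ 2 ≤ 1 := by
        refine hx.trans ?_
        rw [div_le_one (by positivity)]
        nlinarith
      calc min 1 ((Y / u ^ 2) ^ 6) ≤ (Y / u ^ 2) ^ 6 := min_le_right _ _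
        _ ≤ (Y / u ^ 2) ^ 1 := pow_le_pow_of_le_one hx0 hx1 (by norm_num)
        _ = Y / u ^ 2 := pow_one _
        _ ≤ S ^ 2 / u ^ 2 := hx
    have e3 : u ^ (-3 : ℝ) = (u ^ 3)⁻¹ := by rw [Real.rpow_neg hu0.le]; norm_num
    have e2 : u ^ (-2 : ℝ) = (u ^ 2)⁻¹ := by rw [Real.rpow_neg hu0.le]; norm_num
    rw [e3, e2]
    calc min 1 ((Y / u ^ 2) ^ 6) * (1 + u * a) / u ≤ (S ^ 2 / u ^ 2) * (1 + u * a) / u :=
          div_le_div_of_nonneg_right (mul_le_mul_of_nonneg_right b1 (by positivity)) hu0.le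
      _ = S ^ 2 * ((u ^ 3)⁻¹ + a * (u ^ 2)⁻¹) := by field_simp
  rw [hunion]
  refine (lintegral_union_le _ _ _).trans ?_
  refine (add_le_add low high).trans ?_
  have hn1 : 0 ≤ Real.log S + a * S := add_nonneg (Real.log_nonneg hS1) (by positivity)
  rw [← ENNReal.ofReal_add hn1 (by positivity)]
  refine ENNReal.ofReal_le_ofReal ?_
  have haS : 0 ≤ a * S := by positivity
  nlinarith

end Pool.Agent.LibF4D
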