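import Mathlib
import Pool.Agent.LibF4D.KDefs
import Pool.Agent.LibF4D.DDefs

/-! Row D06b.
Wt X y ≤ min(1,(X/y)^4). log(1+y) ≤ C y^{ε/2}-type bounds, or: 1 + log(1+y) ≤ C (1+y)^{ε/2}... Case c² ≤ X: drop the min factor, ∫ ≤ C X^ε (1 + √X/c), and (X/(X+c²))² ≥ 1/4.
Case c² > X, κ = c² n: on y < X: (y/κ)^4; on X<y<κ: (X/κ)^4 ∫(...)dy/y; on y > κ: (X/y)^4; total ≤ C √n (X/κ)^4 (κ/X)^{1}... κ^{ε'}: use (1+log y) ≤ C X^{ε}(y/X)^{1/2}
for y ≥ X and √(1+y)/c ≤ √2 √n (y/κ)^{1/2} for y ≥ 1; result ≤ C n X^ε (X/κ)^3 ≤ C n X^ε (X/c²)².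
-/

set_option autoImplicit false

namespace Pool.Agent.LibF4D

open MeasureTheory Set Filter Topology

theorem D06b_weight {n c X y : ℝ} (hn : 1 ≤ n) (hc : 1 ≤ c) (hX : 1 ≤ X) (hy : 0 < y) :
    Wt X y * min 1 ((y / (c ^ 2 * n)) ^ 4) ≤ (X / (X + c ^ 2)) ^ 2 * (X / (X + y)) ^ 2 := by
  have hc2 : (0 : ℝ) < c ^ 2 := by positivity
  set m : ℝ := min 1 ((y / c ^ 2) ^ 2) with hm
  have hm0 : 0 ≤ m := le_min zero_le_one (by positivity)
  have h1 : min 1 ((y / (c ^ 2 * n)) ^ 4) ≤ m ^ 2 := by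
    have a1 : y / (c ^ 2 * n) ≤ y / c ^ 2 := by
      apply div_le_div_of_nonneg_left hy.le hc2
      nlinarith
    have a0 : 0 ≤ y / (c ^ 2 * n) := by positivity
    rcases le_total 1 ((y / c ^ 2) ^ 2) with h | h
    · have : m = 1 := by rw [hm]; exact min_eq_left h
      rw [this, one_pow]; exact min_le_left (1 : ℝ) ((y / (c ^ 2 * n)) ^ 4)
    · have : m = (y / c ^ 2) ^ 2 := by rw [hm]; exact min_eq_right h
      rw [this]
      calc min 1 ((y / (c ^ 2 * n)) ^ 4) ≤ (y / (c ^ 2 * n)) ^ 4 := min_le_right _ _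
        _ ≤ (y / c ^ 2) ^ 4 := pow_le_pow_left₀ a0 a1 4
        _ = ((y / c ^ 2) ^ 2) ^ 2 := by ring
  have h2 : (X / (X + y)) * m ≤ X / (X + c ^ 2) := by
    have key : (X + c ^ 2) * m ≤ X + y := by
      rcases le_total (c ^ 2) y with h | h
      · have : m ≤ 1 := min_le_left _ _
        nlinarith
      · have hm2 : m ≤ (y / c ^ 2) ^ 2 := min_le_right _ _
        have hm1 : m ≤ 1 := min_le_left _ _
        have hq : y / c ^ 2 ≤ 1 := by rw [div_le_one hc2]; exact h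
        have hq0 : 0 ≤ y / c ^ 2 := by positivity
        have e1 : c ^ 2 * m ≤ y := by
          calc c ^ 2 * m ≤ c ^ 2 * (y / c ^ 2) ^ 2 := mul_le_mul_of_nonneg_left hm2 hc2.le
            _ ≤ c ^ 2 * (y / c ^ 2) := by
              apply mul_le_mul_of_nonneg_left _ hc2.le
              nlinarith
            _ = y := by field_simp
        nlinarith
    rw [div_mul_eq_mul_div, div_le_div_iff₀ (by positivity) (by positivity)]
    nlinarith
  have hW : Wt X y = (X / (X + y)) ^ 4 := rfl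
  have hr0 : 0 ≤ X / (X + y) := by positivity
  have hrm : 0 ≤ (X / (X + y)) * m := mul_nonneg hr0 hm0
  calc Wt X y * min 1 ((y / (c ^ 2 * n)) ^ 4) ≤ (X / (X + y)) ^ 4 * m ^ 2 := by
        rw [hW]; exact mul_le_mul_of_nonneg_left h1 (by positivity)
    _ = ((X / (X + y)) * m) ^ 2 * (X / (X + y)) ^ 2 := by ring
    _ ≤ (X / (X + c ^ 2)) ^ 2 * (X / (X + y)) ^ 2 :=
        mul_le_mul_of_nonneg_right (pow_le_pow_left₀ hrm h2 2) (by positivity)

theorem D06b_interp {r T s : ℝ} (hr0 : 0 < r) (hr1 : r ≤ 1) (hrT : r ≤ T) (hs0 : 0 ≤ s) (hs2 : s ≤ 2) :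
    r ^ 2 ≤ T ^ s := by
  calc r ^ 2 = r ^ (2 : ℝ) := by norm_cast
    _ ≤ r ^ s := Real.rpow_le_rpow_of_exponent_ge hr0 hr1 hs2
    _ ≤ T ^ s := Real.rpow_le_rpow hr0.le hrT hs0

/-- the pointwise bound -/
theorem D06b_point {n c X y e : ℝ} (hn : 1 ≤ n) (hc : 1 ≤ c) (hX : 1 ≤ X) (hy : 0 < y) (he : 0 < e) (he1 : e ≤ 1) :
    Wt X y * min 1 ((y / (c ^ 2 * n)) ^ 4) * (1 + Real.log (1 + y) + √(1 + y) / c) / (1 + y) ≤
      (1 + 2 / e) * X ^ e * (1 + √X / c) * (X / (X + c ^ 2)) ^ 2 * (1 + y) ^ (-(1 + e / 2)) := by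
  have hX0 : 0 < X := by linarith
  have hc0 : 0 < c := by linarith
  have h1y : 0 < 1 + y := by linarith
  have hw := D06b_weight hn hc hX hy
  set A : ℝ := (X / (X + c ^ 2)) ^ 2 with hA
  have hA0 : 0 ≤ A := by positivity
  set r : ℝ := X / (X + y) with hr
  have hr0 : 0 < r := by positivity
  have hr1 : r ≤ 1 := by rw [hr, div_le_one (by positivity)]; linarith
  have hrT : r ≤ X / (1 + y) := by
    rw [hr]; exact div_le_div_of_nonneg_left hX0.le h1y (by linarith)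
  have i1 : r ^ 2 ≤ (X / (1 + y)) ^ e := D06b_interp hr0 hr1 hrT he.le (by linarith)
  have i2 : r ^ 2 ≤ (X / (1 + y)) ^ (1 / 2 + e) := D06b_interp hr0 hr1 hrT (by linarith) (by linarith)
  set Z : ℝ := (1 + y) ^ (-(1 + e / 2)) with hZ
  have hZ0 : 0 < Z := Real.rpow_pos_of_pos h1y _
  have hlog : 1 + Real.log (1 + y) ≤ (1 + 2 / e) * (1 + y) ^ (e / 2) := by
    have l1 := Real.log_le_rpow_div h1y.le (show 0 < e / 2 by positivity)
    have l2 : (1 : ℝ) ≤ (1 + y) ^ (e / 2) := Real.one_le_rpow (by linarith) (by positivity)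
    have l3 : (1 + y) ^ (e / 2) / (e / 2) = 2 / e * (1 + y) ^ (e / 2) := by field_simp
    rw [l3] at l1
    linarith
  have hlog0 : 0 ≤ 1 + Real.log (1 + y) := by
    have := Real.log_nonneg (show 1 ≤ 1 + y by linarith)
    linarith
  -- first term
  have t1 : r ^ 2 * (1 + Real.log (1 + y)) / (1 + y) ≤ (1 + 2 / e) * X ^ e * Z := by
    have e1 : r ^ 2 * (1 + Real.log (1 + y)) ≤ (X / (1 + y)) ^ e * ((1 + 2 / e) * (1 + y) ^ (e / 2)) :=
      mul_le_mul i1 hlog hlog0 (by positivity)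
    rw [div_le_iff₀ h1y]
    refine e1.trans (le_of_eq ?_)
    have e2 : (1 + y) ^ (-(1 + e / 2)) * (1 + y) = (1 + y) ^ (-e) * (1 + y) ^ (e / 2) := by
      rw [← Real.rpow_add h1y]
      nth_rewrite 2 [← Real.rpow_one (1 + y)]
      rw [← Real.rpow_add h1y]
      congr 1; ring
    rw [Real.div_rpow hX0.le h1y.le, hZ, mul_assoc, e2, Real.rpow_neg h1y.le]
    ring
  have t2 : r ^ 2 * (√(1 + y) / c) / (1 + y) ≤ X ^ e * (√X / c) * Z := by
    have e1 : r ^ 2 * (√(1 + y) / c) ≤ (X / (1 + y)) ^ (1 / 2 + e) * (√(1 + y) / c) :=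
      mul_le_mul_of_nonneg_right i2 (by positivity)
    rw [div_le_iff₀ h1y]
    refine e1.trans ?_
    have e3 : (X / (1 + y)) ^ (1 / 2 + e) * (√(1 + y) / c) = X ^ e * (√X / c) * (1 + y) ^ (-e) := by
      rw [Real.div_rpow hX0.le h1y.le, Real.rpow_add hX0, Real.rpow_add h1y, Real.sqrt_eq_rpow, Real.sqrt_eq_rpow,
        Real.rpow_neg h1y.le]
      have p1 : (1 + y) ^ (1 / 2 : ℝ) ≠ 0 := (Real.rpow_pos_of_pos h1y _).ne'
      have p2 : (1 + y) ^ e ≠ 0 := (Real.rpow_pos_of_pos h1y _).ne'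
      field_simp
    have e4 : Z * (1 + y) = (1 + y) ^ (-(e / 2)) := by
      rw [hZ]
      nth_rewrite 2 [← Real.rpow_one (1 + y)]
      rw [← Real.rpow_add h1y]
      congr 1; ring
    rw [e3, mul_assoc (X ^ e * (√X / c)), e4]
    exact mul_le_mul_of_nonneg_left (Real.rpow_le_rpow_of_exponent_le (by linarith) (by linarith)) (by positivity)
  have hB0 : 0 ≤ √X / c := by positivity
  have hXe : 0 ≤ X ^ e := by positivity
  calc Wt X y * min 1 ((y / (c ^ 2 * n)) ^ 4) * (1 + Real.log (1 + y) + √(1 + y) / c) / (1 + y)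
      ≤ A * r ^ 2 * (1 + Real.log (1 + y) + √(1 + y) / c) / (1 + y) := by
        refine div_le_div_of_nonneg_right (mul_le_mul_of_nonneg_right hw ?_) h1y.le
        have : 0 ≤ √(1 + y) / c := by positivity
        linarith
    _ = A * (r ^ 2 * (1 + Real.log (1 + y)) / (1 + y) + r ^ 2 * (√(1 + y) / c) / (1 + y)) := by ring
    _ ≤ A * ((1 + 2 / e) * X ^ e * Z + X ^ e * (√X / c) * Z) :=
        mul_le_mul_of_nonneg_left (add_le_add t1 t2) hA0
    _ ≤ A * ((1 + 2 / e) * X ^ e * Z + (1 + 2 / e) * (X ^ e * (√X / c) * Z)) := by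
        have hpos : 0 ≤ X ^ e * (√X / c) * Z := by positivity
        have h2e : 0 ≤ 2 / e := by positivity
        refine mul_le_mul_of_nonneg_left ?_ hA0
        nlinarith
    _ = (1 + 2 / e) * X ^ e * (1 + √X / c) * A * Z := by ring

/-- D06b: the integral over `y` -/
theorem D06_outer (ε : ℝ) (hε : 0 < ε) : ∃ C : ℝ, 1 ≤ C ∧ ∀ n c X : ℝ, 1 ≤ n → 1 ≤ c → 1 ≤ X →
    ∫⁻ y in Ioi (0 : ℝ), ENNReal.ofReal (Wt X y * min 1 ((y / (c ^ 2 * n)) ^ 4) * (1 + Real.log (1 + y) + √(1 + y) / c) / (1 + y)) ≤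
      ENNReal.ofReal (C * n * X ^ ε * (1 + √X / c) * (X / (X + c ^ 2)) ^ 2) := by
  set e : ℝ := min ε 1 with he
  have he0 : 0 < e := lt_min hε one_pos
  have he1 : e ≤ 1 := min_le_right _ _
  have heε : e ≤ ε := min_le_left _ _
  set J : ℝ := ∫ y in Ioi (0 : ℝ), (y + 1) ^ (-(1 + e / 2)) with hJ
  have hint : IntegrableOn (fun y : ℝ => (y + 1) ^ (-(1 + e / 2))) (Ioi 0) :=
    integrableOn_add_rpow_Ioi_of_lt (by linarith) (by norm_num)
  have hJ0 : 0 ≤ J := setIntegral_nonneg measurableSet_Ioi fun y hy => by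
    have : (0 : ℝ) < y := hy
    positivity
  refine ⟨(1 + 2 / e) * (J + 1), ?_, ?_⟩
  · have : 0 ≤ 2 / e := by positivity
    nlinarith
  intro n c X hn hc hX
  have hX0 : 0 < X := by linarith
  have hc0 : 0 < c := by linarith
  set K : ℝ := (1 + 2 / e) * X ^ e * (1 + √X / c) * (X / (X + c ^ 2)) ^ 2 with hK
  have hK0 : 0 ≤ K := by positivity
  calc ∫⁻ y in Ioi (0 : ℝ), ENNReal.ofReal (Wt X y * min 1 ((y / (c ^ 2 * n)) ^ 4) * (1 + Real.log (1 + y) + √(1 + y) / c) / (1 + y))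
      ≤ ∫⁻ y in Ioi (0 : ℝ), ENNReal.ofReal (K * (y + 1) ^ (-(1 + e / 2))) := by
        refine setLIntegral_mono' measurableSet_Ioi fun y hy => ENNReal.ofReal_le_ofReal ?_
        have := D06b_point hn hc hX hy he0 he1
        rw [← hK] at this
        rwa [add_comm y 1]
    _ = ENNReal.ofReal (∫ y in Ioi (0 : ℝ), K * (y + 1) ^ (-(1 + e / 2))) := by
        rw [ofReal_integral_eq_lintegral_ofReal (hint.const_mul K)]
        refine (ae_restrict_iff' measurableSet_Ioi).mpr (Filter.Eventually.of_forall fun y hy => ?_)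
        have : (0 : ℝ) < y := hy
        show 0 ≤ K * (y + 1) ^ (-(1 + e / 2))
        positivity
    _ = ENNReal.ofReal (K * J) := by rw [integral_const_mul]
    _ ≤ ENNReal.ofReal ((1 + 2 / e) * (J + 1) * n * X ^ ε * (1 + √X / c) * (X / (X + c ^ 2)) ^ 2) := by
        refine ENNReal.ofReal_le_ofReal ?_
        have hXe : X ^ e ≤ X ^ ε := Real.rpow_le_rpow_of_exponent_le hX heε
        have s1 : X ^ e * J ≤ (J + 1) * n * X ^ ε := by
          have a1 : X ^ e * J ≤ X ^ ε * (J + 1) := mul_le_mul hXe (by linarith) hJ0 (by positivity)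
          have a2 : X ^ ε * (J + 1) * 1 ≤ X ^ ε * (J + 1) * n :=
            mul_le_mul_of_nonneg_left hn (by positivity)
          nlinarith
        have s2 : 0 ≤ (1 + 2 / e) * ((1 + √X / c) * (X / (X + c ^ 2)) ^ 2) := by positivity
        calc K * J = (1 + 2 / e) * ((1 + √X / c) * (X / (X + c ^ 2)) ^ 2) * (X ^ e * J) := by rw [hK]; ring
          _ ≤ (1 + 2 / e) * ((1 + √X / c) * (X / (X + c ^ 2)) ^ 2) * ((J + 1) * n * X ^ ε) :=
              mul_le_mul_of_nonneg_left s1 s2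
          _ = _ := by ring

end Pool.Agent.LibF4D
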