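import Mathlib
import Pool.Agent.LibF4D.KDefs
import Pool.Agent.LibF4D.DDefs
import Pool.Agent.LibF4D.D04
import Pool.Agent.LibF4D.D06a
import Pool.Agent.LibF4D.D06b

/-! Row D06c.
Tonelli: for fixed u substitute y = u v m - r (v = (y+r)/(um), dv = dy/(um)); only y > 0 contributes (Huv = 0 else). D04: ‖Huv‖ ≤ C K r² Wt min min/(u v), 1/(uv) dv = dy/(u (y+r));
v/u = (y+r)/(m u²). So ≤ C K r² ∫_y Wt min(1,(y/κ)^4)/(y+r) ∫_u min(1,(Y/u²)^6)(1+u m/c)/u, Y = (y+r)/m (lintegral_lintegral_swap). D06a with a = m/c: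
1 + a + log(1+Y) + a√(1+Y) ≤ C m (1+r)(1 + log(1+y) + √(1+y)/c); y + r ≥ y + 1. Then D06b.
-/

set_option autoImplicit false

namespace Pool.Agent.LibF4D

open MeasureTheory Set Filter Topology

theorem D06c_cov {a r : ℝ} (ha : 0 < a) (g : ℝ → ENNReal) :
    ∫⁻ v : ℝ, ENNReal.ofReal a * g (a * v - r) = ∫⁻ y : ℝ, g y := by
  have h := lintegral_image_eq_lintegral_abs_deriv_mul (s := univ) (f := fun v : ℝ => a * v - r)
    (f' := fun _ => a) MeasurableSet.univ
    (fun x _ => by
      have := ((hasDerivAt_id x).const_mul a).sub_const r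
      have h2 : HasDerivAt (fun v : ℝ => a * v - r) a x := by simpa using this
      exact h2.hasDerivWithinAt)
    (fun x _ y _ hxy => by
      have h1 : a * x - r = a * y - r := hxy
      have h2 : a * x = a * y := by linarith
      exact mul_left_cancel₀ ha.ne' h2) g
  have him : (fun v : ℝ => a * v - r) '' univ = univ := by
    apply eq_univ_of_forall
    intro y
    refine ⟨(y + r) / a, mem_univ _, ?_⟩
    simp only
    field_simp
    ring
  rw [him] at h
  simp only [Measure.restrict_univ, abs_of_pos ha] at h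
  exact h.symm

theorem D06c_log {m r c y : ℝ} (hm : 1 ≤ m) (hr : 1 ≤ r) (hc : 1 ≤ c) (hy : 0 < y) :
    1 + m / c + Real.log (1 + (y + r) / m) + m / c * √(1 + (y + r) / m) ≤
      2 * m * (1 + r) * (1 + Real.log (1 + y) + √(1 + y) / c) := by
  have hm0 : (0 : ℝ) < m := by linarith
  have hc0 : (0 : ℝ) < c := by linarith
  have hY : 1 + (y + r) / m ≤ (1 + r) * (1 + y) := by
    have : (y + r) / m ≤ y + r := div_le_self (by linarith) hm
    nlinarith
  have hY0 : 0 < 1 + (y + r) / m := by positivity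
  have h1 : Real.log (1 + (y + r) / m) ≤ r + Real.log (1 + y) := by
    calc Real.log (1 + (y + r) / m) ≤ Real.log ((1 + r) * (1 + y)) := Real.log_le_log hY0 hY
      _ = Real.log (1 + r) + Real.log (1 + y) := Real.log_mul (by positivity) (by positivity)
      _ ≤ r + Real.log (1 + y) := by
        have := Real.log_le_sub_one_of_pos (show (0 : ℝ) < 1 + r by linarith)
        linarith
  have h2 : √(1 + (y + r) / m) ≤ (1 + r) * √(1 + y) := by
    calc √(1 + (y + r) / m) ≤ √((1 + r) * (1 + y)) := Real.sqrt_le_sqrt hY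
      _ = √(1 + r) * √(1 + y) := Real.sqrt_mul (by linarith) _
      _ ≤ (1 + r) * √(1 + y) := by
        gcongr
        rw [Real.sqrt_le_left (by linarith)]
        nlinarith
  have h3 : m / c ≤ m := div_le_self hm0.le hc
  have h4 : m / c * √(1 + (y + r) / m) ≤ m * (1 + r) * (√(1 + y) / c) := by
    calc m / c * √(1 + (y + r) / m) ≤ m / c * ((1 + r) * √(1 + y)) := by gcongr
      _ = m * (1 + r) * (√(1 + y) / c) := by ring
  have hl0 : 0 ≤ Real.log (1 + y) := Real.log_nonneg (by linarith)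
  have hs0 : 0 ≤ √(1 + y) / c := by positivity
  have h5 : 1 ≤ m * (1 + r) := by nlinarith
  have h6 : Real.log (1 + y) ≤ m * (1 + r) * Real.log (1 + y) := by nlinarith
  have h7 : 0 ≤ m * (1 + r) * Real.log (1 + y) := by positivity
  have h8 : 0 ≤ m * (1 + r) * (√(1 + y) / c) := by positivity
  nlinarith

/-- D06: the integral of the mixed derivative -/
theorem D06_int (ε : ℝ) (hε : 0 < ε) : ∃ C : ℝ, 1 ≤ C ∧ ∀ (m n r c K X : ℝ) (f f1 f2 : ℝ → ℂ), 1 ≤ m → 1 ≤ n → 1 ≤ r → 1 ≤ c →
    Flat f f1 f2 K X → 0 ≤ K → 1 ≤ X →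
    ∫⁻ p in (Ioi (1 : ℝ)) ×ˢ (Ioi (0 : ℝ)), ENNReal.ofReal (‖Huv m r (c ^ 2 * n) f f1 f2 p.1 p.2‖ * (1 + p.1 * m / c)) ≤
      ENNReal.ofReal (C * K * (m * n * r) ^ 4 * X ^ ε * (1 + √X / c) * (X / (X + c ^ 2)) ^ 2) := by
  obtain ⟨C1, hC1, H1⟩ := D04_Huv
  obtain ⟨C2, hC2, H2⟩ := D06_inner
  obtain ⟨C3, hC3, H3⟩ := D06_outer ε hε
  refine ⟨4 * C1 * C2 * C3, ?_, ?_⟩
  · have h12 : 1 ≤ C1 * C2 := by nlinarith
    have h123 : 1 ≤ C1 * C2 * C3 := by nlinarith
    nlinarith
  intro m n r c K X f f1 f2 hm hn hr hc hf hK hX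
  have hm0 : (0 : ℝ) < m := by linarith
  have hn0 : (0 : ℝ) < n := by linarith
  have hr0 : (0 : ℝ) < r := by linarith
  have hc0 : (0 : ℝ) < c := by linarith
  have hX0 : (0 : ℝ) < X := by linarith
  have hC10 : (0 : ℝ) < C1 := by linarith
  have hC20 : (0 : ℝ) < C2 := by linarith
  have hC30 : (0 : ℝ) < C3 := by linarith
  set κ : ℝ := c ^ 2 * n with hκd
  have hκ : 1 ≤ κ := by
    have : 1 ≤ c ^ 2 := one_le_pow₀ hc
    nlinarith
  have hκ0 : 0 < κ := by linarith
  set A : ℝ := C1 * K * r ^ 2 with hA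
  have hA0 : 0 ≤ A := by positivity
  set phi : ℝ → ℝ := fun y => A * Wt X y * min 1 ((y / κ) ^ 4) / (y + r) with hphi
  set psi : ℝ → ℝ → ℝ := fun u y => min 1 (((y + r) / m / u ^ 2) ^ 6) * (1 + u * (m / c)) / u with hpsi
  have mphi : Measurable phi := by
    simp only [hphi, Wt]
    fun_prop
  have mpsi : Measurable (fun p : ℝ × ℝ => psi p.1 p.2) := by
    simp only [hpsi]
    fun_prop
  set Gp : ℝ × ℝ → ENNReal := {p : ℝ × ℝ | 0 < p.2}.indicator
    (fun p => ENNReal.ofReal (phi p.2) * ENNReal.ofReal (psi p.1 p.2)) with hGp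
  have mGp : Measurable Gp := by
    apply Measurable.indicator
    · exact ((mphi.comp measurable_snd).ennreal_ofReal).mul mpsi.ennreal_ofReal
    · exact measurableSet_lt measurable_const measurable_snd
  have mG2 : Measurable (fun p : ℝ × ℝ => ENNReal.ofReal (p.1 * m) * Gp (p.1, p.1 * m * p.2 - r)) := by
    apply Measurable.mul
    · exact (measurable_fst.mul_const m).ennreal_ofReal
    · exact mGp.comp (by fun_prop)
  have step1 : ∫⁻ p in (Ioi (1 : ℝ)) ×ˢ (Ioi (0 : ℝ)),
      ENNReal.ofReal (‖Huv m r κ f f1 f2 p.1 p.2‖ * (1 + p.1 * m / c)) ≤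
      ∫⁻ p in (Ioi (1 : ℝ)) ×ˢ (Ioi (0 : ℝ)), ENNReal.ofReal (p.1 * m) * Gp (p.1, p.1 * m * p.2 - r) := by
    apply setLIntegral_mono' (measurableSet_Ioi.prod measurableSet_Ioi)
    rintro ⟨u, v⟩ ⟨hu, hv⟩
    simp only [mem_Ioi] at hu hv
    have hu0 : (0 : ℝ) < u := by linarith
    obtain ⟨hz, hnz⟩ := H1 m r κ K X f f1 f2 hm hr hκ hf hK hX u v hu0 hv
    rcases le_or_gt (u * v * m) r with h | h
    · simp only [(hz h).2.2, norm_zero, zero_mul, ENNReal.ofReal_zero]
      exact zero_le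
    · have h1 := (hnz h).2.2
      have hy : 0 < u * m * v - r := by
        have : u * m * v = u * v * m := by ring
        rw [this]; linarith
      have hGv : Gp (u, u * m * v - r) = ENNReal.ofReal (phi (u * m * v - r)) * ENNReal.ofReal (psi u (u * m * v - r)) := by
        simp only [hGp]
        rw [indicator_of_mem]
        exact hy
      simp only [hGv]
      have hphi0 : 0 ≤ phi (u * m * v - r) := by
        simp only [hphi, Wt]
        have : 0 < u * m * v - r + r := by linarith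
        positivity
      rw [← ENNReal.ofReal_mul hphi0, ← ENNReal.ofReal_mul (by positivity)]
      apply ENNReal.ofReal_le_ofReal
      have e1 : u * m * v - r = u * v * m - r := by ring
      have e2 : u * v * m - r + r = u * v * m := by ring
      have e3 : u * v * m / m / u ^ 2 = v / u := by field_simp
      have e4 : u * m * (phi (u * m * v - r) * psi u (u * m * v - r)) =
          (A * Wt X (u * v * m - r) * min 1 (((u * v * m - r) / κ) ^ 4) * min 1 ((v / u) ^ 6)) / (u * v) * (1 + u * m / c) := by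
        simp only [hphi, hpsi]
        rw [e1, e2, e3]
        field_simp
      rw [e4]
      apply mul_le_mul_of_nonneg_right _ (by positivity)
      rw [le_div_iff₀ (by positivity)]
      calc ‖Huv m r κ f f1 f2 u v‖ * (u * v) = u * v * ‖Huv m r κ f f1 f2 u v‖ := by ring
        _ ≤ _ := h1
  have step2 : ∫⁻ p in (Ioi (1 : ℝ)) ×ˢ (Ioi (0 : ℝ)), ENNReal.ofReal (p.1 * m) * Gp (p.1, p.1 * m * p.2 - r) =
      ∫⁻ u in Ioi (1 : ℝ), ∫⁻ v in Ioi (0 : ℝ), ENNReal.ofReal (u * m) * Gp (u, u * m * v - r) := by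
    rw [Measure.volume_eq_prod, ← Measure.prod_restrict, lintegral_prod _ mG2.aemeasurable]
  have step3 : ∫⁻ u in Ioi (1 : ℝ), ∫⁻ v in Ioi (0 : ℝ), ENNReal.ofReal (u * m) * Gp (u, u * m * v - r) ≤
      ∫⁻ u in Ioi (1 : ℝ), ∫⁻ y in Ioi (0 : ℝ), ENNReal.ofReal (phi y) * ENNReal.ofReal (psi u y) := by
    apply setLIntegral_mono' measurableSet_Ioi
    intro u hu
    simp only [mem_Ioi] at hu
    have hu0 : (0 : ℝ) < u := by linarith
    calc ∫⁻ v in Ioi (0 : ℝ), ENNReal.ofReal (u * m) * Gp (u, u * m * v - r)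
        ≤ ∫⁻ v : ℝ, ENNReal.ofReal (u * m) * Gp (u, u * m * v - r) := setLIntegral_le_lintegral _ _
      _ = ∫⁻ y : ℝ, Gp (u, y) := D06c_cov (by positivity) (fun y => Gp (u, y))
      _ = ∫⁻ y in Ioi (0 : ℝ), ENNReal.ofReal (phi y) * ENNReal.ofReal (psi u y) := by
        rw [← lintegral_indicator measurableSet_Ioi]
        apply lintegral_congr
        intro y
        simp only [hGp, indicator, mem_setOf_eq, mem_Ioi]
      _ ≤ _ := le_rfl
  have step4 : ∫⁻ u in Ioi (1 : ℝ), ∫⁻ y in Ioi (0 : ℝ), ENNReal.ofReal (phi y) * ENNReal.ofReal (psi u y) =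
      ∫⁻ y in Ioi (0 : ℝ), ∫⁻ u in Ioi (1 : ℝ), ENNReal.ofReal (phi y) * ENNReal.ofReal (psi u y) := by
    apply lintegral_lintegral_swap
    apply Measurable.aemeasurable
    exact ((mphi.comp measurable_snd).ennreal_ofReal).mul mpsi.ennreal_ofReal
  set B : ℝ := A * C2 * (2 * m * (1 + r)) with hB
  have hB0 : 0 ≤ B := by positivity
  have step5 : ∫⁻ y in Ioi (0 : ℝ), ∫⁻ u in Ioi (1 : ℝ), ENNReal.ofReal (phi y) * ENNReal.ofReal (psi u y) ≤
      ∫⁻ y in Ioi (0 : ℝ), ENNReal.ofReal B *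
        ENNReal.ofReal (Wt X y * min 1 ((y / κ) ^ 4) * (1 + Real.log (1 + y) + √(1 + y) / c) / (1 + y)) := by
    apply setLIntegral_mono' measurableSet_Ioi
    intro y hy
    simp only [mem_Ioi] at hy
    have hW0 : 0 ≤ Wt X y := by unfold Wt; positivity
    have hphi0 : 0 ≤ phi y := by
      simp only [hphi]
      positivity
    have hmY : Measurable (fun u : ℝ => ENNReal.ofReal (psi u y)) := by
      exact (mpsi.comp (measurable_id.prodMk measurable_const)).ennreal_ofReal
    rw [lintegral_const_mul _ hmY]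
    have h1 : ∫⁻ u in Ioi (1 : ℝ), ENNReal.ofReal (psi u y) ≤
        ENNReal.ofReal (C2 * (1 + m / c + Real.log (1 + (y + r) / m) + m / c * √(1 + (y + r) / m))) :=
      H2 ((y + r) / m) (m / c) (by positivity) (by positivity)
    calc ENNReal.ofReal (phi y) * ∫⁻ u in Ioi (1 : ℝ), ENNReal.ofReal (psi u y)
        ≤ ENNReal.ofReal (phi y) *
          ENNReal.ofReal (C2 * (1 + m / c + Real.log (1 + (y + r) / m) + m / c * √(1 + (y + r) / m))) := by gcongr
      _ = ENNReal.ofReal (phi y *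
          (C2 * (1 + m / c + Real.log (1 + (y + r) / m) + m / c * √(1 + (y + r) / m)))) := by
        rw [ENNReal.ofReal_mul hphi0]
      _ ≤ ENNReal.ofReal (B * (Wt X y * min 1 ((y / κ) ^ 4) * (1 + Real.log (1 + y) + √(1 + y) / c) / (1 + y))) := by
        apply ENNReal.ofReal_le_ofReal
        have h2 := D06c_log hm hr hc hy
        have hl0 : 0 ≤ Real.log (1 + y) := Real.log_nonneg (by linarith)
        have h3 : phi y ≤ A * Wt X y * min 1 ((y / κ) ^ 4) / (1 + y) := by
          simp only [hphi]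
          apply div_le_div_of_nonneg_left (by positivity) (by positivity) (by linarith)
        calc phi y * (C2 * (1 + m / c + Real.log (1 + (y + r) / m) + m / c * √(1 + (y + r) / m)))
            ≤ (A * Wt X y * min 1 ((y / κ) ^ 4) / (1 + y)) *
              (C2 * (2 * m * (1 + r) * (1 + Real.log (1 + y) + √(1 + y) / c))) := by
              have hlog0 : 0 ≤ Real.log (1 + (y + r) / m) := by
                apply Real.log_nonneg
                have : 0 < (y + r) / m := by positivity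
                linarith
              apply mul_le_mul h3 _ (by positivity) (by positivity)
              apply mul_le_mul_of_nonneg_left h2 hC20.le
          _ = B * (Wt X y * min 1 ((y / κ) ^ 4) * (1 + Real.log (1 + y) + √(1 + y) / c) / (1 + y)) := by
              rw [hB]; ring
      _ = ENNReal.ofReal B * ENNReal.ofReal (Wt X y * min 1 ((y / κ) ^ 4) * (1 + Real.log (1 + y) + √(1 + y) / c) / (1 + y)) := by
        rw [ENNReal.ofReal_mul hB0]
  have step6 : ∫⁻ y in Ioi (0 : ℝ), ENNReal.ofReal B *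
        ENNReal.ofReal (Wt X y * min 1 ((y / κ) ^ 4) * (1 + Real.log (1 + y) + √(1 + y) / c) / (1 + y)) ≤
      ENNReal.ofReal B * ENNReal.ofReal (C3 * n * X ^ ε * (1 + √X / c) * (X / (X + c ^ 2)) ^ 2) := by
    rw [lintegral_const_mul]
    · gcongr
      exact H3 n c X hn hc hX
    · apply Measurable.ennreal_ofReal
      simp only [Wt]
      fun_prop
  calc _ ≤ _ := step1
    _ = _ := step2
    _ ≤ _ := step3
    _ = _ := step4
    _ ≤ _ := step5
    _ ≤ _ := step6
    _ = ENNReal.ofReal (B * (C3 * n * X ^ ε * (1 + √X / c) * (X / (X + c ^ 2)) ^ 2)) := by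
      rw [ENNReal.ofReal_mul hB0]
    _ ≤ _ := by
      apply ENNReal.ofReal_le_ofReal
      have e1 : B * (C3 * n * X ^ ε * (1 + √X / c) * (X / (X + c ^ 2)) ^ 2) =
          C1 * C2 * C3 * K * (r ^ 2 * (2 * m * (1 + r)) * n) * (X ^ ε * (1 + √X / c) * (X / (X + c ^ 2)) ^ 2) := by
        rw [hB, hA]; ring
      have e2 : 4 * C1 * C2 * C3 * K * (m * n * r) ^ 4 * X ^ ε * (1 + √X / c) * (X / (X + c ^ 2)) ^ 2 =
          C1 * C2 * C3 * K * (4 * (m * n * r) ^ 4) * (X ^ ε * (1 + √X / c) * (X / (X + c ^ 2)) ^ 2) := by ring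
      rw [e1, e2]
      have hX' : 0 ≤ X ^ ε := Real.rpow_nonneg hX0.le _
      have e3 : r ^ 2 * (2 * m * (1 + r)) * n ≤ 4 * (m * n * r) ^ 4 := by
        have hmnr : 1 ≤ m * n * r := by
          have : 1 ≤ m * n := by nlinarith
          nlinarith
        have a1 : m * n * r ^ 3 ≤ (m * n * r) ^ 3 := by
          have b1 : m * n ≤ (m * n) ^ 3 := by
            apply le_self_pow₀ _ (by norm_num)
            nlinarith
          calc m * n * r ^ 3 ≤ (m * n) ^ 3 * r ^ 3 := by gcongr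
            _ = (m * n * r) ^ 3 := by ring
        have a2 : (m * n * r) ^ 3 ≤ (m * n * r) ^ 4 := pow_le_pow_right₀ hmnr (by norm_num)
        have a3 : r ^ 2 * (2 * m * (1 + r)) * n ≤ 4 * (m * n * r ^ 3) := by
          have : r ^ 2 * (2 * m * (1 + r)) * n ≤ r ^ 2 * (2 * m * (r + r)) * n := by gcongr
          calc _ ≤ _ := this
            _ = 4 * (m * n * r ^ 3) := by ring
        linarith
      gcongr

end Pool.Agent.LibF4D
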