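import Mathlib
import Pool.Agent.LibF4D.KDefs
import Pool.Agent.LibF4D.DDefs

/-! Row D07.
Dl q x v = cnt q x v - v/q is bounded by 1 in absolute value, vanishes at 0+. For N: ∑_{v ≤ N} = Abel summation (Mathlib sum_mul_eq_sub_integral_mul or telescoping on [k,k+1]), and ∫_0^N g = N g(N) - ∫ v g1; let N → ∞
(g(N) → 0, N g(N) → 0). All integrable because |g1| ≤ B/(1+v)^3, |v g1| ≤ B/(1+v)^2. Near 0: g(v) → 0.
-/

set_option autoImplicit false

namespace Pool.Agent.LibF4D

open MeasureTheory Set Filter Topology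

theorem D07_dom : IntegrableOn (fun v : ℝ => (1 + v ^ 2)⁻¹) (Ioi 0) :=
  integrable_inv_one_add_sq.integrableOn

theorem D07_le3 {v : ℝ} (hv : 0 < v) : v / (1 + v) ^ 3 ≤ (1 + v ^ 2)⁻¹ := by
  rw [div_le_iff₀ (by positivity), inv_mul_eq_div, le_div_iff₀ (by positivity)]
  nlinarith [sq_nonneg v, mul_pos hv hv, pow_pos hv 3]

theorem D07_le3' {v : ℝ} (hv : 0 < v) : 1 / (1 + v) ^ 3 ≤ (1 + v ^ 2)⁻¹ := by
  rw [div_le_iff₀ (by positivity), inv_mul_eq_div, le_div_iff₀ (by positivity)]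
  nlinarith [sq_nonneg v, mul_pos hv hv, pow_pos hv 3]

theorem D07_int {f : ℝ → ℂ} {B : ℝ} (hc : ContinuousOn f (Ioi 0)) (hB : 0 ≤ B)
    (h : ∀ v : ℝ, 0 < v → ‖f v‖ ≤ B * (1 + v ^ 2)⁻¹) : IntegrableOn f (Ioi 0) := by
  refine Integrable.mono' (D07_dom.const_mul B) (hc.aestronglyMeasurable measurableSet_Ioi) ?_
  filter_upwards [ae_restrict_mem measurableSet_Ioi] with v hv
  exact h v hv

/-- the integral of `(1 + t)⁻³` over a half line -/
theorem D07_tail {v : ℝ} (hv : 0 ≤ v) : IntegrableOn (fun t : ℝ => 1 / (1 + t) ^ 3) (Ioi v) ∧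
    ∫ t in Ioi v, 1 / (1 + t) ^ 3 = 1 / (2 * (1 + v) ^ 2) := by
  have hd : ∀ t ∈ Ioi v, HasDerivAt (fun t : ℝ => -(1 / (2 * (1 + t) ^ 2))) (1 / (1 + t) ^ 3) t := by
    intro t ht
    have ht' : 0 < 1 + t := by
      have : v < t := ht
      linarith
    have h1 : HasDerivAt (fun t : ℝ => 1 + t) 1 t := (hasDerivAt_id t).const_add 1
    have h2 : HasDerivAt (fun t : ℝ => 2 * (1 + t) ^ 2) (2 * (2 * (1 + t))) t := by
      simpa using (h1.fun_pow 2).const_mul 2
    have h3 : HasDerivAt (fun t : ℝ => -(2 * (1 + t) ^ 2)⁻¹)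
        (-(-(2 * (2 * (1 + t))) / (2 * (1 + t) ^ 2) ^ 2)) t :=
      (h2.fun_inv (by positivity)).fun_neg
    have h4 : (fun t : ℝ => -(1 / (2 * (1 + t) ^ 2))) = fun t : ℝ => -(2 * (1 + t) ^ 2)⁻¹ := by
      funext s
      rw [one_div]
    rw [h4]
    refine h3.congr_deriv ?_
    field_simp
  have ht : Tendsto (fun t : ℝ => -(1 / (2 * (1 + t) ^ 2))) atTop (𝓝 0) := by
    have h1 : Tendsto (fun t : ℝ => 1 + t) atTop atTop := tendsto_atTop_add_const_left _ _ tendsto_id
    have h2 : Tendsto (fun t : ℝ => 2 * (1 + t) ^ 2) atTop atTop :=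
      ((tendsto_pow_atTop two_ne_zero).comp h1).const_mul_atTop two_pos
    have h3 := (h2.inv_tendsto_atTop).neg
    rw [neg_zero] at h3
    refine h3.congr fun t => ?_
    simp [one_div]
  have hc : ContinuousWithinAt (fun t : ℝ => -(1 / (2 * (1 + t) ^ 2))) (Ici v) v := by
    apply ContinuousAt.continuousWithinAt
    have hv' : 2 * (1 + v) ^ 2 ≠ 0 := by positivity
    have h5 : ContinuousAt (fun t : ℝ => 2 * (1 + t) ^ 2) v := by fun_prop
    exact (continuousAt_const.div h5 hv').neg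
  have hnn : ∀ t ∈ Ioi v, 0 ≤ 1 / (1 + t) ^ 3 := by
    intro t ht
    have : v < t := ht
    have : 0 < 1 + t := by linarith
    positivity
  have hi := integrableOn_Ioi_deriv_of_nonneg hc hd hnn ht
  refine ⟨hi, ?_⟩
  rw [integral_Ioi_of_hasDerivAt_of_tendsto hc hd hi ht]
  ring

theorem D07_zero {g : ℝ → ℂ} {B : ℝ} (h0 : ∀ v : ℝ, 0 < v → ‖g v‖ ≤ B * v / (1 + v) ^ 3)
    (hB : 0 ≤ B) : Tendsto g atTop (𝓝 0) ∧ Tendsto (fun v : ℝ => (v : ℂ) * g v) atTop (𝓝 0) := by
  have h1 : Tendsto (fun t : ℝ => 1 + t) atTop atTop := tendsto_atTop_add_const_left _ _ tendsto_id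
  have h2 : Tendsto (fun t : ℝ => B * (1 + t)⁻¹) atTop (𝓝 0) := by
    have := h1.inv_tendsto_atTop.const_mul B
    rw [mul_zero] at this
    exact this
  constructor
  · refine squeeze_zero_norm' ?_ h2
    filter_upwards [eventually_gt_atTop 0] with v hv
    refine (h0 v hv).trans ?_
    rw [mul_div_assoc]
    refine mul_le_mul_of_nonneg_left ?_ hB
    rw [div_le_iff₀ (by positivity), inv_mul_eq_div, le_div_iff₀ (by positivity)]
    nlinarith [sq_nonneg v, mul_pos hv hv, pow_pos hv 3]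
  · refine squeeze_zero_norm' ?_ h2
    filter_upwards [eventually_gt_atTop 0] with v hv
    rw [norm_mul, Complex.norm_real, Real.norm_of_nonneg hv.le]
    refine (mul_le_mul_of_nonneg_left (h0 v hv) hv.le).trans ?_
    have h3 : v * (B * v / (1 + v) ^ 3) = B * (v ^ 2 / (1 + v) ^ 3) := by ring
    rw [h3]
    refine mul_le_mul_of_nonneg_left ?_ hB
    rw [div_le_iff₀ (by positivity), inv_mul_eq_div, le_div_iff₀ (by positivity)]
    nlinarith [sq_nonneg v, mul_pos hv hv, pow_pos hv 3]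

theorem D07_parts {g g1 : ℝ → ℂ} {B : ℝ} (hd : ∀ v : ℝ, 0 < v → HasDerivAt g (g1 v) v)
    (h0 : ∀ v : ℝ, 0 < v → ‖g v‖ ≤ B * v / (1 + v) ^ 3) (hB : 0 ≤ B)
    (hg : IntegrableOn g (Ioi 0)) (hg1 : IntegrableOn (fun v : ℝ => (v : ℂ) * g1 v) (Ioi 0)) :
    ∫ v in Ioi (0 : ℝ), g v = -∫ v in Ioi (0 : ℝ), (v : ℂ) * g1 v := by
  have hder : ∀ v ∈ Ioi (0 : ℝ), HasDerivAt (fun v : ℝ => (v : ℂ) * g v)
      (g v + (v : ℂ) * g1 v) v := by
    intro v hv
    have h1 : HasDerivAt (fun v : ℝ => (v : ℂ)) 1 v := Complex.ofRealCLM.hasDerivAt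
    have h2 := h1.mul (hd v hv)
    rw [one_mul] at h2
    exact h2
  have hc : ContinuousWithinAt (fun v : ℝ => (v : ℂ) * g v) (Ici 0) 0 := by
    rw [ContinuousWithinAt, Complex.ofReal_zero, zero_mul]
    refine squeeze_zero_norm' (a := fun v : ℝ => B * v ^ 2) ?_ ?_
    · filter_upwards [self_mem_nhdsWithin] with v hv
      have hv0 : 0 ≤ v := hv
      rcases hv0.eq_or_lt with h | h
      · rw [← h]
        simp
      · rw [norm_mul, Complex.norm_real, Real.norm_of_nonneg h.le]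
        refine (mul_le_mul_of_nonneg_left (h0 v h) h.le).trans ?_
        have h3 : v * (B * v / (1 + v) ^ 3) = B * v ^ 2 / (1 + v) ^ 3 := by ring
        rw [h3]
        refine div_le_self (by positivity) (one_le_pow₀ (by linarith))
    · have : Tendsto (fun v : ℝ => B * v ^ 2) (𝓝 0) (𝓝 (B * 0 ^ 2)) :=
        (continuous_const.mul (continuous_pow 2)).tendsto 0
      rw [zero_pow two_ne_zero, mul_zero] at this
      exact this.mono_left nhdsWithin_le_nhds
  have h1 := integral_Ioi_of_hasDerivAt_of_tendsto hc hder (hg.add hg1) (D07_zero h0 hB).2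
  rw [integral_add hg hg1] at h1
  simp only [Complex.ofReal_zero, zero_mul, sub_zero] at h1
  exact eq_neg_of_add_eq_zero_left h1

theorem D07_cnt_meas (q : ℕ) (x : ZMod q) : Measurable fun v : ℝ => (cnt q x v : ℝ) := by
  have h1 : Measurable fun n : ℕ =>
      ((((Finset.Icc 1 n).filter (fun v : ℕ => (v : ZMod q) = x)).card : ℕ) : ℝ) :=
    measurable_from_top
  exact h1.comp Nat.measurable_floor

theorem D07_cnt_le (q : ℕ) (x : ZMod q) {v : ℝ} (hv : 0 ≤ v) : (cnt q x v : ℝ) ≤ v := by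
  unfold cnt
  refine le_trans ?_ (Nat.floor_le hv)
  exact_mod_cast (Finset.card_filter_le _ _).trans (by simp)

/-- D07: Abel summation in one residue class -/
theorem D07_abel {q : ℕ} (hq : 1 ≤ q) (x : ZMod q) {g g1 : ℝ → ℂ} {B : ℝ} (hd : ∀ v : ℝ, 0 < v → HasDerivAt g (g1 v) v)
    (hc : ContinuousOn g1 (Ioi 0)) (h0 : ∀ v : ℝ, 0 < v → ‖g v‖ ≤ B * v / (1 + v) ^ 3) (h1 : ∀ v : ℝ, 0 < v → ‖g1 v‖ ≤ B / (1 + v) ^ 3) :
    Summable (fun v : ℕ => if 1 ≤ v ∧ (v : ZMod q) = x then g v else 0) ∧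
    (∑' v : ℕ, if 1 ≤ v ∧ (v : ZMod q) = x then g v else 0) - (1 / (q : ℂ)) * ∫ v in Ioi (0 : ℝ), g v =
      -∫ v in Ioi (0 : ℝ), g1 v * ((Dl q x v : ℝ) : ℂ) := by
  have hB : 0 ≤ B := by
    have h2 := (norm_nonneg _).trans (h0 1 one_pos)
    norm_num at h2
    linarith
  have hgc : ContinuousOn g (Ioi 0) := fun v hv => (hd v hv).continuousAt.continuousWithinAt
  have hgi : IntegrableOn g (Ioi 0) := D07_int hgc hB fun v hv => by
    refine (h0 v hv).trans ?_
    rw [mul_div_assoc]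
    exact mul_le_mul_of_nonneg_left (D07_le3 hv) hB
  have hg1i : IntegrableOn g1 (Ioi 0) := D07_int hc hB fun v hv => by
    refine (h1 v hv).trans ?_
    rw [← mul_one_div]
    exact mul_le_mul_of_nonneg_left (D07_le3' hv) hB
  have hvb : ∀ v : ℝ, 0 < v → v * ‖g1 v‖ ≤ B * (1 + v ^ 2)⁻¹ := fun v hv => by
    refine (mul_le_mul_of_nonneg_left (h1 v hv) hv.le).trans ?_
    have h3 : v * (B / (1 + v) ^ 3) = B * (v / (1 + v) ^ 3) := by ring
    rw [h3]
    exact mul_le_mul_of_nonneg_left (D07_le3 hv) hB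
  have hvi : IntegrableOn (fun v : ℝ => (v : ℂ) * g1 v) (Ioi 0) :=
    D07_int (Complex.continuous_ofReal.continuousOn.mul hc) hB fun v hv => by
      rw [norm_mul, Complex.norm_real, Real.norm_of_nonneg (le_of_lt hv)]
      exact hvb v hv
  have hci : IntegrableOn (fun v : ℝ => ((cnt q x v : ℝ) : ℂ) * g1 v) (Ioi 0) := by
    refine Integrable.mono' (D07_dom.const_mul B) ?_ ?_
    · exact (Complex.measurable_ofReal.comp (D07_cnt_meas q x)).aestronglyMeasurable.mul
        (hc.aestronglyMeasurable measurableSet_Ioi)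
    · filter_upwards [ae_restrict_mem measurableSet_Ioi] with v hv
      have hv0 : 0 < v := hv
      rw [norm_mul, Complex.norm_real, Real.norm_of_nonneg (Nat.cast_nonneg _)]
      exact (mul_le_mul_of_nonneg_right (D07_cnt_le q x hv0.le) (norm_nonneg _)).trans (hvb v hv0)
  have hsq : Summable fun v : ℕ => B * (1 / (2 * (1 + (v : ℝ)) ^ 2)) := by
    refine Summable.mul_left B ?_
    have h2 : Summable fun n : ℕ => 1 / ((n : ℝ)) ^ 2 := Real.summable_one_div_nat_pow.2 one_lt_two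
    have h3 := ((summable_nat_add_iff 1).2 h2).mul_left (1 / 2)
    refine h3.congr fun n => ?_
    push_cast
    field_simp
    ring
  have hsum : Summable (fun v : ℕ => if 1 ≤ v ∧ (v : ZMod q) = x then g v else 0) := by
    refine Summable.of_norm_bounded (hsq.mul_left 2) fun v => ?_
    split_ifs with h
    · have hv : 0 < (v : ℝ) := by exact_mod_cast h.1
      refine (h0 v hv).trans ?_
      have h3 : 2 * (B * (1 / (2 * (1 + (v : ℝ)) ^ 2))) = B * (1 / (1 + (v : ℝ)) ^ 2) := by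
        field_simp
      rw [h3, mul_div_assoc]
      refine mul_le_mul_of_nonneg_left ?_ hB
      rw [div_le_div_iff₀ (by positivity) (by positivity)]
      nlinarith [sq_nonneg (v : ℝ), mul_pos hv hv, pow_pos hv 3]
    · rw [norm_zero]
      positivity
  refine ⟨hsum, ?_⟩
  -- the sum as an integral
  let F : ℕ → ℝ → ℂ := fun v t => if 1 ≤ v ∧ (v : ZMod q) = x then (Ici (v : ℝ)).indicator g1 t else 0
  have hFi : ∀ v, Integrable (F v) (volume.restrict (Ioi 0)) := by
    intro v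
    by_cases h : 1 ≤ v ∧ (v : ZMod q) = x
    · simp only [F, if_pos h]
      exact hg1i.indicator measurableSet_Ici
    · simp only [F, if_neg h]
      exact integrable_zero _ _ _
  have hsub : ∀ v : ℕ, 1 ≤ v → Ioi (0 : ℝ) ∩ Ici (v : ℝ) = Ici (v : ℝ) := by
    intro v hv
    apply inter_eq_right.2
    intro t ht
    have h2 : (1 : ℝ) ≤ v := by exact_mod_cast hv
    have h3 : (v : ℝ) ≤ t := ht
    exact lt_of_lt_of_le one_pos (h2.trans h3)
  have hFint : ∀ v : ℕ, ∫ t in Ioi (0 : ℝ), F v t =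
      -(if 1 ≤ v ∧ (v : ZMod q) = x then g v else 0) := by
    intro v
    by_cases h : 1 ≤ v ∧ (v : ZMod q) = x
    · simp only [F, if_pos h]
      have hv : 0 < (v : ℝ) := by exact_mod_cast h.1
      rw [setIntegral_indicator measurableSet_Ici, hsub v h.1, integral_Ici_eq_integral_Ioi,
        integral_Ioi_of_hasDerivAt_of_tendsto (hd v hv).continuousAt.continuousWithinAt
          (fun t ht => hd t (hv.trans ht)) (hg1i.mono_set (Ioi_subset_Ioi hv.le))
          (D07_zero h0 hB).1, zero_sub]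
    · simp only [F, if_neg h]
      simp
  have hFn : Summable fun v => ∫ t in Ioi (0 : ℝ), ‖F v t‖ := by
    refine Summable.of_nonneg_of_le (fun v => integral_nonneg fun t => norm_nonneg _)
      (fun v => ?_) hsq
    by_cases h : 1 ≤ v ∧ (v : ZMod q) = x
    · simp only [F, if_pos h, norm_indicator_eq_indicator_norm]
      have hv : 0 < (v : ℝ) := by exact_mod_cast h.1
      rw [setIntegral_indicator measurableSet_Ici, hsub v h.1, integral_Ici_eq_integral_Ioi]
      obtain ⟨ht1, ht2⟩ := D07_tail hv.le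
      rw [← ht2, ← integral_const_mul]
      refine setIntegral_mono_on (hg1i.mono_set (Ioi_subset_Ioi hv.le)).norm (ht1.const_mul B)
        measurableSet_Ioi fun t ht => ?_
      rw [mul_one_div]
      exact h1 t (hv.trans ht)
    · simp only [F, if_neg h]
      simp
      positivity
  have hmain := integral_tsum_of_summable_integral_norm hFi hFn
  rw [tsum_congr hFint, tsum_neg] at hmain
  have hpt : ∫ t in Ioi (0 : ℝ), ∑' v, F v t =
      ∫ t in Ioi (0 : ℝ), ((cnt q x t : ℝ) : ℂ) * g1 t := by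
    refine setIntegral_congr_fun measurableSet_Ioi fun t ht => ?_
    have ht0 : (0 : ℝ) < t := ht
    change ∑' v, F v t = _
    rw [tsum_eq_sum (s := (Finset.Icc 1 ⌊t⌋₊).filter (fun v : ℕ => (v : ZMod q) = x))]
    · have h2 : ∀ v ∈ (Finset.Icc 1 ⌊t⌋₊).filter (fun v : ℕ => (v : ZMod q) = x),
          F v t = g1 t := by
        intro v hv
        rw [Finset.mem_filter, Finset.mem_Icc] at hv
        have h3 : t ∈ Ici (v : ℝ) := (Nat.le_floor_iff ht0.le).1 hv.1.2
        simp only [F, if_pos (show 1 ≤ v ∧ (v : ZMod q) = x from ⟨hv.1.1, hv.2⟩),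
          indicator_of_mem h3]
      rw [Finset.sum_congr rfl h2, Finset.sum_const, nsmul_eq_mul]
      unfold cnt
      push_cast
      rfl
    · intro v hv
      rw [Finset.mem_filter, Finset.mem_Icc] at hv
      by_cases h : 1 ≤ v ∧ (v : ZMod q) = x
      · simp only [F, if_pos h]
        refine indicator_of_notMem (fun h3 => hv ⟨⟨h.1, ?_⟩, h.2⟩) _
        exact (Nat.le_floor_iff ht0.le).2 h3
      · simp only [F, if_neg h]
  rw [hpt] at hmain
  have hsum2 : (∑' v : ℕ, if 1 ≤ v ∧ (v : ZMod q) = x then g v else 0) =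
      -∫ t in Ioi (0 : ℝ), ((cnt q x t : ℝ) : ℂ) * g1 t := by
    rw [← hmain, neg_neg]
  rw [hsum2, D07_parts hd h0 hB hgi hvi]
  have h4 : ∫ v in Ioi (0 : ℝ), g1 v * ((Dl q x v : ℝ) : ℂ) =
      (∫ t in Ioi (0 : ℝ), ((cnt q x t : ℝ) : ℂ) * g1 t) -
        (1 / (q : ℂ)) * ∫ v in Ioi (0 : ℝ), (v : ℂ) * g1 v := by
    rw [← integral_const_mul, ← integral_sub hci (hvi.const_mul _)]
    refine setIntegral_congr_fun measurableSet_Ioi fun t _ => ?_
    unfold Dl
    push_cast
    ring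
  rw [h4]
  ring

end Pool.Agent.LibF4D
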