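import Mathlib
import Pool.Agent.LibF4D.KDefs
import Pool.Agent.LibF4D.DDefs
import Pool.Agent.LibF4D.D07

/-! Row D08.
By D07 each u gives -∫ Hv(u,v) Dl q (b u⁻¹) v dv. Sum over u (coprime, absolutely convergent since |Hv| ≤ B/(u²(1+v)³)), exchange with the integral: -∫_v ∑_u Hv(u,v) Dl; Abel in u for fixed v:
∑_{u ≤ N} φ(u) a_u = φ(N) A(N) - ∫_1^N φ' A, with A(u) = AA q b u v (=0 for u < 1), |A| ≤ E(1+u/q), φ = Hv(·,v), φ(N)A(N) → 0. Result: Inner - InnerM = ∫_v ∫_{u>1} Huv A; norm ≤ lintegral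
(enorm_integral_le_lintegral_enorm; measurability from continuity c2 on the product set and Tonelli). Inner is a tsum of tsums: tsum_sub needs summability of both (from b0: |H| ≤ B v/(u²(1+v)³)).
-/

set_option autoImplicit false

namespace Pool.Agent.LibF4D

open MeasureTheory Set Filter Topology

lemma D08_Bnn {H Hv Huv : ℝ → ℝ → ℂ} {B : ℝ} (h : Reg H Hv Huv B) : 0 ≤ B := by
  have h1 := (norm_nonneg _).trans (h.b1 1 1 le_rfl one_pos)
  have h2 : B / (1 ^ 2 * (1 + 1) ^ 3 : ℝ) = B / 8 := by norm_num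
  rw [h2] at h1
  linarith

lemma D08_wt {v : ℝ} (hv : 0 < v) : v / (1 + v) ^ 3 ≤ (1 + v ^ 2)⁻¹ := by
  rw [div_le_iff₀ (by positivity), inv_mul_eq_div, le_div_iff₀ (by positivity)]
  nlinarith [pow_pos hv 2, pow_pos hv 3]

lemma D08_int : IntegrableOn (fun v : ℝ => (1 + v ^ 2)⁻¹) (Ioi 0) :=
  integrable_inv_one_add_sq.integrableOn

lemma D08_Dl_bound (q : ℕ) (x : ZMod q) {v : ℝ} (hv : 0 ≤ v) : |Dl q x v| ≤ v := by
  unfold Dl
  have h1 : ((cnt q x v : ℕ) : ℝ) ≤ v := by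
    have : cnt q x v ≤ ⌊v⌋₊ := by
      unfold cnt
      refine (Finset.card_filter_le _ _).trans ?_
      simp
    calc ((cnt q x v : ℕ) : ℝ) ≤ (⌊v⌋₊ : ℝ) := by exact_mod_cast this
      _ ≤ v := Nat.floor_le hv
  have h2 : v / (q : ℝ) ≤ v := by
    rcases Nat.eq_zero_or_pos q with h0 | h0
    · subst h0; simpa using hv
    · exact div_le_self hv (by exact_mod_cast h0)
  have h3 : 0 ≤ v / (q : ℝ) := by positivity
  have h4 : (0 : ℝ) ≤ (cnt q x v : ℕ) := by positivity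
  rw [abs_le]
  constructor <;> linarith

lemma D08_Dl_meas (q : ℕ) (x : ZMod q) : Measurable (fun v : ℝ => Dl q x v) := by
  unfold Dl
  refine Measurable.sub ?_ (measurable_id.div_const _)
  have h1 : (fun v : ℝ => ((cnt q x v : ℕ) : ℝ)) =
      (fun n : ℕ => (((((Finset.Icc 1 n).filter (fun v : ℕ => (v : ZMod q) = x)).card : ℕ)) : ℝ)) ∘ (fun v : ℝ => ⌊v⌋₊) := rfl
  rw [h1]
  exact (measurable_from_nat).comp Nat.measurable_floor

/-- the coefficient -/
noncomputable def D08_c (q : ℕ) (b : ZMod q) (v : ℝ) (u : ℕ) : ℂ :=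
  if 1 ≤ u ∧ Nat.Coprime u q then ((Dl q (b * ((u : ZMod q))⁻¹) v : ℝ) : ℂ) else 0

lemma D08_c_bound (q : ℕ) (b : ZMod q) {v : ℝ} (hv : 0 ≤ v) (u : ℕ) : ‖D08_c q b v u‖ ≤ v := by
  unfold D08_c
  split_ifs
  · rw [Complex.norm_real, Real.norm_eq_abs]
    exact D08_Dl_bound q _ hv
  · simpa using hv

lemma D08_c_meas (q : ℕ) (b : ZMod q) (u : ℕ) : Measurable (fun v => D08_c q b v u) := by
  unfold D08_c
  split_ifs
  · exact Complex.measurable_ofReal.comp (D08_Dl_meas q _)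
  · exact measurable_const

lemma D08_c_zero (q : ℕ) (b : ZMod q) (v : ℝ) : D08_c q b v 0 = 0 := by
  unfold D08_c; simp

lemma D08_c_sum (q : ℕ) (b : ZMod q) (v : ℝ) (t : ℝ) :
    ∑ k ∈ Finset.Icc 0 ⌊t⌋₊, D08_c q b v k = ((AA q b t v : ℝ) : ℂ) := by
  unfold AA
  rw [Complex.ofReal_sum, Finset.sum_filter]
  have h1 : Finset.Icc 0 ⌊t⌋₊ = insert 0 (Finset.Icc 1 ⌊t⌋₊) := by
    ext k
    simp only [Finset.mem_Icc, Finset.mem_insert]
    omega
  rw [h1, Finset.sum_insert (by simp), D08_c_zero, zero_add]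
  refine Finset.sum_congr rfl (fun k hk => ?_)
  have hk1 : 1 ≤ k := (Finset.mem_Icc.mp hk).1
  unfold D08_c
  by_cases hc : Nat.Coprime k q
  · simp [hk1, hc]
  · simp [hc]

lemma D08_Hv_bound {H Hv Huv : ℝ → ℝ → ℂ} {B : ℝ} (h : Reg H Hv Huv B) (q : ℕ) (b : ZMod q) (u : ℕ) {v : ℝ} (hv : 0 < v) :
    ‖Hv u v * D08_c q b v u‖ ≤ (B * (1 / (u : ℝ) ^ 2)) * (1 + v ^ 2)⁻¹ := by
  have hB := D08_Bnn h
  rcases Nat.eq_zero_or_pos u with h0 | h0
  · subst h0
    rw [D08_c_zero]; simp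
  · have hu : (1 : ℝ) ≤ u := by exact_mod_cast h0
    rw [norm_mul]
    calc ‖Hv u v‖ * ‖D08_c q b v u‖ ≤ (B / ((u : ℝ) ^ 2 * (1 + v) ^ 3)) * v :=
          mul_le_mul (h.b1 u v hu hv) (D08_c_bound q b hv.le u) (norm_nonneg _) (by positivity)
      _ = (B * (1 / (u : ℝ) ^ 2)) * (v / (1 + v) ^ 3) := by
          field_simp
      _ ≤ _ := mul_le_mul_of_nonneg_left (D08_wt hv) (by positivity)

lemma D08_summable_sq (B : ℝ) : Summable (fun u : ℕ => B * (1 / (u : ℝ) ^ 2)) :=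
  (Real.summable_one_div_nat_pow.mpr (by norm_num)).mul_left B

lemma D08_Hv_meas {H Hv Huv : ℝ → ℝ → ℂ} {B : ℝ} (h : Reg H Hv Huv B) (q : ℕ) (b : ZMod q) (u : ℕ) :
    AEStronglyMeasurable (fun v => Hv u v * D08_c q b v u) (volume.restrict (Ioi (0 : ℝ))) := by
  rcases Nat.eq_zero_or_pos u with h0 | h0
  · subst h0
    have : (fun v => Hv (0 : ℕ) v * D08_c q b v 0) = fun _ => (0 : ℂ) := by
      funext v; rw [D08_c_zero, mul_zero]
    rw [this]
    exact aestronglyMeasurable_const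
  · have hu : (0 : ℝ) < u := by exact_mod_cast h0
    refine AEStronglyMeasurable.mul ?_ (D08_c_meas q b u).aestronglyMeasurable
    refine ContinuousOn.aestronglyMeasurable ?_ measurableSet_Ioi
    have h2 : ContinuousOn (fun v : ℝ => ((u : ℝ), v)) (Ioi 0) := by fun_prop
    exact h.c1.comp h2 (fun v hv => ⟨hu, hv⟩)

lemma D08_Hv_int {H Hv Huv : ℝ → ℝ → ℂ} {B : ℝ} (h : Reg H Hv Huv B) (q : ℕ) (b : ZMod q) (u : ℕ) :
    IntegrableOn (fun v => Hv u v * D08_c q b v u) (Ioi (0 : ℝ)) := by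
  refine Integrable.mono' (D08_int.const_mul (B * (1 / (u : ℝ) ^ 2))) (D08_Hv_meas h q b u) ?_
  refine (ae_restrict_iff' measurableSet_Ioi).mpr (Filter.Eventually.of_forall (fun v hv => ?_))
  exact D08_Hv_bound h q b u hv

lemma D08_Hv_norm_int {H Hv Huv : ℝ → ℝ → ℂ} {B : ℝ} (h : Reg H Hv Huv B) (q : ℕ) (b : ZMod q) :
    Summable (fun u : ℕ => ∫ v in Ioi (0 : ℝ), ‖Hv u v * D08_c q b v u‖) := by
  have hB := D08_Bnn h
  refine Summable.of_nonneg_of_le (fun u => integral_nonneg (fun _ => norm_nonneg _)) (fun u => ?_)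
    ((D08_summable_sq B).mul_right (∫ v in Ioi (0 : ℝ), (1 + v ^ 2)⁻¹))
  rw [← integral_const_mul]
  refine integral_mono_of_nonneg (Filter.Eventually.of_forall (fun _ => norm_nonneg _)) (D08_int.const_mul _) ?_
  refine (ae_restrict_iff' measurableSet_Ioi).mpr (Filter.Eventually.of_forall (fun v hv => ?_))
  exact D08_Hv_bound h q b u hv

/-- Abel summation for fixed `v`. -/
lemma D08_abel_u {q : ℕ} (hq : 1 ≤ q) (b : ZMod q) {H Hv Huv : ℝ → ℝ → ℂ} {B : ℝ} (h : Reg H Hv Huv B) {E : ℝ} (hE : 0 ≤ E)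
    (hA : ∀ U V : ℝ, 0 ≤ U → 0 ≤ V → |AA q b U V| ≤ E * (1 + U / q)) {v : ℝ} (hv : 0 < v) :
    ∑' u : ℕ, Hv u v * D08_c q b v u = -∫ t in Ioi (1 : ℝ), Huv t v * ((AA q b t v : ℝ) : ℂ) := by
  have hB := D08_Bnn h
  have hqr : (1 : ℝ) ≤ q := by exact_mod_cast hq
  have hder : ∀ t : ℝ, 0 < t → HasDerivAt (fun u => Hv u v) (Huv t v) t := fun t ht => h.d2 t v ht hv
  have hA2 : ∀ t : ℝ, 1 ≤ t → ‖((AA q b t v : ℝ) : ℂ)‖ ≤ E * (2 * t) := by
    intro t ht
    rw [Complex.norm_real, Real.norm_eq_abs]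
    refine (hA t v (by linarith) hv.le).trans (mul_le_mul_of_nonneg_left ?_ hE)
    have : t / q ≤ t := div_le_self (by linarith) hqr
    linarith
  have key := tendsto_sum_mul_atTop_nhds_one_sub_integral₀ (c := D08_c q b v) (f := fun u => Hv u v) (l := 0)
    (D08_c_zero q b v) (fun t ht => (hder t (lt_of_lt_of_le one_pos ht)).differentiableAt) ?_ ?_
    (g := fun t : ℝ => t ^ (-2 : ℝ)) ?_ ?_
  · have hsum : Summable (fun u : ℕ => Hv u v * D08_c q b v u) := by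
      refine Summable.of_norm_bounded ((D08_summable_sq B).mul_right ((1 + v ^ 2)⁻¹)) (fun u => D08_Hv_bound h q b u hv)
    have h2 := hsum.hasSum.tendsto_sum_nat
    have h3 : Tendsto (fun n : ℕ => ∑ k ∈ Finset.range (n + 1), Hv k v * D08_c q b v k) atTop
        (𝓝 (∑' u : ℕ, Hv u v * D08_c q b v u)) := h2.comp (tendsto_add_atTop_nat 1)
    have h4 : (fun n : ℕ => ∑ k ∈ Finset.range (n + 1), Hv k v * D08_c q b v k) =
        fun n : ℕ => ∑ k ∈ Finset.Icc 0 n, Hv k v * D08_c q b v k := by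
      funext n
      congr 1
      ext k
      simp
    rw [h4] at h3
    have h5 := tendsto_nhds_unique h3 key
    rw [h5, zero_sub]
    congr 1
    refine setIntegral_congr_fun measurableSet_Ioi (fun t ht => ?_)
    have ht0 : (0 : ℝ) < t := lt_trans one_pos ht
    simp only [(hder t ht0).deriv, D08_c_sum]
  · -- locally integrable
    refine ContinuousOn.locallyIntegrableOn ?_ measurableSet_Ici
    have h2 : ContinuousOn (fun t : ℝ => Huv t v) (Ici 1) := by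
      have h3 : ContinuousOn (fun t : ℝ => (t, v)) (Ici 1) := by fun_prop
      exact h.c2.comp h3 (fun t ht => ⟨mem_Ioi.mpr (lt_of_lt_of_le one_pos (mem_Ici.mp ht)), hv⟩)
    exact h2.congr (fun t ht => (hder t (lt_of_lt_of_le one_pos ht)).deriv)
  · -- limit zero
    have h2 : ∀ᶠ n : ℕ in atTop, ‖(fun n : ℕ => (fun u : ℝ => Hv u v) n * ∑ k ∈ Finset.Icc 0 n, D08_c q b v k) n‖ ≤ (2 * B * E) * (1 / (n : ℝ)) := by
      filter_upwards [eventually_ge_atTop 1] with n hn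
      have hn1 : (1 : ℝ) ≤ n := by exact_mod_cast hn
      have h3 := D08_c_sum q b v n
      rw [Nat.floor_natCast] at h3
      simp only [h3]
      rw [norm_mul]
      have h4 : ‖Hv n v‖ ≤ B / (n : ℝ) ^ 2 := by
        refine (h.b1 n v hn1 hv).trans ?_
        refine div_le_div_of_nonneg_left hB (by positivity) ?_
        have : (1 : ℝ) ≤ (1 + v) ^ 3 := one_le_pow₀ (by linarith)
        nlinarith [pow_pos (lt_of_lt_of_le one_pos hn1) 2]
      calc ‖Hv n v‖ * ‖((AA q b n v : ℝ) : ℂ)‖ ≤ (B / (n : ℝ) ^ 2) * (E * (2 * n)) :=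
            mul_le_mul h4 (hA2 n hn1) (norm_nonneg _) (by positivity)
        _ = (2 * B * E) * (1 / (n : ℝ)) := by
            field_simp
    refine squeeze_zero_norm' h2 ?_
    have := (tendsto_one_div_atTop_nhds_zero_nat (𝕜 := ℝ)).const_mul (2 * B * E)
    simpa using this
  · -- bigO
    refine Asymptotics.IsBigO.of_bound (2 * B * E) ?_
    filter_upwards [eventually_ge_atTop (1 : ℝ)] with t ht
    have ht0 : (0 : ℝ) < t := by linarith
    rw [D08_c_sum, (hder t ht0).deriv, norm_mul]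
    have h4 : ‖Huv t v‖ ≤ B / t ^ 3 := by
      refine (h.b2 t v ht hv).trans ?_
      refine div_le_div_of_nonneg_left hB (by positivity) ?_
      have : (1 : ℝ) ≤ (1 + v) ^ 3 := one_le_pow₀ (by linarith)
      nlinarith [pow_pos ht0 3]
    have h5 : ‖t ^ (-2 : ℝ)‖ = 1 / t ^ 2 := by
      rw [Real.norm_of_nonneg (by positivity), Real.rpow_neg ht0.le]
      norm_num
    rw [h5]
    calc ‖Huv t v‖ * ‖((AA q b t v : ℝ) : ℂ)‖ ≤ (B / t ^ 3) * (E * (2 * t)) :=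
          mul_le_mul h4 (hA2 t ht) (norm_nonneg _) (by positivity)
      _ = 2 * B * E * (1 / t ^ 2) := by
          field_simp
  · exact integrableAtFilter_rpow_atTop_iff.mpr (by norm_num)

/-- D08: Abel summation in two variables -/
theorem D08_abel2 {q : ℕ} (hq : 1 ≤ q) (b : ZMod q) {H Hv Huv : ℝ → ℝ → ℂ} {B : ℝ} (h : Reg H Hv Huv B) {E : ℝ} (hE : 0 ≤ E)
    (hA : ∀ U V : ℝ, 0 ≤ U → 0 ≤ V → |AA q b U V| ≤ E * (1 + U / q)) :
    ENNReal.ofReal ‖Inner q b H - InnerM q H‖ ≤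
      ENNReal.ofReal E * ∫⁻ p in (Ioi (1 : ℝ)) ×ˢ (Ioi (0 : ℝ)), ENNReal.ofReal (‖Huv p.1 p.2‖ * (1 + p.1 / q)) := by
  have hB := D08_Bnn h
  have hqr : (1 : ℝ) ≤ q := by exact_mod_cast hq
  set C0 : ℝ := ∫ v in Ioi (0 : ℝ), (1 + v ^ 2)⁻¹ with hC0
  have hC0n : 0 ≤ C0 := integral_nonneg (fun v => by positivity)
  -- D07 for each u
  have hD : ∀ u : ℕ, 1 ≤ u → Nat.Coprime u q →
      (∑' v : ℕ, (if 1 ≤ v ∧ (v : ZMod q) = b * ((u : ZMod q))⁻¹ then H u v else 0)) -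
        (1 / (q : ℂ)) * ∫ v in Ioi (0 : ℝ), H u v = -∫ v in Ioi (0 : ℝ), Hv u v * D08_c q b v u := by
    intro u hu hc
    have hu1 : (1 : ℝ) ≤ u := by exact_mod_cast hu
    have hu0 : (0 : ℝ) < u := by linarith
    have h1 := (D07_abel hq (b * ((u : ZMod q))⁻¹) (g := fun v => H u v) (g1 := fun v => Hv u v) (B := B / (u : ℝ) ^ 2)
      (fun v hv => h.d1 u v hu0 hv) ?_ ?_ ?_).2
    · rw [h1]
      congr 1
      refine setIntegral_congr_fun measurableSet_Ioi (fun v _ => ?_)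
      simp only [D08_c]
      rw [if_pos ⟨hu, hc⟩]
    · have h2 : ContinuousOn (fun v : ℝ => ((u : ℝ), v)) (Ioi 0) := by fun_prop
      exact h.c1.comp h2 (fun v hv => ⟨hu0, hv⟩)
    · intro v hv
      refine (h.b0 u v hu1 hv).trans (le_of_eq ?_)
      field_simp
    · intro v hv
      refine (h.b1 u v hu1 hv).trans (le_of_eq ?_)
      field_simp
  -- bounds
  have hI1 : ∀ u : ℕ, ‖∫ v in Ioi (0 : ℝ), Hv u v * D08_c q b v u‖ ≤ (B * (1 / (u : ℝ) ^ 2)) * C0 := by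
    intro u
    rw [hC0, ← integral_const_mul]
    refine norm_integral_le_of_norm_le (D08_int.const_mul _) ?_
    refine (ae_restrict_iff' measurableSet_Ioi).mpr (Filter.Eventually.of_forall (fun v hv => ?_))
    exact D08_Hv_bound h q b u hv
  have hI2 : ∀ u : ℕ, 1 ≤ u → ‖(1 / (q : ℂ)) * ∫ v in Ioi (0 : ℝ), H u v‖ ≤ (B * (1 / (u : ℝ) ^ 2)) * C0 := by
    intro u hu
    have hu1 : (1 : ℝ) ≤ u := by exact_mod_cast hu
    rw [norm_mul]
    have h1 : ‖(1 / (q : ℂ))‖ ≤ 1 := by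
      rw [norm_div, norm_one, Complex.norm_natCast]
      exact (div_le_one (by linarith)).mpr hqr
    have h2 : ‖∫ v in Ioi (0 : ℝ), H u v‖ ≤ (B * (1 / (u : ℝ) ^ 2)) * C0 := by
      rw [hC0, ← integral_const_mul]
      refine norm_integral_le_of_norm_le (D08_int.const_mul _) ?_
      refine (ae_restrict_iff' measurableSet_Ioi).mpr (Filter.Eventually.of_forall (fun v hv => ?_))
      have hv' : (0 : ℝ) < v := hv
      calc ‖H u v‖ ≤ B * v / ((u : ℝ) ^ 2 * (1 + v) ^ 3) := h.b0 u v hu1 hv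
        _ = (B * (1 / (u : ℝ) ^ 2)) * (v / (1 + v) ^ 3) := by field_simp
        _ ≤ _ := mul_le_mul_of_nonneg_left (D08_wt hv) (by positivity)
    calc _ ≤ 1 * ((B * (1 / (u : ℝ) ^ 2)) * C0) := mul_le_mul h1 h2 (norm_nonneg _) zero_le_one
      _ = _ := one_mul _
  have hS0 : Summable (fun u : ℕ => (B * (1 / (u : ℝ) ^ 2)) * C0) := (D08_summable_sq B).mul_right C0
  have hS2 : Summable (fun u : ℕ => if 1 ≤ u ∧ Nat.Coprime u q then (1 / (q : ℂ)) * ∫ v in Ioi (0 : ℝ), H u v else 0) := by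
    refine Summable.of_norm_bounded hS0 (fun u => ?_)
    split_ifs with hc
    · exact hI2 u hc.1
    · rw [norm_zero]; positivity
  have hS1 : Summable (fun u : ℕ => if 1 ≤ u ∧ Nat.Coprime u q then
      ∑' v : ℕ, (if 1 ≤ v ∧ (v : ZMod q) = b * ((u : ZMod q))⁻¹ then H u v else 0) else 0) := by
    refine Summable.of_norm_bounded (hS0.mul_left 2) (fun u => ?_)
    split_ifs with hc
    · have h1 := hD u hc.1 hc.2
      have h2 : (∑' v : ℕ, (if 1 ≤ v ∧ (v : ZMod q) = b * ((u : ZMod q))⁻¹ then H u v else 0)) =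
          (1 / (q : ℂ)) * (∫ v in Ioi (0 : ℝ), H u v) + (-∫ v in Ioi (0 : ℝ), Hv u v * D08_c q b v u) := by
        rw [← h1]; ring
      rw [h2]
      refine (norm_add_le _ _).trans ?_
      rw [norm_neg]
      have := hI1 u
      have := hI2 u hc.1
      linarith
    · rw [norm_zero]; positivity
  have hmain : Inner q b H - InnerM q H = -∫ v in Ioi (0 : ℝ), ∑' u : ℕ, Hv u v * D08_c q b v u := by
    unfold Inner InnerM
    rw [← hS1.tsum_sub hS2]
    have h1 : ∀ u : ℕ, ((if 1 ≤ u ∧ Nat.Coprime u q then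
        ∑' v : ℕ, (if 1 ≤ v ∧ (v : ZMod q) = b * ((u : ZMod q))⁻¹ then H u v else 0) else 0) -
        (if 1 ≤ u ∧ Nat.Coprime u q then (1 / (q : ℂ)) * ∫ v in Ioi (0 : ℝ), H u v else 0)) =
        -∫ v in Ioi (0 : ℝ), Hv u v * D08_c q b v u := by
      intro u
      by_cases hc : 1 ≤ u ∧ Nat.Coprime u q
      · rw [if_pos hc, if_pos hc]
        exact hD u hc.1 hc.2
      · rw [if_neg hc, if_neg hc]
        have : ∀ v : ℝ, Hv u v * D08_c q b v u = 0 := by
          intro v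
          unfold D08_c
          rw [if_neg hc, mul_zero]
        simp [this]
    rw [tsum_congr h1, tsum_neg]
    congr 1
    exact (hasSum_integral_of_summable_integral_norm (fun u => D08_Hv_int h q b u) (D08_Hv_norm_int h q b)).tsum_eq
  rw [hmain, norm_neg, ofReal_norm]
  have hmeas : AEMeasurable (fun p : ℝ × ℝ => ENNReal.ofReal (‖Huv p.1 p.2‖ * (1 + p.1 / q)))
      (volume.restrict ((Ioi (1 : ℝ)) ×ˢ (Ioi (0 : ℝ)))) := by
    have h1 : ContinuousOn (fun p : ℝ × ℝ => Huv p.1 p.2) ((Ioi (1 : ℝ)) ×ˢ (Ioi (0 : ℝ))) :=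
      h.c2.mono (fun p hp => ⟨mem_Ioi.mpr (lt_trans one_pos (mem_Ioi.mp hp.1)), hp.2⟩)
    have h2 : ContinuousOn (fun p : ℝ × ℝ => ‖Huv p.1 p.2‖ * (1 + p.1 / q)) ((Ioi (1 : ℝ)) ×ˢ (Ioi (0 : ℝ))) :=
      h1.norm.mul (by fun_prop)
    exact (h2.aemeasurable (measurableSet_Ioi.prod measurableSet_Ioi)).ennreal_ofReal
  have hprod : (volume.restrict ((Ioi (1 : ℝ)) ×ˢ (Ioi (0 : ℝ))) : Measure (ℝ × ℝ)) =
      (volume.restrict (Ioi (1 : ℝ))).prod (volume.restrict (Ioi (0 : ℝ))) := by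
    rw [Measure.prod_restrict]; rfl
  calc ‖∫ v in Ioi (0 : ℝ), ∑' u : ℕ, Hv u v * D08_c q b v u‖ₑ
      ≤ ∫⁻ v in Ioi (0 : ℝ), ‖∑' u : ℕ, Hv u v * D08_c q b v u‖ₑ := enorm_integral_le_lintegral_enorm _
    _ ≤ ∫⁻ v in Ioi (0 : ℝ), ENNReal.ofReal E * ∫⁻ t in Ioi (1 : ℝ), ENNReal.ofReal (‖Huv t v‖ * (1 + t / q)) := by
        refine lintegral_mono_ae ((ae_restrict_iff' measurableSet_Ioi).mpr (Filter.Eventually.of_forall (fun v hv => ?_)))
        rw [D08_abel_u hq b h hE hA hv, enorm_neg]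
        refine (enorm_integral_le_lintegral_enorm _).trans ?_
        rw [← lintegral_const_mul' _ _ ENNReal.ofReal_ne_top]
        refine lintegral_mono_ae ((ae_restrict_iff' measurableSet_Ioi).mpr (Filter.Eventually.of_forall (fun t ht => ?_)))
        have ht0 : (0 : ℝ) < t := lt_trans one_pos ht
        have hv' : (0 : ℝ) < v := hv
        rw [← ENNReal.ofReal_mul hE, ← ofReal_norm]
        refine ENNReal.ofReal_le_ofReal ?_
        rw [norm_mul, Complex.norm_real, Real.norm_eq_abs]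
        calc ‖Huv t v‖ * |AA q b t v| ≤ ‖Huv t v‖ * (E * (1 + t / q)) :=
              mul_le_mul_of_nonneg_left (hA t v ht0.le hv'.le) (norm_nonneg _)
          _ = E * (‖Huv t v‖ * (1 + t / q)) := by ring
    _ = ENNReal.ofReal E * ∫⁻ v in Ioi (0 : ℝ), ∫⁻ t in Ioi (1 : ℝ), ENNReal.ofReal (‖Huv t v‖ * (1 + t / q)) :=
        lintegral_const_mul' _ _ ENNReal.ofReal_ne_top
    _ = _ := by
        rw [hprod] at hmeas ⊢
        rw [lintegral_prod_symm _ hmeas]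

end Pool.Agent.LibF4D
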