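import Mathlib
import Pool.Agent.LibF4D.KDefs
import Pool.Agent.LibF4D.DDefs
import Pool.Agent.LibF4D.D05

/-! Row D09.
Arithmetic: m1 = gcd(m, cn), N = cn/m1, g = gcd(u, N), u = g u1, q1 = N/g = qg, (u1,q1) = 1. cn | u v m - r iff m1 | r and N | u v (m/m1) - r/m1 iff g m1 | r and q1 | u1 v (m/m1) - r/(m1 g) iff (v : ZMod q1) = bg * u1⁻¹
((m/m1, q1) = 1). So the sum over (u,v) splits over g ∈ gS. Absolute summability of the double sum from D05 with g = 1 (|H0 m r κ f u v| ≤ B v/(u²(1+v)³)); tsum over ℕ×ℕ = iterated (Summable.tsum_prod), then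
Finset sum over g and the injection u1 ↦ g u1 (tsum over the fibre).
-/

set_option autoImplicit false

namespace Pool.Agent.LibF4D

open MeasureTheory Set Filter Topology

theorem D09_arith {m n r c u v : ℕ} (hn : 1 ≤ n) (hc : 1 ≤ c)
    {g : ℕ} (hg : g = Nat.gcd u (c * n / Nat.gcd m (c * n))) :
    (((c * n : ℕ) : ℤ) ∣ ((u * v * m : ℕ) : ℤ) - (r : ℤ)) ↔
      (g * Nat.gcd m (c * n) ∣ r ∧ (v : ZMod (qg m n c g)) = bg m n r c g * (((u / g : ℕ) : ZMod (qg m n c g)))⁻¹) := by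
  have hcn : 0 < c * n := Nat.mul_pos hc hn
  obtain ⟨M, hM⟩ : ∃ M, M = Nat.gcd m (c * n) := ⟨_, rfl⟩
  have hMpos : 0 < M := by rw [hM]; exact Nat.gcd_pos_of_pos_right _ hcn
  obtain ⟨m', hm'⟩ : M ∣ m := by rw [hM]; exact Nat.gcd_dvd_left _ _
  obtain ⟨N, hN⟩ : M ∣ c * n := by rw [hM]; exact Nat.gcd_dvd_right _ _
  have hNpos : 0 < N := by
    rcases Nat.eq_zero_or_pos N with h | h
    · rw [h, mul_zero] at hN; omega
    · exact h
  have hcop : Nat.Coprime m' N := by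
    have h1 : Nat.gcd (M * m') (M * N) = M := by rw [← hm', ← hN]; exact hM.symm
    rw [Nat.gcd_mul_left] at h1
    have h2 : M * Nat.gcd m' N = M * 1 := by rw [h1, mul_one]
    exact Nat.eq_of_mul_eq_mul_left hMpos h2
  have hNd : c * n / Nat.gcd m (c * n) = N := by
    rw [← hM, hN]; exact Nat.mul_div_cancel_left _ hMpos
  have hmd : m / Nat.gcd m (c * n) = m' := by
    rw [← hM]
    conv_lhs => rw [hm']
    exact Nat.mul_div_cancel_left _ hMpos
  rw [hNd] at hg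
  have hgpos : 0 < g := by rw [hg]; exact Nat.gcd_pos_of_pos_right _ hNpos
  obtain ⟨u1, hu1⟩ : g ∣ u := by rw [hg]; exact Nat.gcd_dvd_left _ _
  obtain ⟨q, hq⟩ : g ∣ N := by rw [hg]; exact Nat.gcd_dvd_right _ _
  have hcop1 : Nat.Coprime u1 q := by
    have h1 : Nat.gcd (g * u1) (g * q) = g := by rw [← hu1, ← hq]; exact hg.symm
    rw [Nat.gcd_mul_left] at h1
    have h2 : g * Nat.gcd u1 q = g * 1 := by rw [h1, mul_one]
    exact Nat.eq_of_mul_eq_mul_left hgpos h2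
  have hcop2 : Nat.Coprime m' q := by
    rw [hq] at hcop
    exact Nat.Coprime.coprime_mul_left_right hcop
  have hqg : qg m n c g = q := by
    unfold qg
    rw [hNd, hq]; exact Nat.mul_div_cancel_left _ hgpos
  have hud : u / g = u1 := by
    conv_lhs => rw [hu1]
    exact Nat.mul_div_cancel_left _ hgpos
  have key : (((c * n : ℕ) : ℤ) ∣ ((u * v * m : ℕ) : ℤ) - (r : ℤ)) ↔
      ∃ r1 : ℕ, r = g * M * r1 ∧ ((q : ℤ) ∣ ((u1 * v * m' : ℕ) : ℤ) - (r1 : ℤ)) := by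
    have hgM : ((g : ℤ) * M) ≠ 0 := by positivity
    constructor
    · intro h
      have h1 : ((g * M : ℕ) : ℤ) ∣ (r : ℤ) := by
        have h2 : ((g * M : ℕ) : ℤ) ∣ ((c * n : ℕ) : ℤ) := by
          rw [hN, hq]
          exact ⟨q, by push_cast; ring⟩
        have h3 : ((g * M : ℕ) : ℤ) ∣ ((u * v * m : ℕ) : ℤ) := by
          rw [hu1, hm']
          exact ⟨u1 * v * m', by push_cast; ring⟩
        have h4 := dvd_sub h3 (h2.trans h)
        simpa using h4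
      obtain ⟨r1, hr1⟩ := Int.natCast_dvd_natCast.mp h1
      refine ⟨r1, hr1, ?_⟩
      obtain ⟨k, hk⟩ := h
      refine ⟨k, ?_⟩
      have h5 : ((g : ℤ) * M) * (((u1 * v * m' : ℕ) : ℤ) - (r1 : ℤ)) = ((g : ℤ) * M) * (q * k) := by
        have h6 : ((c * n : ℕ) : ℤ) = (M : ℤ) * (g * q) := by rw [hN, hq]; push_cast; ring
        have h7 : ((u * v * m : ℕ) : ℤ) = (g : ℤ) * u1 * v * (M * m') := by
          rw [hu1, hm']; push_cast; ring
        have h8 : (r : ℤ) = (g : ℤ) * M * r1 := by rw [hr1]; push_cast; ring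
        rw [h6, h7, h8] at hk
        push_cast
        linear_combination hk
      exact mul_left_cancel₀ hgM h5
    · rintro ⟨r1, hr1, k, hk⟩
      refine ⟨k, ?_⟩
      have h6 : ((c * n : ℕ) : ℤ) = (M : ℤ) * (g * q) := by rw [hN, hq]; push_cast; ring
      have h7 : ((u * v * m : ℕ) : ℤ) = (g : ℤ) * u1 * v * (M * m') := by
        rw [hu1, hm']; push_cast; ring
      have h8 : (r : ℤ) = (g : ℤ) * M * r1 := by rw [hr1]; push_cast; ring
      rw [h6, h7, h8]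
      push_cast at hk
      linear_combination ((g : ℤ) * M) * hk
  rw [key]
  have hz : ∀ r1 : ℕ, ((q : ℤ) ∣ ((u1 * v * m' : ℕ) : ℤ) - (r1 : ℤ)) ↔
      ((v : ZMod q) = ((r1 : ℕ) : ZMod q) * ((m' : ℕ) : ZMod q)⁻¹ * ((u1 : ℕ) : ZMod q)⁻¹) := by
    intro r1
    have e1 : ((q : ℤ) ∣ ((u1 * v * m' : ℕ) : ℤ) - (r1 : ℤ)) ↔ ((r1 : ZMod q) = ((u1 * v * m' : ℕ) : ZMod q)) := by
      have := (ZMod.intCast_eq_intCast_iff_dvd_sub (r1 : ℤ) ((u1 * v * m' : ℕ) : ℤ) q).symm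
      simpa using this
    rw [e1]
    have i1 := ZMod.coe_mul_inv_eq_one u1 hcop1
    have i2 := ZMod.coe_mul_inv_eq_one m' hcop2
    constructor
    · intro h
      rw [h]
      push_cast
      have : (u1 : ZMod q) * v * m' * (m' : ZMod q)⁻¹ * (u1 : ZMod q)⁻¹ =
        v * ((u1 : ZMod q) * (u1 : ZMod q)⁻¹) * ((m' : ZMod q) * (m' : ZMod q)⁻¹) := by ring
      rw [this, i1, i2]; ring
    · intro h
      push_cast
      rw [h]
      have : (u1 : ZMod q) * ((r1 : ZMod q) * (m' : ZMod q)⁻¹ * (u1 : ZMod q)⁻¹) * m' =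
        r1 * ((u1 : ZMod q) * (u1 : ZMod q)⁻¹) * ((m' : ZMod q) * (m' : ZMod q)⁻¹) := by ring
      rw [this, i1, i2]; ring
  have hbg : bg m n r c g = ((r / (g * M) : ℕ) : ZMod (qg m n c g)) * ((m' : ℕ) : ZMod (qg m n c g))⁻¹ := by
    unfold bg
    rw [hmd, ← hM]
  rw [hbg, hud, ← hM, hqg]
  constructor
  · rintro ⟨r1, hr1, h⟩
    refine ⟨⟨r1, hr1⟩, ?_⟩
    have h2 : r / (g * M) = r1 := by
      rw [hr1]; exact Nat.mul_div_cancel_left _ (Nat.mul_pos hgpos hMpos)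
    rw [h2]
    exact (hz r1).mp h
  · rintro ⟨⟨r1, hr1⟩, h⟩
    refine ⟨r1, hr1, (hz r1).mpr ?_⟩
    have h2 : r / (g * M) = r1 := by
      rw [hr1]; exact Nat.mul_div_cancel_left _ (Nat.mul_pos hgpos hMpos)
    rw [h2] at h
    exact h

theorem D09_sum {F : ℝ → ℝ → ℂ} {B : ℝ} (hF : ∀ u v : ℝ, 1 ≤ u → 0 < v → ‖F u v‖ ≤ B * v / (u ^ 2 * (1 + v) ^ 3))
    (P : ℕ × ℕ → Prop) [DecidablePred P] :
    Summable fun p : ℕ × ℕ => if 1 ≤ p.1 ∧ 1 ≤ p.2 ∧ P p then F p.1 p.2 else 0 := by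
  have hB : 0 ≤ B := by
    have h1 := (norm_nonneg _).trans (hF 1 1 le_rfl one_pos)
    norm_num at h1
    linarith
  have hs : Summable fun k : ℕ => 1 / ((k : ℝ) + 1) ^ 2 := by
    have h2 : Summable fun k : ℕ => 1 / (k : ℝ) ^ 2 := Real.summable_one_div_nat_pow.mpr (by norm_num)
    have h3 := (summable_nat_add_iff 1).mpr h2
    refine h3.congr (fun k => by push_cast; rfl)
  have hs2 : Summable fun p : ℕ × ℕ => (4 * B * (1 / ((p.1 : ℝ) + 1) ^ 2)) * (1 / ((p.2 : ℝ) + 1) ^ 2) :=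
    Summable.mul_of_nonneg (hs.mul_left (4 * B)) hs (fun k => by positivity) (fun k => by positivity)
  refine Summable.of_norm_bounded hs2 (fun p => ?_)
  split_ifs with h
  · obtain ⟨h1, h2, -⟩ := h
    have h1' : (1 : ℝ) ≤ p.1 := by exact_mod_cast h1
    have h2' : (1 : ℝ) ≤ p.2 := by exact_mod_cast h2
    refine (hF p.1 p.2 h1' (by linarith)).trans ?_
    have e1 : B * (p.2 : ℝ) / ((p.1 : ℝ) ^ 2 * (1 + p.2) ^ 3) ≤ B / ((p.1 : ℝ) ^ 2 * (1 + p.2) ^ 2) := by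
      rw [div_le_div_iff₀ (by positivity) (by positivity)]
      have : B * (p.2 : ℝ) * ((p.1 : ℝ) ^ 2 * (1 + p.2) ^ 2) ≤ B * (1 + p.2) * ((p.1 : ℝ) ^ 2 * (1 + p.2) ^ 2) := by
        gcongr
        linarith
      refine this.trans (le_of_eq (by ring))
    refine e1.trans ?_
    have e2 : (4 * B * (1 / ((p.1 : ℝ) + 1) ^ 2)) * (1 / ((p.2 : ℝ) + 1) ^ 2) =
        4 * B / (((p.1 : ℝ) + 1) ^ 2 * ((p.2 : ℝ) + 1) ^ 2) := by
      field_simp
    rw [e2, div_le_div_iff₀ (by positivity) (by positivity)]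
    have e3 : ((p.1 : ℝ) + 1) ^ 2 ≤ 4 * (p.1 : ℝ) ^ 2 := by nlinarith
    have e4 : B * (((p.1 : ℝ) + 1) ^ 2 * ((p.2 : ℝ) + 1) ^ 2) ≤ B * ((4 * (p.1 : ℝ) ^ 2) * ((p.2 : ℝ) + 1) ^ 2) := by
      gcongr
    refine e4.trans (le_of_eq (by ring))
  · rw [norm_zero]; positivity

/-- D09: decomposition of `Tc` -/
theorem D09_Tc {m n r c : ℕ} {f f1 f2 : ℝ → ℂ} {K X : ℝ} (hm : 1 ≤ m) (hn : 1 ≤ n) (hr : 1 ≤ r) (hc : 1 ≤ c)
    (hf : Flat f f1 f2 K X) (hK : 0 ≤ K) (hX : 1 ≤ X) :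
    Tc m n r c f = ∑ g ∈ gS m n r c, Inner (qg m n c g) (bg m n r c g) (fun u v => H0 m r ((c : ℝ) ^ 2 * n) f (g * u) v) := by
  classical
  have hm' : (1 : ℝ) ≤ m := by exact_mod_cast hm
  have hr' : (1 : ℝ) ≤ r := by exact_mod_cast hr
  have hκ : (1 : ℝ) ≤ (c : ℝ) ^ 2 * n := by
    have h1 : (1 : ℝ) ≤ c := by exact_mod_cast hc
    have h2 : (1 : ℝ) ≤ n := by exact_mod_cast hn
    nlinarith
  obtain ⟨B, hB⟩ := D05_Reg (g := 1) hm' hr' hκ hf hK hX le_rfl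
  have hb : ∀ u v : ℝ, 1 ≤ u → 0 < v → ‖H0 m r ((c : ℝ) ^ 2 * n) f u v‖ ≤ B * v / (u ^ 2 * (1 + v) ^ 3) := by
    intro u v hu hv
    have := hB.b0 u v hu hv
    simpa using this
  obtain ⟨F, hFdef⟩ : ∃ F : ℝ → ℝ → ℂ, F = fun u v => H0 m r ((c : ℝ) ^ 2 * n) f u v := ⟨_, rfl⟩
  have hbF : ∀ u v : ℝ, 1 ≤ u → 0 < v → ‖F u v‖ ≤ B * v / (u ^ 2 * (1 + v) ^ 3) := by
    rw [hFdef]; exact hb
  have hcn : 0 < c * n := Nat.mul_pos hc hn
  obtain ⟨M, hM⟩ : ∃ M, M = Nat.gcd m (c * n) := ⟨_, rfl⟩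
  have hMpos : 0 < M := by rw [hM]; exact Nat.gcd_pos_of_pos_right _ hcn
  obtain ⟨N, hN⟩ : ∃ N, N = c * n / Nat.gcd m (c * n) := ⟨_, rfl⟩
  have hNpos : 0 < N := by
    rw [hN]
    exact Nat.div_pos (Nat.gcd_le_right _ hcn) (Nat.gcd_pos_of_pos_right _ hcn)
  -- the sum as an iterated sum
  have hsum := D09_sum hbF (fun p => ((c * n : ℕ) : ℤ) ∣ ((p.1 * p.2 * m : ℕ) : ℤ) - (r : ℤ))
  obtain ⟨Ψ, hΨ⟩ : ∃ Ψ : ℕ → ℕ → ℂ, Ψ = fun g u => ∑' v : ℕ,
      (if 1 ≤ v ∧ (v : ZMod (qg m n c g)) = bg m n r c g * (((u / g : ℕ) : ZMod (qg m n c g)))⁻¹ then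
        F (u : ℝ) (v : ℝ) else 0) := ⟨_, rfl⟩
  have hT : Tc m n r c f = ∑' u : ℕ, ∑' v : ℕ,
      (if 1 ≤ u ∧ 1 ≤ v ∧ ((c * n : ℕ) : ℤ) ∣ ((u * v * m : ℕ) : ℤ) - (r : ℤ) then F (u : ℝ) (v : ℝ) else 0) := by
    unfold Tc
    rw [← hsum.tsum_prod]
    refine tsum_congr fun p => ?_
    rw [hFdef]
  have hinner : ∀ u : ℕ, ∑' v : ℕ,
      (if 1 ≤ u ∧ 1 ≤ v ∧ ((c * n : ℕ) : ℤ) ∣ ((u * v * m : ℕ) : ℤ) - (r : ℤ) then F (u : ℝ) (v : ℝ) else 0) =
      ∑ g ∈ gS m n r c, (if 1 ≤ u ∧ Nat.gcd u N = g then Ψ g u else 0) := by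
    intro u
    by_cases hu : 1 ≤ u
    · obtain ⟨g, hg⟩ : ∃ g, g = Nat.gcd u N := ⟨_, rfl⟩
      have hg' : g = Nat.gcd u (c * n / Nat.gcd m (c * n)) := by rw [hg, hN]
      have hgN : g ∈ N.divisors := by
        rw [Nat.mem_divisors]
        exact ⟨by rw [hg]; exact Nat.gcd_dvd_right _ _, hNpos.ne'⟩
      by_cases hgr : g * M ∣ r
      · have hgS : g ∈ gS m n r c := by
          unfold gS
          rw [Finset.mem_filter, ← hN, ← hM]
          exact ⟨hgN, hgr⟩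
        rw [Finset.sum_eq_single g]
        · rw [if_pos ⟨hu, hg.symm⟩, hΨ]
          refine tsum_congr fun v => ?_
          by_cases hv : 1 ≤ v
          · have h1 := D09_arith (r := r) (v := v) hn hc hg'
            rw [← hM] at h1
            by_cases hd : ((c * n : ℕ) : ℤ) ∣ ((u * v * m : ℕ) : ℤ) - (r : ℤ)
            · rw [if_pos ⟨hu, hv, hd⟩, if_pos ⟨hv, (h1.mp hd).2⟩]
            · rw [if_neg (fun h => hd h.2.2), if_neg (fun h => hd (h1.mpr ⟨hgr, h.2⟩))]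
          · rw [if_neg (fun h => hv h.2.1), if_neg (fun h => hv h.1)]
        · intro g2 _ hne
          rw [if_neg]
          rintro ⟨-, h⟩
          exact hne (by rw [← h, hg])
        · intro h; exact absurd hgS h
      · rw [Finset.sum_eq_zero]
        · refine (tsum_congr fun v => ?_).trans tsum_zero
          rw [if_neg]
          rintro ⟨-, -, hd⟩
          have h1 := (D09_arith (r := r) (v := v) hn hc hg').mp hd
          rw [← hM] at h1
          exact hgr h1.1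
        · intro g2 hg2
          rw [if_neg]
          rintro ⟨-, h⟩
          unfold gS at hg2
          rw [Finset.mem_filter, ← hM] at hg2
          apply hgr
          rw [hg, h]
          exact hg2.2
    · rw [Finset.sum_eq_zero]
      · refine (tsum_congr fun v => ?_).trans tsum_zero
        rw [if_neg (fun h => hu h.1)]
      · intro g _
        rw [if_neg (fun h => hu h.1)]
  -- summability of each part
  have hpart : ∀ g ∈ gS m n r c, Summable fun u : ℕ => (if 1 ≤ u ∧ Nat.gcd u N = g then Ψ g u else 0) := by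
    intro g hgS
    have h2 := D09_sum hbF (fun p => Nat.gcd p.1 N = g ∧
      (p.2 : ZMod (qg m n c g)) = bg m n r c g * (((p.1 / g : ℕ) : ZMod (qg m n c g)))⁻¹)
    have h3 := h2.prod
    refine h3.congr fun u => ?_
    by_cases hu : 1 ≤ u ∧ Nat.gcd u N = g
    · rw [if_pos hu, hΨ]
      refine tsum_congr fun v => ?_
      by_cases hv : 1 ≤ v ∧ (v : ZMod (qg m n c g)) = bg m n r c g * (((u / g : ℕ) : ZMod (qg m n c g)))⁻¹
      · rw [if_pos hv, if_pos ⟨hu.1, hv.1, hu.2, hv.2⟩]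
      · rw [if_neg hv, if_neg (fun h => hv ⟨h.2.1, h.2.2.2⟩)]
    · rw [if_neg hu]
      refine (tsum_congr fun v => ?_).trans tsum_zero
      rw [if_neg (fun h => hu ⟨h.1, h.2.2.1⟩)]
  rw [hT, tsum_congr hinner, Summable.tsum_finsetSum hpart]
  refine Finset.sum_congr rfl fun g hgS => ?_
  have hgS' := hgS
  unfold gS at hgS'
  rw [Finset.mem_filter, ← hN, Nat.mem_divisors] at hgS'
  obtain ⟨⟨hgN, -⟩, -⟩ := hgS'
  have hgpos : 0 < g := Nat.pos_of_dvd_of_pos hgN hNpos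
  obtain ⟨q, hq⟩ := hgN
  have hqg : qg m n c g = q := by
    unfold qg
    rw [← hN, hq]; exact Nat.mul_div_cancel_left _ hgpos
  have hinj : Function.Injective fun w : ℕ => g * w := fun a b h => Nat.eq_of_mul_eq_mul_left hgpos h
  rw [← hinj.tsum_eq (f := fun u : ℕ => (if 1 ≤ u ∧ Nat.gcd u N = g then Ψ g u else 0))]
  · unfold Inner
    refine tsum_congr fun w => ?_
    have hiff : (1 ≤ g * w ∧ Nat.gcd (g * w) N = g) ↔ (1 ≤ w ∧ Nat.Coprime w (qg m n c g)) := by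
      rw [hqg]
      have h4 : Nat.gcd (g * w) N = g ↔ Nat.Coprime w q := by
        rw [hq, Nat.gcd_mul_left]
        constructor
        · intro h
          exact Nat.eq_of_mul_eq_mul_left hgpos (by rw [h, mul_one])
        · intro h
          rw [Nat.Coprime] at h
          rw [h, mul_one]
      rw [h4]
      constructor
      · rintro ⟨h5, h6⟩
        refine ⟨?_, h6⟩
        rcases Nat.eq_zero_or_pos w with h | h
        · rw [h, mul_zero] at h5; omega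
        · exact h
      · rintro ⟨h5, h6⟩
        exact ⟨Nat.mul_pos hgpos h5, h6⟩
    by_cases hw : 1 ≤ w ∧ Nat.Coprime w (qg m n c g)
    · rw [if_pos hw, if_pos (hiff.mpr hw), hΨ]
      refine tsum_congr fun v => ?_
      rw [Nat.mul_div_cancel_left _ hgpos, hFdef]
      push_cast
      rfl
    · rw [if_neg hw, if_neg (fun h => hw (hiff.mp h))]
  · intro u hu
    rw [Function.mem_support] at hu
    by_contra hne
    apply hu
    rw [if_neg]
    rintro ⟨-, h⟩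
    apply hne
    have h7 : g ∣ u := by rw [← h]; exact Nat.gcd_dvd_left _ _
    obtain ⟨w, hw⟩ := h7
    exact ⟨w, hw.symm⟩

end Pool.Agent.LibF4D
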