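import Mathlib
import Pool.Agent.LibF4D.KDefs
import Pool.Agent.LibF4D.DDefs

/-! Row D10.
Elementary gcd arithmetic. gcd(val(r' * m'⁻¹), q1) = gcd(r', q1) ≤ r' ≤ r since m' = m/m1 is coprime to q1 (ZMod unit). For q1 = 1 everything is trivial.
-/

set_option autoImplicit false

namespace Pool.Agent.LibF4D

open MeasureTheory Set Filter Topology

/-- D10: facts on the moduli -/
theorem D10_q {m n r c g : ℕ} (hm : 1 ≤ m) (hn : 1 ≤ n) (hr : 1 ≤ r) (hc : 1 ≤ c) (hg : g ∈ gS m n r c) :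
    1 ≤ g ∧ g ∣ r ∧ 1 ≤ qg m n c g ∧ qg m n c g ∣ c * n ∧ g * qg m n c g * m ≥ c ∧
      Nat.gcd (ZMod.val (bg m n r c g)) (qg m n c g) ≤ r := by
  unfold gS at hg
  rw [Finset.mem_filter, Nat.mem_divisors] at hg
  obtain ⟨⟨hgQ, hQ0⟩, hgr⟩ := hg
  have hcn : 0 < c * n := Nat.mul_pos hc hn
  set m1 := Nat.gcd m (c * n) with hm1
  have hm1m : m1 ∣ m := Nat.gcd_dvd_left _ _
  have hm1c : m1 ∣ c * n := Nat.gcd_dvd_right _ _
  have hm1pos : 0 < m1 := Nat.gcd_pos_of_pos_left _ hm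
  have hQm : c * n / m1 * m1 = c * n := Nat.div_mul_cancel hm1c
  have hgpos : 0 < g := Nat.pos_of_ne_zero (fun h => by rw [h] at hgQ; exact hQ0 (Nat.eq_zero_of_zero_dvd hgQ))
  have hq : qg m n c g = c * n / m1 / g := rfl
  have hgq : g * qg m n c g = c * n / m1 := by rw [hq]; exact Nat.mul_div_cancel' hgQ
  have hqpos : 0 < qg m n c g := by
    apply Nat.pos_of_ne_zero
    intro h
    rw [h, mul_zero] at hgq
    exact hQ0 hgq.symm
  have hqQ : qg m n c g ∣ c * n / m1 := Dvd.intro_left g hgq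
  refine ⟨hgpos, (Dvd.intro _ rfl).trans hgr, hqpos, hqQ.trans (Nat.div_dvd_of_dvd hm1c), ?_, ?_⟩
  · rw [hgq]
    have h1 : c * n / m1 * m1 ≤ c * n / m1 * m := Nat.mul_le_mul_left _ (Nat.le_of_dvd hm hm1m)
    rw [hQm] at h1
    have h2 : c ≤ c * n := Nat.le_mul_of_pos_right c hn
    exact h2.trans h1
  · have : NeZero (qg m n c g) := ⟨hqpos.ne'⟩
    set q1 := qg m n c g with hq1
    set x := ZMod.val (bg m n r c g) with hx
    have hcop : Nat.Coprime (m / m1) q1 := by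
      have h1 : Nat.Coprime (m / m1) (c * n / m1) := Nat.coprime_div_gcd_div_gcd hm1pos
      exact Nat.Coprime.coprime_dvd_right hqQ h1
    have hxc : (x : ZMod q1) = bg m n r c g := ZMod.natCast_zmod_val _
    have hmod : ((x * (m / m1) : ℕ) : ZMod q1) = ((r / (g * m1) : ℕ) : ZMod q1) := by
      rw [Nat.cast_mul, hxc]
      unfold bg
      rw [mul_assoc, mul_comm ((((m / Nat.gcd m (c * n) : ℕ)) : ZMod (qg m n c g)))⁻¹]
      rw [ZMod.coe_mul_inv_eq_one _ hcop, mul_one]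
    have hmod2 : x * (m / m1) ≡ r / (g * m1) [MOD q1] := (ZMod.natCast_eq_natCast_iff _ _ _).mp hmod
    have hd1 : Nat.gcd x q1 ∣ x * (m / m1) := (Nat.gcd_dvd_left x q1).mul_right _
    have hd2 : Nat.gcd x q1 ∣ r / (g * m1) := (hmod2.dvd_iff (Nat.gcd_dvd_right x q1)).mp hd1
    have hr' : 0 < r / (g * m1) := Nat.div_pos (Nat.le_of_dvd hr hgr) (Nat.mul_pos hgpos hm1pos)
    exact (Nat.le_of_dvd hr' hd2).trans (Nat.div_le_self _ _)

theorem D10_card {m n r c : ℕ} (hr : 1 ≤ r) : (gS m n r c).card ≤ r := by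
  have h1 : gS m n r c ⊆ r.divisors := by
    intro g hg
    unfold gS at hg
    rw [Finset.mem_filter] at hg
    rw [Nat.mem_divisors]
    exact ⟨(Dvd.intro _ rfl).trans hg.2, by omega⟩
  exact (Finset.card_le_card h1).trans (Nat.card_divisors_le_self r)

end Pool.Agent.LibF4D
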