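import Mathlib
import Pool.Agent.LibF4D.KDefs

/-! Row K04a.
Factorizations: pw q is a subproduct of q = ∏ p^{v_p(q)}. mono: every p with v_p(q) ≥ 2 has v_p(n) ≥ v_p(q) ≥ 2 (q ≠ 0 as it divides n ≠ 0).
pw (c n) ≤ pw c * n^2: for p | cn with v_p(cn) ≥ 2: if v_p(c) ≥ 2 then p^{v_p(cn)} = p^{v_p(c)} p^{v_p(n)};
if v_p(c) ≤ 1 then v_p(n) ≥ 1 and v_p(c)+v_p(n) ≤ 2 v_p(n). Easiest: pw(cn) ∣ pw c * n^2, compare factorizations, or product over the union of the primes.
-/

set_option autoImplicit false

namespace Pool.Agent.LibF4D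

open Finset

theorem K04a_one_le {q p : ℕ} (hp : p ∈ q.primeFactors) (e : ℕ) : 1 ≤ p ^ e :=
  Nat.one_le_pow _ _ (Nat.prime_of_mem_primeFactors hp).pos

/-- K04: arithmetic of `KB` -/
theorem K04_pw_dvd (q : ℕ) : pw q ∣ q := by
  rcases Nat.eq_zero_or_pos q with rfl | hq
  · exact dvd_zero _
  · have h1 : pw q ∣ ∏ p ∈ q.primeFactors, p ^ q.factorization p := by
      unfold pw
      exact Finset.prod_dvd_prod_of_subset _ _ _ (Finset.filter_subset _ _)
    have h2 : ∏ p ∈ q.primeFactors, p ^ q.factorization p = q :=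
      Nat.prod_factorization_pow_eq_self hq.ne'
    rw [h2] at h1
    exact h1

theorem K04_pw_pos (q : ℕ) : 0 < pw q := by
  unfold pw
  apply Finset.prod_pos
  intro p hp
  exact K04a_one_le (Finset.mem_of_mem_filter p hp) _

theorem K04_pw_mono {q n : ℕ} (hn : n ≠ 0) (h : q ∣ n) : pw q ≤ pw n := by
  have hq : q ≠ 0 := by
    rintro rfl
    exact hn (Nat.eq_zero_of_zero_dvd h)
  have hle : ∀ p, q.factorization p ≤ n.factorization p :=
    (Nat.factorization_le_iff_dvd hq hn).mpr h
  have hsub : q.primeFactors.filter (fun p => 2 ≤ q.factorization p) ⊆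
      n.primeFactors.filter (fun p => 2 ≤ n.factorization p) := by
    intro p hp
    rw [Finset.mem_filter] at hp ⊢
    exact ⟨Nat.primeFactors_mono h hn hp.1, hp.2.trans (hle p)⟩
  unfold pw
  calc ∏ p ∈ q.primeFactors.filter (fun p => 2 ≤ q.factorization p), p ^ q.factorization p
      ≤ ∏ p ∈ q.primeFactors.filter (fun p => 2 ≤ q.factorization p), p ^ n.factorization p := by
        apply Finset.prod_le_prod'
        intro p hp
        exact Nat.pow_le_pow_right
          (Nat.prime_of_mem_primeFactors (Finset.mem_of_mem_filter p hp)).pos (hle p)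
    _ ≤ ∏ p ∈ n.primeFactors.filter (fun p => 2 ≤ n.factorization p), p ^ n.factorization p := by
        apply Finset.prod_le_prod_of_subset_of_one_le' hsub
        intro p hp _
        exact K04a_one_le (Finset.mem_of_mem_filter p hp) _

theorem K04a_part {n : ℕ} (hn : 1 ≤ n) (S : Finset ℕ) :
    ∏ p ∈ S, p ^ n.factorization p ≤ n := by
  have h1 : ∏ p ∈ S, p ^ n.factorization p = ∏ p ∈ S ∩ n.primeFactors, p ^ n.factorization p := by
    symm
    apply Finset.prod_subset Finset.inter_subset_left
    intro p hp hnot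
    have hnp : p ∉ n.primeFactors := fun h => hnot (Finset.mem_inter.mpr ⟨hp, h⟩)
    have h0 : n.factorization p = 0 := by
      rw [← Nat.support_factorization] at hnp
      exact Finsupp.notMem_support_iff.mp hnp
    rw [h0, pow_zero]
  have h2 : ∏ p ∈ n.primeFactors, p ^ n.factorization p = n :=
    Nat.prod_factorization_pow_eq_self (by omega)
  rw [h1]
  calc ∏ p ∈ S ∩ n.primeFactors, p ^ n.factorization p
      ≤ ∏ p ∈ n.primeFactors, p ^ n.factorization p := by
        apply Finset.prod_le_prod_of_subset_of_one_le' Finset.inter_subset_right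
        intro p hp _
        exact K04a_one_le hp _
    _ = n := h2

theorem K04_pw_mul_le {c n : ℕ} (hc : 1 ≤ c) (hn : 1 ≤ n) : pw (c * n) ≤ pw c * n ^ 2 := by
  have hf : ∀ p, (c * n).factorization p = c.factorization p + n.factorization p := by
    intro p
    rw [Nat.factorization_mul (by omega) (by omega)]
    rfl
  set A := (c * n).primeFactors.filter (fun p => 2 ≤ (c * n).factorization p) with hA
  have h1 : pw (c * n) ≤ ∏ p ∈ A, ((if 2 ≤ c.factorization p then p ^ c.factorization p else 1) *
      (p ^ n.factorization p) ^ 2) := by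
    unfold pw
    rw [← hA]
    apply Finset.prod_le_prod'
    intro p hp
    have hp1 := Finset.mem_filter.mp hp
    have hpp : 1 ≤ p := (Nat.prime_of_mem_primeFactors hp1.1).pos
    have h2 := hp1.2
    rw [hf p] at h2 ⊢
    rw [← pow_mul]
    split_ifs with hh
    · rw [← pow_add]
      exact Nat.pow_le_pow_right hpp (by omega)
    · rw [one_mul]
      exact Nat.pow_le_pow_right hpp (by omega)
  rw [Finset.prod_mul_distrib] at h1
  have h3 : ∏ p ∈ A, (if 2 ≤ c.factorization p then p ^ c.factorization p else 1) ≤ pw c := by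
    rw [← Finset.prod_filter]
    unfold pw
    apply Finset.prod_le_prod_of_subset_of_one_le'
    · intro p hp
      rw [Finset.mem_filter] at hp ⊢
      refine ⟨?_, hp.2⟩
      rw [← Nat.support_factorization, Finsupp.mem_support_iff]
      have := hp.2
      omega
    · intro p hp _
      exact K04a_one_le (Finset.mem_of_mem_filter p hp) _
  have h4 : ∏ p ∈ A, (p ^ n.factorization p) ^ 2 ≤ n ^ 2 := by
    rw [Finset.prod_pow]
    exact Nat.pow_le_pow_left (K04a_part hn A) 2
  exact h1.trans (Nat.mul_le_mul h3 h4)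

end Pool.Agent.LibF4D
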