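import Mathlib
import Pool.Agent.LibF4D.KDefs

/-! Row K06.
ζ = stdAddChar h = exp(2πi h.val/q) (ZMod.stdAddChar_apply, ZMod.toCircle) is ≠ 1; geometric sum: norm ≤ 2/|1-ζ| = 1/|sin(π h/q)|;
sin(πx) ≥ 2x on [0,1/2] (Real.mul_le_sin or Mathlib `Real.two_div_pi_mul_le_sin`/ concavity), symmetric under h → q-h.
-/

set_option autoImplicit false

namespace Pool.Agent.LibF4D

open Finset

theorem K06_norm {q : ℕ} [NeZero q] (h : ZMod q) (hh : h ≠ 0) :
    4 * min (h.val : ℝ) (q - h.val) / q ≤ ‖1 - ZMod.stdAddChar h‖ := by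
  have hq : (0 : ℝ) < q := by exact_mod_cast Nat.pos_of_ne_zero (NeZero.ne q)
  have hv : (0 : ℝ) < h.val := by
    have : h.val ≠ 0 := by rwa [Ne, ZMod.val_eq_zero]
    exact_mod_cast Nat.pos_of_ne_zero this
  have hv2 : (h.val : ℝ) < q := by exact_mod_cast ZMod.val_lt h
  have e1 : ZMod.stdAddChar h = Complex.exp (2 * Real.pi * Complex.I * h.val / q) := by
    have := ZMod.stdAddChar_coe (N := q) (h.val : ℤ)
    simpa using this
  have e2 : ‖1 - ZMod.stdAddChar h‖ = 2 * Real.sin (Real.pi * (h.val / q)) := by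
    rw [e1]
    have : Complex.exp (2 * Real.pi * Complex.I * h.val / q)
        = Complex.exp (Complex.I * ((2 * (Real.pi * (h.val / q)) : ℝ) : ℂ)) := by
      congr 1
      push_cast
      ring
    rw [this, norm_sub_rev, Complex.norm_exp_I_mul_ofReal_sub_one]
    have hs : 0 ≤ Real.sin (Real.pi * (h.val / q)) := by
      apply Real.sin_nonneg_of_nonneg_of_le_pi
      · positivity
      · have : (h.val : ℝ) / q ≤ 1 := by
          rw [div_le_one hq]; exact hv2.le
        nlinarith [Real.pi_pos]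
    rw [show 2 * (Real.pi * ((h.val : ℝ) / q)) / 2 = Real.pi * (h.val / q) by ring]
    rw [Real.norm_eq_abs, abs_of_nonneg (by positivity)]
  rw [e2]
  rcases le_total ((h.val : ℝ)) (q - h.val) with hm | hm
  · rw [min_eq_left hm]
    have h1 := Real.mul_le_sin (x := Real.pi * (h.val / q)) (by positivity) (by
      have : (h.val : ℝ) / q ≤ 1 / 2 := by
        rw [div_le_div_iff₀ hq (by norm_num)]; linarith
      nlinarith [Real.pi_pos])
    have e3 : 2 / Real.pi * (Real.pi * (h.val / q)) = 2 * (h.val / q) := by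
      field_simp
    rw [e3] at h1
    calc 4 * (h.val : ℝ) / q = 2 * (2 * (h.val / q)) := by ring
      _ ≤ _ := by linarith
  · rw [min_eq_right hm]
    have h1 := Real.mul_le_sin (x := Real.pi * ((q - h.val) / q)) (by
      have : (0 : ℝ) ≤ q - h.val := by linarith
      positivity) (by
      have : ((q : ℝ) - h.val) / q ≤ 1 / 2 := by
        rw [div_le_div_iff₀ hq (by norm_num)]; linarith
      nlinarith [Real.pi_pos])
    have e3 : 2 / Real.pi * (Real.pi * (((q : ℝ) - h.val) / q)) = 2 * ((q - h.val) / q) := by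
      field_simp
    have e4 : Real.sin (Real.pi * (((q : ℝ) - h.val) / q)) = Real.sin (Real.pi * (h.val / q)) := by
      rw [← Real.sin_pi_sub]
      congr 1
      field_simp
      ring
    rw [e3, e4] at h1
    calc 4 * ((q : ℝ) - h.val) / q = 2 * (2 * ((q - h.val) / q)) := by ring
      _ ≤ _ := by linarith

/-- K06: geometric sums -/
theorem K06_geom {q : ℕ} [NeZero q] (h : ZMod q) (hh : h ≠ 0) (N : ℕ) :
    ‖∑ v ∈ Finset.Icc 1 N, ZMod.stdAddChar (h * (v : ZMod q))‖ ≤ (q : ℝ) / (2 * min (h.val : ℝ) (q - h.val)) := by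
  have hq : (0 : ℝ) < q := by exact_mod_cast Nat.pos_of_ne_zero (NeZero.ne q)
  have hv : (0 : ℝ) < h.val := by
    have : h.val ≠ 0 := by rwa [Ne, ZMod.val_eq_zero]
    exact_mod_cast Nat.pos_of_ne_zero this
  have hv2 : (h.val : ℝ) < q := by exact_mod_cast ZMod.val_lt h
  have hmin : 0 < min (h.val : ℝ) (q - h.val) := lt_min hv (by linarith)
  have hn := K06_norm h hh
  have hpos : 0 < ‖1 - ZMod.stdAddChar h‖ := lt_of_lt_of_le (by positivity) hn
  have e0 : ∀ v : ℕ, ZMod.stdAddChar (h * (v : ZMod q)) = (ZMod.stdAddChar h) ^ v := by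
    intro v
    rw [← AddChar.map_nsmul_eq_pow, nsmul_eq_mul, mul_comm]
  have key : (1 - ZMod.stdAddChar h) * ∑ v ∈ Finset.Icc 1 N, ZMod.stdAddChar (h * (v : ZMod q))
      = ZMod.stdAddChar h - (ZMod.stdAddChar h) ^ (N + 1) := by
    simp only [e0]
    induction N with
    | zero => simp
    | succ n ih =>
      rw [Finset.sum_Icc_succ_top (by omega), mul_add, ih]
      ring
  have h1 : ‖ZMod.stdAddChar h‖ = 1 := by
    simp
  have h2 : ‖1 - ZMod.stdAddChar h‖ * ‖∑ v ∈ Finset.Icc 1 N, ZMod.stdAddChar (h * (v : ZMod q))‖ ≤ 2 := by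
    rw [← norm_mul, key]
    calc _ ≤ ‖ZMod.stdAddChar h‖ + ‖(ZMod.stdAddChar h) ^ (N + 1)‖ := norm_sub_le _ _
      _ = 2 := by rw [norm_pow, h1]; norm_num
  have h3 : ‖∑ v ∈ Finset.Icc 1 N, ZMod.stdAddChar (h * (v : ZMod q))‖ ≤ 2 / ‖1 - ZMod.stdAddChar h‖ := by
    rw [le_div_iff₀ hpos]
    linarith
  calc _ ≤ 2 / ‖1 - ZMod.stdAddChar h‖ := h3
    _ ≤ 2 / (4 * min (h.val : ℝ) (q - h.val) / q) := by
        apply div_le_div_of_nonneg_left (by norm_num) (by positivity) hn
    _ = _ := by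
        field_simp
        ring

end Pool.Agent.LibF4D
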