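import Mathlib
import Pool.Agent.LibF4D.KDefs
import Pool.Agent.LibWeil46.RD2

/-! Row K01.
`Pool.Weil46.weil` (landed; copy Pool/Agent/LibWeil46 from outputs/live origin/main and build) with χ = 1 gives the case a ≠ 0, b ≠ 0.
a = 0, b ≠ 0: the sum over the units of ψ(b u⁻¹) is -1 (AddChar.sum_eq_zero_of_ne_one minus the term 0), norm 1 ≤ 2√p.
The bound by p: card of the units is p-1, every term has norm one (AddChar.norm_apply). ψ primitive → ψ ≠ 1.
-/

set_option autoImplicit false

namespace Pool.Agent.LibF4D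

open Finset

/-- K01 -/
theorem K01_prime {p : ℕ} [Fact p.Prime] {ψ : AddChar (ZMod p) ℂ} (hψ : ψ.IsPrimitive) (a b : ZMod p) :
    ‖kl ψ a b‖ ≤ p ∧ (b ≠ 0 → ‖kl ψ a b‖ ≤ 2 * √(p : ℝ)) := by
  classical
  have hp : p.Prime := Fact.out
  constructor
  · unfold kl
    refine (norm_sum_le _ _).trans ?_
    have h1 : ∀ u ∈ (Finset.univ : Finset (ZMod p)ˣ),
        ‖ψ (a * (u : ZMod p) + b * ((u⁻¹ : (ZMod p)ˣ) : ZMod p))‖ = 1 := fun u _ =>
      AddChar.norm_apply ψ _
    rw [Finset.sum_congr rfl h1]
    simp only [Finset.sum_const, Finset.card_univ, nsmul_eq_mul, mul_one]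
    rw [ZMod.card_units_eq_totient]
    exact_mod_cast Nat.totient_le p
  · intro hb
    have hψ1 : ψ ≠ 1 := by
      intro h
      apply hψ (one_ne_zero : (1 : ZMod p) ≠ 0)
      rw [h]
      ext x
      simp
    by_cases ha : a = 0
    · subst ha
      have hnorm : kl ψ 0 b = -1 := by
        unfold kl
        have h1 : ∑ u : (ZMod p)ˣ, ψ (0 * (u : ZMod p) + b * ((u⁻¹ : (ZMod p)ˣ) : ZMod p))
            = ∑ u : (ZMod p)ˣ, ψ (b * (u : ZMod p)) := by
          refine Fintype.sum_equiv (Equiv.inv (ZMod p)ˣ) _ _ (fun u => ?_)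
          rw [zero_mul, zero_add]
          rfl
        rw [h1]
        have h2 : ∑ x : ZMod p, ψ (b * x) = 0 := by
          have h3 : AddChar.mulShift ψ b ≠ 1 := hψ hb
          have h4 := AddChar.sum_eq_zero_of_ne_one h3
          simpa [AddChar.mulShift_apply] using h4
        have h5 : ∑ x : ZMod p, ψ (b * x) = ψ (b * 0) + ∑ u : (ZMod p)ˣ, ψ (b * (u : ZMod p)) := by
          rw [← Finset.add_sum_erase Finset.univ (fun x => ψ (b * x)) (Finset.mem_univ (0 : ZMod p))]
          congr 1
          symm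
          refine Finset.sum_bij (fun (u : (ZMod p)ˣ) _ => (u : ZMod p)) ?_ ?_ ?_ ?_
          · intro u _
            rw [Finset.mem_erase]
            exact ⟨u.ne_zero, Finset.mem_univ _⟩
          · intro u _ v _ h
            exact Units.ext h
          · intro x hx
            rw [Finset.mem_erase] at hx
            exact ⟨Units.mk0 x hx.1, Finset.mem_univ _, rfl⟩
          · intro u _
            rfl
        rw [h2, mul_zero, AddChar.map_zero_eq_one] at h5
        linear_combination -h5
      rw [hnorm, norm_neg, norm_one]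
      have h6 : (1 : ℝ) ≤ √(p : ℝ) := by
        rw [Real.one_le_sqrt]
        exact_mod_cast hp.one_lt.le
      linarith
    · have hw := Pool.Weil46.weil p 1 ψ hψ1 a b ha hb
      unfold kl
      have h7 : ∀ t : (ZMod p)ˣ, (1 : MulChar (ZMod p) ℂ) (t : ZMod p) = 1 := fun t =>
        MulChar.one_apply_coe t
      simp only [h7, one_mul] at hw
      exact hw

end Pool.Agent.LibF4D
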