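import Mathlib
import Pool.Agent.LibF4D.KDefs

/-! Row K03.
K02: number of units ≤ q. K03: ψ1 x = ψ (e.symm (x,0)), ψ2 y = ψ (e.symm (0,y)), e = ZMod.chineseRemainder h (ring iso).
primitive: AddChar.IsPrimitive means for a ≠ 0 the character x ↦ ψ(a x) is nontrivial; if x ↦ ψ1(a x) is trivial then x ↦ ψ(e.symm (a,0) x) is trivial.
The units: Units.mapEquiv of e and MulEquiv.prodUnits; sum over the product = product of sums.
-/

set_option autoImplicit false

namespace Pool.Agent.LibF4D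

open Finset

/-- K02: trivial bound -/
theorem K02_triv {q : ℕ} [NeZero q] (ψ : AddChar (ZMod q) ℂ) (a b : ZMod q) : ‖kl ψ a b‖ ≤ q := by
  unfold kl
  refine (norm_sum_le _ _).trans ?_
  have h1 : ∀ u ∈ (Finset.univ : Finset (ZMod q)ˣ),
      ‖ψ (a * (u : ZMod q) + b * ((u⁻¹ : (ZMod q)ˣ) : ZMod q))‖ = 1 := fun u _ =>
    AddChar.norm_apply ψ _
  rw [Finset.sum_congr rfl h1]
  simp only [Finset.sum_const, Finset.card_univ, nsmul_eq_mul, mul_one]
  rw [ZMod.card_units_eq_totient]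
  exact_mod_cast Nat.totient_le q

theorem K03_crt {q1 q2 : ℕ} [NeZero q1] [NeZero q2] [NeZero (q1 * q2)] (h : Nat.Coprime q1 q2)
    {ψ : AddChar (ZMod (q1 * q2)) ℂ} (hψ : ψ.IsPrimitive) :
    ∃ (ψ1 : AddChar (ZMod q1) ℂ) (ψ2 : AddChar (ZMod q2) ℂ), ψ1.IsPrimitive ∧ ψ2.IsPrimitive ∧
      ∀ a b : ℕ, kl ψ (a : ZMod (q1 * q2)) (b : ZMod (q1 * q2)) =
        kl ψ1 (a : ZMod q1) (b : ZMod q1) * kl ψ2 (a : ZMod q2) (b : ZMod q2) := by
  classical
  set e : ZMod (q1 * q2) ≃+* ZMod q1 × ZMod q2 := ZMod.chineseRemainder h with he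
  set ψ1 : AddChar (ZMod q1) ℂ :=
    ψ.compAddMonoidHom ((e.symm : ZMod q1 × ZMod q2 →+ ZMod (q1 * q2)).comp
      (AddMonoidHom.inl (ZMod q1) (ZMod q2))) with h1
  set ψ2 : AddChar (ZMod q2) ℂ :=
    ψ.compAddMonoidHom ((e.symm : ZMod q1 × ZMod q2 →+ ZMod (q1 * q2)).comp
      (AddMonoidHom.inr (ZMod q1) (ZMod q2))) with h2
  have h1a : ∀ x, ψ1 x = ψ (e.symm (x, 0)) := fun x => rfl
  have h2a : ∀ y, ψ2 y = ψ (e.symm (0, y)) := fun y => rfl
  have key : ∀ x, ψ x = ψ1 (e x).1 * ψ2 (e x).2 := by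
    intro x
    rw [h1a, h2a, ← AddChar.map_add_eq_mul, ← map_add]
    have : ((e x).1, (0 : ZMod q2)) + ((0 : ZMod q1), (e x).2) = e x := by
      ext <;> simp
    rw [this, RingEquiv.symm_apply_apply]
  refine ⟨ψ1, ψ2, ?_, ?_, ?_⟩
  · intro a ha hc
    have ha' : e.symm (a, 0) ≠ 0 := by
      intro h0
      have h3 : ((a, 0) : ZMod q1 × ZMod q2) = 0 := by
        have := congrArg e h0
        rwa [RingEquiv.apply_symm_apply, map_zero] at this
      exact ha (congrArg Prod.fst h3)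
    apply hψ ha'
    ext x
    rw [AddChar.mulShift_apply, AddChar.one_apply]
    have h3 : e.symm (a, 0) * x = e.symm (a * (e x).1, 0) := by
      apply e.injective
      rw [map_mul, RingEquiv.apply_symm_apply, RingEquiv.apply_symm_apply]
      ext <;> simp
    rw [h3, ← h1a]
    have h4 := DFunLike.congr_fun hc (e x).1
    rwa [AddChar.mulShift_apply, AddChar.one_apply] at h4
  · intro a ha hc
    have ha' : e.symm (0, a) ≠ 0 := by
      intro h0
      have h3 : ((0, a) : ZMod q1 × ZMod q2) = 0 := by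
        have := congrArg e h0
        rwa [RingEquiv.apply_symm_apply, map_zero] at this
      exact ha (congrArg Prod.snd h3)
    apply hψ ha'
    ext x
    rw [AddChar.mulShift_apply, AddChar.one_apply]
    have h3 : e.symm (0, a) * x = e.symm (0, a * (e x).2) := by
      apply e.injective
      rw [map_mul, RingEquiv.apply_symm_apply, RingEquiv.apply_symm_apply]
      ext <;> simp
    rw [h3, ← h2a]
    have h4 := DFunLike.congr_fun hc (e x).2
    rwa [AddChar.mulShift_apply, AddChar.one_apply] at h4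
  · intro a b
    let E : (ZMod (q1 * q2))ˣ ≃* (ZMod q1)ˣ × (ZMod q2)ˣ :=
      (Units.mapEquiv e.toMulEquiv).trans MulEquiv.prodUnits
    have hE1 : ∀ u : (ZMod (q1 * q2))ˣ, (((E u).1 : (ZMod q1)ˣ) : ZMod q1) = (e (u : ZMod (q1 * q2))).1 :=
      fun u => rfl
    have hE2 : ∀ u : (ZMod (q1 * q2))ˣ, (((E u).2 : (ZMod q2)ˣ) : ZMod q2) = (e (u : ZMod (q1 * q2))).2 :=
      fun u => rfl
    have hE3 : ∀ u : (ZMod (q1 * q2))ˣ,
        (((E u).1⁻¹ : (ZMod q1)ˣ) : ZMod q1) = (e ((u⁻¹ : (ZMod (q1 * q2))ˣ) : ZMod (q1 * q2))).1 := by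
      intro u
      rw [← hE1, map_inv]
      rfl
    have hE4 : ∀ u : (ZMod (q1 * q2))ˣ,
        (((E u).2⁻¹ : (ZMod q2)ˣ) : ZMod q2) = (e ((u⁻¹ : (ZMod (q1 * q2))ˣ) : ZMod (q1 * q2))).2 := by
      intro u
      rw [← hE2, map_inv]
      rfl
    have hterm : ∀ u : (ZMod (q1 * q2))ˣ,
        ψ ((a : ZMod (q1 * q2)) * (u : ZMod (q1 * q2)) +
          (b : ZMod (q1 * q2)) * ((u⁻¹ : (ZMod (q1 * q2))ˣ) : ZMod (q1 * q2))) =
        ψ1 ((a : ZMod q1) * (((E u).1 : (ZMod q1)ˣ) : ZMod q1) +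
          (b : ZMod q1) * (((E u).1⁻¹ : (ZMod q1)ˣ) : ZMod q1)) *
        ψ2 ((a : ZMod q2) * (((E u).2 : (ZMod q2)ˣ) : ZMod q2) +
          (b : ZMod q2) * (((E u).2⁻¹ : (ZMod q2)ˣ) : ZMod q2)) := by
      intro u
      rw [key, hE1, hE2, hE3, hE4, map_add, map_mul, map_mul, map_natCast, map_natCast]
      rfl
    unfold kl
    rw [Finset.sum_congr rfl fun u _ => hterm u]
    rw [← E.toEquiv.symm.sum_comp]
    have hsym : ∀ p : (ZMod q1)ˣ × (ZMod q2)ˣ, E (E.toEquiv.symm p) = p := fun p =>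
      E.toEquiv.apply_symm_apply p
    simp only [hsym]
    rw [Fintype.sum_prod_type, Finset.sum_mul_sum]

end Pool.Agent.LibF4D
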