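import Mathlib
import Pool.Agent.LibF4D.KDefs

/-! Row K04b.
Nat.Coprime.primeFactors_mul / card_union_of_disjoint, multiplicativity of pw on coprime arguments (factorization of the product; disjoint supports),
Nat.Coprime.gcd_mul, Real.sqrt_mul. pw p = 1 for p prime, pw (p^k) = p^k for k ≥ 2.
-/

set_option autoImplicit false

namespace Pool.Agent.LibF4D

open Finset

theorem K04b_pw_mul {q1 q2 : ℕ} (h : Nat.Coprime q1 q2) : pw (q1 * q2) = pw q1 * pw q2 := by
  unfold pw
  rw [h.primeFactors_mul, Finset.filter_union, Finset.prod_union]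
  · congr 1
    · apply Finset.prod_congr
      · apply Finset.filter_congr
        intro p hp
        rw [Nat.factorization_eq_of_coprime_left h (by simpa using hp)]
      · intro p hp
        rw [Nat.factorization_eq_of_coprime_left h (by simpa using (Finset.mem_filter.1 hp).1)]
    · apply Finset.prod_congr
      · apply Finset.filter_congr
        intro p hp
        rw [Nat.factorization_eq_of_coprime_right h (by simpa using hp)]
      · intro p hp
        rw [Nat.factorization_eq_of_coprime_right h (by simpa using (Finset.mem_filter.1 hp).1)]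
  · exact Finset.disjoint_filter_filter h.disjoint_primeFactors

theorem K04b_pw_prime {p : ℕ} (hp : p.Prime) : pw p = 1 := by
  unfold pw
  rw [hp.primeFactors]
  apply Finset.prod_eq_one
  intro r hr
  rw [Finset.mem_filter, Finset.mem_singleton] at hr
  obtain ⟨rfl, h2⟩ := hr
  rw [hp.factorization_self] at h2
  omega

theorem K04b_pw_pow {p k : ℕ} (hp : p.Prime) (hk : 2 ≤ k) : pw (p ^ k) = p ^ k := by
  unfold pw
  rw [Nat.primeFactors_prime_pow (by omega) hp, Finset.filter_true_of_mem]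
  · rw [Finset.prod_singleton, Nat.Prime.factorization_pow hp]
    simp
  · intro r hr
    rw [Finset.mem_singleton] at hr
    subst hr
    rw [Nat.Prime.factorization_pow hp]
    simpa using hk

theorem K04_KB_mul {q1 q2 : ℕ} (h1 : 1 ≤ q1) (h2 : 1 ≤ q2) (h : Nat.Coprime q1 q2) (b : ℕ) :
    KB (q1 * q2) b = KB q1 b * KB q2 b := by
  unfold KB
  rw [h.primeFactors_mul, Finset.card_union_of_disjoint h.disjoint_primeFactors, K04b_pw_mul h,
    h.gcd_mul b, pow_add]
  have e : ((q1 * q2 : ℕ) : ℝ) * ((pw q1 * pw q2 : ℕ) : ℝ) * ((Nat.gcd b q1 * Nat.gcd b q2 : ℕ) : ℝ)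
      = ((q1 : ℝ) * pw q1 * Nat.gcd b q1) * ((q2 : ℝ) * pw q2 * Nat.gcd b q2) := by
    push_cast
    ring
  rw [e, Real.sqrt_mul (by positivity)]
  ring

theorem K04_KB_prime {p : ℕ} (hp : p.Prime) (b : ℕ) : KB p b = 2 * √((p : ℝ) * Nat.gcd b p) := by
  unfold KB
  rw [K04b_pw_prime hp, hp.primeFactors]
  simp

theorem K04_KB_pow {p k : ℕ} (hp : p.Prime) (hk : 2 ≤ k) (b : ℕ) : ((p : ℝ) ^ k) ≤ KB (p ^ k) b := by
  unfold KB
  rw [K04b_pw_pow hp hk, Nat.primeFactors_prime_pow (by omega) hp]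
  have hg : (1 : ℝ) ≤ Nat.gcd b (p ^ k) := by
    have : 0 < Nat.gcd b (p ^ k) := Nat.gcd_pos_of_pos_right _ (pow_pos hp.pos _)
    exact_mod_cast this
  have hp0 : (0 : ℝ) ≤ (p : ℝ) ^ k := by positivity
  have h1 : (p : ℝ) ^ k ≤ √(((p ^ k : ℕ) : ℝ) * ((p ^ k : ℕ) : ℝ) * (Nat.gcd b (p ^ k) : ℝ)) := by
    apply Real.le_sqrt_of_sq_le
    push_cast
    nlinarith [mul_nonneg hp0 hp0]
  rw [Finset.card_singleton]
  have h2 := Real.sqrt_nonneg (((p ^ k : ℕ) : ℝ) * ((p ^ k : ℕ) : ℝ) * (Nat.gcd b (p ^ k) : ℝ))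
  linarith

end Pool.Agent.LibF4D
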