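import Mathlib
import Pool.Agent.LibF4D.KDefs
import Pool.Agent.LibF4D.K01
import Pool.Agent.LibF4D.K03
import Pool.Agent.LibF4D.K04b

/-! Row K05.
Induction `Nat.recOnPosPrimePosCoprime`: prime powers p^k: k = 1 from K01 ((b : ZMod p) = 0 iff p ∣ b; then gcd = p and the bound is 2p), k ≥ 2: K02 and K04_KB_pow;
q = 0 excluded by NeZero, q = 1: the sum has one term; coprime product a*b: K03 and K04_KB_mul. Generalise over ψ a b. Beware of the cast (q : ZMod ...) when q = p^1.
-/

set_option autoImplicit false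

namespace Pool.Agent.LibF4D

open Finset

/-- the statement of K05 for one modulus -/
def K05_P (q : ℕ) : Prop :=
  ∀ (_ : NeZero q) (ψ : AddChar (ZMod q) ℂ), ψ.IsPrimitive → ∀ a b : ℕ,
    ‖kl ψ (a : ZMod q) (b : ZMod q)‖ ≤ KB q b

theorem K05_KB_one (b : ℕ) : KB 1 b = 1 := by
  unfold KB pw
  simp

theorem K05_prime (p : ℕ) (hp : p.Prime) : K05_P p := by
  intro _ ψ hψ a b
  haveI : Fact p.Prime := ⟨hp⟩
  have h := K01_prime hψ (a : ZMod p) (b : ZMod p)
  rw [K04_KB_prime hp b]
  by_cases hb : p ∣ b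
  · have hg : Nat.gcd b p = p := Nat.gcd_eq_right hb
    rw [hg]
    have hs : √((p : ℝ) * (p : ℝ)) = p := Real.sqrt_mul_self (Nat.cast_nonneg p)
    rw [hs]
    have hp0 : (0 : ℝ) ≤ p := Nat.cast_nonneg p
    have h1 := h.1
    linarith
  · have hb0 : (b : ZMod p) ≠ 0 := by
      intro h0
      exact hb ((ZMod.natCast_eq_zero_iff b p).mp h0)
    have hg : Nat.gcd b p = 1 := by
      have : Nat.Coprime p b := (Nat.Prime.coprime_iff_not_dvd hp).mpr hb
      exact this.symm
    rw [hg, Nat.cast_one, mul_one]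
    exact h.2 hb0

theorem K05_all (q : ℕ) : K05_P q := by
  induction q using Nat.recOnPosPrimePosCoprime with
  | prime_pow p n hp hn =>
    rcases Nat.lt_or_ge n 2 with hn2 | hn2
    · have hn1 : n = 1 := by omega
      subst hn1
      rw [pow_one]
      exact K05_prime p hp
    · intro hq ψ _ a b
      have h1 := K02_triv ψ (a : ZMod (p ^ n)) (b : ZMod (p ^ n))
      have h2 := K04_KB_pow hp hn2 b
      rw [Nat.cast_pow] at h1
      exact h1.trans h2
  | zero =>
    intro hq
    exact absurd rfl hq.out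
  | one =>
    intro hq ψ _ a b
    have h1 := K02_triv ψ (a : ZMod 1) (b : ZMod 1)
    rw [K05_KB_one]
    simpa using h1
  | coprime x y hx hy hxy ihx ihy =>
    intro hq ψ hψ a b
    haveI : NeZero x := ⟨by omega⟩
    haveI : NeZero y := ⟨by omega⟩
    obtain ⟨ψ1, ψ2, h1, h2, h⟩ := K03_crt hxy hψ
    rw [h a b, K04_KB_mul (by omega) (by omega) hxy b, norm_mul]
    have e1 := ihx inferInstance ψ1 h1 a b
    have e2 := ihy inferInstance ψ2 h2 a b
    exact mul_le_mul e1 e2 (norm_nonneg _) ((norm_nonneg _).trans e1)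

/-- K05: the bound for all moduli, from K01-K04 by `Nat.recOnPosPrimePosCoprime` -/
theorem K05_bound (q : ℕ) [NeZero q] {ψ : AddChar (ZMod q) ℂ} (hψ : ψ.IsPrimitive) (a b : ℕ) :
    ‖kl ψ (a : ZMod q) (b : ZMod q)‖ ≤ KB q b :=
  K05_all q inferInstance ψ hψ a b

end Pool.Agent.LibF4D
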