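import Mathlib
import Pool.Agent.LibF4D.KDefs
import Pool.Agent.LibF4D.K05
import Pool.Agent.LibF4D.K06

/-! Row K07.
Write N = Q q + N', N' < q (Nat.div_add_mod). The summand is q-periodic in u (Nat.Coprime depends on u mod q), every complete period is kl std 0 b, norm ≤ KB q b (K05, ZMod.isPrimitive_stdAddChar).
Incomplete part: 1_{u ≤ N'} = (1/q) ∑_k ∑_{v ≤ N'} std(k(v-u)) for 1 ≤ u ≤ q, so it equals (1/q)∑_k (∑_{v=1}^{N'} std(k v)) * kl std (-k) b;
k = 0: ≤ N'/q KB ≤ KB; k ≠ 0: K06 and (1/q)∑_{k≠0} q/(2min(k,q-k)) ≤ 1 + log q (harmonic numbers: Mathlib harmonic_le_one_add_log). K05 needs natural numbers a, b: use (-k).val.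
-/

set_option autoImplicit false

namespace Pool.Agent.LibF4D

open Finset

theorem F4K07_ind (q : ℕ) [NeZero q] (b : ℕ) (u : ℕ) :
    (if Nat.Coprime u q then (ZMod.stdAddChar ((b : ZMod q) * ((u : ZMod q))⁻¹) : ℂ) else 0)
    = ∑ w : (ZMod q)ˣ, (if (u : ZMod q) - (w : ZMod q) = 0 then
      (ZMod.stdAddChar ((b : ZMod q) * ((w⁻¹ : (ZMod q)ˣ) : ZMod q)) : ℂ) else 0) := by
  by_cases h : Nat.Coprime u q
  · rw [if_pos h]
    have h1 : ((ZMod.unitOfCoprime u h : (ZMod q)ˣ) : ZMod q) = (u : ZMod q) :=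
      ZMod.coe_unitOfCoprime u h
    have h2 : ∀ w : (ZMod q)ˣ, ((u : ZMod q) - (w : ZMod q) = 0) ↔ w = ZMod.unitOfCoprime u h := by
      intro w
      rw [sub_eq_zero, ← h1, Units.val_inj]
      exact eq_comm
    simp only [h2]
    rw [Finset.sum_ite_eq' Finset.univ (ZMod.unitOfCoprime u h), if_pos (Finset.mem_univ _),
      ← ZMod.inv_coe_unit, h1]
  · rw [if_neg h]
    symm
    apply Finset.sum_eq_zero
    intro w _
    rw [if_neg]
    intro h3
    apply h
    rw [← ZMod.isUnit_iff_coprime, sub_eq_zero.1 h3]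
    exact w.isUnit

theorem F4K07_harm (q : ℕ) [NeZero q] : ∑ k ∈ (Finset.univ : Finset (ZMod q)).erase 0,
    (q : ℝ) / (2 * min (k.val : ℝ) (q - k.val)) ≤ q * (2 + Real.log q) := by
  have hq : 0 < q := Nat.pos_of_ne_zero (NeZero.ne q)
  have h1 : ∑ k ∈ (Finset.univ : Finset (ZMod q)).erase 0,
      (q : ℝ) / (2 * min (k.val : ℝ) (q - k.val))
      = ∑ k ∈ Finset.Ico 1 q, (q : ℝ) / (2 * min (k : ℝ) (q - k)) := by
    apply Finset.sum_bij (fun k _ => k.val)
    · intro k hk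
      rw [Finset.mem_erase] at hk
      rw [Finset.mem_Ico]
      refine ⟨?_, ZMod.val_lt k⟩
      rw [Nat.one_le_iff_ne_zero]
      intro h
      exact hk.1 ((ZMod.val_eq_zero k).1 h)
    · intro k _ l _ h
      exact ZMod.val_injective q h
    · intro n hn
      rw [Finset.mem_Ico] at hn
      have h2 : ((n : ℕ) : ZMod q).val = n := ZMod.val_natCast_of_lt hn.2
      refine ⟨(n : ZMod q), ?_, h2⟩
      rw [Finset.mem_erase]
      refine ⟨?_, Finset.mem_univ _⟩
      intro h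
      rw [h, ZMod.val_zero] at h2
      omega
    · intro k _
      rfl
  rw [h1]
  have h2 : ∀ k ∈ Finset.Ico 1 q, (q : ℝ) / (2 * min (k : ℝ) (q - k))
      ≤ q / 2 * (1 / (k : ℝ)) + q / 2 * (1 / ((q : ℝ) - k)) := by
    intro k hk
    rw [Finset.mem_Ico] at hk
    have hk1 : (0 : ℝ) < k := by exact_mod_cast hk.1
    have hk2 : (0 : ℝ) < (q : ℝ) - k := by
      have : (k : ℝ) < q := by exact_mod_cast hk.2
      linarith
    have hq' : (0 : ℝ) < q := by exact_mod_cast hq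
    rcases min_choice (k : ℝ) ((q : ℝ) - k) with h | h
    · rw [h]
      have : (0 : ℝ) ≤ q / 2 * (1 / ((q : ℝ) - k)) := by positivity
      have e : (q : ℝ) / (2 * k) = q / 2 * (1 / (k : ℝ)) := by
        field_simp
      linarith
    · rw [h]
      have : (0 : ℝ) ≤ q / 2 * (1 / (k : ℝ)) := by positivity
      have e : (q : ℝ) / (2 * ((q : ℝ) - k)) = q / 2 * (1 / ((q : ℝ) - k)) := by
        field_simp
      linarith
  have h3 : ∑ k ∈ Finset.Ico 1 q, (1 / ((q : ℝ) - k)) = ∑ k ∈ Finset.Ico 1 q, (1 / (k : ℝ)) := by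
    apply Finset.sum_bij (fun k _ => q - k)
    · intro k hk
      rw [Finset.mem_Ico] at hk ⊢
      omega
    · intro k hk l hl h
      rw [Finset.mem_Ico] at hk hl
      omega
    · intro k hk
      rw [Finset.mem_Ico] at hk
      exact ⟨q - k, by rw [Finset.mem_Ico]; omega, by omega⟩
    · intro k hk
      rw [Finset.mem_Ico] at hk
      rw [Nat.cast_sub (by omega)]
  have h4 : ∑ k ∈ Finset.Ico 1 q, (1 / (k : ℝ)) ≤ 2 + Real.log q := by
    have h5 := harmonic_le_one_add_log q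
    have h6 : ((harmonic q : ℚ) : ℝ) = ∑ k ∈ Finset.Icc 1 q, (1 / (k : ℝ)) := by
      rw [harmonic_eq_sum_Icc]
      push_cast
      apply Finset.sum_congr rfl
      intro k _
      rw [one_div]
    rw [h6] at h5
    have h7 : ∑ k ∈ Finset.Ico 1 q, (1 / (k : ℝ)) ≤ ∑ k ∈ Finset.Icc 1 q, (1 / (k : ℝ)) := by
      apply Finset.sum_le_sum_of_subset_of_nonneg
      · intro k hk
        rw [Finset.mem_Ico] at hk
        rw [Finset.mem_Icc]
        omega
      · intro k _ _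
        positivity
    linarith
  calc ∑ k ∈ Finset.Ico 1 q, (q : ℝ) / (2 * min (k : ℝ) (q - k))
      ≤ ∑ k ∈ Finset.Ico 1 q, (q / 2 * (1 / (k : ℝ)) + q / 2 * (1 / ((q : ℝ) - k))) :=
        Finset.sum_le_sum h2
    _ = q * ∑ k ∈ Finset.Ico 1 q, (1 / (k : ℝ)) := by
        rw [Finset.sum_add_distrib, ← Finset.mul_sum, ← Finset.mul_sum, h3]
        ring
    _ ≤ q * (2 + Real.log q) := by
        apply mul_le_mul_of_nonneg_left h4
        positivity

/-- K07: incomplete sums -/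
theorem K07_incomplete (q : ℕ) [NeZero q] (b : ℕ) (N : ℕ) :
    ‖∑ u ∈ (Finset.Icc 1 N).filter (fun u : ℕ => Nat.Coprime u q),
      (ZMod.stdAddChar ((b : ZMod q) * ((u : ZMod q))⁻¹) : ℂ)‖ ≤ ((N : ℝ) / q + 2 + Real.log q) * KB q b := by
  have hq : 0 < q := Nat.pos_of_ne_zero (NeZero.ne q)
  have hq' : (0 : ℝ) < q := by exact_mod_cast hq
  have hqc : (q : ℂ) ≠ 0 := by exact_mod_cast hq.ne'
  have hprim : (ZMod.stdAddChar : AddChar (ZMod q) ℂ).IsPrimitive := ZMod.isPrimitive_stdAddChar q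
  have horth : ∀ x : ZMod q, (if x = 0 then (1 : ℂ) else 0)
      = (q : ℂ)⁻¹ * ∑ k : ZMod q, ZMod.stdAddChar (k * x) := by
    intro x
    rw [AddChar.sum_mulShift x hprim, ZMod.card]
    by_cases h : x = 0
    · rw [if_pos h, if_pos h, inv_mul_cancel₀ hqc]
    · rw [if_neg h, if_neg h]
      simp
  have h1 : ∑ u ∈ (Finset.Icc 1 N).filter (fun u : ℕ => Nat.Coprime u q),
      (ZMod.stdAddChar ((b : ZMod q) * ((u : ZMod q))⁻¹) : ℂ)
      = (q : ℂ)⁻¹ * ∑ k : ZMod q, (∑ u ∈ Finset.Icc 1 N, (ZMod.stdAddChar (k * (u : ZMod q)) : ℂ))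
        * kl ZMod.stdAddChar (-k) (b : ZMod q) := by
    rw [Finset.sum_filter, Finset.sum_congr rfl fun u _ => F4K07_ind q b u]
    have h2 : ∀ u : ℕ, ∑ w : (ZMod q)ˣ, (if (u : ZMod q) - (w : ZMod q) = 0 then
      (ZMod.stdAddChar ((b : ZMod q) * ((w⁻¹ : (ZMod q)ˣ) : ZMod q)) : ℂ) else 0)
      = ∑ w : (ZMod q)ˣ, ∑ k : ZMod q, (q : ℂ)⁻¹ * (ZMod.stdAddChar (k * (u : ZMod q))
        * ZMod.stdAddChar (-k * (w : ZMod q) + (b : ZMod q) * ((w⁻¹ : (ZMod q)ˣ) : ZMod q))) := by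
      intro u
      apply Finset.sum_congr rfl
      intro w _
      have h3 : (if (u : ZMod q) - (w : ZMod q) = 0 then
        (ZMod.stdAddChar ((b : ZMod q) * ((w⁻¹ : (ZMod q)ˣ) : ZMod q)) : ℂ) else 0)
        = (if (u : ZMod q) - (w : ZMod q) = 0 then (1 : ℂ) else 0) *
          (ZMod.stdAddChar ((b : ZMod q) * ((w⁻¹ : (ZMod q)ˣ) : ZMod q)) : ℂ) := by
        split_ifs <;> simp
      rw [h3, horth, Finset.mul_sum, Finset.sum_mul]
      apply Finset.sum_congr rfl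
      intro k _
      rw [← AddChar.map_add_eq_mul, mul_assoc, ← AddChar.map_add_eq_mul]
      congr 2
      ring
    rw [Finset.sum_congr rfl fun u _ => h2 u, Finset.sum_comm]
    unfold kl
    rw [Finset.mul_sum]
    have h4 : ∀ w : (ZMod q)ˣ, ∑ u ∈ Finset.Icc 1 N, ∑ k : ZMod q, (q : ℂ)⁻¹ *
        ((ZMod.stdAddChar (k * (u : ZMod q)) : ℂ)
        * ZMod.stdAddChar (-k * (w : ZMod q) + (b : ZMod q) * ((w⁻¹ : (ZMod q)ˣ) : ZMod q)))
        = ∑ k : ZMod q, ∑ u ∈ Finset.Icc 1 N, (q : ℂ)⁻¹ *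
        ((ZMod.stdAddChar (k * (u : ZMod q)) : ℂ)
        * ZMod.stdAddChar (-k * (w : ZMod q) + (b : ZMod q) * ((w⁻¹ : (ZMod q)ˣ) : ZMod q))) := by
      intro w
      exact Finset.sum_comm
    rw [Finset.sum_congr rfl fun w _ => h4 w, Finset.sum_comm]
    apply Finset.sum_congr rfl
    intro k _
    rw [Finset.sum_mul_sum, Finset.mul_sum, Finset.sum_comm]
    apply Finset.sum_congr rfl
    intro u _
    rw [Finset.mul_sum]
  have hkl : ∀ k : ZMod q, ‖kl ZMod.stdAddChar (-k) (b : ZMod q)‖ ≤ KB q b := by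
    intro k
    have h5 := K05_bound q hprim (-k).val b
    rwa [ZMod.natCast_zmod_val] at h5
  have hKB : 0 ≤ KB q b := by
    unfold KB
    positivity
  rw [h1, norm_mul, norm_inv, Complex.norm_natCast]
  have h6 : ‖∑ k : ZMod q, (∑ u ∈ Finset.Icc 1 N, (ZMod.stdAddChar (k * (u : ZMod q)) : ℂ))
        * kl ZMod.stdAddChar (-k) (b : ZMod q)‖ ≤ (N + q * (2 + Real.log q)) * KB q b := by
    calc ‖∑ k : ZMod q, (∑ u ∈ Finset.Icc 1 N, (ZMod.stdAddChar (k * (u : ZMod q)) : ℂ))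
        * kl ZMod.stdAddChar (-k) (b : ZMod q)‖
        ≤ ∑ k : ZMod q, ‖∑ u ∈ Finset.Icc 1 N, (ZMod.stdAddChar (k * (u : ZMod q)) : ℂ)‖
          * KB q b := by
          refine (norm_sum_le _ _).trans (Finset.sum_le_sum fun k _ => ?_)
          rw [norm_mul]
          exact mul_le_mul_of_nonneg_left (hkl k) (norm_nonneg _)
      _ = (∑ k : ZMod q, ‖∑ u ∈ Finset.Icc 1 N, (ZMod.stdAddChar (k * (u : ZMod q)) : ℂ)‖)
          * KB q b := by rw [Finset.sum_mul]
      _ ≤ (N + q * (2 + Real.log q)) * KB q b := by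
          apply mul_le_mul_of_nonneg_right _ hKB
          rw [← Finset.add_sum_erase Finset.univ _ (Finset.mem_univ (0 : ZMod q))]
          apply add_le_add
          · simp
          · exact (Finset.sum_le_sum fun k hk => K06_geom k (Finset.ne_of_mem_erase hk) N).trans
              (F4K07_harm q)
  calc (q : ℝ)⁻¹ * ‖∑ k : ZMod q, (∑ u ∈ Finset.Icc 1 N, (ZMod.stdAddChar (k * (u : ZMod q)) : ℂ))
        * kl ZMod.stdAddChar (-k) (b : ZMod q)‖
      ≤ (q : ℝ)⁻¹ * ((N + q * (2 + Real.log q)) * KB q b) := by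
        apply mul_le_mul_of_nonneg_left h6
        positivity
    _ = ((N : ℝ) / q + 2 + Real.log q) * KB q b := by
        field_simp
        ring

end Pool.Agent.LibF4D
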