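import Mathlib
import Pool.Agent.LibF4D.KDefs

/-! Row K08.
Orthogonality: for v: 1_{(v : ZMod q) = x} = (1/q)∑_h std(h(v-x)) (AddChar.sum_mulShift or ZMod versions, primitive character), sum over v in Icc 1 ⌊V⌋₊; the term h = 0 is ⌊V⌋₊/q.
-/

set_option autoImplicit false

namespace Pool.Agent.LibF4D

open Finset

theorem K08_orth {q : ℕ} [NeZero q] (y : ZMod q) :
    ∑ h : ZMod q, ZMod.stdAddChar (h * y) = if y = 0 then (q : ℂ) else 0 := by
  have h := AddChar.sum_mulShift (R := ZMod q) (R' := ℂ) y (ZMod.isPrimitive_stdAddChar q)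
  rw [ZMod.card] at h
  rw [h]
  split_ifs <;> simp

/-- K08: counting by characters -/
theorem K08_Dl {q : ℕ} [NeZero q] (x : ZMod q) {V : ℝ} (hV : 0 ≤ V) :
    ((Dl q x V : ℝ) : ℂ) = (((⌊V⌋₊ : ℝ) - V : ℝ) : ℂ) / q +
      (1 / (q : ℂ)) * ∑ h ∈ Finset.univ.filter (fun h : ZMod q => h ≠ 0),
        (∑ v ∈ Finset.Icc 1 ⌊V⌋₊, ZMod.stdAddChar (h * (v : ZMod q))) * ZMod.stdAddChar (-(h * x)) := by
  have hq : (q : ℂ) ≠ 0 := Nat.cast_ne_zero.mpr (NeZero.ne q)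
  have hcnt : ((cnt q x V : ℕ) : ℂ) = (1 / (q : ℂ)) * ∑ h : ZMod q,
      (∑ v ∈ Finset.Icc 1 ⌊V⌋₊, ZMod.stdAddChar (h * (v : ZMod q))) * ZMod.stdAddChar (-(h * x)) := by
    have h1 : ((cnt q x V : ℕ) : ℂ) = ∑ v ∈ Finset.Icc 1 ⌊V⌋₊, (if (v : ZMod q) = x then (1 : ℂ) else 0) := by
      unfold cnt
      rw [Finset.card_filter]
      push_cast
      rfl
    rw [h1]
    have h2 : ∀ v ∈ Finset.Icc 1 ⌊V⌋₊, (if (v : ZMod q) = x then (1 : ℂ) else 0) =
        (1 / (q : ℂ)) * ∑ h : ZMod q, ZMod.stdAddChar (h * ((v : ZMod q) - x)) := by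
      intro v _
      rw [K08_orth]
      by_cases hv : (v : ZMod q) = x
      · rw [if_pos hv, if_pos (sub_eq_zero.mpr hv)]
        field_simp
      · rw [if_neg hv, if_neg (fun h => hv (sub_eq_zero.mp h))]
        simp
    rw [Finset.sum_congr rfl h2, ← Finset.mul_sum, Finset.sum_comm]
    congr 1
    refine Finset.sum_congr rfl fun h _ => ?_
    rw [Finset.sum_mul]
    refine Finset.sum_congr rfl fun v _ => ?_
    rw [← AddChar.map_add_eq_mul]
    congr 1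
    ring
  have hsplit : ∑ h : ZMod q,
      (∑ v ∈ Finset.Icc 1 ⌊V⌋₊, ZMod.stdAddChar (h * (v : ZMod q))) * ZMod.stdAddChar (-(h * x)) =
      (⌊V⌋₊ : ℂ) + ∑ h ∈ Finset.univ.filter (fun h : ZMod q => h ≠ 0),
        (∑ v ∈ Finset.Icc 1 ⌊V⌋₊, ZMod.stdAddChar (h * (v : ZMod q))) * ZMod.stdAddChar (-(h * x)) := by
    rw [← Finset.sum_filter_add_sum_filter_not Finset.univ (fun h : ZMod q => h = 0)]
    congr 1
    rw [Finset.filter_eq', if_pos (Finset.mem_univ _), Finset.sum_singleton]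
    simp
  have hD : ((Dl q x V : ℝ) : ℂ) = ((cnt q x V : ℕ) : ℂ) - (V : ℂ) / q := by
    unfold Dl
    push_cast
    ring
  rw [hD, hcnt, hsplit]
  push_cast
  ring

end Pool.Agent.LibF4D
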