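import Mathlib
import Pool.Agent.LibF4D.KDefs

/-! Row K09.
gcd(h b,q) ≤ gcd(h,q) gcd(b,q), √ is multiplicative; fold h → q-h: the sum is ≤ √gcd(b,q) * ∑_{1≤h≤q/2} √gcd(h,q)/h; √gcd(h,q) ≤ ∑_{d | q, d | h} √d;
∑_{h ≤ q, d | h} √d/h ≤ d^{-1/2}(1+log q) ≤ 1 + log q. (Simplest: 1/(2 min(h,q-h)) ≤ (1/h + 1/(q-h))/2·... indeed 1/(2min) ≤ (1/2)(1/h+1/(q-h)), and both sums are equal by h → q-h.)
-/

set_option autoImplicit false

namespace Pool.Agent.LibF4D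

open Finset

theorem K09_gcd_le (h b q : ℕ) (hq : q ≠ 0) : Nat.gcd (h * b) q ≤ Nat.gcd h q * Nat.gcd b q := by
  have h1 : Nat.gcd (h * b) q ∣ Nat.gcd h q * Nat.gcd b q := Nat.gcd_mul_left_dvd_mul_gcd q h b
  exact Nat.le_of_dvd (Nat.mul_pos (Nat.gcd_pos_of_pos_right _ (by omega)) (Nat.gcd_pos_of_pos_right _ (by omega))) h1

/-- the sum over multiples of `d` -/
theorem K09_inner (q d : ℕ) (hq : 1 ≤ q) (hd : 1 ≤ d) :
    ∑ h ∈ (Finset.Ico 1 q).filter (fun h => d ∣ h), √(d : ℝ) / (h : ℝ) ≤ 1 + Real.log q := by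
  have hdR : (1 : ℝ) ≤ (d : ℝ) := by exact_mod_cast hd
  have hqR : (1 : ℝ) ≤ (q : ℝ) := by exact_mod_cast hq
  -- reindex h = d k
  have h1 : ∑ h ∈ (Finset.Ico 1 q).filter (fun h => d ∣ h), √(d : ℝ) / (h : ℝ) ≤
      ∑ k ∈ Finset.Icc 1 q, √(d : ℝ) / ((d : ℝ) * (k : ℝ)) := by
    rw [← Finset.sum_image (s := Finset.Icc 1 q) (g := fun k => d * k) (f := fun h : ℕ => √(d : ℝ) / (h : ℝ))
      (fun a _ b _ hab => Nat.eq_of_mul_eq_mul_left (by omega) hab) |>.trans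
      (Finset.sum_congr rfl fun k _ => by push_cast; rfl)]
    refine Finset.sum_le_sum_of_subset_of_nonneg ?_ fun _ _ _ => by positivity
    intro h hh
    obtain ⟨hh1, k, rfl⟩ := Finset.mem_filter.mp hh
    obtain ⟨a1, a2⟩ := Finset.mem_Ico.mp hh1
    refine Finset.mem_image.mpr ⟨k, Finset.mem_Icc.mpr ⟨?_, ?_⟩, rfl⟩
    · rcases Nat.eq_zero_or_pos k with h0 | h0
      · subst h0; simp at a1
      · exact h0
    · calc k = 1 * k := (one_mul k).symm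
        _ ≤ d * k := Nat.mul_le_mul_right k hd
        _ ≤ q := a2.le
  have h2 : ∑ k ∈ Finset.Icc 1 q, √(d : ℝ) / ((d : ℝ) * (k : ℝ)) ≤ ∑ k ∈ Finset.Icc 1 q, ((k : ℝ))⁻¹ := by
    refine Finset.sum_le_sum fun k hk => ?_
    have hk1 : (1 : ℝ) ≤ (k : ℝ) := by exact_mod_cast (Finset.mem_Icc.mp hk).1
    have hs : √(d : ℝ) ≤ (d : ℝ) := by
      rw [Real.sqrt_le_left (by linarith)]
      nlinarith
    rw [div_le_iff₀ (by positivity)]
    calc √(d : ℝ) ≤ (d : ℝ) := hs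
      _ = ((k : ℝ))⁻¹ * ((d : ℝ) * (k : ℝ)) := by field_simp
  have h3 : ∑ k ∈ Finset.Icc 1 q, ((k : ℝ))⁻¹ ≤ 1 + Real.log q := by
    have h := harmonic_le_one_add_log q
    rw [harmonic_eq_sum_Icc] at h
    push_cast at h
    exact h
  exact h1.trans (h2.trans h3)

/-- the sum of `√gcd(h,q)/h` -/
theorem K09_one (q : ℕ) (hq : 1 ≤ q) :
    ∑ h ∈ Finset.Ico 1 q, √(Nat.gcd h q : ℝ) / (h : ℝ) ≤ q.divisors.card * (1 + Real.log q) := by
  have hq0 : q ≠ 0 := by omega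
  have h1 : ∑ h ∈ Finset.Ico 1 q, √(Nat.gcd h q : ℝ) / (h : ℝ) ≤
      ∑ h ∈ Finset.Ico 1 q, ∑ d ∈ q.divisors.filter (fun d => d ∣ h), √(d : ℝ) / (h : ℝ) := by
    refine Finset.sum_le_sum fun h hh => ?_
    have hmem : Nat.gcd h q ∈ q.divisors.filter (fun d => d ∣ h) :=
      Finset.mem_filter.mpr ⟨Nat.mem_divisors.mpr ⟨Nat.gcd_dvd_right h q, hq0⟩, Nat.gcd_dvd_left h q⟩
    exact Finset.single_le_sum (f := fun d : ℕ => √(d : ℝ) / (h : ℝ)) (fun _ _ => by positivity) hmem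
  have h2 : ∑ h ∈ Finset.Ico 1 q, ∑ d ∈ q.divisors.filter (fun d => d ∣ h), √(d : ℝ) / (h : ℝ) =
      ∑ d ∈ q.divisors, ∑ h ∈ (Finset.Ico 1 q).filter (fun h => d ∣ h), √(d : ℝ) / (h : ℝ) := by
    simp_rw [Finset.sum_filter]
    exact Finset.sum_comm
  have h3 : ∑ d ∈ q.divisors, ∑ h ∈ (Finset.Ico 1 q).filter (fun h => d ∣ h), √(d : ℝ) / (h : ℝ) ≤
      ∑ d ∈ q.divisors, (1 + Real.log q) := by
    refine Finset.sum_le_sum fun d hd => K09_inner q d hq ?_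
    exact Nat.pos_of_mem_divisors hd
  rw [Finset.sum_const, nsmul_eq_mul] at h3
  exact h1.trans (h2.le.trans h3)

/-- K09: the sum over the frequencies -/
theorem K09_gcd_sum (q b : ℕ) [NeZero q] :
    ∑ h ∈ Finset.univ.filter (fun h : ZMod q => h ≠ 0), √(Nat.gcd (h.val * b) q : ℝ) / (2 * min (h.val : ℝ) (q - h.val)) ≤
      q.divisors.card * (1 + Real.log q) * √(Nat.gcd b q : ℝ) := by
  have hq0 : q ≠ 0 := NeZero.ne q
  have hq1 : 1 ≤ q := Nat.one_le_iff_ne_zero.mpr hq0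
  -- to natural numbers
  have h1 : ∑ h ∈ Finset.univ.filter (fun h : ZMod q => h ≠ 0), √(Nat.gcd (h.val * b) q : ℝ) / (2 * min (h.val : ℝ) (q - h.val)) =
      ∑ h ∈ Finset.Ico 1 q, √(Nat.gcd (h * b) q : ℝ) / (2 * min (h : ℝ) (q - h)) := by
    refine Finset.sum_bij (fun h _ => h.val) ?_ ?_ ?_ ?_
    · intro h hh
      have hne := (Finset.mem_filter.mp hh).2
      refine Finset.mem_Ico.mpr ⟨?_, ZMod.val_lt h⟩
      exact Nat.one_le_iff_ne_zero.mpr (fun h0 => hne ((ZMod.val_eq_zero h).mp h0))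
    · intro a _ b _ hab
      exact ZMod.val_injective q hab
    · intro k hk
      obtain ⟨k1, k2⟩ := Finset.mem_Ico.mp hk
      refine ⟨(k : ZMod q), ?_, ZMod.val_cast_of_lt k2⟩
      refine Finset.mem_filter.mpr ⟨Finset.mem_univ _, fun h0 => ?_⟩
      have := (ZMod.natCast_eq_zero_iff k q).mp h0
      exact absurd (Nat.le_of_dvd (by omega) this) (by omega)
    · intro h _
      rfl
  rw [h1]
  -- termwise
  have h2 : ∀ h ∈ Finset.Ico 1 q, √(Nat.gcd (h * b) q : ℝ) / (2 * min (h : ℝ) (q - h)) ≤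
      √(Nat.gcd b q : ℝ) * ((√(Nat.gcd h q : ℝ) / (h : ℝ) + √(Nat.gcd (q - h) q : ℝ) / ((q - h : ℕ) : ℝ)) / 2) := by
    intro h hh
    obtain ⟨k1, k2⟩ := Finset.mem_Ico.mp hh
    have hh1 : (1 : ℝ) ≤ (h : ℝ) := by exact_mod_cast k1
    have hcast : ((q - h : ℕ) : ℝ) = (q : ℝ) - h := by push_cast [Nat.cast_sub k2.le]; ring
    have hq1' : (0 : ℝ) < (q : ℝ) - h := by
      have : (h : ℝ) < (q : ℝ) := by exact_mod_cast k2
      linarith
    have hg : Nat.gcd (q - h) q = Nat.gcd h q := Nat.gcd_self_sub_left k2.le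
    rw [hcast, hg]
    have e1 : √(Nat.gcd (h * b) q : ℝ) ≤ √(Nat.gcd h q : ℝ) * √(Nat.gcd b q : ℝ) := by
      rw [← Real.sqrt_mul (by positivity)]
      refine Real.sqrt_le_sqrt ?_
      exact_mod_cast K09_gcd_le h b q hq0
    have hmin : 0 < min (h : ℝ) ((q : ℝ) - h) := lt_min (by linarith) hq1'
    have e2 : 1 / (2 * min (h : ℝ) ((q : ℝ) - h)) ≤ (1 / (h : ℝ) + 1 / ((q : ℝ) - h)) / 2 := by
      rcases le_total (h : ℝ) ((q : ℝ) - h) with hle | hle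
      · rw [min_eq_left hle]
        have : 0 ≤ 1 / ((q : ℝ) - h) := by positivity
        have e : 1 / (2 * (h : ℝ)) = (1 / (h : ℝ)) / 2 := by field_simp
        rw [e]; linarith
      · rw [min_eq_right hle]
        have : 0 ≤ 1 / (h : ℝ) := by positivity
        have e : 1 / (2 * ((q : ℝ) - h)) = (1 / ((q : ℝ) - h)) / 2 := by field_simp
        rw [e]; linarith
    calc √(Nat.gcd (h * b) q : ℝ) / (2 * min (h : ℝ) (q - h))
        = √(Nat.gcd (h * b) q : ℝ) * (1 / (2 * min (h : ℝ) ((q : ℝ) - h))) := by ring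
      _ ≤ (√(Nat.gcd h q : ℝ) * √(Nat.gcd b q : ℝ)) * ((1 / (h : ℝ) + 1 / ((q : ℝ) - h)) / 2) :=
          mul_le_mul e1 e2 (by positivity) (by positivity)
      _ = _ := by ring
  refine (Finset.sum_le_sum h2).trans ?_
  rw [← Finset.mul_sum, ← Finset.sum_div, Finset.sum_add_distrib]
  have h3 : ∑ h ∈ Finset.Ico 1 q, √(Nat.gcd (q - h) q : ℝ) / ((q - h : ℕ) : ℝ) =
      ∑ h ∈ Finset.Ico 1 q, √(Nat.gcd h q : ℝ) / (h : ℝ) := by
    refine Finset.sum_bij' (fun h _ => q - h) (fun h _ => q - h) ?_ ?_ ?_ ?_ ?_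
    · intro h hh
      have := Finset.mem_Ico.mp hh
      exact Finset.mem_Ico.mpr ⟨by omega, by omega⟩
    · intro h hh
      have := Finset.mem_Ico.mp hh
      exact Finset.mem_Ico.mpr ⟨by omega, by omega⟩
    · intro h hh
      have := Finset.mem_Ico.mp hh
      show q - (q - h) = h
      omega
    · intro h hh
      have := Finset.mem_Ico.mp hh
      show q - (q - h) = h
      omega
    · intro h _
      rfl
  rw [h3]
  have h4 := K09_one q hq1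
  have h5 : (∑ h ∈ Finset.Ico 1 q, √(Nat.gcd h q : ℝ) / (h : ℝ) + ∑ h ∈ Finset.Ico 1 q, √(Nat.gcd h q : ℝ) / (h : ℝ)) / 2 ≤
      q.divisors.card * (1 + Real.log q) := by linarith
  calc √(Nat.gcd b q : ℝ) * ((∑ h ∈ Finset.Ico 1 q, √(Nat.gcd h q : ℝ) / (h : ℝ) + ∑ h ∈ Finset.Ico 1 q, √(Nat.gcd h q : ℝ) / (h : ℝ)) / 2)
      ≤ √(Nat.gcd b q : ℝ) * (q.divisors.card * (1 + Real.log q)) := mul_le_mul_of_nonneg_left h5 (Real.sqrt_nonneg _)
    _ = _ := by ring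

end Pool.Agent.LibF4D
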