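import Mathlib
import Pool.Agent.LibF4D.KDefs
import Pool.Agent.LibF4D.K06
import Pool.Agent.LibF4D.K07
import Pool.Agent.LibF4D.K08
import Pool.Agent.LibF4D.K09

/-! Row K10.
Insert K08 with x = b u⁻¹, exchange the sums over u and h: |AA| ≤ (number of u)/q + (1/q)∑_{h≠0}|geometric sum(h)| |∑_{u ≤ U, (u,q)=1} std(-(h b u⁻¹))|.
K07 with the natural number (-h).val * b (or h.val*b after conjugation: norm of the conjugate; std(-x) = conj std x), KB q (h.val*b) = 2^ω √(q pw q)·√gcd(h.val b, q), K06, K09.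
-/

set_option autoImplicit false

namespace Pool.Agent.LibF4D

open Finset

/-- the sum over the hyperbola for one frequency -/
theorem K10_inner (q : ℕ) [NeZero q] (b N : ℕ) (h : ZMod q) :
    ‖∑ u ∈ (Finset.Icc 1 N).filter (fun u : ℕ => Nat.Coprime u q),
      (ZMod.stdAddChar (-(h * ((b : ZMod q) * ((u : ZMod q))⁻¹))) : ℂ)‖ ≤
      ((N : ℝ) / q + 2 + Real.log q) * KB q (h.val * b) := by
  have h1 : ∑ u ∈ (Finset.Icc 1 N).filter (fun u : ℕ => Nat.Coprime u q),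
      (ZMod.stdAddChar (-(h * ((b : ZMod q) * ((u : ZMod q))⁻¹))) : ℂ) =
      (starRingEnd ℂ) (∑ u ∈ (Finset.Icc 1 N).filter (fun u : ℕ => Nat.Coprime u q),
      (ZMod.stdAddChar (((h.val * b : ℕ) : ZMod q) * ((u : ZMod q))⁻¹) : ℂ)) := by
    rw [map_sum]
    apply Finset.sum_congr rfl
    intro u _
    rw [AddChar.map_neg_eq_conj]
    congr 2
    rw [Nat.cast_mul, ZMod.natCast_zmod_val, mul_assoc]
  rw [h1, RCLike.norm_conj]
  exact K07_incomplete q (h.val * b) N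

theorem K10_KB (q g b : ℕ) :
    KB q (g * b) = 2 ^ q.primeFactors.card * √((q : ℝ) * pw q) * √(Nat.gcd (g * b) q : ℝ) := by
  unfold KB
  rw [Real.sqrt_mul (by positivity)]
  ring

/-- K10: accumulated discrepancy, explicit form (from K07, K08, K06, K09) -/
theorem K10_AA (q : ℕ) [NeZero q] (b : ℕ) {U V : ℝ} (hU : 0 ≤ U) (hV : 0 ≤ V) :
    |AA q (b : ZMod q) U V| ≤ U / q + (U / q + 2 + Real.log q) * (1 + Real.log q) * q.divisors.card *
      2 ^ q.primeFactors.card * √((q : ℝ) * pw q * Nat.gcd b q) := by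
  have hq : (0 : ℝ) < q := by
    have := NeZero.pos q
    exact_mod_cast this
  have hlog : 0 ≤ Real.log q := Real.log_natCast_nonneg q
  set S := (Finset.Icc 1 ⌊U⌋₊).filter (fun u : ℕ => Nat.Coprime u q) with hS
  set H := Finset.univ.filter (fun h : ZMod q => h ≠ 0) with hH
  have hcard : (S.card : ℝ) ≤ U := by
    have h1 : S.card ≤ ⌊U⌋₊ := by
      rw [hS]
      refine (Finset.card_filter_le _ _).trans ?_
      simp
    have h2 : ((⌊U⌋₊ : ℕ) : ℝ) ≤ U := Nat.floor_le hU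
    have h3 : (S.card : ℝ) ≤ ((⌊U⌋₊ : ℕ) : ℝ) := Nat.cast_le.mpr h1
    linarith
  -- complex form
  have hform : ((AA q (b : ZMod q) U V : ℝ) : ℂ) =
      (S.card : ℂ) * ((((⌊V⌋₊ : ℝ) - V : ℝ) : ℂ) / q) +
      (1 / (q : ℂ)) * ∑ h ∈ H, (∑ v ∈ Finset.Icc 1 ⌊V⌋₊, ZMod.stdAddChar (h * (v : ZMod q))) *
        ∑ u ∈ S, (ZMod.stdAddChar (-(h * ((b : ZMod q) * ((u : ZMod q))⁻¹))) : ℂ) := by
    unfold AA
    rw [Complex.ofReal_sum]
    rw [Finset.sum_congr rfl (fun (u : ℕ) _ => K08_Dl ((b : ZMod q) * ((u : ZMod q))⁻¹) hV)]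
    rw [Finset.sum_add_distrib, Finset.sum_const, nsmul_eq_mul, ← Finset.mul_sum]
    congr 2
    rw [Finset.sum_comm]
    apply Finset.sum_congr rfl
    intro h _
    rw [Finset.mul_sum]
  have hnorm : |AA q (b : ZMod q) U V| = ‖((AA q (b : ZMod q) U V : ℝ) : ℂ)‖ := by
    rw [Complex.norm_real, Real.norm_eq_abs]
  rw [hnorm, hform]
  refine (norm_add_le _ _).trans ?_
  have hfirst : ‖(S.card : ℂ) * ((((⌊V⌋₊ : ℝ) - V : ℝ) : ℂ) / q)‖ ≤ U / q := by
    rw [norm_mul, norm_div, Complex.norm_real, Complex.norm_natCast, Complex.norm_natCast,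
      Real.norm_eq_abs]
    have h1 : |((⌊V⌋₊ : ℕ) : ℝ) - V| ≤ 1 := by
      have h2 := Nat.floor_le hV
      have h3 := Nat.lt_floor_add_one V
      rw [abs_le]
      constructor <;> linarith
    have h4 : |((⌊V⌋₊ : ℕ) : ℝ) - V| / q ≤ 1 / q := div_le_div_of_nonneg_right h1 hq.le
    calc (S.card : ℝ) * (|((⌊V⌋₊ : ℕ) : ℝ) - V| / q) ≤ U * (1 / q) :=
          mul_le_mul hcard h4 (by positivity) hU
      _ = U / q := by ring
  have hsecond : ‖(1 / (q : ℂ)) * ∑ h ∈ H, (∑ v ∈ Finset.Icc 1 ⌊V⌋₊,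
        ZMod.stdAddChar (h * (v : ZMod q))) *
        ∑ u ∈ S, (ZMod.stdAddChar (-(h * ((b : ZMod q) * ((u : ZMod q))⁻¹))) : ℂ)‖ ≤
      (U / q + 2 + Real.log q) * (1 + Real.log q) * q.divisors.card *
      2 ^ q.primeFactors.card * √((q : ℝ) * pw q * Nat.gcd b q) := by
    rw [norm_mul]
    have hone : ‖(1 / (q : ℂ))‖ = 1 / q := by
      rw [norm_div, norm_one, Complex.norm_natCast]
    rw [hone]
    set K : ℝ := (U / q + 2 + Real.log q) * (2 ^ q.primeFactors.card * √((q : ℝ) * pw q)) with hK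
    have hK0 : 0 ≤ K := by
      rw [hK]; positivity
    have hterm : ∀ h ∈ H, ‖(∑ v ∈ Finset.Icc 1 ⌊V⌋₊, ZMod.stdAddChar (h * (v : ZMod q))) *
        ∑ u ∈ S, (ZMod.stdAddChar (-(h * ((b : ZMod q) * ((u : ZMod q))⁻¹))) : ℂ)‖ ≤
        (q : ℝ) * K * (√(Nat.gcd (h.val * b) q : ℝ) / (2 * min (h.val : ℝ) (q - h.val))) := by
      intro h hh
      have hne : h ≠ 0 := (Finset.mem_filter.mp hh).2
      rw [norm_mul]
      have e1 := K06_geom h hne ⌊V⌋₊
      have e2 := K10_inner q b ⌊U⌋₊ h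
      have e3 : (((⌊U⌋₊ : ℕ) : ℝ) / q + 2 + Real.log q) * KB q (h.val * b) ≤
          K * √(Nat.gcd (h.val * b) q : ℝ) := by
        rw [K10_KB, hK]
        have h5 : ((⌊U⌋₊ : ℕ) : ℝ) / q ≤ U / q :=
          div_le_div_of_nonneg_right (Nat.floor_le hU) hq.le
        have h6 : (((⌊U⌋₊ : ℕ) : ℝ) / q + 2 + Real.log q) ≤ (U / q + 2 + Real.log q) := by linarith
        calc (((⌊U⌋₊ : ℕ) : ℝ) / q + 2 + Real.log q) *
              (2 ^ q.primeFactors.card * √((q : ℝ) * pw q) * √(Nat.gcd (h.val * b) q : ℝ))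
            ≤ (U / q + 2 + Real.log q) *
              (2 ^ q.primeFactors.card * √((q : ℝ) * pw q) * √(Nat.gcd (h.val * b) q : ℝ)) :=
              mul_le_mul_of_nonneg_right h6 (by positivity)
          _ = _ := by ring
      have e4 := e2.trans e3
      have hmin : 0 ≤ (q : ℝ) / (2 * min (h.val : ℝ) (q - h.val)) := (norm_nonneg _).trans e1
      calc _ ≤ ((q : ℝ) / (2 * min (h.val : ℝ) (q - h.val))) *
            (K * √(Nat.gcd (h.val * b) q : ℝ)) :=
            mul_le_mul e1 e4 (norm_nonneg _) hmin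
        _ = _ := by ring
    have hsum := norm_sum_le_of_le H hterm
    rw [← Finset.mul_sum] at hsum
    have h9 := K09_gcd_sum q b
    have hqK : 0 ≤ (q : ℝ) * K := by positivity
    have h10 := hsum.trans (mul_le_mul_of_nonneg_left h9 hqK)
    have h11 := mul_le_mul_of_nonneg_left h10 (show (0 : ℝ) ≤ 1 / q by positivity)
    refine h11.trans (le_of_eq ?_)
    rw [hK, Real.sqrt_mul (show (0 : ℝ) ≤ (q : ℝ) * pw q by positivity)]
    field_simp
  exact add_le_add hfirst hsecond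

end Pool.Agent.LibF4D
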