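import Mathlib
import Pool.Agent.LibF4D.KDefs
import Pool.Agent.LibHLP.DivBound
import Pool.Agent.LibF4D.K10

/-! Row K11.
2^ω(q) ≤ d(q) ≤ C q^{ε/8} (Pool.Agent.LibHLP.exists_card_divisors_le, copy that file from outputs/live), log q ≤ C q^{ε/8}; so everything is ≤ C (1+U/q) q^{ε} √(q pw q gcd).
For the ε below take care of q ≥ 1; sqrt(q pw gcd) = q^(1/2) √pw √gcd; √(...) ≥ 1 absorbs the term U/q.
-/

set_option autoImplicit false

namespace Pool.Agent.LibF4D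

open Finset

theorem K11_two_pow (q : ℕ) (hq : q ≠ 0) : ((2 : ℝ) ^ q.primeFactors.card) ≤ (q.divisors.card : ℝ) := by
  rw [Nat.card_divisors hq]
  push_cast
  rw [← Finset.prod_const]
  refine Finset.prod_le_prod (fun _ _ => by norm_num) fun p hp => ?_
  have h1 : 1 ≤ q.factorization p := by
    have hp' := Nat.prime_of_mem_primeFactors hp
    exact (hp'.dvd_iff_one_le_factorization hq).mp (Nat.dvd_of_mem_primeFactors hp)
  have h2 : (1 : ℝ) ≤ (q.factorization p : ℝ) := by exact_mod_cast h1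
  linarith

theorem K11_pw_pos (q : ℕ) : 1 ≤ pw q := by
  unfold pw
  refine Nat.one_le_iff_ne_zero.mpr (Finset.prod_ne_zero_iff.mpr fun p hp => ?_)
  have hp' := Nat.prime_of_mem_primeFactors (Finset.mem_filter.mp hp).1
  exact pow_ne_zero _ hp'.ne_zero

/-- K11: final form -/
theorem K11_AA (ε : ℝ) (hε : 0 < ε) : ∃ C : ℝ, 0 < C ∧ ∀ (q : ℕ) (b : ℕ), 1 ≤ q → ∀ U V : ℝ, 0 ≤ U → 0 ≤ V →
    |AA q (b : ZMod q) U V| ≤ C * (1 + U / q) * ((q : ℝ) ^ (1 / 2 + ε) * √(pw q : ℝ) * √(Nat.gcd b q : ℝ)) := by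
  obtain ⟨C, hC1, hC⟩ := Pool.Agent.LibHLP.exists_card_divisors_le (ε / 4) (by positivity)
  have hC0 : 0 < C := by linarith
  refine ⟨1 + (2 + 4 / ε) * (1 + 4 / ε) * C ^ 2, by positivity, ?_⟩
  intro q b hq U V hU hV
  have hq0 : q ≠ 0 := by omega
  have : NeZero q := ⟨hq0⟩
  have hqR : (1 : ℝ) ≤ (q : ℝ) := by exact_mod_cast hq
  have hqpos : (0 : ℝ) < (q : ℝ) := by linarith
  set E : ℝ := (q : ℝ) ^ (ε / 4) with hE
  have hE1 : 1 ≤ E := Real.one_le_rpow hqR (by positivity)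
  have hE0 : 0 < E := by linarith
  have hlog0 : 0 ≤ Real.log q := Real.log_nonneg hqR
  have hlog : Real.log q ≤ 4 / ε * E := by
    have h := Real.log_le_rpow_div hqpos.le (show 0 < ε / 4 by positivity)
    calc Real.log q ≤ (q : ℝ) ^ (ε / 4) / (ε / 4) := h
      _ = 4 / ε * E := by rw [hE]; field_simp
  have hd : (q.divisors.card : ℝ) ≤ C * E := hC q hq0
  have h2 : ((2 : ℝ) ^ q.primeFactors.card) ≤ C * E := (K11_two_pow q hq0).trans hd
  have hpw : (1 : ℝ) ≤ (pw q : ℝ) := by exact_mod_cast K11_pw_pos q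
  have hg : (1 : ℝ) ≤ (Nat.gcd b q : ℝ) := by
    exact_mod_cast Nat.gcd_pos_of_pos_right b (by omega)
  have hsp : 1 ≤ √(pw q : ℝ) := Real.one_le_sqrt.mpr hpw
  have hsg : 1 ≤ √(Nat.gcd b q : ℝ) := Real.one_le_sqrt.mpr hg
  have hsplit : √((q : ℝ) * pw q * Nat.gcd b q) = (q : ℝ) ^ (1 / 2 : ℝ) * √(pw q : ℝ) * √(Nat.gcd b q : ℝ) := by
    rw [Real.sqrt_mul (by positivity), Real.sqrt_mul (by positivity), Real.sqrt_eq_rpow (q : ℝ)]
  have hE4 : E * E * E * E = (q : ℝ) ^ ε := by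
    rw [hE, ← Real.rpow_add hqpos, ← Real.rpow_add hqpos, ← Real.rpow_add hqpos]
    congr 1
    ring
  have hpow : (q : ℝ) ^ (1 / 2 + ε) = (q : ℝ) ^ (1 / 2 : ℝ) * (E * E * E * E) := by
    rw [hE4, ← Real.rpow_add hqpos]
  have hUq : 0 ≤ U / q := by positivity
  have hmain := K10_AA q b (V := V) hU hV
  set S : ℝ := √(pw q : ℝ) * √(Nat.gcd b q : ℝ) with hS
  have hS1 : 1 ≤ S := by
    rw [hS]; exact one_le_mul_of_one_le_of_one_le hsp hsg
  have hH1 : 1 ≤ (q : ℝ) ^ (1 / 2 : ℝ) := Real.one_le_rpow hqR (by norm_num)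
  set H : ℝ := (q : ℝ) ^ (1 / 2 : ℝ) with hH
  have hsplit' : √((q : ℝ) * pw q * Nat.gcd b q) = H * S := by rw [hsplit, hS]; ring
  have hgoal : (q : ℝ) ^ (1 / 2 + ε) * √(pw q : ℝ) * √(Nat.gcd b q : ℝ) = H * S * (E * E * E * E) := by
    rw [hpow, hS]; ring
  rw [hgoal]
  rw [hsplit'] at hmain
  have hHS : 1 ≤ H * S := one_le_mul_of_one_le_of_one_le hH1 hS1
  have hHS0 : 0 < H * S := by linarith
  have a1 : 1 ≤ E * E := one_le_mul_of_one_le_of_one_le hE1 hE1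
  have a2 : 1 ≤ E * E * E := one_le_mul_of_one_le_of_one_le a1 hE1
  have hEE : 1 ≤ E * E * E * E := one_le_mul_of_one_le_of_one_le a2 hE1
  -- first term
  have t1 : U / q ≤ (1 + U / q) * (H * S * (E * E * E * E)) := by
    have b1 : 1 ≤ H * S * (E * E * E * E) := one_le_mul_of_one_le_of_one_le hHS hEE
    have b2 : (1 + U / q) * 1 ≤ (1 + U / q) * (H * S * (E * E * E * E)) :=
      mul_le_mul_of_nonneg_left b1 (by linarith)
    linarith
  -- second term
  have c1 : U / q + 2 + Real.log q ≤ (1 + U / q) * ((2 + 4 / ε) * E) := by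
    have d1 : 2 + Real.log q ≤ (2 + 4 / ε) * E := by linarith
    have d2 : 1 ≤ (2 + 4 / ε) * E := by
      have : 0 ≤ 4 / ε * E := by positivity
      linarith
    have d3 : U / q * 1 ≤ U / q * ((2 + 4 / ε) * E) := mul_le_mul_of_nonneg_left d2 hUq
    linarith
  have c2 : 1 + Real.log q ≤ (1 + 4 / ε) * E := by linarith
  have c3 : (U / q + 2 + Real.log q) * (1 + Real.log q) ≤
      ((1 + U / q) * ((2 + 4 / ε) * E)) * ((1 + 4 / ε) * E) :=
    mul_le_mul c1 c2 (by positivity) (by positivity)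
  have c4 : (U / q + 2 + Real.log q) * (1 + Real.log q) * q.divisors.card ≤
      ((1 + U / q) * ((2 + 4 / ε) * E)) * ((1 + 4 / ε) * E) * (C * E) :=
    mul_le_mul c3 hd (by positivity) (by positivity)
  have c5 : (U / q + 2 + Real.log q) * (1 + Real.log q) * q.divisors.card * 2 ^ q.primeFactors.card ≤
      ((1 + U / q) * ((2 + 4 / ε) * E)) * ((1 + 4 / ε) * E) * (C * E) * (C * E) :=
    mul_le_mul c4 h2 (by positivity) (by positivity)
  have c6 := mul_le_mul_of_nonneg_right c5 hHS0.le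
  calc |AA q (b : ZMod q) U V| ≤ _ := hmain
    _ ≤ (1 + U / q) * (H * S * (E * E * E * E)) +
        ((1 + U / q) * ((2 + 4 / ε) * E)) * ((1 + 4 / ε) * E) * (C * E) * (C * E) * (H * S) := add_le_add t1 c6
    _ = (1 + (2 + 4 / ε) * (1 + 4 / ε) * C ^ 2) * (1 + U / q) * (H * S * (E * E * E * E)) := by ring

end Pool.Agent.LibF4D
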