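import Mathlib
import Pool.Agent.LibF4D.KDefs
import Pool.Agent.LibF4D.DDefs
import Pool.Agent.LibF4D.D05
import Pool.Agent.LibF4D.D06c
import Pool.Agent.LibF4D.D08
import Pool.Agent.LibF4D.D09
import Pool.Agent.LibF4D.D10
import Pool.Agent.LibF4D.K04a
import Pool.Agent.LibF4D.K11

/-! Row D11.
Tc - TM = ∑_g (Inner - InnerM). For each g apply D08 with H = H0(g u, v), E = C (q1)^{1/2+ε} √pw(q1) √gcd ≤ C (cn)^{1/2+ε} √(pw c n²) √r (K11 with b' = val bg; natCast_zmod_val). Scaling u → g u in the lintegral: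
∫_{u>1} g Φ(g u)(1+u/q1) du ≤ ∫_{u>1} Φ(u)(1+u/(g q1)) du ≤ ∫_{u>1}Φ(u)(1+u m/c)du (g q1 m ≥ c). Then D06_int; number of g ≤ r; collect the powers of m n r (at most 8, ε ≤ 1).
The K statements are in the DEPS block.
-/

set_option autoImplicit false

namespace Pool.Agent.LibF4D

open MeasureTheory Set Filter Topology

theorem D11_scale (g : ℝ) (hg : 1 ≤ g) (G : ℝ × ℝ → ENNReal) :
    ENNReal.ofReal g * ∫⁻ p in (Ioi (1 : ℝ)) ×ˢ (Ioi (0 : ℝ)), G (g * p.1, p.2) ≤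
      ∫⁻ p in (Ioi (1 : ℝ)) ×ˢ (Ioi (0 : ℝ)), G p := by
  have hg0 : 0 < g := lt_of_lt_of_le one_pos hg
  set T : ℝ × ℝ → ℝ × ℝ := Prod.map (fun x => g * x) id with hT
  have hmap : Measure.map T (volume : Measure (ℝ × ℝ)) =
      ENNReal.ofReal |g⁻¹| • (volume : Measure (ℝ × ℝ)) := by
    rw [Measure.volume_eq_prod, hT,
      ← Measure.map_prod_map _ _ (measurable_const_mul g) measurable_id,
      Real.map_volume_mul_left hg0.ne', Measure.map_id, Measure.prod_smul_left]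
  have hemb : MeasurableEmbedding T :=
    (measurableEmbedding_mulLeft₀ hg0.ne').prodMap MeasurableEmbedding.id
  have hpre : T ⁻¹' ((Ioi g) ×ˢ (Ioi (0 : ℝ))) = (Ioi (1 : ℝ)) ×ˢ (Ioi (0 : ℝ)) := by
    ext p
    simp only [hT, mem_preimage, mem_prod, mem_Ioi, Prod.map_fst, Prod.map_snd, id]
    constructor
    · rintro ⟨h1, h2⟩
      refine ⟨?_, h2⟩
      by_contra h
      push Not at h
      nlinarith
    · rintro ⟨h1, h2⟩
      exact ⟨by nlinarith, h2⟩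
  have h1 : ∫⁻ p in (Ioi (1 : ℝ)) ×ˢ (Ioi (0 : ℝ)), G (g * p.1, p.2) =
      ENNReal.ofReal |g⁻¹| * ∫⁻ p in (Ioi g) ×ˢ (Ioi (0 : ℝ)), G p := by
    calc ∫⁻ p in (Ioi (1 : ℝ)) ×ˢ (Ioi (0 : ℝ)), G (g * p.1, p.2)
        = ∫⁻ p, G (T p) ∂((volume : Measure (ℝ × ℝ)).restrict
            (T ⁻¹' ((Ioi g) ×ˢ (Ioi (0 : ℝ))))) := by rw [hpre]; rfl
      _ = ∫⁻ p, G p ∂(Measure.map T ((volume : Measure (ℝ × ℝ)).restrict
            (T ⁻¹' ((Ioi g) ×ˢ (Ioi (0 : ℝ)))))) := (hemb.lintegral_map _).symm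
      _ = ∫⁻ p, G p ∂((Measure.map T (volume : Measure (ℝ × ℝ))).restrict
            ((Ioi g) ×ˢ (Ioi (0 : ℝ)))) := by rw [hemb.restrict_map]
      _ = _ := by rw [hmap, Measure.restrict_smul, lintegral_smul_measure, smul_eq_mul]
  rw [h1, ← mul_assoc, ← ENNReal.ofReal_mul hg0.le, abs_of_pos (inv_pos.2 hg0),
    mul_inv_cancel₀ hg0.ne', ENNReal.ofReal_one, one_mul]
  exact lintegral_mono_set (prod_mono (Ioi_subset_Ioi hg) subset_rfl)

theorem D11_E (ε : ℝ) (hε : 0 < ε) (hε1 : ε ≤ 1) {m n r c q k : ℕ} (hm : 1 ≤ m) (hn : 1 ≤ n)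
    (hr : 1 ≤ r) (hc : 1 ≤ c) (_hq : 1 ≤ q) (hqd : q ∣ c * n) (hk : k ≤ r) :
    (q : ℝ) ^ (1 / 2 + ε) * √(pw q : ℝ) * √(k : ℝ) ≤
      ((c : ℝ) ^ (1 / 2 + ε) * √(pw c : ℝ)) * ((m : ℝ) * n * r) ^ 3 := by
  have hcn : c * n ≠ 0 := by positivity
  have hm1 : (1 : ℝ) ≤ m := by exact_mod_cast hm
  have hn1 : (1 : ℝ) ≤ n := by exact_mod_cast hn
  have hr1 : (1 : ℝ) ≤ r := by exact_mod_cast hr
  have hc1 : (1 : ℝ) ≤ c := by exact_mod_cast hc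
  have e1 : (q : ℝ) ^ (1 / 2 + ε) ≤ (c : ℝ) ^ (1 / 2 + ε) * (n : ℝ) ^ 2 := by
    have hqle : (q : ℝ) ≤ (c : ℝ) * n := by
      have := Nat.le_of_dvd (Nat.pos_of_ne_zero hcn) hqd
      exact_mod_cast this
    calc (q : ℝ) ^ (1 / 2 + ε) ≤ ((c : ℝ) * n) ^ (1 / 2 + ε) :=
          Real.rpow_le_rpow (Nat.cast_nonneg _) hqle (by positivity)
      _ = (c : ℝ) ^ (1 / 2 + ε) * (n : ℝ) ^ (1 / 2 + ε) :=
          Real.mul_rpow (Nat.cast_nonneg _) (Nat.cast_nonneg _)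
      _ ≤ (c : ℝ) ^ (1 / 2 + ε) * (n : ℝ) ^ 2 := by
          refine mul_le_mul_of_nonneg_left ?_ (by positivity)
          rw [← Real.rpow_natCast]
          exact Real.rpow_le_rpow_of_exponent_le hn1 (by push_cast; linarith)
  have e2 : √(pw q : ℝ) ≤ √(pw c : ℝ) * n := by
    have h1 : pw q ≤ pw c * n ^ 2 := (K04_pw_mono hcn hqd).trans (K04_pw_mul_le hc hn)
    have h2 : (pw q : ℝ) ≤ (pw c : ℝ) * (n : ℝ) ^ 2 := by exact_mod_cast h1
    calc √(pw q : ℝ) ≤ √((pw c : ℝ) * (n : ℝ) ^ 2) := Real.sqrt_le_sqrt h2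
      _ = √(pw c : ℝ) * n := by
          rw [Real.sqrt_mul (Nat.cast_nonneg _), Real.sqrt_sq (Nat.cast_nonneg _)]
  have e3 : √(k : ℝ) ≤ r := by
    have h1 : (k : ℝ) ≤ r := by exact_mod_cast hk
    rw [Real.sqrt_le_left (by positivity)]
    nlinarith
  calc (q : ℝ) ^ (1 / 2 + ε) * √(pw q : ℝ) * √(k : ℝ)
      ≤ ((c : ℝ) ^ (1 / 2 + ε) * (n : ℝ) ^ 2) * (√(pw c : ℝ) * n) * r := by gcongr
    _ = ((c : ℝ) ^ (1 / 2 + ε) * √(pw c : ℝ)) * ((1 : ℝ) ^ 3 * (n : ℝ) ^ 3 * (r : ℝ) ^ 1) := by ring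
    _ ≤ ((c : ℝ) ^ (1 / 2 + ε) * √(pw c : ℝ)) * ((m : ℝ) ^ 3 * (n : ℝ) ^ 3 * (r : ℝ) ^ 3) := by
        gcongr
        · norm_num
    _ = _ := by ring

/-- D11: error term for one `c` -/
theorem D11_err (ε : ℝ) (hε : 0 < ε) (hε1 : ε ≤ 1) : ∃ C : ℝ, 1 ≤ C ∧ ∀ (m n r c : ℕ) (f f1 f2 : ℝ → ℂ) (K X : ℝ), 1 ≤ m → 1 ≤ n → 1 ≤ r → 1 ≤ c →
    Flat f f1 f2 K X → 0 ≤ K → 1 ≤ X →
    ‖Tc m n r c f - TM m n r c f‖ ≤ C * K * ((m : ℝ) * n * r) ^ 8 * X ^ ε * (1 + √X / c) * (X / (X + (c : ℝ) ^ 2)) ^ 2 *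
      ((c : ℝ) ^ (1 / 2 + ε) * √(pw c : ℝ)) := by
  obtain ⟨C1, hC1, H1⟩ := K11_AA ε hε
  obtain ⟨C2, hC2, H2⟩ := D06_int ε hε
  refine ⟨C1 * C2 + 1, by nlinarith, ?_⟩
  intro m n r c f f1 f2 K X hm hn hr hc hf hK hX
  have hm1 : (1 : ℝ) ≤ m := by exact_mod_cast hm
  have hn1 : (1 : ℝ) ≤ n := by exact_mod_cast hn
  have hr1 : (1 : ℝ) ≤ r := by exact_mod_cast hr
  have hc1 : (1 : ℝ) ≤ c := by exact_mod_cast hc
  have hκ : (1 : ℝ) ≤ (c : ℝ) ^ 2 * n := one_le_mul_of_one_le_of_one_le (one_le_pow₀ hc1) hn1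
  have hX0 : 0 < X := lt_of_lt_of_le one_pos hX
  set M : ℝ := (m : ℝ) * n * r with hM
  have hM1 : 1 ≤ M := one_le_mul_of_one_le_of_one_le (one_le_mul_of_one_le_of_one_le hm1 hn1) hr1
  set Z : ℝ := X ^ ε * (1 + √X / c) * (X / (X + (c : ℝ) ^ 2)) ^ 2 with hZ
  have hZ0 : 0 ≤ Z := by positivity
  set Y : ℝ := (c : ℝ) ^ (1 / 2 + ε) * √(pw c : ℝ) with hY
  have hY0 : 0 ≤ Y := by positivity
  have hint := H2 m n r c K X f f1 f2 hm1 hn1 hr1 hc1 hf hK hX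
  have hterm : ∀ g ∈ gS m n r c,
      ‖Inner (qg m n c g) (bg m n r c g) (fun u v => H0 m r ((c : ℝ) ^ 2 * n) f (g * u) v) -
        InnerM (qg m n c g) (fun u v => H0 m r ((c : ℝ) ^ 2 * n) f (g * u) v)‖ ≤
      (C1 * (Y * M ^ 3)) * (C2 * K * M ^ 4 * Z) := by
    intro g hg
    obtain ⟨hg1, hgr, hq, hqd, hgq, hgcd⟩ := D10_q hm hn hr hc hg
    have hg1' : (1 : ℝ) ≤ g := by exact_mod_cast hg1
    have hg0 : (0 : ℝ) < g := lt_of_lt_of_le one_pos hg1'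
    have hq0 : (0 : ℝ) < (qg m n c g : ℝ) := by exact_mod_cast hq
    have : NeZero (qg m n c g) := ⟨by omega⟩
    obtain ⟨B, hReg⟩ := D05_Reg hm1 hr1 hκ hf hK hX hg1'
    have hA : ∀ U V : ℝ, 0 ≤ U → 0 ≤ V → |AA (qg m n c g) (bg m n r c g) U V| ≤
        (C1 * (Y * M ^ 3)) * (1 + U / (qg m n c g : ℕ)) := by
      intro U V hU hV
      have h1 := H1 (qg m n c g) (ZMod.val (bg m n r c g)) hq U V hU hV
      rw [ZMod.natCast_zmod_val] at h1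
      have h2 := D11_E ε hε hε1 hm hn hr hc hq hqd hgcd
      calc |AA (qg m n c g) (bg m n r c g) U V| ≤ _ := h1
        _ ≤ C1 * (1 + U / (qg m n c g : ℕ)) * (Y * M ^ 3) := by
            refine mul_le_mul_of_nonneg_left h2 ?_
            have : 0 ≤ U / (qg m n c g : ℕ) := by positivity
            nlinarith
        _ = _ := by ring
    have h3 := D08_abel2 hq (bg m n r c g) hReg (E := C1 * (Y * M ^ 3)) (by positivity) hA
    have h4 : ∫⁻ p in (Ioi (1 : ℝ)) ×ˢ (Ioi (0 : ℝ)),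
        ENNReal.ofReal (‖(g : ℂ) * Huv m r ((c : ℝ) ^ 2 * n) f f1 f2 (g * p.1) p.2‖ *
          (1 + p.1 / (qg m n c g : ℕ))) ≤ ENNReal.ofReal (C2 * K * M ^ 4 * Z) := by
      have h5 : ∀ p : ℝ × ℝ,
          ENNReal.ofReal (‖(g : ℂ) * Huv m r ((c : ℝ) ^ 2 * n) f f1 f2 (g * p.1) p.2‖ *
            (1 + p.1 / (qg m n c g : ℕ))) = ENNReal.ofReal g *
          (fun z : ℝ × ℝ => ENNReal.ofReal (‖Huv m r ((c : ℝ) ^ 2 * n) f f1 f2 z.1 z.2‖ *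
            (1 + z.1 / (g * (qg m n c g : ℕ))))) ((g : ℝ) * p.1, p.2) := by
        intro p
        simp only
        rw [← ENNReal.ofReal_mul hg0.le, norm_mul, Complex.norm_natCast]
        congr 1
        have : (g : ℝ) * p.1 / (g * (qg m n c g : ℕ)) = p.1 / (qg m n c g : ℕ) := by
          rw [mul_div_mul_left _ _ hg0.ne']
        rw [this]
        ring
      calc ∫⁻ p in (Ioi (1 : ℝ)) ×ˢ (Ioi (0 : ℝ)),
            ENNReal.ofReal (‖(g : ℂ) * Huv m r ((c : ℝ) ^ 2 * n) f f1 f2 (g * p.1) p.2‖ *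
              (1 + p.1 / (qg m n c g : ℕ)))
          = ENNReal.ofReal g * ∫⁻ p in (Ioi (1 : ℝ)) ×ˢ (Ioi (0 : ℝ)),
            (fun z : ℝ × ℝ => ENNReal.ofReal (‖Huv m r ((c : ℝ) ^ 2 * n) f f1 f2 z.1 z.2‖ *
            (1 + z.1 / (g * (qg m n c g : ℕ))))) ((g : ℝ) * p.1, p.2) := by
            rw [← lintegral_const_mul' _ _ ENNReal.ofReal_ne_top]
            exact lintegral_congr h5
        _ ≤ ∫⁻ p in (Ioi (1 : ℝ)) ×ˢ (Ioi (0 : ℝ)),
            (fun z : ℝ × ℝ => ENNReal.ofReal (‖Huv m r ((c : ℝ) ^ 2 * n) f f1 f2 z.1 z.2‖ *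
            (1 + z.1 / (g * (qg m n c g : ℕ))))) p := D11_scale g hg1' _
        _ ≤ ∫⁻ p in (Ioi (1 : ℝ)) ×ˢ (Ioi (0 : ℝ)),
            ENNReal.ofReal (‖Huv m r ((c : ℝ) ^ 2 * n) f f1 f2 p.1 p.2‖ * (1 + p.1 * m / c)) := by
            refine setLIntegral_mono' (measurableSet_Ioi.prod measurableSet_Ioi) ?_
            intro p hp
            refine ENNReal.ofReal_le_ofReal (mul_le_mul_of_nonneg_left ?_ (norm_nonneg _))
            have hp1 : 0 < p.1 := lt_trans one_pos hp.1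
            have hgq' : (c : ℝ) ≤ g * (qg m n c g : ℕ) * m := by exact_mod_cast hgq
            have : p.1 / (g * (qg m n c g : ℕ)) ≤ p.1 * m / c := by
              rw [div_le_div_iff₀ (by positivity) (by positivity)]
              nlinarith [mul_le_mul_of_nonneg_left hgq' hp1.le]
            linarith
        _ ≤ _ := hint
        _ = _ := by
            congr 1
            rw [hZ]
            ring
    have h6 : ENNReal.ofReal ‖Inner (qg m n c g) (bg m n r c g)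
          (fun u v => H0 m r ((c : ℝ) ^ 2 * n) f (g * u) v) -
        InnerM (qg m n c g) (fun u v => H0 m r ((c : ℝ) ^ 2 * n) f (g * u) v)‖ ≤
        ENNReal.ofReal ((C1 * (Y * M ^ 3)) * (C2 * K * M ^ 4 * Z)) := by
      rw [ENNReal.ofReal_mul (by positivity)]
      exact h3.trans (mul_le_mul_right h4 _)
    exact (ENNReal.ofReal_le_ofReal_iff (by positivity)).1 h6
  rw [D09_Tc hm hn hr hc hf hK hX, TM, ← Finset.sum_sub_distrib]
  calc ‖∑ g ∈ gS m n r c, (Inner (qg m n c g) (bg m n r c g)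
          (fun u v => H0 m r ((c : ℝ) ^ 2 * n) f (g * u) v) -
        InnerM (qg m n c g) (fun u v => H0 m r ((c : ℝ) ^ 2 * n) f (g * u) v))‖
      ≤ ∑ g ∈ gS m n r c, ‖Inner (qg m n c g) (bg m n r c g)
          (fun u v => H0 m r ((c : ℝ) ^ 2 * n) f (g * u) v) -
        InnerM (qg m n c g) (fun u v => H0 m r ((c : ℝ) ^ 2 * n) f (g * u) v)‖ := norm_sum_le _ _
    _ ≤ ∑ _g ∈ gS m n r c, (C1 * (Y * M ^ 3)) * (C2 * K * M ^ 4 * Z) := Finset.sum_le_sum hterm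
    _ = ((gS m n r c).card : ℝ) * ((C1 * (Y * M ^ 3)) * (C2 * K * M ^ 4 * Z)) := by
        rw [Finset.sum_const, nsmul_eq_mul]
    _ ≤ M * ((C1 * (Y * M ^ 3)) * (C2 * K * M ^ 4 * Z)) := by
        refine mul_le_mul_of_nonneg_right ?_ (by positivity)
        have h7 : ((gS m n r c).card : ℝ) ≤ r := by exact_mod_cast D10_card hr
        have h8 : (r : ℝ) ≤ M := by
          rw [hM]
          nlinarith [one_le_mul_of_one_le_of_one_le hm1 hn1]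
        linarith
    _ = (C1 * C2) * (K * M ^ 8 * Z * Y) := by ring
    _ ≤ (C1 * C2 + 1) * (K * M ^ 8 * Z * Y) := by
        refine mul_le_mul_of_nonneg_right (by linarith) (by positivity)
    _ = _ := by
        rw [hZ]
        ring

end Pool.Agent.LibF4D
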