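import Mathlib
import Pool.Agent.LibF4D.KDefs
import Pool.Agent.LibF4D.K04a

/-! Row K12.
pw c = a^2 b^3 for some a,b ≥ 1 (all exponents ≥ 2: even k = 2j, odd k = 2j+3), it divides c. So √(pw c)/c^{1+ε} ≤ ∑_{(a,b,n): a²b³n = c} a b^{3/2} (a²b³n)^{-1-ε}
and the triple sum ∑ a^{-1-2ε} b^{-3/2-3ε} n^{-1-ε} converges. (Summable.of_nonneg_of_le with a sigma/fiber sum, or bound the partial sums over c ≤ N by the full product of three series: for finite sets, map c ↦ (a,b,c/(a²b³)) is injective.) That injectivity argument is the shortest.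
-/

set_option autoImplicit false

namespace Pool.Agent.LibF4D

open Finset

theorem F4K12_dec (c : ℕ) (hc : c ≠ 0) : ∃ a b n : ℕ, 0 < a ∧ 0 < b ∧ 0 < n ∧
    c = a ^ 2 * b ^ 3 * n ∧ pw c = a ^ 2 * b ^ 3 := by
  obtain ⟨n, hn⟩ := K04_pw_dvd c
  set S := c.primeFactors.filter (fun p => 2 ≤ c.factorization p) with hS
  have hpos : ∀ (f : ℕ → ℕ), 0 < ∏ p ∈ S, p ^ f p := by
    intro f
    apply Finset.prod_pos
    intro p hp
    rw [hS, Finset.mem_filter] at hp
    exact pow_pos (Nat.prime_of_mem_primeFactors hp.1).pos _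
  refine ⟨∏ p ∈ S, p ^ ((c.factorization p - 3 * (c.factorization p % 2)) / 2),
    ∏ p ∈ S, p ^ (c.factorization p % 2), n, hpos _, hpos _, ?_, ?_, ?_⟩
  · rcases Nat.eq_zero_or_pos n with h | h
    · rw [h, mul_zero] at hn
      exact absurd hn hc
    · exact h
  · rw [← Finset.prod_pow, ← Finset.prod_pow, ← Finset.prod_mul_distrib]
    have h1 : ∏ p ∈ S, (p ^ ((c.factorization p - 3 * (c.factorization p % 2)) / 2)) ^ 2
        * (p ^ (c.factorization p % 2)) ^ 3 = pw c := by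
      unfold pw
      apply Finset.prod_congr rfl
      intro p hp
      rw [hS, Finset.mem_filter] at hp
      rw [← pow_mul, ← pow_mul, ← pow_add]
      congr 1
      have := hp.2
      omega
    rw [h1]
    exact hn
  · rw [← Finset.prod_pow, ← Finset.prod_pow, ← Finset.prod_mul_distrib]
    unfold pw
    apply Finset.prod_congr rfl
    intro p hp
    rw [Finset.mem_filter] at hp
    rw [← pow_mul, ← pow_mul, ← pow_add]
    congr 1
    have := hp.2
    omega

/-- K12: the powerful part is small on average -/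
theorem K12_summable (ε : ℝ) (hε : 0 < ε) : Summable fun c : ℕ => √(pw c : ℝ) / (c : ℝ) ^ (1 + ε) := by
  have key : ∀ c : ℕ, ∃ t : ℕ × ℕ × ℕ, c = t.1 ^ 2 * t.2.1 ^ 3 * t.2.2 ∧
      √(pw c : ℝ) / (c : ℝ) ^ (1 + ε) ≤ (t.1 : ℝ) ^ (-(1 + 2 * ε)) *
        ((t.2.1 : ℝ) ^ (-(3 / 2 + 3 * ε)) * (t.2.2 : ℝ) ^ (-(1 + ε))) := by
    intro c
    rcases Nat.eq_zero_or_pos c with hc | hc
    · refine ⟨(0, 0, 0), by simp [hc], ?_⟩
      rw [hc]
      have h1 : (1 + ε) ≠ 0 := by linarith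
      have h2 : -(1 + 2 * ε) ≠ 0 := by linarith
      simp only [Nat.cast_zero]
      rw [Real.zero_rpow h1, Real.zero_rpow h2]
      simp
    · obtain ⟨a, b, n, ha, hb, hn, h1, h2⟩ := F4K12_dec c hc.ne'
      refine ⟨(a, b, n), h1, ?_⟩
      have ha' : (0 : ℝ) < a := by exact_mod_cast ha
      have hb' : (0 : ℝ) < b := by exact_mod_cast hb
      have hn' : (0 : ℝ) < n := by exact_mod_cast hn
      rw [h2]
      have h3 : (c : ℝ) = (a : ℝ) ^ 2 * (b : ℝ) ^ 3 * n := by
        rw [h1]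
        push_cast
        ring
      rw [h3]
      push_cast
      rw [Real.sqrt_eq_rpow, Real.mul_rpow (by positivity) (by positivity),
        Real.mul_rpow (by positivity) (by positivity), Real.mul_rpow (by positivity) (by positivity),
        ← Real.rpow_natCast (a : ℝ) 2, ← Real.rpow_natCast (b : ℝ) 3, ← Real.rpow_mul ha'.le,
        ← Real.rpow_mul ha'.le, ← Real.rpow_mul hb'.le, ← Real.rpow_mul hb'.le,
        div_eq_mul_inv, mul_inv, mul_inv, ← Real.rpow_neg ha'.le, ← Real.rpow_neg hb'.le,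
        ← Real.rpow_neg hn'.le]
      have e1 : (a : ℝ) ^ (((2 : ℕ) : ℝ) * (1 / 2)) * (b : ℝ) ^ (((3 : ℕ) : ℝ) * (1 / 2)) *
          ((a : ℝ) ^ (-(((2 : ℕ) : ℝ) * (1 + ε))) * (b : ℝ) ^ (-(((3 : ℕ) : ℝ) * (1 + ε)))
            * (n : ℝ) ^ (-(1 + ε)))
          = ((a : ℝ) ^ (((2 : ℕ) : ℝ) * (1 / 2)) * (a : ℝ) ^ (-(((2 : ℕ) : ℝ) * (1 + ε)))) *
            (((b : ℝ) ^ (((3 : ℕ) : ℝ) * (1 / 2)) * (b : ℝ) ^ (-(((3 : ℕ) : ℝ) * (1 + ε))))
            * (n : ℝ) ^ (-(1 + ε))) := by ring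
      rw [e1, ← Real.rpow_add ha', ← Real.rpow_add hb']
      apply le_of_eq
      congr 2
      · push_cast
        ring
      · congr 1
        push_cast
        ring
  choose φ hφ using key
  have hinj : Function.Injective φ := by
    intro c d h
    rw [(hφ c).1, (hφ d).1, h]
  have s1 : Summable fun a : ℕ => (a : ℝ) ^ (-(1 + 2 * ε)) :=
    Real.summable_nat_rpow.2 (by linarith)
  have s2 : Summable fun a : ℕ => (a : ℝ) ^ (-(3 / 2 + 3 * ε)) :=
    Real.summable_nat_rpow.2 (by linarith)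
  have s3 : Summable fun a : ℕ => (a : ℝ) ^ (-(1 + ε)) :=
    Real.summable_nat_rpow.2 (by linarith)
  have s23 := s2.mul_of_nonneg s3 (fun a => by positivity) (fun a => by positivity)
  have s123 := s1.mul_of_nonneg s23 (fun a => by positivity) (fun a => by positivity)
  refine Summable.of_nonneg_of_le (fun c => by positivity) (fun c => (hφ c).2)
    (s123.comp_injective hinj)

end Pool.Agent.LibF4D
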