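import Mathlib
import Pool.Agent.LibF4D.KDefs
import Pool.Agent.LibF4D.DDefs
import Pool.Agent.LibF4D.D11
import Pool.Agent.LibF4D.K12

/-! Row D12.
ε = 1/32. (1+√X/c)(X/(X+c²))² c^{1/2+ε} ≤ C X^{3/4+ε} c^{-1-ε}: for c² ≤ X: √X/c * c^{3/2+2ε} ≤ X^{3/4+ε}; for c² > X: (X/c²)² c^{3/2+2ε} ≤ X^{3/4+ε}. Then K12_summable with ε; total exponent 3/4 + 3/32 ≤ 7/8.
-/

set_option autoImplicit false

namespace Pool.Agent.LibF4D

open MeasureTheory Set Filter Topology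

/-- the elementary inequality behind D12 -/
theorem D12_aux {c X : ℝ} (hc : 1 ≤ c) (hX : 1 ≤ X) :
    (1 + √X / c) * (X / (X + c ^ 2)) ^ 2 * c ^ (1 / 2 + 1 / 32 : ℝ) * c ^ (1 + 1 / 32 : ℝ) ≤ 2 * X ^ (3 / 4 + 1 / 32 : ℝ) := by
  have hX0 : 0 < X := by linarith
  have hc0 : 0 < c := by linarith
  have hs0 : 0 < √X := Real.sqrt_pos.mpr hX0
  have hcc : c ^ (1 / 2 + 1 / 32 : ℝ) * c ^ (1 + 1 / 32 : ℝ) = c ^ (25 / 16 : ℝ) := by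
    rw [← Real.rpow_add hc0]; norm_num
  rw [mul_assoc, hcc]
  have hR1 : X / (X + c ^ 2) ≤ 1 := by
    rw [div_le_one (by positivity)]; nlinarith
  have hR0 : 0 ≤ X / (X + c ^ 2) := by positivity
  rcases le_total c (√X) with h | h
  · -- c ≤ √X
    have h1 : 1 + √X / c ≤ 2 * (√X / c) := by
      have : 1 ≤ √X / c := by rw [le_div_iff₀ hc0]; linarith
      linarith
    have h2 : (X / (X + c ^ 2)) ^ 2 ≤ 1 := pow_le_one₀ hR0 hR1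
    have h3 : (1 + √X / c) * (X / (X + c ^ 2)) ^ 2 ≤ 2 * (√X / c) := by
      calc (1 + √X / c) * (X / (X + c ^ 2)) ^ 2 ≤ (1 + √X / c) * 1 := mul_le_mul_of_nonneg_left h2 (by positivity)
        _ ≤ 2 * (√X / c) := by linarith
    have h4 : c ^ (25 / 16 : ℝ) = c * c ^ (9 / 16 : ℝ) := by
      nth_rewrite 2 [← Real.rpow_one c]
      rw [← Real.rpow_add hc0]; norm_num
    have h5 : c ^ (9 / 16 : ℝ) ≤ (√X) ^ (9 / 16 : ℝ) := Real.rpow_le_rpow hc0.le h (by norm_num)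
    have h6 : √X * (√X) ^ (9 / 16 : ℝ) = X ^ (3 / 4 + 1 / 32 : ℝ) := by
      nth_rewrite 1 [← Real.rpow_one (√X)]
      rw [← Real.rpow_add hs0, Real.sqrt_eq_rpow, ← Real.rpow_mul hX0.le]
      norm_num
    calc (1 + √X / c) * (X / (X + c ^ 2)) ^ 2 * c ^ (25 / 16 : ℝ) ≤ 2 * (√X / c) * c ^ (25 / 16 : ℝ) :=
          mul_le_mul_of_nonneg_right h3 (by positivity)
      _ = 2 * (√X * c ^ (9 / 16 : ℝ)) := by rw [h4]; field_simp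
      _ ≤ 2 * (√X * (√X) ^ (9 / 16 : ℝ)) := by
          refine mul_le_mul_of_nonneg_left (mul_le_mul_of_nonneg_left h5 hs0.le) (by norm_num)
      _ = 2 * X ^ (3 / 4 + 1 / 32 : ℝ) := by rw [h6]
  · -- √X ≤ c
    have h1 : 1 + √X / c ≤ 2 := by
      have : √X / c ≤ 1 := by rw [div_le_one hc0]; exact h
      linarith
    have h2 : X / (X + c ^ 2) ≤ X / c ^ 2 := div_le_div_of_nonneg_left hX0.le (by positivity) (by linarith)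
    have h3 : (X / (X + c ^ 2)) ^ 2 ≤ (X / c ^ 2) ^ 2 := pow_le_pow_left₀ hR0 h2 2
    have h4 : (X / c ^ 2) ^ 2 = X ^ 2 * c ^ (-4 : ℝ) := by
      rw [Real.rpow_neg hc0.le]
      have : c ^ (4 : ℝ) = c ^ 4 := by norm_cast
      rw [this]; field_simp
    have h5 : c ^ (-4 : ℝ) * c ^ (25 / 16 : ℝ) = c ^ (-(39 / 16) : ℝ) := by
      rw [← Real.rpow_add hc0]; norm_num
    have h6 : c ^ (-(39 / 16) : ℝ) ≤ (√X) ^ (-(39 / 16) : ℝ) := Real.rpow_le_rpow_of_nonpos hs0 h (by norm_num)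
    have h7 : X ^ 2 * (√X) ^ (-(39 / 16) : ℝ) = X ^ (3 / 4 + 1 / 32 : ℝ) := by
      have : X ^ 2 = X ^ (2 : ℝ) := by norm_cast
      rw [this, Real.sqrt_eq_rpow, ← Real.rpow_mul hX0.le, ← Real.rpow_add hX0]
      norm_num
    calc (1 + √X / c) * (X / (X + c ^ 2)) ^ 2 * c ^ (25 / 16 : ℝ)
        ≤ 2 * (X / c ^ 2) ^ 2 * c ^ (25 / 16 : ℝ) := by
          refine mul_le_mul_of_nonneg_right ?_ (by positivity)
          exact mul_le_mul h1 h3 (by positivity) (by norm_num)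
      _ = 2 * (X ^ 2 * c ^ (-(39 / 16) : ℝ)) := by rw [h4, ← h5]; ring
      _ ≤ 2 * (X ^ 2 * (√X) ^ (-(39 / 16) : ℝ)) := by
          refine mul_le_mul_of_nonneg_left (mul_le_mul_of_nonneg_left h6 (by positivity)) (by norm_num)
      _ = 2 * X ^ (3 / 4 + 1 / 32 : ℝ) := by rw [h7]

/-- D12: sum over `c` of the error terms -/
theorem D12_sum : ∃ C : ℝ, 1 ≤ C ∧ ∀ (m n r : ℕ) (f f1 f2 : ℝ → ℂ) (K X : ℝ), 1 ≤ m → 1 ≤ n → 1 ≤ r →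
    Flat f f1 f2 K X → 0 ≤ K → 1 ≤ X →
    Summable (fun c : ℕ => ‖Tc m n r (c + 1) f - TM m n r (c + 1) f‖) ∧
    ∑' c : ℕ, ‖Tc m n r (c + 1) f - TM m n r (c + 1) f‖ ≤ C * K * ((m : ℝ) * n * r) ^ 8 * X ^ (7 / 8 : ℝ) := by
  obtain ⟨C, hC1, hD⟩ := D11_err (1 / 32) (by norm_num) (by norm_num)
  have hS0 := K12_summable (1 / 32) (by norm_num)
  have hS : Summable fun c : ℕ => √(pw (c + 1) : ℝ) / ((c + 1 : ℕ) : ℝ) ^ (1 + 1 / 32 : ℝ) :=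
    (summable_nat_add_iff 1).mpr hS0
  set T0 : ℝ := ∑' c : ℕ, √(pw (c + 1) : ℝ) / ((c + 1 : ℕ) : ℝ) ^ (1 + 1 / 32 : ℝ) with hT
  have hT0 : 0 ≤ T0 := tsum_nonneg fun c => by positivity
  refine ⟨2 * C * (T0 + 1), by nlinarith, ?_⟩
  intro m n r f f1 f2 K X hm hn hr hf hK hX
  have hX0 : 0 < X := by linarith
  set L : ℝ := C * K * ((m : ℝ) * n * r) ^ 8 * (2 * X ^ (7 / 8 : ℝ)) with hL
  have hL0 : 0 ≤ L := by positivity
  have hpt : ∀ c : ℕ, ‖Tc m n r (c + 1) f - TM m n r (c + 1) f‖ ≤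
      L * (√(pw (c + 1) : ℝ) / ((c + 1 : ℕ) : ℝ) ^ (1 + 1 / 32 : ℝ)) := by
    intro c
    have h := hD m n r (c + 1) f f1 f2 K X hm hn hr (by omega) hf hK hX
    set d : ℝ := ((c + 1 : ℕ) : ℝ) with hd
    have hd1 : 1 ≤ d := by rw [hd]; push_cast; linarith [(Nat.cast_nonneg c : (0 : ℝ) ≤ (c : ℝ))]
    have hd0 : 0 < d := by linarith
    have hA := D12_aux hd1 hX
    have hXX : X ^ (1 / 32 : ℝ) * (2 * X ^ (3 / 4 + 1 / 32 : ℝ)) ≤ 2 * X ^ (7 / 8 : ℝ) := by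
      have e : X ^ (1 / 32 : ℝ) * X ^ (3 / 4 + 1 / 32 : ℝ) = X ^ (13 / 16 : ℝ) := by
        rw [← Real.rpow_add hX0]; norm_num
      have e2 : X ^ (13 / 16 : ℝ) ≤ X ^ (7 / 8 : ℝ) := Real.rpow_le_rpow_of_exponent_le hX (by norm_num)
      nlinarith
    have hP : 0 < d ^ (1 + 1 / 32 : ℝ) := Real.rpow_pos_of_pos hd0 _
    refine h.trans ?_
    rw [← mul_div_assoc, le_div_iff₀ hP]
    have hB : 0 ≤ C * K * ((m : ℝ) * n * r) ^ 8 * √(pw (c + 1) : ℝ) := by positivity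
    calc C * K * ((m : ℝ) * n * r) ^ 8 * X ^ (1 / 32 : ℝ) * (1 + √X / d) * (X / (X + d ^ 2)) ^ 2 *
          (d ^ (1 / 2 + 1 / 32 : ℝ) * √(pw (c + 1) : ℝ)) * d ^ (1 + 1 / 32 : ℝ)
        = (C * K * ((m : ℝ) * n * r) ^ 8 * √(pw (c + 1) : ℝ)) * (X ^ (1 / 32 : ℝ) *
          ((1 + √X / d) * (X / (X + d ^ 2)) ^ 2 * d ^ (1 / 2 + 1 / 32 : ℝ) * d ^ (1 + 1 / 32 : ℝ))) := by ring
      _ ≤ (C * K * ((m : ℝ) * n * r) ^ 8 * √(pw (c + 1) : ℝ)) * (X ^ (1 / 32 : ℝ) * (2 * X ^ (3 / 4 + 1 / 32 : ℝ))) :=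
          mul_le_mul_of_nonneg_left (mul_le_mul_of_nonneg_left hA (by positivity)) hB
      _ ≤ (C * K * ((m : ℝ) * n * r) ^ 8 * √(pw (c + 1) : ℝ)) * (2 * X ^ (7 / 8 : ℝ)) :=
          mul_le_mul_of_nonneg_left hXX hB
      _ = L * √(pw (c + 1) : ℝ) := by rw [hL]; ring
  have hsum : Summable (fun c : ℕ => ‖Tc m n r (c + 1) f - TM m n r (c + 1) f‖) :=
    Summable.of_nonneg_of_le (fun c => norm_nonneg _) hpt (hS.mul_left L)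
  refine ⟨hsum, ?_⟩
  calc ∑' c : ℕ, ‖Tc m n r (c + 1) f - TM m n r (c + 1) f‖
      ≤ ∑' c : ℕ, L * (√(pw (c + 1) : ℝ) / ((c + 1 : ℕ) : ℝ) ^ (1 + 1 / 32 : ℝ)) :=
        hsum.tsum_le_tsum hpt (hS.mul_left L)
    _ = L * T0 := by rw [tsum_mul_left]
    _ ≤ L * (T0 + 1) := mul_le_mul_of_nonneg_left (by linarith) hL0
    _ = 2 * C * (T0 + 1) * K * ((m : ℝ) * n * r) ^ 8 * X ^ (7 / 8 : ℝ) := by rw [hL]; ring

end Pool.Agent.LibF4D
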