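import Mathlib
import Pool.Agent.LibF4D.KDefs
import Pool.Agent.LibF4D.DDefs
import Pool.Agent.LibF4D.D01a

/-! Row D02.
∑_{u | a} kp(a/u²) is invariant under u ↦ a/u (Nat.sum_div_divisors), a/(a/u)² = u²/a = (a/u²)⁻¹; so 2∑ = ∑ (kp x + kp x⁻¹) = number of divisors.
-/

set_option autoImplicit false

namespace Pool.Agent.LibF4D

open MeasureTheory Set Filter Topology

/-- D02: the smooth hyperbola identity -/
theorem D02_dv {a : ℕ} (ha : 1 ≤ a) : dv a = 2 * ∑ u ∈ a.divisors, kp ((a : ℝ) / (u : ℝ) ^ 2) := by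
  have ha0 : (0 : ℝ) < a := by exact_mod_cast ha
  have h1 : ∑ u ∈ a.divisors, kp ((a : ℝ) / (u : ℝ) ^ 2)
      = ∑ u ∈ a.divisors, kp (((a : ℝ) / (u : ℝ) ^ 2)⁻¹) := by
    rw [← Nat.sum_div_divisors a (fun u => kp ((a : ℝ) / (u : ℝ) ^ 2))]
    apply Finset.sum_congr rfl
    intro u hu
    have hud := (Nat.mem_divisors.1 hu).1
    have hu0 : (0 : ℝ) < u := by exact_mod_cast Nat.pos_of_mem_divisors hu
    congr 1
    rw [Nat.cast_div hud (ne_of_gt hu0)]
    field_simp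
  have h2 : 2 * ∑ u ∈ a.divisors, kp ((a : ℝ) / (u : ℝ) ^ 2)
      = ∑ u ∈ a.divisors, (1 : ℝ) := by
    rw [two_mul]
    nth_rewrite 2 [h1]
    rw [← Finset.sum_add_distrib]
    apply Finset.sum_congr rfl
    intro u hu
    have hu0 : (0 : ℝ) < u := by exact_mod_cast Nat.pos_of_mem_divisors hu
    exact D01_kp_inv (by positivity)
  rw [h2]
  simp [dv]

end Pool.Agent.LibF4D
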