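import Mathlib
import Pool.Agent.LibF4D.KDefs
import Pool.Agent.LibF4D.DDefs
import Pool.Agent.LibF4D.D01a
import Pool.Agent.LibF4D.D02

/-! Row D13.
(Bigger row.) D02 for a and for b: dv a dv b f(bn) = 4 ∑_{u|a}∑_{c|b} kp(a/u²) kp(b/c²) f(bn). Index set {(b,c,u): m | bn+r, a = (bn+r)/m, c | b, u | a} ↔ {(c,u,v): c,u,v ≥ 1, cn | uvm - r, uvm > r} by v = a/u, b = (uvm-r)/n.
H0 m r (c²n) f u v = f(uvm - r) kp((uvm-r)/(c²n)) kp(v/u) for uvm > r, 0 else; (uvm-r)/(c²n) = b/c², v/u = a/u². Absolute convergence: ∑_b d(a)d(b)|f(bn)|, |f(bn)| ≤ K (X/(bn))^4, d(a) ≤ a, d(b) ≤ b.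
Use Summable/tsum on ℕ×ℕ×ℕ and a bijection of the supports (Equiv or Function.Injective.tsum_eq), Summable.tsum_prod.
-/

set_option autoImplicit false

namespace Pool.Agent.LibF4D

open MeasureTheory Set Filter Topology

/-- the terms, indexed by `b`, the divisor `c` of `b` and the divisor `u` of `a` -/
noncomputable def D13_G (m n r : ℕ) (f : ℝ → ℂ) (x : ℕ × (ℕ × ℕ)) : ℂ :=
  if 1 ≤ x.1 ∧ m ∣ x.1 * n + r ∧ x.2.1 ∈ x.1.divisors ∧ x.2.2 ∈ ((x.1 * n + r) / m).divisors then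
    f ((x.1 * n : ℕ) : ℝ) * ((kp ((x.1 : ℝ) / (x.2.1 : ℝ) ^ 2) *
      kp ((((x.1 * n + r) / m : ℕ) : ℝ) / (x.2.2 : ℝ) ^ 2) : ℝ) : ℂ)
  else 0

/-- the terms, indexed by `c`, `u`, `v` -/
noncomputable def D13_F (m n r : ℕ) (f : ℝ → ℂ) (x : ℕ × (ℕ × ℕ)) : ℂ :=
  if 1 ≤ x.2.1 ∧ 1 ≤ x.2.2 ∧
      (((x.1 + 1) * n : ℕ) : ℤ) ∣ ((x.2.1 * x.2.2 * m : ℕ) : ℤ) - (r : ℤ) then
    H0 m r (((x.1 + 1 : ℕ) : ℝ) ^ 2 * n) f x.2.1 x.2.2 else 0

theorem D13_val {m n r b c u v : ℕ} (f : ℝ → ℂ) (hn : 1 ≤ n) (hb : 1 ≤ b) (hu : 1 ≤ u)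
    (hv : 1 ≤ v) (hcb : c + 1 ∣ b) (h : u * v * m = b * n + r) :
    D13_F m n r f (c, (u, v)) = f ((b * n : ℕ) : ℝ) *
      ((kp ((b : ℝ) / ((c + 1 : ℕ) : ℝ) ^ 2) * kp (((u * v : ℕ) : ℝ) / (u : ℝ) ^ 2) : ℝ) : ℂ) := by
  have hdvd : (((c + 1) * n : ℕ) : ℤ) ∣ ((u * v * m : ℕ) : ℤ) - (r : ℤ) := by
    rw [h]
    obtain ⟨d, rfl⟩ := hcb
    refine ⟨(d : ℤ), ?_⟩
    push_cast
    ring
  unfold D13_F
  rw [if_pos ⟨hu, hv, hdvd⟩]
  have h1 : (u : ℝ) * v * m - r = ((b * n : ℕ) : ℝ) := by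
    have : ((u * v * m : ℕ) : ℝ) = ((b * n + r : ℕ) : ℝ) := by rw [h]
    push_cast at this
    push_cast
    linarith
  have h2 : (0 : ℝ) < ((b * n : ℕ) : ℝ) := by
    have : 0 < b * n := Nat.mul_pos hb hn
    exact_mod_cast this
  have hn' : (n : ℝ) ≠ 0 := by
    have : n ≠ 0 := by omega
    exact_mod_cast this
  have hu' : (u : ℝ) ≠ 0 := by
    have : u ≠ 0 := by omega
    exact_mod_cast this
  have h3 : ((b * n : ℕ) : ℝ) / (((c + 1 : ℕ) : ℝ) ^ 2 * n) = (b : ℝ) / ((c + 1 : ℕ) : ℝ) ^ 2 := by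
    rw [Nat.cast_mul, mul_div_mul_right _ _ hn']
  have h4 : (v : ℝ) / u = ((u * v : ℕ) : ℝ) / (u : ℝ) ^ 2 := by
    rw [Nat.cast_mul, sq, mul_div_mul_left _ _ hu']
  unfold H0 P0
  simp only
  rw [h1, if_pos h2, h3, h4]
  push_cast
  ring

theorem D13_inv {m n r c u v : ℕ} {f : ℝ → ℂ} (hn : 1 ≤ n)
    (h : D13_F m n r f (c, (u, v)) ≠ 0) :
    ∃ b, 1 ≤ b ∧ 1 ≤ u ∧ 1 ≤ v ∧ c + 1 ∣ b ∧ u * v * m = b * n + r := by
  unfold D13_F at h
  simp only at h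
  split_ifs at h with h1
  · obtain ⟨hu, hv, hd⟩ := h1
    have h2 : (0 : ℝ) < (u : ℝ) * v * m - r := by
      by_contra h3
      apply h
      unfold H0 P0
      rw [if_neg h3, zero_mul]
    have h3 : r < u * v * m := by
      have : (r : ℝ) < ((u * v * m : ℕ) : ℝ) := by push_cast; linarith
      exact_mod_cast this
    have h4 : (c + 1) * n ∣ u * v * m - r := by
      rw [← Int.natCast_dvd_natCast, Nat.cast_sub h3.le]
      exact hd
    obtain ⟨d, hd'⟩ := h4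
    refine ⟨(c + 1) * d, ?_, hu, hv, ⟨d, rfl⟩, ?_⟩
    · rcases Nat.eq_zero_or_pos ((c + 1) * d) with h5 | h5
      · exfalso
        have : (c + 1) * n * d = 0 := by
          calc (c + 1) * n * d = ((c + 1) * d) * n := by ring
            _ = 0 := by rw [h5, zero_mul]
        omega
      · exact h5
    · have : (c + 1) * n * d = (c + 1) * d * n := by ring
      omega
  · exact absurd rfl h

theorem D13_hasSum {m n r : ℕ} (f : ℝ → ℂ) (hm : 1 ≤ m) (hn : 1 ≤ n) (S : ℂ) :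
    HasSum (D13_F m n r f) S ↔ HasSum (D13_G m n r f) S := by
  have hG : ∀ x : Function.support (D13_G m n r f), ∃ v, 1 ≤ x.1.1 ∧ 1 ≤ x.1.2.1 ∧
      1 ≤ x.1.2.2 ∧ 1 ≤ v ∧ x.1.2.1 ∣ x.1.1 ∧ x.1.2.2 * v * m = x.1.1 * n + r ∧
      ((x.1.1 * n + r) / m) = x.1.2.2 * v ∧ ((x.1.1 * n + r) / m) / x.1.2.2 = v ∧
      D13_G m n r f x.1 = f ((x.1.1 * n : ℕ) : ℝ) * ((kp ((x.1.1 : ℝ) / (x.1.2.1 : ℝ) ^ 2) *
        kp ((((x.1.1 * n + r) / m : ℕ) : ℝ) / (x.1.2.2 : ℝ) ^ 2) : ℝ) : ℂ) := by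
    rintro ⟨⟨b, c, u⟩, hx⟩
    have hx' : D13_G m n r f (b, c, u) ≠ 0 := hx
    have hcond : 1 ≤ b ∧ m ∣ b * n + r ∧ c ∈ b.divisors ∧ u ∈ ((b * n + r) / m).divisors := by
      by_contra hc
      apply hx'
      unfold D13_G
      exact if_neg hc
    obtain ⟨h1, h2, h3, h4⟩ := hcond
    have hc := Nat.dvd_of_mem_divisors h3
    obtain ⟨v, hv⟩ := Nat.dvd_of_mem_divisors h4
    have ha : (b * n + r) / m ≠ 0 := (Nat.mem_divisors.1 h4).2
    have hu : 1 ≤ u := Nat.pos_of_mem_divisors h4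
    have hv1 : 1 ≤ v := by
      rcases Nat.eq_zero_or_pos v with h5 | h5
      · rw [h5, mul_zero] at hv
        exact absurd hv ha
      · exact h5
    refine ⟨v, h1, Nat.pos_of_mem_divisors h3, hu, hv1, hc, ?_, hv, ?_, ?_⟩
    · show u * v * m = b * n + r
      rw [← hv]
      exact Nat.div_mul_cancel h2
    · show (b * n + r) / m / u = v
      rw [hv]
      exact Nat.mul_div_cancel_left v hu
    · unfold D13_G
      exact if_pos ⟨h1, h2, h3, h4⟩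
  refine hasSum_iff_hasSum_of_ne_zero_bij
    (fun x : Function.support (D13_G m n r f) =>
      ((x.1.2.1 - 1, (x.1.2.2, ((x.1.1 * n + r) / m) / x.1.2.2)) : ℕ × (ℕ × ℕ))) ?_ ?_ ?_
  · intro x y hxy
    obtain ⟨v, hb, hc, hu, hv, hcb, h1, h2, h3, -⟩ := hG x
    obtain ⟨v', hb', hc', hu', hv', hcb', h1', h2', h3', -⟩ := hG y
    obtain ⟨⟨b, c, u⟩, hx⟩ := x
    obtain ⟨⟨b', c', u'⟩, hx'⟩ := y
    simp only [Prod.mk.injEq] at hxy h1 h1' h3 h3' hc hc'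
    obtain ⟨e1, e2, e3⟩ := hxy
    rw [h3, h3'] at e3
    rw [e2, e3] at h1
    have e4 : c = c' := by omega
    have e5 : b * n = b' * n := by omega
    have e6 : b = b' := Nat.eq_of_mul_eq_mul_right hn e5
    subst e4 e6
    have e7 : u = u' := e2
    subst e7
    rfl
  · rintro ⟨c, u, v⟩ hx
    obtain ⟨b, hb, hu, hv, hcb, h1⟩ := D13_inv hn (show D13_F m n r f (c, (u, v)) ≠ 0 from hx)
    have h2 : (b * n + r) / m = u * v := by
      rw [← h1]
      exact Nat.mul_div_cancel _ hm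
    have h3 : D13_G m n r f (b, (c + 1, u)) = D13_F m n r f (c, (u, v)) := by
      rw [D13_val f hn hb hu hv hcb h1]
      unfold D13_G
      simp only
      rw [if_pos, h2]
      refine ⟨hb, ⟨u * v, by rw [← h1]; ring⟩, ?_, ?_⟩
      · exact Nat.mem_divisors.2 ⟨hcb, by omega⟩
      · rw [h2]
        exact Nat.mem_divisors.2 ⟨⟨v, rfl⟩, (Nat.mul_pos hu hv).ne'⟩
    refine ⟨⟨(b, (c + 1, u)), ?_⟩, ?_⟩
    · show D13_G m n r f (b, (c + 1, u)) ≠ 0
      rw [h3]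
      exact hx
    · simp only [h2, Nat.add_sub_cancel]
      rw [Nat.mul_div_cancel_left v hu]
  · intro x
    obtain ⟨v, hb, hc, hu, hv, hcb, h1, h2, h3, h4⟩ := hG x
    obtain ⟨⟨b, c, u⟩, hx⟩ := x
    simp only at hb hc hu hcb h1 h2 h3 h4 ⊢
    have hc1 : c - 1 + 1 = c := by omega
    rw [h4, h3, D13_val f hn hb hu hv (by rwa [hc1]) h1, hc1, h2]

theorem D13_summable {m n r : ℕ} {f f1 f2 : ℝ → ℂ} {K X : ℝ} (hn : 1 ≤ n)
    (hf : Flat f f1 f2 K X) (hK : 0 ≤ K) (hX : 1 ≤ X) : Summable (D13_G m n r f) := by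
  have hbd : ∀ b c u : ℕ, 1 ≤ b → ‖D13_G m n r f (b, (c, u))‖ ≤ K * X ^ 4 / (b : ℝ) ^ 4 := by
    intro b c u hb
    have hb' : (1 : ℝ) ≤ b := by exact_mod_cast hb
    have hn' : (1 : ℝ) ≤ n := by exact_mod_cast hn
    unfold D13_G
    split_ifs with h
    · simp only
      rw [norm_mul, Complex.norm_real, Real.norm_eq_abs, abs_mul, abs_of_nonneg (D01_kp_nonneg _),
        abs_of_nonneg (D01_kp_nonneg _)]
      have h1 : (0 : ℝ) < ((b * n : ℕ) : ℝ) := by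
        have : 0 < b * n := Nat.mul_pos hb hn
        exact_mod_cast this
      have h2 := hf.b0 _ h1
      have h3 : Wt X ((b * n : ℕ) : ℝ) ≤ X ^ 4 / (b : ℝ) ^ 4 := by
        unfold Wt
        rw [← div_pow]
        apply pow_le_pow_left₀
        · positivity
        · apply div_le_div_of_nonneg_left (by linarith) (by linarith)
          push_cast
          nlinarith
      have h4 : kp ((b : ℝ) / (c : ℝ) ^ 2) *
          kp ((((b * n + r) / m : ℕ) : ℝ) / (u : ℝ) ^ 2) ≤ 1 :=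
        mul_le_one₀ (D01_kp_le_one _) (D01_kp_nonneg _) (D01_kp_le_one _)
      calc ‖f ((b * n : ℕ) : ℝ)‖ * (kp ((b : ℝ) / (c : ℝ) ^ 2) *
            kp ((((b * n + r) / m : ℕ) : ℝ) / (u : ℝ) ^ 2))
          ≤ ‖f ((b * n : ℕ) : ℝ)‖ * 1 := mul_le_mul_of_nonneg_left h4 (norm_nonneg _)
        _ ≤ K * Wt X ((b * n : ℕ) : ℝ) := by rw [mul_one]; exact h2
        _ ≤ K * (X ^ 4 / (b : ℝ) ^ 4) := mul_le_mul_of_nonneg_left h3 hK
        _ = K * X ^ 4 / (b : ℝ) ^ 4 := by ring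
    · rw [norm_zero]
      positivity
  have hzero : ∀ b : ℕ, ∀ p ∉ b.divisors ×ˢ ((b * n + r) / m).divisors,
      D13_G m n r f (b, p) = 0 := by
    intro b p hp
    unfold D13_G
    rw [if_neg]
    rintro ⟨-, -, h1, h2⟩
    exact hp (Finset.mem_product.2 ⟨h1, h2⟩)
  have hcard : ∀ a : ℕ, a.divisors.card ≤ a := by
    intro a
    have := Nat.card_divisors_le_self a
    exact this
  apply Summable.of_norm
  rw [summable_prod_of_nonneg (fun x => norm_nonneg _)]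
  constructor
  · intro b
    exact summable_of_ne_finset_zero (s := b.divisors ×ˢ ((b * n + r) / m).divisors)
      (fun p hp => by rw [hzero b p hp, norm_zero])
  · have hs : Summable (fun b : ℕ => (K * X ^ 4 * ((n : ℝ) + r)) * (1 / (b : ℝ) ^ 2)) :=
      (Real.summable_one_div_nat_pow.2 (by norm_num)).mul_left _
    refine Summable.of_nonneg_of_le (fun b => tsum_nonneg fun p => norm_nonneg _) (fun b => ?_) hs
    rw [tsum_eq_sum (s := b.divisors ×ˢ ((b * n + r) / m).divisors)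
      (fun p hp => by rw [hzero b p hp, norm_zero])]
    rcases Nat.eq_zero_or_pos b with h0 | hb
    · subst h0
      rw [Nat.divisors_zero, Finset.empty_product, Finset.sum_empty]
      have : (0 : ℝ) ≤ (n : ℝ) + r := by positivity
      positivity
    · have hb' : (1 : ℝ) ≤ b := by exact_mod_cast hb
      have h1 := Finset.sum_le_card_nsmul (b.divisors ×ˢ ((b * n + r) / m).divisors)
        (fun p => ‖D13_G m n r f (b, p)‖) (K * X ^ 4 / (b : ℝ) ^ 4)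
        (fun p _ => hbd b p.1 p.2 hb)
      refine h1.trans ?_
      rw [Finset.card_product, nsmul_eq_mul]
      have h2 : ((b.divisors.card * ((b * n + r) / m).divisors.card : ℕ) : ℝ) ≤
          (b : ℝ) * ((b : ℝ) * (n + r)) := by
        have h3 : b.divisors.card * ((b * n + r) / m).divisors.card ≤ b * (b * (n + r)) := by
          apply Nat.mul_le_mul (hcard b)
          refine (hcard _).trans ((Nat.div_le_self _ _).trans ?_)
          have : r ≤ b * r := Nat.le_mul_of_pos_left r hb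
          calc b * n + r ≤ b * n + b * r := by omega
            _ = b * (n + r) := by ring
        have h4 : ((b.divisors.card * ((b * n + r) / m).divisors.card : ℕ) : ℝ) ≤
            ((b * (b * (n + r)) : ℕ) : ℝ) := by exact_mod_cast h3
        push_cast at h4 ⊢
        exact h4
      calc ((b.divisors.card * ((b * n + r) / m).divisors.card : ℕ) : ℝ) *
            (K * X ^ 4 / (b : ℝ) ^ 4)
          ≤ ((b : ℝ) * ((b : ℝ) * (n + r))) * (K * X ^ 4 / (b : ℝ) ^ 4) :=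
            mul_le_mul_of_nonneg_right h2 (by positivity)
        _ = (K * X ^ 4 * ((n : ℝ) + r)) * (1 / (b : ℝ) ^ 2) := by
            field_simp

theorem D13_inner {m n r : ℕ} (f : ℝ → ℂ) (hm : 1 ≤ m) (hr : 1 ≤ r) (b : ℕ) :
    (if 1 ≤ b ∧ m ∣ b * n + r then ((dv ((b * n + r) / m) * dv b : ℝ) : ℂ) *
      f ((b * n : ℕ) : ℝ) else 0) = 4 * ∑' p : ℕ × ℕ, D13_G m n r f (b, p) := by
  split_ifs with h
  · obtain ⟨hb, hd⟩ := h
    have ha : 1 ≤ (b * n + r) / m := Nat.div_pos (Nat.le_of_dvd (by omega) hd) hm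
    rw [tsum_eq_sum (s := b.divisors ×ˢ ((b * n + r) / m).divisors)]
    · rw [D02_dv ha, D02_dv hb]
      have h1 : ∀ p ∈ b.divisors ×ˢ ((b * n + r) / m).divisors, D13_G m n r f (b, p) =
          f ((b * n : ℕ) : ℝ) * ((kp ((b : ℝ) / (p.1 : ℝ) ^ 2) *
            kp ((((b * n + r) / m : ℕ) : ℝ) / (p.2 : ℝ) ^ 2) : ℝ) : ℂ) := by
        intro p hp
        obtain ⟨hp1, hp2⟩ := Finset.mem_product.1 hp
        unfold D13_G
        rw [if_pos ⟨hb, hd, hp1, hp2⟩]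
      have h2 : ∑ p ∈ b.divisors ×ˢ ((b * n + r) / m).divisors, kp ((b : ℝ) / (p.1 : ℝ) ^ 2) *
            kp ((((b * n + r) / m : ℕ) : ℝ) / (p.2 : ℝ) ^ 2) =
          (∑ u ∈ b.divisors, kp ((b : ℝ) / (u : ℝ) ^ 2)) *
            ∑ u ∈ ((b * n + r) / m).divisors, kp ((((b * n + r) / m : ℕ) : ℝ) / (u : ℝ) ^ 2) := by
        rw [Finset.sum_product, Finset.sum_mul_sum]
      rw [Finset.sum_congr rfl h1, ← Finset.mul_sum, ← Complex.ofReal_sum, h2]
      push_cast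
      ring
    · intro p hp
      unfold D13_G
      rw [if_neg]
      rintro ⟨-, -, h1, h2⟩
      exact hp (Finset.mem_product.2 ⟨h1, h2⟩)
  · have h1 : ∀ p : ℕ × ℕ, D13_G m n r f (b, p) = 0 := by
      intro p
      unfold D13_G
      rw [if_neg]
      rintro ⟨h1, h2, -, -⟩
      exact h ⟨h1, h2⟩
    simp [h1]

/-- D13: the sum over the divisor `c` of `b` -/
theorem D13_Sr {m n r : ℕ} {f f1 f2 : ℝ → ℂ} {K X : ℝ} (hm : 1 ≤ m) (hn : 1 ≤ n) (hr : 1 ≤ r)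
    (hf : Flat f f1 f2 K X) (hK : 0 ≤ K) (hX : 1 ≤ X) :
    Summable (fun c : ℕ => Tc m n r (c + 1) f) ∧ Sr m n r f = 4 * ∑' c : ℕ, Tc m n r (c + 1) f := by
  have hG : Summable (D13_G m n r f) := D13_summable hn hf hK hX
  have hF : HasSum (D13_F m n r f) (∑' x, D13_G m n r f x) :=
    (D13_hasSum f hm hn _).2 hG.hasSum
  have hT : ∀ c : ℕ, Tc m n r (c + 1) f = ∑' p : ℕ × ℕ, D13_F m n r f (c, p) := fun c => rfl
  simp only [hT]
  refine ⟨hF.summable.prod, ?_⟩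
  rw [← hF.summable.tsum_prod, hF.tsum_eq, hG.tsum_prod, ← tsum_mul_left]
  unfold Sr
  exact tsum_congr fun b => D13_inner f hm hr b

end Pool.Agent.LibF4D
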