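import Mathlib
import Pool.Agent.LibF4D.KDefs
import Pool.Agent.LibF4D.DDefs
import Pool.Agent.LibF4D.D05
import Pool.Agent.LibF4D.D14

/-! Row D15.
1/q1 = g m1/(cn). gcd(um, cn) = m1 gcd(u, cn/m1). Sum over g ∈ gS and u1 coprime to q1 ↔ u ≥ 1 with gcd(u, cn/m1) m1 | r (u = g u1); D14_cr turns m1 g [m1 g | r] into ∑_{l | m1 g} cr l r. Convergence: |∫ H0(u,v)dv| ≤ B'/u² from D05 (g = 1).
-/

set_option autoImplicit false

namespace Pool.Agent.LibF4D

open MeasureTheory Set Filter Topology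

/-- the integral of the weight decays -/
theorem D15_bound {m n r c : ℕ} {f f1 f2 : ℝ → ℂ} {K X : ℝ} (hm : 1 ≤ m) (hn : 1 ≤ n) (hr : 1 ≤ r) (hc : 1 ≤ c)
    (hf : Flat f f1 f2 K X) (hK : 0 ≤ K) (hX : 1 ≤ X) :
    Summable (fun u : ℕ => if 1 ≤ u then ‖∫ v in Ioi (0 : ℝ), H0 m r ((c : ℝ) ^ 2 * n) f u v‖ else 0) := by
  have hc' : (1 : ℝ) ≤ c := by exact_mod_cast hc
  have hn' : (1 : ℝ) ≤ n := by exact_mod_cast hn
  have hκ : (1 : ℝ) ≤ (c : ℝ) ^ 2 * n := by nlinarith [mul_self_nonneg ((c : ℝ) - 1)]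
  obtain ⟨B, hB⟩ := D05_Reg (m := m) (r := r) (κ := (c : ℝ) ^ 2 * n) (by exact_mod_cast hm)
    (by exact_mod_cast hr) hκ hf hK hX (le_refl (1 : ℝ))
  have hbd : ∀ u : ℕ, 1 ≤ u → ‖∫ v in Ioi (0 : ℝ), H0 m r ((c : ℝ) ^ 2 * n) f u v‖ ≤
      |B| * Real.pi * (1 / (u : ℝ) ^ 2) := by
    intro u hu
    have hu' : (1 : ℝ) ≤ u := by exact_mod_cast hu
    have hint : Integrable (fun v : ℝ => |B| * (1 / (u : ℝ) ^ 2) * (1 + v ^ 2)⁻¹)
        (volume.restrict (Ioi (0 : ℝ))) :=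
      (integrable_inv_one_add_sq.const_mul _).restrict
    have h1 : ‖∫ v in Ioi (0 : ℝ), H0 m r ((c : ℝ) ^ 2 * n) f u v‖ ≤
        ∫ v in Ioi (0 : ℝ), |B| * (1 / (u : ℝ) ^ 2) * (1 + v ^ 2)⁻¹ := by
      apply norm_integral_le_of_norm_le hint
      filter_upwards [ae_restrict_mem measurableSet_Ioi] with v hv
      have hv0 : (0 : ℝ) < v := hv
      have h2 := hB.b0 u v hu' hv0
      simp only [one_mul] at h2
      refine h2.trans ?_
      have h3 : B * v / ((u : ℝ) ^ 2 * (1 + v) ^ 3) ≤ |B| * v / ((u : ℝ) ^ 2 * (1 + v) ^ 3) := by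
        apply div_le_div_of_nonneg_right _ (by positivity)
        exact mul_le_mul_of_nonneg_right (le_abs_self B) hv0.le
      refine h3.trans ?_
      have h4 : v / (1 + v) ^ 3 ≤ (1 + v ^ 2)⁻¹ := by
        rw [← one_div, div_le_div_iff₀ (by positivity) (by positivity)]
        nlinarith [mul_pos hv0 hv0, mul_pos hv0 (mul_pos hv0 hv0)]
      have h5 : |B| * v / ((u : ℝ) ^ 2 * (1 + v) ^ 3) = |B| * (1 / (u : ℝ) ^ 2) * (v / (1 + v) ^ 3) := by
        field_simp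
      rw [h5]
      exact mul_le_mul_of_nonneg_left h4 (by positivity)
    refine h1.trans ?_
    have h6 : ∫ v in Ioi (0 : ℝ), |B| * (1 / (u : ℝ) ^ 2) * (1 + v ^ 2)⁻¹ ≤
        ∫ v : ℝ, |B| * (1 / (u : ℝ) ^ 2) * (1 + v ^ 2)⁻¹ := by
      apply setIntegral_le_integral (integrable_inv_one_add_sq.const_mul _)
      filter_upwards with v
      positivity
    refine h6.trans (le_of_eq ?_)
    rw [integral_const_mul, integral_univ_inv_one_add_sq]
    ring
  have hs : Summable (fun u : ℕ => |B| * Real.pi * (1 / (u : ℝ) ^ 2)) :=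
    (Real.summable_one_div_nat_pow.mpr (by norm_num)).mul_left _
  refine Summable.of_nonneg_of_le (fun u => ?_) (fun u => ?_) hs
  · split_ifs
    · exact norm_nonneg _
    · exact le_refl 0
  · split_ifs with hu
    · exact hbd u hu
    · positivity

/-- one value of the gcd -/
theorem D15_inner {m n r c g : ℕ} (f : ℝ → ℂ) (hg1 : 1 ≤ g) (hg : g ∣ c * n / Nat.gcd m (c * n)) :
    InnerM (qg m n c g) (fun u v => H0 m r ((c : ℝ) ^ 2 * n) f (g * u) v) =
      ∑' u : ℕ, if 1 ≤ u ∧ Nat.gcd u (c * n / Nat.gcd m (c * n)) = g then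
        (1 / (qg m n c g : ℂ)) * ∫ v in Ioi (0 : ℝ), H0 m r ((c : ℝ) ^ 2 * n) f u v else 0 := by
  set Q := c * n / Nat.gcd m (c * n) with hQ
  have hgq : g * qg m n c g = Q := by
    show g * (Q / g) = Q
    exact Nat.mul_div_cancel' hg
  have hinj : Function.Injective (fun u : ℕ => g * u) := fun a b h =>
    Nat.eq_of_mul_eq_mul_left hg1 h
  rw [← hinj.tsum_eq (f := fun u : ℕ => if 1 ≤ u ∧ Nat.gcd u Q = g then
        (1 / (qg m n c g : ℂ)) * ∫ v in Ioi (0 : ℝ), H0 m r ((c : ℝ) ^ 2 * n) f u v else 0)]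
  · unfold InnerM
    apply tsum_congr
    intro u
    have hiff : (1 ≤ u ∧ Nat.Coprime u (qg m n c g)) ↔ (1 ≤ g * u ∧ Nat.gcd (g * u) Q = g) := by
      rw [← hgq, Nat.gcd_mul_left]
      constructor
      · rintro ⟨h1, h2⟩
        refine ⟨Nat.mul_pos hg1 h1, ?_⟩
        rw [Nat.Coprime] at h2
        rw [h2, mul_one]
      · rintro ⟨h1, h2⟩
        refine ⟨Nat.pos_of_mul_pos_left h1, ?_⟩
        have : g * Nat.gcd u (qg m n c g) = g * 1 := by rw [h2, mul_one]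
        exact Nat.eq_of_mul_eq_mul_left hg1 this
    by_cases h : 1 ≤ u ∧ Nat.Coprime u (qg m n c g)
    · rw [if_pos h, if_pos (hiff.mp h)]
      push_cast
      rfl
    · rw [if_neg h, if_neg (fun h' => h (hiff.mpr h'))]
  · intro u hu
    rw [Function.mem_support] at hu
    have h1 : 1 ≤ u ∧ Nat.gcd u Q = g := by
      by_contra h
      exact hu (if_neg h)
    have h2 : g ∣ u := by rw [← h1.2]; exact Nat.gcd_dvd_left _ _
    exact ⟨u / g, Nat.mul_div_cancel' h2⟩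

/-- D15: the main term of one `c` through Ramanujan sums -/
theorem D15_TM {m n r c : ℕ} {f f1 f2 : ℝ → ℂ} {K X : ℝ} (hm : 1 ≤ m) (hn : 1 ≤ n) (hr : 1 ≤ r) (hc : 1 ≤ c)
    (hf : Flat f f1 f2 K X) (hK : 0 ≤ K) (hX : 1 ≤ X) :
    TM m n r c f = (1 / ((c : ℂ) * n)) * ∑' u : ℕ, if 1 ≤ u then
      ((∑ l ∈ (Nat.gcd (u * m) (c * n)).divisors, cr l r : ℤ) : ℂ) * ∫ v in Ioi (0 : ℝ), H0 m r ((c : ℝ) ^ 2 * n) f u v else 0 := by
  have hcn : 0 < c * n := Nat.mul_pos hc hn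
  set m1 := Nat.gcd m (c * n) with hm1
  set Q := c * n / m1 with hQ
  have hm1m : m1 ∣ m := Nat.gcd_dvd_left _ _
  have hm1c : m1 ∣ c * n := Nat.gcd_dvd_right _ _
  have hm1pos : 0 < m1 := Nat.gcd_pos_of_pos_left _ hm
  have hQm : Q * m1 = c * n := Nat.div_mul_cancel hm1c
  have hQpos : 0 < Q := Nat.pos_of_mul_pos_right (by rw [hQm]; exact hcn)
  set F : ℕ → ℂ := fun u => ∫ v in Ioi (0 : ℝ), H0 m r ((c : ℝ) ^ 2 * n) f u v with hF
  have hsum := D15_bound hm hn hr hc hf hK hX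
  have hTM : TM m n r c f = ∑ g ∈ gS m n r c, ∑' u : ℕ, (if 1 ≤ u ∧ Nat.gcd u Q = g then
        (1 / (qg m n c g : ℂ)) * F u else 0) := by
    unfold TM
    apply Finset.sum_congr rfl
    intro g hg
    unfold gS at hg
    rw [Finset.mem_filter, Nat.mem_divisors] at hg
    have hg1 : 1 ≤ g := Nat.pos_of_dvd_of_pos hg.1.1 hQpos
    exact D15_inner f hg1 hg.1.1
  have hsm : ∀ g ∈ gS m n r c, Summable (fun u : ℕ => if 1 ≤ u ∧ Nat.gcd u Q = g then
        (1 / (qg m n c g : ℂ)) * F u else 0) := by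
    intro g _
    apply Summable.of_norm
    refine Summable.of_nonneg_of_le (fun u => norm_nonneg _) (fun u => ?_)
      (hsum.mul_left (‖(1 / (qg m n c g : ℂ))‖))
    by_cases h : 1 ≤ u ∧ Nat.gcd u Q = g
    · rw [if_pos h, if_pos h.1, norm_mul]
    · rw [if_neg h, norm_zero]
      apply mul_nonneg (norm_nonneg _)
      split_ifs
      · exact norm_nonneg _
      · exact le_refl 0
  rw [hTM, ← Summable.tsum_finsetSum hsm, ← tsum_mul_left]
  apply tsum_congr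
  intro u
  by_cases hu : 1 ≤ u
  · rw [if_pos hu]
    have hg0 : Nat.gcd (u * m) (c * n) = Nat.gcd u Q * m1 := by
      have h1 : Nat.Coprime (m / m1) Q := Nat.coprime_div_gcd_div_gcd hm1pos
      have h2 : m / m1 * m1 = m := Nat.div_mul_cancel hm1m
      have h3 : Nat.gcd (u * (m / m1) * m1) (Q * m1) = Nat.gcd (u * (m / m1)) Q * m1 :=
        Nat.gcd_mul_right _ _ _
      rw [mul_assoc, h2, hQm] at h3
      rw [h3, Nat.Coprime.gcd_mul_right_cancel u h1]
    have hgpos : 1 ≤ Nat.gcd u Q := Nat.gcd_pos_of_pos_left _ hu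
    have hgQ : Nat.gcd u Q ∣ Q := Nat.gcd_dvd_right _ _
    have hcr : ∑ l ∈ (Nat.gcd (u * m) (c * n)).divisors, cr l r =
        if Nat.gcd u Q * m1 ∣ r then ((Nat.gcd u Q * m1 : ℕ) : ℤ) else 0 := by
      rw [hg0]
      exact D14_cr (Nat.mul_pos hgpos hm1pos)
    rw [hcr]
    have hsingle : ∑ g ∈ gS m n r c, (if 1 ≤ u ∧ Nat.gcd u Q = g then
        (1 / (qg m n c g : ℂ)) * F u else 0) =
        if Nat.gcd u Q ∈ gS m n r c then (1 / (qg m n c (Nat.gcd u Q) : ℂ)) * F u else 0 := by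
      rw [← Finset.sum_ite_eq (gS m n r c) (Nat.gcd u Q) (fun g => (1 / (qg m n c g : ℂ)) * F u)]
      apply Finset.sum_congr rfl
      intro g _
      by_cases h : Nat.gcd u Q = g
      · rw [if_pos ⟨hu, h⟩, if_pos h]
      · rw [if_neg (fun h' => h h'.2), if_neg h]
    rw [hsingle]
    have hmem : Nat.gcd u Q ∈ gS m n r c ↔ Nat.gcd u Q * m1 ∣ r := by
      unfold gS
      rw [Finset.mem_filter, Nat.mem_divisors]
      exact ⟨fun h => h.2, fun h => ⟨⟨hgQ, hQpos.ne'⟩, h⟩⟩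
    by_cases h : Nat.gcd u Q * m1 ∣ r
    · rw [if_pos (hmem.mpr h), if_pos h]
      have hgq : Nat.gcd u Q * qg m n c (Nat.gcd u Q) = Q := by
        show Nat.gcd u Q * (Q / Nat.gcd u Q) = Q
        exact Nat.mul_div_cancel' hgQ
      have hq0 : (qg m n c (Nat.gcd u Q) : ℂ) ≠ 0 := by
        intro h0
        have h1 : qg m n c (Nat.gcd u Q) = 0 := by exact_mod_cast h0
        rw [h1, mul_zero] at hgq
        exact hQpos.ne hgq
      have hprod : ((c : ℂ) * n) = (Nat.gcd u Q : ℂ) * (qg m n c (Nat.gcd u Q) : ℂ) * (m1 : ℂ) := by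
        have : c * n = Nat.gcd u Q * qg m n c (Nat.gcd u Q) * m1 := by rw [hgq, hQm]
        exact_mod_cast this
      have hg0' : (Nat.gcd u Q : ℂ) ≠ 0 := by exact_mod_cast (Nat.one_le_iff_ne_zero.mp hgpos)
      have hm1' : (m1 : ℂ) ≠ 0 := by exact_mod_cast hm1pos.ne'
      rw [hprod]
      push_cast
      field_simp
      rfl
    · rw [if_neg (fun h' => h (hmem.mp h')), if_neg h]
      simp
  · rw [if_neg hu]
    rw [mul_zero]
    apply Finset.sum_eq_zero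
    intro g _
    rw [if_neg (fun h => hu h.1)]

end Pool.Agent.LibF4D
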