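import Mathlib
import Pool.Agent.LibF4D.KDefs
import Pool.Agent.LibF4D.DDefs
import Pool.Agent.LibF4D.D01a

/-! Row D16.
Substitution y = u m v - r in the integral over v ∈ (0,∞): y ∈ (-r,∞), integrand zero for y ≤ 0 (integral_comp_mul_left_Ioi, integral_comp_sub..., setIntegral over Ioi(-r) = over Ioi 0 since P0 vanishes). v/u = (y+r)/(m u²).
No integrability needed for substitutions with affine maps.
-/

set_option autoImplicit false

namespace Pool.Agent.LibF4D

open MeasureTheory Set Filter Topology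

/-- D16: the integral over `v` -/
theorem D16_int {m r κ u K X : ℝ} {f f1 f2 : ℝ → ℂ} (hm : 1 ≤ m) (hr : 1 ≤ r) (hκ : 1 ≤ κ) (hu : 1 ≤ u)
    (hf : Flat f f1 f2 K X) (hK : 0 ≤ K) (hX : 1 ≤ X) :
    ∫ v in Ioi (0 : ℝ), H0 m r κ f u v = (1 / ((u : ℂ) * m)) *
      ∫ y in Ioi (0 : ℝ), f y * ((kp (y / κ) * kp ((y + r) / (m * u ^ 2)) : ℝ) : ℂ) := by
  have hm0 : (0 : ℝ) < m := by linarith
  have hu0 : (0 : ℝ) < u := by linarith
  have ha : (0 : ℝ) < u * m := by positivity
  set g : ℝ → ℂ := fun w => P0 κ f (w - r) * ((kp (w / (m * u ^ 2)) : ℝ) : ℂ) with hg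
  have h1 : ∀ v : ℝ, H0 m r κ f u v = g ((u * m) * v) := by
    intro v
    simp only [hg, H0]
    have e1 : u * v * m - r = u * m * v - r := by ring
    have e2 : v / u = u * m * v / (m * u ^ 2) := by field_simp
    rw [e1, e2]
  have h2 : ∫ v in Ioi (0 : ℝ), H0 m r κ f u v = ∫ v in Ioi (0 : ℝ), g ((u * m) * v) := by
    simp only [h1]
  rw [h2, integral_comp_mul_left_Ioi g 0 ha, mul_zero]
  set k : ℝ → ℂ := fun y => P0 κ f y * ((kp ((y + r) / (m * u ^ 2)) : ℝ) : ℂ) with hk
  have h3 : ∫ w in Ioi (0 : ℝ), g w = ∫ y in Ioi (-r), k y := by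
    rw [← integral_indicator measurableSet_Ioi, ← integral_indicator measurableSet_Ioi,
      ← integral_sub_right_eq_self (fun y => (Ioi (-r)).indicator k y) r]
    congr 1
    ext w
    by_cases hw : 0 < w
    · rw [indicator_of_mem (show w ∈ Ioi (0 : ℝ) from hw),
        indicator_of_mem (show w - r ∈ Ioi (-r) by simp only [mem_Ioi]; linarith)]
      simp only [hg, hk, sub_add_cancel]
    · rw [indicator_of_notMem (show w ∉ Ioi (0 : ℝ) from hw),
        indicator_of_notMem (show w - r ∉ Ioi (-r) by simp only [mem_Ioi]; intro h; exact hw (by linarith))]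
  have h4 : ∫ y in Ioi (-r), k y = ∫ y in Ioi (0 : ℝ), k y := by
    apply setIntegral_eq_of_subset_of_forall_diff_eq_zero measurableSet_Ioi
    · intro y hy
      simp only [mem_Ioi] at hy ⊢
      linarith
    · rintro y ⟨-, hy⟩
      simp only [hk, P0]
      rw [if_neg (by simpa using hy), zero_mul]
  rw [h3, h4]
  have h5 : ∫ y in Ioi (0 : ℝ), k y =
      ∫ y in Ioi (0 : ℝ), f y * ((kp (y / κ) * kp ((y + r) / (m * u ^ 2)) : ℝ) : ℂ) := by
    apply setIntegral_congr_fun measurableSet_Ioi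
    intro y hy
    simp only [mem_Ioi] at hy
    simp only [hk, P0]
    rw [if_pos hy]
    push_cast
    ring
  rw [h5, Complex.real_smul]
  push_cast
  rw [one_div]

end Pool.Agent.LibF4D
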