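import Mathlib
import Pool.Agent.LibF4D.DDefs
import Pool.Agent.LibTG78.TW1

/-! Block D: the smooth harmonic sum -/

set_option autoImplicit false

namespace Pool.Agent.LibF4D

open MeasureTheory Set Filter Topology

theorem D17a_kp {Y : ℝ} (hY : 0 < Y) {k : ℕ} (hk : 1 ≤ k) :
    kp (Y / (k : ℝ) ^ 2) = LibM3.PhR (Real.log Y - 2 * Real.log k) := by
  have hk0 : (0 : ℝ) < k := by exact_mod_cast hk
  unfold kp LibM3.PhR
  rw [Real.log_div hY.ne' (by positivity), Real.log_pow]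
  push_cast
  rfl

theorem D17_twH : ∃ C : ℝ, 1 ≤ C ∧ ∀ Y : ℝ, 0 < Y →
    Summable (fun k : ℕ => if 1 ≤ k then kp (Y / (k : ℝ) ^ 2) / k else 0) ∧ |KK Y - Lg Y| ≤ C * Y ^ (-(1 / 2) : ℝ) := by
  obtain ⟨C, hC, h⟩ := LibTG78.TW.tw_H
  refine ⟨max C 1, le_max_right _ _, fun Y hY => ?_⟩
  obtain ⟨h1, h2⟩ := h Y hY
  have he : (fun k : ℕ => if 1 ≤ k then kp (Y / (k : ℝ) ^ 2) / k else 0) =
      fun j : ℕ => (j : ℝ)⁻¹ * LibM3.PhR (Real.log Y - 2 * Real.log j) := by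
    funext k
    by_cases hk : 1 ≤ k
    · rw [if_pos hk, D17a_kp hY hk, div_eq_inv_mul]
    · have : k = 0 := by omega
      subst this
      simp
  refine ⟨by rw [he]; exact h1, ?_⟩
  unfold KK Lg
  rw [he]
  refine h2.trans ?_
  exact mul_le_mul_of_nonneg_right (le_max_left _ _) (Real.rpow_nonneg hY.le _)

end Pool.Agent.LibF4D
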