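import Mathlib
import Pool.Agent.LibF4D.KDefs
import Pool.Agent.LibF4D.DDefs
import Pool.Agent.LibF4D.D01a
import Pool.Agent.LibF4D.D01b
import Pool.Agent.LibF4D.D17a

/-! Row D17.
From D17_twH. For Y ≥ 1: Y^{-1/2} ≤ Y^{-1/4}. For Y < 1: KK Y ≤ 2C∑ (Y/k²)^6/k ≤ C'Y^6, |Lg Y| ≤ |log Y| + 2γ ≤ C Y^{-1/8}. |log Y| ≤ 8(Y^{1/8}+Y^{-1/8}) (Real.log_le_rpow_div).
-/

set_option autoImplicit false

namespace Pool.Agent.LibF4D

open MeasureTheory Set Filter Topology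

/-- D17: the smooth harmonic sum -/
theorem D17_KK : ∃ C : ℝ, 1 ≤ C ∧ ∀ Y : ℝ, 0 < Y →
    Summable (fun k : ℕ => if 1 ≤ k then kp (Y / (k : ℝ) ^ 2) / k else 0) ∧ 0 ≤ KK Y ∧
    |KK Y - Lg Y| ≤ C * Y ^ (-(1 / 4) : ℝ) ∧ KK Y ≤ C * Y ^ (1 / 8 : ℝ) ∧ |Lg Y| ≤ C * (Y ^ (1 / 8 : ℝ) + Y ^ (-(1 / 8) : ℝ)) := by
  obtain ⟨C₀, h0, hC₀⟩ := D17_twH
  obtain ⟨C₁, h1, hC₁⟩ := D01_kp_bound
  have hS : Summable fun k : ℕ => 1 / (k : ℝ) ^ 2 := Real.summable_one_div_nat_pow.2 one_lt_two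
  set S : ℝ := ∑' k : ℕ, 1 / (k : ℝ) ^ 2 with hSdef
  have hS0 : 0 ≤ S := tsum_nonneg fun k => by positivity
  have hone : ∀ Y : ℝ, 0 < Y → 1 ≤ Y ^ (1 / 8 : ℝ) + Y ^ (-(1 / 8) : ℝ) := by
    intro Y hY
    have p1 : 0 < Y ^ (1 / 8 : ℝ) := Real.rpow_pos_of_pos hY _
    have p2 : 0 < Y ^ (-(1 / 8) : ℝ) := Real.rpow_pos_of_pos hY _
    rcases le_total 1 Y with h | h
    · have := Real.one_le_rpow h (show (0 : ℝ) ≤ 1 / 8 by norm_num)
      linarith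
    · have := Real.one_le_rpow_of_pos_of_le_one_of_nonpos hY h (show (-(1 / 8) : ℝ) ≤ 0 by norm_num)
      linarith
  have hlog : ∀ Y : ℝ, 0 < Y → |Lg Y| ≤ 10 * (Y ^ (1 / 8 : ℝ) + Y ^ (-(1 / 8) : ℝ)) := by
    intro Y hY
    have p1 : 0 < Y ^ (1 / 8 : ℝ) := Real.rpow_pos_of_pos hY _
    have p2 : 0 < Y ^ (-(1 / 8) : ℝ) := Real.rpow_pos_of_pos hY _
    have l1 : Real.log Y ≤ 8 * Y ^ (1 / 8 : ℝ) := by
      have := Real.log_le_rpow_div hY.le (show (0 : ℝ) < 1 / 8 by norm_num)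
      linarith
    have l2 : -Real.log Y ≤ 8 * Y ^ (-(1 / 8) : ℝ) := by
      have := Real.log_le_rpow_div (inv_pos.2 hY).le (show (0 : ℝ) < 1 / 8 by norm_num)
      rw [Real.log_inv, Real.inv_rpow hY.le, ← Real.rpow_neg hY.le] at this
      linarith
    have g1 := Real.eulerMascheroniConstant_lt_two_thirds
    have g2 := Real.one_half_lt_eulerMascheroniConstant
    have h3 := hone Y hY
    unfold Lg
    rw [abs_le]
    constructor <;> linarith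
  have hsq : ∀ Y : ℝ, 0 < Y → Y ≤ 1 → KK Y ≤ 2 * C₁ * S * Y ^ 6 := by
    intro Y hY hY1
    have hb : ∀ k : ℕ, (if 1 ≤ k then kp (Y / (k : ℝ) ^ 2) / k else 0) ≤
        C₁ * Y ^ 6 * (1 / (k : ℝ) ^ 2) := by
      intro k
      by_cases hk : 1 ≤ k
      · rw [if_pos hk]
        have hk' : (1 : ℝ) ≤ k := by exact_mod_cast hk
        have hk0 : (0 : ℝ) < k := by linarith
        have hq : 0 < Y / (k : ℝ) ^ 2 := by positivity
        have h2 := (hC₁ _ hq).1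
        have h3 : min 1 ((Y / (k : ℝ) ^ 2) ^ 6) ≤ Y ^ 6 * (1 / (k : ℝ) ^ 2) := by
          refine (min_le_right _ _).trans ?_
          rw [div_pow, ← pow_mul, mul_one_div]
          have h5 : (k : ℝ) ^ 2 ≤ (k : ℝ) ^ (2 * 6) := pow_le_pow_right₀ hk' (by norm_num)
          rw [div_eq_mul_one_div (Y ^ 6), mul_one_div]
          gcongr
        have h4 : kp (Y / (k : ℝ) ^ 2) ≤ C₁ * Y ^ 6 * (1 / (k : ℝ) ^ 2) := by
          refine h2.trans ?_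
          rw [mul_assoc]
          gcongr
        refine le_trans ?_ h4
        exact div_le_self (D01_kp_nonneg _) hk'
      · rw [if_neg hk]
        positivity
    have h2 := (hC₀ Y hY).1.tsum_le_tsum hb (hS.mul_left _)
    rw [tsum_mul_left] at h2
    unfold KK
    have h3 : 2 * C₁ * S * Y ^ 6 = 2 * (C₁ * Y ^ 6 * S) := by ring
    rw [h3]
    exact mul_le_mul_of_nonneg_left h2 zero_le_two
  have hnn : ∀ Y : ℝ, 0 ≤ KK Y := by
    intro Y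
    unfold KK
    refine mul_nonneg zero_le_two (tsum_nonneg fun k => ?_)
    by_cases hk : 1 ≤ k
    · rw [if_pos hk]
      exact div_nonneg (D01_kp_nonneg _) (Nat.cast_nonneg _)
    · rw [if_neg hk]
  have hCS : 0 ≤ 2 * C₁ * S := by positivity
  refine ⟨C₀ + 2 * C₁ * S + 20, by linarith, fun Y hY => ⟨(hC₀ Y hY).1, hnn Y, ?_, ?_, ?_⟩⟩
  · have p3 : 0 < Y ^ (-(1 / 4) : ℝ) := Real.rpow_pos_of_pos hY _
    rcases le_total 1 Y with h | h
    · have h2 := (hC₀ Y hY).2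
      have h3 : Y ^ (-(1 / 2) : ℝ) ≤ Y ^ (-(1 / 4) : ℝ) :=
        Real.rpow_le_rpow_of_exponent_le h (by norm_num)
      have h4 : C₀ * Y ^ (-(1 / 2) : ℝ) ≤ C₀ * Y ^ (-(1 / 4) : ℝ) :=
        mul_le_mul_of_nonneg_left h3 (by linarith)
      nlinarith [mul_nonneg hCS p3.le]
    · have h2 := hsq Y hY h
      have h3 := hlog Y hY
      have h4 : Y ^ (1 / 8 : ℝ) ≤ Y ^ (-(1 / 4) : ℝ) :=
        Real.rpow_le_rpow_of_exponent_ge hY h (by norm_num)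
      have h5 : Y ^ (-(1 / 8) : ℝ) ≤ Y ^ (-(1 / 4) : ℝ) :=
        Real.rpow_le_rpow_of_exponent_ge hY h (by norm_num)
      have h6 : Y ^ 6 ≤ Y ^ (-(1 / 4) : ℝ) := by
        rw [← Real.rpow_natCast Y 6]
        exact Real.rpow_le_rpow_of_exponent_ge hY h (by norm_num)
      have h7 : 2 * C₁ * S * Y ^ 6 ≤ 2 * C₁ * S * Y ^ (-(1 / 4) : ℝ) :=
        mul_le_mul_of_nonneg_left h6 hCS
      have h8 : |KK Y - Lg Y| ≤ KK Y + |Lg Y| := by
        refine (abs_sub _ _).trans ?_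
        rw [abs_of_nonneg (hnn Y)]
      nlinarith [mul_pos (show (0 : ℝ) < C₀ by linarith) p3]
  · have p3 : 0 < Y ^ (1 / 8 : ℝ) := Real.rpow_pos_of_pos hY _
    rcases le_total 1 Y with h | h
    · have h2 := (hC₀ Y hY).2
      have h3 : Y ^ (-(1 / 2) : ℝ) ≤ Y ^ (1 / 8 : ℝ) :=
        Real.rpow_le_rpow_of_exponent_le h (by norm_num)
      have h3' : Y ^ (-(1 / 8) : ℝ) ≤ Y ^ (1 / 8 : ℝ) :=
        Real.rpow_le_rpow_of_exponent_le h (by norm_num)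
      have h4 : C₀ * Y ^ (-(1 / 2) : ℝ) ≤ C₀ * Y ^ (1 / 8 : ℝ) :=
        mul_le_mul_of_nonneg_left h3 (by linarith)
      have h5 := hlog Y hY
      have h6 := (abs_le.1 h2).2
      have h7 := (abs_le.1 h5).2
      nlinarith [mul_nonneg hCS p3.le]
    · have h2 := hsq Y hY h
      have h6 : Y ^ 6 ≤ Y ^ (1 / 8 : ℝ) := by
        rw [← Real.rpow_natCast Y 6]
        exact Real.rpow_le_rpow_of_exponent_ge hY h (by norm_num)
      have h7 : 2 * C₁ * S * Y ^ 6 ≤ 2 * C₁ * S * Y ^ (1 / 8 : ℝ) :=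
        mul_le_mul_of_nonneg_left h6 hCS
      nlinarith [mul_pos (show (0 : ℝ) < C₀ by linarith) p3]
  · refine (hlog Y hY).trans ?_
    have p1 : 0 < Y ^ (1 / 8 : ℝ) := Real.rpow_pos_of_pos hY _
    have p2 : 0 < Y ^ (-(1 / 8) : ℝ) := Real.rpow_pos_of_pos hY _
    apply mul_le_mul_of_nonneg_right _ (by linarith)
    linarith

end Pool.Agent.LibF4D
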