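import Mathlib
import Pool.Agent.LibF4D.KDefs
import Pool.Agent.LibF4D.DDefs
import Pool.Agent.LibF4D.D01a
import Pool.Agent.LibF4D.D14
import Pool.Agent.LibF4D.D15
import Pool.Agent.LibF4D.D16
import Pool.Agent.LibF4D.D17

/-! Row D18.
(Bigger row.) Insert D16 in D15: 4 TM(c) = 4 ∑_u ∑_{l | um, l | cn} cr l r /(cn um) ∫ f kp(y/(c²n)) kp((y+r)/(mu²)). Sum over c ≥ 1; exchange to the outer sum over l (absolutely convergent: |cr| ≤ r², kp ≥ 0,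
and the same computation with |f| and |cr| gives (1/mn)∑_l |cr|/(l1 l2) ∫|f| KK KK < ∞ by KK Y ≤ C Y^{1/8}, 1/(l1 l2) ≤ mn/l²). D14_lr: l | um iff lr l m | u, l | cn iff lr l n | c: u = l1 k, c = l2 j;
y/(c²n) = (y/(n l2²))/j². tsum_mul_tsum and integral_tsum give KK/2 * KK/2.
-/

set_option autoImplicit false

namespace Pool.Agent.LibF4D

open MeasureTheory Set Filter Topology

theorem D18_gk_nonneg (x : ℝ) : 0 ≤ gk x := by
  unfold gk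
  positivity

theorem D18_gk_int : Integrable gk := by
  unfold gk
  have h := (integrable_exp_neg_mul_sq (b := (1 / 4 : ℝ)) (by norm_num)).const_mul
    (1 / (2 * √Real.pi))
  refine h.congr (Filter.Eventually.of_forall fun x => ?_)
  simp only
  congr 2
  ring

theorem D18_kp_meas : Measurable kp := by
  have h1 : Monotone (fun t : ℝ => ∫ x in Iic t, gk x) := by
    intro s t hst
    exact setIntegral_mono_set D18_gk_int.integrableOn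
      (Filter.Eventually.of_forall fun x => D18_gk_nonneg x)
      (Iic_subset_Iic.2 hst).eventuallyLE
  exact h1.measurable.comp Real.measurable_log

theorem D18_hs {Y : ℝ} (hY : 0 < Y) :
    HasSum (fun k : ℕ => kp (Y / ((k + 1 : ℕ) : ℝ) ^ 2) / ((k + 1 : ℕ) : ℝ)) (KK Y / 2) := by
  obtain ⟨C, -, h⟩ := D17_KK
  have hs := (h Y hY).1.hasSum
  have h1 : (∑' k : ℕ, if 1 ≤ k then kp (Y / (k : ℝ) ^ 2) / k else 0) = KK Y / 2 := by
    unfold KK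
    ring
  rw [h1] at hs
  have h2 := (hasSum_nat_add_iff (f := fun k : ℕ => if 1 ≤ k then kp (Y / (k : ℝ) ^ 2) / k else 0)
    1 (g := KK Y / 2)).2 (by simpa using hs)
  refine h2.congr_fun ?_ |> fun h => h
  intro k
  simp

/-- the integrands -/
noncomputable def D18_FF (m n r : ℕ) (f : ℝ → ℂ) (l1 l2 : ℕ) (p : ℕ × ℕ) (y : ℝ) : ℂ :=
  f y * ((kp ((y + r) / (m * (l1 : ℝ) ^ 2) / ((p.1 + 1 : ℕ) : ℝ) ^ 2) / ((p.1 + 1 : ℕ) : ℝ) *
    (kp (y / (n * (l2 : ℝ) ^ 2) / ((p.2 + 1 : ℕ) : ℝ) ^ 2) / ((p.2 + 1 : ℕ) : ℝ)) : ℝ) : ℂ)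

theorem D18_kk2 {C y r a b : ℝ} (hC : 1 ≤ C) (hy : 0 < y) (hr : 0 ≤ r) (ha : 0 < a)
    (ha' : a ≤ 1 + y + r) (hb : 0 < b) (hb' : b ≤ 1 + y + r)
    (hKK : ∀ Y : ℝ, 0 < Y → 0 ≤ KK Y ∧ KK Y ≤ C * Y ^ (1 / 8 : ℝ)) :
    KK a / 2 * (KK b / 2) ≤ C ^ 2 * ((1 + r) * (1 + y)) := by
  obtain ⟨hA0, hA⟩ := hKK a ha
  obtain ⟨hB0, hB⟩ := hKK b hb
  have hT : 0 < 1 + y + r := by linarith
  have hA1 : a ^ (1 / 8 : ℝ) ≤ (1 + y + r) ^ (1 / 8 : ℝ) :=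
    Real.rpow_le_rpow ha.le ha' (by norm_num)
  have hB1 : b ^ (1 / 8 : ℝ) ≤ (1 + y + r) ^ (1 / 8 : ℝ) :=
    Real.rpow_le_rpow hb.le hb' (by norm_num)
  have h4 : (1 + y + r) ^ (1 / 8 : ℝ) * (1 + y + r) ^ (1 / 8 : ℝ) ≤ 1 + y + r := by
    rw [← Real.rpow_add hT]
    calc (1 + y + r) ^ (1 / 8 + 1 / 8 : ℝ) ≤ (1 + y + r) ^ (1 : ℝ) :=
          Real.rpow_le_rpow_of_exponent_le (by linarith) (by norm_num)
      _ = 1 + y + r := Real.rpow_one _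
  have h5 : 1 + y + r ≤ (1 + r) * (1 + y) := by nlinarith
  have hq : 0 ≤ (1 + y + r) ^ (1 / 8 : ℝ) := Real.rpow_nonneg hT.le _
  generalize hQ : (1 + y + r) ^ (1 / 8 : ℝ) = Q at *
  have hA2 : KK a ≤ C * Q := hA.trans (mul_le_mul_of_nonneg_left hA1 (by linarith))
  have hB2 : KK b ≤ C * Q := hB.trans (mul_le_mul_of_nonneg_left hB1 (by linarith))
  have hCQ : 0 ≤ C * Q := mul_nonneg (by linarith) hq
  calc KK a / 2 * (KK b / 2) ≤ (C * Q) * (C * Q) :=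
        mul_le_mul (by linarith) (by linarith) (by linarith) hCQ
    _ = C ^ 2 * (Q * Q) := by ring
    _ ≤ C ^ 2 * ((1 + r) * (1 + y)) :=
        mul_le_mul_of_nonneg_left (h4.trans h5) (by positivity)

theorem D18_wt {X y : ℝ} (hX : 1 ≤ X) (hy : 0 < y) : Wt X y ≤ X ^ 4 / (1 + y) ^ 4 := by
  unfold Wt
  rw [← div_pow]
  apply pow_le_pow_left₀ (by positivity)
  exact div_le_div_of_nonneg_left (by linarith) (by linarith) (by linarith)

theorem D18_inv {y : ℝ} (hy : 0 < y) : 1 / (1 + y) ^ 3 ≤ (1 + y ^ 2)⁻¹ := by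
  rw [one_div]
  apply inv_anti₀ (by positivity)
  have hy2 : 0 ≤ y ^ 2 := sq_nonneg y
  have hy3 : 0 ≤ y ^ 3 := by positivity
  nlinarith

theorem D18_bd {X y K F R C r : ℝ} (hX : 1 ≤ X) (hy : 0 < y) (hK : 0 ≤ K) (hF : F ≤ K * Wt X y)
    (hR0 : 0 ≤ R) (hR : R ≤ C ^ 2 * ((1 + r) * (1 + y))) (hr : 0 ≤ r) :
    F * R ≤ K * X ^ 4 * ((1 + r) * C ^ 2) * (1 + y ^ 2)⁻¹ := by
  have h1 : F ≤ K * (X ^ 4 / (1 + y) ^ 4) :=
    hF.trans (mul_le_mul_of_nonneg_left (D18_wt hX hy) hK)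
  have h2 : (0 : ℝ) ≤ K * (X ^ 4 / (1 + y) ^ 4) := by positivity
  have h3 : (0 : ℝ) ≤ K * X ^ 4 * ((1 + r) * C ^ 2) := by positivity
  have h4 : (1 + y : ℝ) ≠ 0 := by positivity
  calc F * R ≤ (K * (X ^ 4 / (1 + y) ^ 4)) * (C ^ 2 * ((1 + r) * (1 + y))) :=
        mul_le_mul h1 hR hR0 h2
    _ = K * X ^ 4 * ((1 + r) * C ^ 2) * (1 / (1 + y) ^ 3) := by
        have h5 : (1 + y) / (1 + y) ^ 4 = 1 / (1 + y) ^ 3 := by
          rw [div_eq_div_iff (pow_ne_zero _ h4) (pow_ne_zero _ h4)]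
          ring
        calc (K * (X ^ 4 / (1 + y) ^ 4)) * (C ^ 2 * ((1 + r) * (1 + y)))
            = K * X ^ 4 * ((1 + r) * C ^ 2) * ((1 + y) / (1 + y) ^ 4) := by ring
          _ = _ := by rw [h5]
    _ ≤ K * X ^ 4 * ((1 + r) * C ^ 2) * (1 + y ^ 2)⁻¹ :=
        mul_le_mul_of_nonneg_left (D18_inv hy) h3

theorem D18_A {m n r : ℕ} {f f1 f2 : ℝ → ℂ} {K X : ℝ} (hm : 1 ≤ m) (hn : 1 ≤ n) (hr : 1 ≤ r)
    (hf : Flat f f1 f2 K X) (hK : 0 ≤ K) (hX : 1 ≤ X) :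
    ∃ D : ℝ, 0 ≤ D ∧ ∀ l1 l2 : ℕ, 1 ≤ l1 → 1 ≤ l2 →
      Summable (fun p : ℕ × ℕ => ‖∫ y in Ioi (0 : ℝ), D18_FF m n r f l1 l2 p y‖) ∧
      (∑' p : ℕ × ℕ, ‖∫ y in Ioi (0 : ℝ), D18_FF m n r f l1 l2 p y‖) ≤ D ∧
      HasSum (fun p : ℕ × ℕ => ∫ y in Ioi (0 : ℝ), D18_FF m n r f l1 l2 p y)
        (∫ y in Ioi (0 : ℝ), f y * ((KK ((y + r) / (m * (l1 : ℝ) ^ 2)) / 2 *
          (KK (y / (n * (l2 : ℝ) ^ 2)) / 2) : ℝ) : ℂ)) := by
  obtain ⟨C, hC, hKK⟩ := D17_KK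
  have hm' : (1 : ℝ) ≤ m := by exact_mod_cast hm
  have hn' : (1 : ℝ) ≤ n := by exact_mod_cast hn
  have hr' : (1 : ℝ) ≤ r := by exact_mod_cast hr
  set M : ℝ := K * X ^ 4 * ((1 + r) * C ^ 2) with hM
  have hM0 : 0 ≤ M := by positivity
  have hbI : IntegrableOn (fun y : ℝ => M * (1 + y ^ 2)⁻¹) (Ioi 0) :=
    (integrable_inv_one_add_sq.const_mul M).integrableOn
  have hfc : ContinuousOn f (Ioi 0) := fun y hy => (hf.d1 y hy).continuousAt.continuousWithinAt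
  refine ⟨∫ y in Ioi (0 : ℝ), M * (1 + y ^ 2)⁻¹, ?_, ?_⟩
  · exact setIntegral_nonneg measurableSet_Ioi fun y _ => by positivity
  intro l1 l2 hl1 hl2
  have hl1' : (1 : ℝ) ≤ l1 := by exact_mod_cast hl1
  have hl2' : (1 : ℝ) ≤ l2 := by exact_mod_cast hl2
  have hm1 : (1 : ℝ) ≤ m * (l1 : ℝ) ^ 2 := one_le_mul_of_one_le_of_one_le hm' (one_le_pow₀ hl1')
  have hn1 : (1 : ℝ) ≤ n * (l2 : ℝ) ^ 2 := one_le_mul_of_one_le_of_one_le hn' (one_le_pow₀ hl2')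
  -- the pointwise facts
  have hprod : ∀ y : ℝ, 0 < y → HasSum (fun p : ℕ × ℕ =>
      kp ((y + r) / (m * (l1 : ℝ) ^ 2) / ((p.1 + 1 : ℕ) : ℝ) ^ 2) / ((p.1 + 1 : ℕ) : ℝ) *
      (kp (y / (n * (l2 : ℝ) ^ 2) / ((p.2 + 1 : ℕ) : ℝ) ^ 2) / ((p.2 + 1 : ℕ) : ℝ)))
      (KK ((y + r) / (m * (l1 : ℝ) ^ 2)) / 2 * (KK (y / (n * (l2 : ℝ) ^ 2)) / 2)) := by
    intro y hy
    have h1 := D18_hs (Y := (y + r) / (m * (l1 : ℝ) ^ 2)) (by positivity)
    have h2 := D18_hs (Y := y / (n * (l2 : ℝ) ^ 2)) (by positivity)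
    exact h1.mul h2 (h1.summable.mul_of_nonneg h2.summable
      (fun k => div_nonneg (D01_kp_nonneg _) (by positivity))
      (fun k => div_nonneg (D01_kp_nonneg _) (by positivity)))
  have hnn : ∀ (y : ℝ) (p : ℕ × ℕ), 0 ≤
      kp ((y + r) / (m * (l1 : ℝ) ^ 2) / ((p.1 + 1 : ℕ) : ℝ) ^ 2) / ((p.1 + 1 : ℕ) : ℝ) *
      (kp (y / (n * (l2 : ℝ) ^ 2) / ((p.2 + 1 : ℕ) : ℝ) ^ 2) / ((p.2 + 1 : ℕ) : ℝ)) :=
    fun y p => mul_nonneg (div_nonneg (D01_kp_nonneg _) (by positivity))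
      (div_nonneg (D01_kp_nonneg _) (by positivity))
  have hbd : ∀ y : ℝ, 0 < y → ‖f y‖ * (KK ((y + r) / (m * (l1 : ℝ) ^ 2)) / 2 *
      (KK (y / (n * (l2 : ℝ) ^ 2)) / 2)) ≤ M * (1 + y ^ 2)⁻¹ := by
    intro y hy
    have hA0 : 0 < y / (n * (l2 : ℝ) ^ 2) := div_pos hy (by linarith)
    have hB0 : 0 < (y + r) / (m * (l1 : ℝ) ^ 2) := div_pos (by linarith) (by linarith)
    have hA1 : y / (n * (l2 : ℝ) ^ 2) ≤ 1 + y + r := (div_le_self hy.le hn1).trans (by linarith)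
    have hB1 : (y + r) / (m * (l1 : ℝ) ^ 2) ≤ 1 + y + r :=
      (div_le_self (by linarith) hm1).trans (by linarith)
    refine D18_bd hX hy hK (hf.b0 y hy) ?_ ?_ (by linarith)
    · exact mul_nonneg (div_nonneg (hKK _ hB0).2.1 (by norm_num))
        (div_nonneg (hKK _ hA0).2.1 (by norm_num))
    · exact D18_kk2 hC hy (by linarith) hB0 hB1 hA0 hA1 fun Y hY =>
        ⟨(hKK Y hY).2.1, (hKK Y hY).2.2.2.1⟩
  have hnorm : ∀ (p : ℕ × ℕ) (y : ℝ), ‖D18_FF m n r f l1 l2 p y‖ = ‖f y‖ *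
      (kp ((y + r) / (m * (l1 : ℝ) ^ 2) / ((p.1 + 1 : ℕ) : ℝ) ^ 2) / ((p.1 + 1 : ℕ) : ℝ) *
      (kp (y / (n * (l2 : ℝ) ^ 2) / ((p.2 + 1 : ℕ) : ℝ) ^ 2) / ((p.2 + 1 : ℕ) : ℝ))) := by
    intro p y
    unfold D18_FF
    rw [norm_mul, Complex.norm_real, Real.norm_of_nonneg (hnn y p)]
  have hsum : ∀ (t : Finset (ℕ × ℕ)) (y : ℝ), 0 < y →
      ∑ p ∈ t, ‖D18_FF m n r f l1 l2 p y‖ ≤ M * (1 + y ^ 2)⁻¹ := by
    intro t y hy
    simp only [hnorm]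
    rw [← Finset.mul_sum]
    refine le_trans ?_ (hbd y hy)
    apply mul_le_mul_of_nonneg_left _ (norm_nonneg _)
    exact sum_le_hasSum t (fun p _ => hnn y p) (hprod y hy)
  have hint : ∀ p : ℕ × ℕ, IntegrableOn (D18_FF m n r f l1 l2 p) (Ioi 0) := by
    intro p
    refine Integrable.mono' hbI ?_ ?_
    · unfold D18_FF
      refine (hfc.aestronglyMeasurable measurableSet_Ioi).mul ?_
      refine Measurable.aestronglyMeasurable ?_
      refine Complex.measurable_ofReal.comp ?_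
      refine Measurable.mul (Measurable.div_const (D18_kp_meas.comp ?_) _)
        (Measurable.div_const (D18_kp_meas.comp ?_) _)
      · exact ((measurable_id.add_const _).div_const _).div_const _
      · exact (measurable_id.div_const _).div_const _
    · filter_upwards [ae_restrict_mem measurableSet_Ioi] with y hy
      have := hsum {p} y hy
      rwa [Finset.sum_singleton] at this
  have hsn : ∀ t : Finset (ℕ × ℕ), ∑ p ∈ t, ∫ y in Ioi (0 : ℝ), ‖D18_FF m n r f l1 l2 p y‖ ≤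
      ∫ y in Ioi (0 : ℝ), M * (1 + y ^ 2)⁻¹ := by
    intro t
    rw [← integral_finsetSum _ (fun p _ => (hint p).norm)]
    apply setIntegral_mono_on
    · exact integrable_finsetSum _ (fun p _ => (hint p).norm)
    · exact hbI
    · exact measurableSet_Ioi
    · intro y hy
      exact hsum t y hy
  have hsm : Summable (fun p : ℕ × ℕ => ∫ y in Ioi (0 : ℝ), ‖D18_FF m n r f l1 l2 p y‖) :=
    summable_of_sum_le (fun p => integral_nonneg fun y => norm_nonneg _) hsn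
  have hsm' : Summable (fun p : ℕ × ℕ => ‖∫ y in Ioi (0 : ℝ), D18_FF m n r f l1 l2 p y‖) :=
    Summable.of_nonneg_of_le (fun p => norm_nonneg _)
      (fun p => norm_integral_le_integral_norm _) hsm
  refine ⟨hsm', ?_, ?_⟩
  · refine hsm'.tsum_le_of_sum_le fun t => ?_
    exact (Finset.sum_le_sum fun p _ => norm_integral_le_integral_norm _).trans (hsn t)
  · have h1 := hasSum_integral_of_summable_integral_norm hint hsm
    have h2 : ∫ y in Ioi (0 : ℝ), ∑' p : ℕ × ℕ, D18_FF m n r f l1 l2 p y =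
        ∫ y in Ioi (0 : ℝ), f y * ((KK ((y + r) / (m * (l1 : ℝ) ^ 2)) / 2 *
          (KK (y / (n * (l2 : ℝ) ^ 2)) / 2) : ℝ) : ℂ) := by
      apply setIntegral_congr_fun measurableSet_Ioi
      intro y hy
      have h3 : HasSum (fun p : ℕ × ℕ => D18_FF m n r f l1 l2 p y)
          (f y * ((KK ((y + r) / (m * (l1 : ℝ) ^ 2)) / 2 *
          (KK (y / (n * (l2 : ℝ) ^ 2)) / 2) : ℝ) : ℂ)) := by
        unfold D18_FF
        exact (Complex.hasSum_ofReal.2 (hprod y hy)).mul_left (f y)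
      exact h3.tsum_eq
    rw [h2] at h1
    exact h1

/-- the terms, indexed by `l, k, j` -/
noncomputable def D18_T (m n r : ℕ) (f : ℝ → ℂ) (x : ℕ × (ℕ × ℕ)) : ℂ :=
  (((cr (x.1 + 1) r : ℝ) / (lr (x.1 + 1) m * lr (x.1 + 1) n) : ℝ) : ℂ) *
    ∫ y in Ioi (0 : ℝ), D18_FF m n r f (lr (x.1 + 1) m) (lr (x.1 + 1) n) x.2 y

theorem D18_T_summable {m n r : ℕ} {f f1 f2 : ℝ → ℂ} {K X : ℝ} (hm : 1 ≤ m) (hn : 1 ≤ n)
    (hr : 1 ≤ r) (hf : Flat f f1 f2 K X) (hK : 0 ≤ K) (hX : 1 ≤ X) :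
    Summable (D18_T m n r f) := by
  obtain ⟨D, hD, h⟩ := D18_A hm hn hr hf hK hX
  have hl : ∀ l : ℕ, 1 ≤ lr (l + 1) m ∧ 1 ≤ lr (l + 1) n := fun l =>
    ⟨(D14_lr_ge (by omega) hm).1, (D14_lr_ge (by omega) hn).1⟩
  have hcoef : ∀ l : ℕ, |(cr (l + 1) r : ℝ) / (lr (l + 1) m * lr (l + 1) n)| ≤
      ((r : ℝ) ^ 2 * (m * n)) * (1 / ((l + 1 : ℕ) : ℝ) ^ 2) := by
    intro l
    obtain ⟨h1, -, h2⟩ := D14_lr_ge (l := l + 1) (by omega) hm
    obtain ⟨h3, -, h4⟩ := D14_lr_ge (l := l + 1) (by omega) hn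
    have h1' : (0 : ℝ) < lr (l + 1) m := by exact_mod_cast h1
    have h3' : (0 : ℝ) < lr (l + 1) n := by exact_mod_cast h3
    have h2' : ((l + 1 : ℕ) : ℝ) ≤ lr (l + 1) m * m := by exact_mod_cast h2
    have h4' : ((l + 1 : ℕ) : ℝ) ≤ lr (l + 1) n * n := by exact_mod_cast h4
    have h5 : |(cr (l + 1) r : ℝ)| ≤ (r : ℝ) ^ 2 := by
      have := D14_cr_le (l := l + 1) hr
      exact_mod_cast this
    have h0 : (0 : ℝ) < ((l + 1 : ℕ) : ℝ) := by positivity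
    rw [abs_div, abs_of_pos (mul_pos h1' h3'), div_le_iff₀ (mul_pos h1' h3')]
    have h6 : 1 ≤ (m * n) * (1 / ((l + 1 : ℕ) : ℝ) ^ 2) * (lr (l + 1) m * lr (l + 1) n) := by
      have h7 : ((l + 1 : ℕ) : ℝ) ^ 2 ≤ (lr (l + 1) m * m) * (lr (l + 1) n * n) := by
        rw [sq]
        exact mul_le_mul h2' h4' h0.le (by positivity)
      have h8 : (m * n : ℝ) * (1 / ((l + 1 : ℕ) : ℝ) ^ 2) * (lr (l + 1) m * lr (l + 1) n) =
          ((lr (l + 1) m * m) * (lr (l + 1) n * n)) / ((l + 1 : ℕ) : ℝ) ^ 2 := by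
        field_simp
      rw [h8, le_div_iff₀ (by positivity), one_mul]
      exact h7
    calc |(cr (l + 1) r : ℝ)| ≤ (r : ℝ) ^ 2 * 1 := by rw [mul_one]; exact h5
      _ ≤ (r : ℝ) ^ 2 * ((m * n) * (1 / ((l + 1 : ℕ) : ℝ) ^ 2) *
          (lr (l + 1) m * lr (l + 1) n)) := mul_le_mul_of_nonneg_left h6 (by positivity)
      _ = _ := by ring
  have hnorm : ∀ (l : ℕ) (p : ℕ × ℕ), ‖D18_T m n r f (l, p)‖ =
      |(cr (l + 1) r : ℝ) / (lr (l + 1) m * lr (l + 1) n)| *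
        ‖∫ y in Ioi (0 : ℝ), D18_FF m n r f (lr (l + 1) m) (lr (l + 1) n) p y‖ := by
    intro l p
    unfold D18_T
    simp only
    rw [norm_mul, Complex.norm_real, Real.norm_eq_abs]
  apply Summable.of_norm
  rw [summable_prod_of_nonneg (fun x => norm_nonneg _)]
  constructor
  · intro l
    simp only [hnorm]
    exact (h _ _ (hl l).1 (hl l).2).1.mul_left _
  · have hs : Summable (fun l : ℕ => ((r : ℝ) ^ 2 * (m * n)) * (1 / ((l + 1 : ℕ) : ℝ) ^ 2) * D) := by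
      have h1 : Summable (fun l : ℕ => 1 / ((l + 1 : ℕ) : ℝ) ^ 2) :=
        (summable_nat_add_iff (f := fun l : ℕ => 1 / (l : ℝ) ^ 2) 1).2
          (Real.summable_one_div_nat_pow.2 (by norm_num))
      exact (h1.mul_left _).mul_right _
    refine Summable.of_nonneg_of_le (fun l => tsum_nonneg fun p => norm_nonneg _) (fun l => ?_) hs
    simp only [hnorm]
    rw [tsum_mul_left]
    exact mul_le_mul (hcoef l) (h _ _ (hl l).1 (hl l).2).2.1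
      (tsum_nonneg fun p => norm_nonneg _) (by positivity)

/-- the terms, indexed by `c, u, l` -/
noncomputable def D18_S (m n r : ℕ) (f : ℝ → ℂ) (x : ℕ × (ℕ × ℕ)) : ℂ :=
  if 1 ≤ x.2.1 ∧ x.2.2 ∈ (Nat.gcd (x.2.1 * m) ((x.1 + 1) * n)).divisors then
    ((cr x.2.2 r : ℤ) : ℂ) * ((1 / (((x.1 + 1 : ℕ) : ℂ) * (x.2.1 : ℂ))) *
      ∫ y in Ioi (0 : ℝ), f y * ((kp (y / (((x.1 + 1 : ℕ) : ℝ) ^ 2 * n)) *
        kp ((y + r) / (m * (x.2.1 : ℝ) ^ 2)) : ℝ) : ℂ)) else 0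

/-- the map of the index sets -/
def D18_g (m n : ℕ) (x : ℕ × (ℕ × ℕ)) : ℕ × (ℕ × ℕ) :=
  (lr (x.1 + 1) n * (x.2.2 + 1) - 1, (lr (x.1 + 1) m * (x.2.1 + 1), x.1 + 1))

theorem D18_g_inj {m n : ℕ} (hm : 1 ≤ m) (hn : 1 ≤ n) : Function.Injective (D18_g m n) := by
  rintro ⟨l, k, j⟩ ⟨l', k', j'⟩ h
  unfold D18_g at h
  simp only [Prod.mk.injEq] at h
  obtain ⟨h1, h2, h3⟩ := h
  have h4 : l = l' := by omega
  subst h4
  have ha := (D14_lr_ge (l := l + 1) (by omega) hm).1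
  have hb := (D14_lr_ge (l := l + 1) (by omega) hn).1
  have h5 : k + 1 = k' + 1 := Nat.eq_of_mul_eq_mul_left ha h2
  have hp1 : 1 ≤ lr (l + 1) n * (j + 1) := Nat.mul_pos hb (by omega)
  have hp2 : 1 ≤ lr (l + 1) n * (j' + 1) := Nat.mul_pos hb (by omega)
  have h6 : j + 1 = j' + 1 := Nat.eq_of_mul_eq_mul_left hb (by omega)
  have h7 : k = k' := by omega
  have h8 : j = j' := by omega
  rw [h7, h8]

theorem D18_S_g {m n r : ℕ} (f : ℝ → ℂ) (hm : 1 ≤ m) (hn : 1 ≤ n) (x : ℕ × (ℕ × ℕ)) :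
    D18_S m n r f (D18_g m n x) = D18_T m n r f x := by
  obtain ⟨l, k, j⟩ := x
  have ha := (D14_lr_ge (l := l + 1) (by omega) hm).1
  have hb := (D14_lr_ge (l := l + 1) (by omega) hn).1
  have hp1 : 1 ≤ lr (l + 1) n * (j + 1) := Nat.mul_pos hb (by omega)
  have hp2 : 1 ≤ lr (l + 1) m * (k + 1) := Nat.mul_pos ha (by omega)
  have hc : lr (l + 1) n * (j + 1) - 1 + 1 = lr (l + 1) n * (j + 1) := by omega
  have hmem : l + 1 ∈ (Nat.gcd (lr (l + 1) m * (k + 1) * m) (lr (l + 1) n * (j + 1) * n)).divisors := by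
    rw [Nat.mem_divisors]
    refine ⟨Nat.dvd_gcd ?_ ?_, ?_⟩
    · rw [D14_lr (by omega) hm]
      exact ⟨k + 1, rfl⟩
    · rw [D14_lr (by omega) hn]
      exact ⟨j + 1, rfl⟩
    · intro h0
      rw [Nat.gcd_eq_zero_iff] at h0
      have := Nat.mul_pos hp2 hm
      omega
  unfold D18_S D18_g D18_T
  simp only [hc]
  rw [if_pos ⟨hp2, hmem⟩]
  have ha' : (lr (l + 1) m : ℝ) ≠ 0 := by
    have : lr (l + 1) m ≠ 0 := by omega
    exact_mod_cast this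
  have hb' : (lr (l + 1) n : ℝ) ≠ 0 := by
    have : lr (l + 1) n ≠ 0 := by omega
    exact_mod_cast this
  have haC : (lr (l + 1) m : ℂ) ≠ 0 := by exact_mod_cast ha'
  have hbC : (lr (l + 1) n : ℂ) ≠ 0 := by exact_mod_cast hb'
  have hk : (((k + 1 : ℕ) : ℝ)) ≠ 0 := by positivity
  have hj : (((j + 1 : ℕ) : ℝ)) ≠ 0 := by positivity
  have hkC : (((k + 1 : ℕ) : ℂ)) ≠ 0 := by exact_mod_cast (by omega : k + 1 ≠ 0)
  have hjC : (((j + 1 : ℕ) : ℂ)) ≠ 0 := by exact_mod_cast (by omega : j + 1 ≠ 0)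
  have hm' : (m : ℝ) ≠ 0 := by
    have : m ≠ 0 := by omega
    exact_mod_cast this
  have hn' : (n : ℝ) ≠ 0 := by
    have : n ≠ 0 := by omega
    exact_mod_cast this
  have hI : (fun y : ℝ => D18_FF m n r f (lr (l + 1) m) (lr (l + 1) n) (k, j) y) =
      fun y : ℝ => (1 / (((k + 1 : ℕ) : ℂ) * ((j + 1 : ℕ) : ℂ))) *
        (f y * ((kp (y / (((lr (l + 1) n * (j + 1) : ℕ) : ℝ) ^ 2 * n)) *
          kp ((y + r) / (m * ((lr (l + 1) m * (k + 1) : ℕ) : ℝ) ^ 2)) : ℝ) : ℂ)) := by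
    funext y
    unfold D18_FF
    simp only
    have e1 : (y + r) / (m * (lr (l + 1) m : ℝ) ^ 2) / ((k + 1 : ℕ) : ℝ) ^ 2 =
        (y + r) / (m * ((lr (l + 1) m * (k + 1) : ℕ) : ℝ) ^ 2) := by
      rw [div_div, Nat.cast_mul (lr (l + 1) m) (k + 1), mul_pow]
      ring_nf
    have e2 : y / (n * (lr (l + 1) n : ℝ) ^ 2) / ((j + 1 : ℕ) : ℝ) ^ 2 =
        y / (((lr (l + 1) n * (j + 1) : ℕ) : ℝ) ^ 2 * n) := by
      rw [div_div, Nat.cast_mul (lr (l + 1) n) (j + 1), mul_pow]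
      ring_nf
    rw [e1, e2]
    rw [Complex.ofReal_mul, Complex.ofReal_div, Complex.ofReal_div, Complex.ofReal_mul,
      Complex.ofReal_natCast, Complex.ofReal_natCast]
    field_simp
  have hI' : ∫ y in Ioi (0 : ℝ), D18_FF m n r f (lr (l + 1) m) (lr (l + 1) n) (k, j) y =
      (1 / (((k + 1 : ℕ) : ℂ) * ((j + 1 : ℕ) : ℂ))) *
        ∫ y in Ioi (0 : ℝ), f y * ((kp (y / (((lr (l + 1) n * (j + 1) : ℕ) : ℝ) ^ 2 * n)) *
          kp ((y + r) / (m * ((lr (l + 1) m * (k + 1) : ℕ) : ℝ) ^ 2)) : ℝ) : ℂ) := by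
    rw [← integral_const_mul, ← hI]
  rw [hI']
  generalize (∫ y in Ioi (0 : ℝ), f y * ((kp (y / (((lr (l + 1) n * (j + 1) : ℕ) : ℝ) ^ 2 * n)) *
          kp ((y + r) / (m * ((lr (l + 1) m * (k + 1) : ℕ) : ℝ) ^ 2)) : ℝ) : ℂ)) = J
  rw [Complex.ofReal_div, Complex.ofReal_mul, Complex.ofReal_natCast, Complex.ofReal_natCast,
    Nat.cast_mul (lr (l + 1) m) (k + 1), Nat.cast_mul (lr (l + 1) n) (j + 1),
    Complex.ofReal_intCast]
  field_simp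

theorem D18_S_hasSum {m n r : ℕ} {f : ℝ → ℂ} (hm : 1 ≤ m) (hn : 1 ≤ n)
    (hT : Summable (D18_T m n r f)) : HasSum (D18_S m n r f) (∑' x, D18_T m n r f x) := by
  rw [← (D18_g_inj hm hn).hasSum_iff]
  · have : D18_S m n r f ∘ D18_g m n = D18_T m n r f := funext fun x => D18_S_g f hm hn x
    rw [this]
    exact hT.hasSum
  · rintro ⟨c, u, l⟩ hx
    unfold D18_S
    rw [if_neg]
    rintro ⟨hu, hl⟩
    apply hx
    simp only at hu hl
    have hl1 : 1 ≤ l := Nat.pos_of_mem_divisors hl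
    have hd := Nat.dvd_of_mem_divisors hl
    have h1 : lr l m ∣ u := (D14_lr hl1 hm).1 (hd.trans (Nat.gcd_dvd_left _ _))
    have h2 : lr l n ∣ c + 1 := (D14_lr hl1 hn).1 (hd.trans (Nat.gcd_dvd_right _ _))
    obtain ⟨k, hk⟩ := h1
    obtain ⟨j, hj⟩ := h2
    have hk1 : 1 ≤ k := by
      rcases Nat.eq_zero_or_pos k with h | h
      · rw [h, mul_zero] at hk
        omega
      · exact h
    have hj1 : 1 ≤ j := by
      rcases Nat.eq_zero_or_pos j with h | h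
      · rw [h, mul_zero] at hj
        omega
      · exact h
    refine ⟨(l - 1, (k - 1, j - 1)), ?_⟩
    unfold D18_g
    have e1 : l - 1 + 1 = l := by omega
    have e2 : k - 1 + 1 = k := by omega
    have e3 : j - 1 + 1 = j := by omega
    simp only [e1, e2, e3]
    rw [← hk, ← hj, Nat.add_sub_cancel]

theorem D18_TM {m n r : ℕ} {f f1 f2 : ℝ → ℂ} {K X : ℝ} (hm : 1 ≤ m) (hn : 1 ≤ n) (hr : 1 ≤ r)
    (hf : Flat f f1 f2 K X) (hK : 0 ≤ K) (hX : 1 ≤ X) (hS : Summable (D18_S m n r f)) (c : ℕ) :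
    TM m n r (c + 1) f = (1 / ((m : ℂ) * n)) * ∑' p : ℕ × ℕ, D18_S m n r f (c, p) := by
  have hm' : (1 : ℝ) ≤ m := by exact_mod_cast hm
  have hn' : (1 : ℝ) ≤ n := by exact_mod_cast hn
  have hr' : (1 : ℝ) ≤ r := by exact_mod_cast hr
  have hmC : (m : ℂ) ≠ 0 := by
    have : m ≠ 0 := by omega
    exact_mod_cast this
  have hnC : (n : ℂ) ≠ 0 := by
    have : n ≠ 0 := by omega
    exact_mod_cast this
  have hcC : ((c + 1 : ℕ) : ℂ) ≠ 0 := by exact_mod_cast (by omega : c + 1 ≠ 0)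
  rw [D15_TM hm hn hr (by omega : 1 ≤ c + 1) hf hK hX, (hS.prod_factor c).tsum_prod,
    ← tsum_mul_left, ← tsum_mul_left]
  refine tsum_congr fun u => ?_
  split_ifs with hu
  · have hu' : (1 : ℝ) ≤ u := by exact_mod_cast hu
    have huC : (u : ℂ) ≠ 0 := by
      have : u ≠ 0 := by omega
      exact_mod_cast this
    have hκ : (1 : ℝ) ≤ ((c + 1 : ℕ) : ℝ) ^ 2 * n := by
      apply one_le_mul_of_one_le_of_one_le _ hn'
      apply one_le_pow₀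
      exact_mod_cast (by omega : 1 ≤ c + 1)
    rw [D16_int hm' hr' hκ hu' hf hK hX]
    rw [tsum_eq_sum (s := (Nat.gcd (u * m) ((c + 1) * n)).divisors)]
    · have h1 : ∀ l ∈ (Nat.gcd (u * m) ((c + 1) * n)).divisors, D18_S m n r f (c, (u, l)) =
          ((cr l r : ℤ) : ℂ) * ((1 / (((c + 1 : ℕ) : ℂ) * (u : ℂ))) *
          ∫ y in Ioi (0 : ℝ), f y * ((kp (y / (((c + 1 : ℕ) : ℝ) ^ 2 * n)) *
          kp ((y + r) / (m * (u : ℝ) ^ 2)) : ℝ) : ℂ)) := by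
        intro l hl
        unfold D18_S
        rw [if_pos ⟨hu, hl⟩]
      rw [Finset.sum_congr rfl h1, ← Finset.sum_mul, ← Int.cast_sum]
      generalize (∫ y in Ioi (0 : ℝ), f y * ((kp (y / (((c + 1 : ℕ) : ℝ) ^ 2 * n)) *
          kp ((y + r) / (m * (u : ℝ) ^ 2)) : ℝ) : ℂ)) = J
      generalize (((∑ l ∈ (Nat.gcd (u * m) ((c + 1) * n)).divisors, cr l r : ℤ)) : ℂ) = R
      simp only [Complex.ofReal_natCast]
      field_simp
    · intro l hl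
      unfold D18_S
      rw [if_neg]
      rintro ⟨-, h⟩
      exact hl h
  · have h1 : ∀ l : ℕ, D18_S m n r f (c, (u, l)) = 0 := by
      intro l
      unfold D18_S
      rw [if_neg]
      rintro ⟨h, -⟩
      exact hu h
    simp [h1]

theorem D18_shift (F : ℕ → ℂ) : (∑' l : ℕ, if 1 ≤ l then F l else 0) = ∑' l : ℕ, F (l + 1) := by
  rw [← Function.Injective.tsum_eq (g := Nat.succ) Nat.succ_injective]
  · refine tsum_congr fun l => ?_
    rw [if_pos (by omega : 1 ≤ Nat.succ l)]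
  · intro l hl
    have : 1 ≤ l := by
      by_contra h
      apply hl
      simp only
      rw [if_neg h]
    exact ⟨l - 1, by simp only [Nat.succ_eq_add_one]; omega⟩

/-- D18: sum of the main terms -/
theorem D18_main {m n r : ℕ} {f f1 f2 : ℝ → ℂ} {K X : ℝ} (hm : 1 ≤ m) (hn : 1 ≤ n) (hr : 1 ≤ r)
    (hf : Flat f f1 f2 K X) (hK : 0 ≤ K) (hX : 1 ≤ X) :
    Summable (fun c : ℕ => TM m n r (c + 1) f) ∧
    4 * ∑' c : ℕ, TM m n r (c + 1) f = (1 / ((m : ℂ) * n)) * ∑' l : ℕ, if 1 ≤ l then ((cr l r : ℝ) / (lr l m * lr l n) : ℝ) *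
      ∫ y in Ioi (0 : ℝ), f y * ((KK ((y + r) / (m * (lr l m : ℝ) ^ 2)) * KK (y / (n * (lr l n : ℝ) ^ 2)) : ℝ) : ℂ) else 0 := by
  have hT := D18_T_summable hm hn hr hf hK hX
  have hS := D18_S_hasSum hm hn hT
  have hTM := D18_TM hm hn hr hf hK hX hS.summable
  obtain ⟨D, -, hA⟩ := D18_A hm hn hr hf hK hX
  refine ⟨?_, ?_⟩
  · simp only [hTM]
    exact hS.summable.prod.mul_left _
  · simp only [hTM]
    rw [tsum_mul_left, ← hS.summable.tsum_prod, hS.tsum_eq, hT.tsum_prod]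
    rw [D18_shift, mul_left_comm, ← tsum_mul_left]
    congr 1
    refine tsum_congr fun l => ?_
    obtain ⟨ha, -, -⟩ := D14_lr_ge (l := l + 1) (by omega) hm
    obtain ⟨hb, -, -⟩ := D14_lr_ge (l := l + 1) (by omega) hn
    have h1 := (hA _ _ ha hb).2.2.tsum_eq
    unfold D18_T
    simp only
    rw [tsum_mul_left, h1]
    have h2 : (fun y : ℝ => f y * ((KK ((y + r) / (m * (lr (l + 1) m : ℝ) ^ 2)) / 2 *
        (KK (y / (n * (lr (l + 1) n : ℝ) ^ 2)) / 2) : ℝ) : ℂ)) =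
        fun y : ℝ => (1 / 4 : ℂ) * (f y * ((KK ((y + r) / (m * (lr (l + 1) m : ℝ) ^ 2)) *
        KK (y / (n * (lr (l + 1) n : ℝ) ^ 2)) : ℝ) : ℂ)) := by
      funext y
      push_cast
      ring
    rw [h2, integral_const_mul]
    ring

end Pool.Agent.LibF4D
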