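import Mathlib
import Pool.Agent.LibF4D.KDefs
import Pool.Agent.LibF4D.DDefs
import Pool.Agent.LibF4D.D14
import Pool.Agent.LibF4D.D17

/-! Row D19.
A = y/(n l2²), B = (y+r)/(m l1²), B0 = y/(m l1²). |KK B KK A - Lg B0 Lg A| ≤ |KK A - Lg A| KK B + |Lg A||KK B - Lg B| + |Lg A| log(1+r/y), log(1+r/y) ≤ 4 (r/y)^{1/4}. D17: ≤ C[A^{-1/4}B^{1/8} + (A^{1/8}+A^{-1/8})(B^{-1/4}+(r/y)^{1/4})]
≤ C (mnr) l^{3/4} y^{-1/4}(y^{1/8}+1+y^{-1/8}) (all exponents of m,n,r at most 1, l1,l2 ≤ l, l1, l2, m, n ≥ 1). ∫ Wt X y y^{-s} dy ≤ C X^{1-s} (s < 1). Integrability of both integrals from the same bounds and continuity (KK measurable: tsum of measurable functions).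
-/

set_option autoImplicit false

namespace Pool.Agent.LibF4D

open MeasureTheory Set Filter Topology

private lemma D19_wt_nonneg (X y : ℝ) : 0 ≤ Wt X y := by
  unfold Wt
  positivity

private lemma D19_wt_le_one (X y : ℝ) (hX : 1 ≤ X) (hy : 0 < y) : Wt X y ≤ 1 := by
  unfold Wt
  have h1 : X / (X + y) ≤ 1 := by
    rw [div_le_one (by linarith)]
    linarith
  exact pow_le_one₀ (by positivity) h1

private lemma D19_wt_le (X y : ℝ) (hX : 1 ≤ X) (hy : 0 < y) : Wt X y ≤ X ^ 4 / y ^ 4 := by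
  unfold Wt
  rw [← div_pow]
  apply pow_le_pow_left₀ (by positivity)
  exact div_le_div_of_nonneg_left (by linarith) hy (by linarith)

private lemma D19_wt_cont (X : ℝ) (hX : 1 ≤ X) : ContinuousOn (Wt X) (Ioi 0) := by
  unfold Wt
  apply ContinuousOn.pow
  apply ContinuousOn.div continuousOn_const (by fun_prop)
  intro y hy
  have : (0 : ℝ) < y := hy
  positivity

private lemma D19_wt (X e : ℝ) (hX : 1 ≤ X) (he1 : -(3 / 8) ≤ e) (he2 : e ≤ 1 / 4) :
    IntegrableOn (fun y => Wt X y * y ^ e) (Ioi 0) ∧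
      ∫ y in Ioi (0 : ℝ), Wt X y * y ^ e ≤ 3 * X ^ (e + 1) := by
  have hX0 : (0 : ℝ) < X := by linarith
  have hc : ContinuousOn (fun y : ℝ => Wt X y * y ^ e) (Ioi 0) := by
    apply (D19_wt_cont X hX).mul
    intro y hy
    exact (Real.continuousAt_rpow_const y e (Or.inl (ne_of_gt hy))).continuousWithinAt
  have hU : Ioc (0 : ℝ) X ∪ Ioi X = Ioi 0 := Ioc_union_Ioi_eq_Ioi hX0.le
  have hi1 : IntegrableOn (fun y : ℝ => y ^ e) (Ioc 0 X) := by
    have := intervalIntegral.intervalIntegrable_rpow' (a := 0) (b := X) (r := e) (by linarith)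
    rwa [intervalIntegrable_iff_integrableOn_Ioc_of_le hX0.le] at this
  have hi2 : IntegrableOn (fun y : ℝ => X ^ 4 * y ^ (e - 4)) (Ioi X) :=
    (integrableOn_Ioi_rpow_of_lt (by linarith) hX0).const_mul _
  have hb1 : ∀ y ∈ Ioc (0 : ℝ) X, ‖Wt X y * y ^ e‖ ≤ y ^ e := by
    intro y hy
    have h0 : (0 : ℝ) ≤ y ^ e := Real.rpow_nonneg hy.1.le _
    rw [Real.norm_of_nonneg (mul_nonneg (D19_wt_nonneg X y) h0)]
    calc Wt X y * y ^ e ≤ 1 * y ^ e := mul_le_mul_of_nonneg_right (D19_wt_le_one X y hX hy.1) h0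
      _ = y ^ e := one_mul _
  have hb2 : ∀ y ∈ Ioi X, ‖Wt X y * y ^ e‖ ≤ X ^ 4 * y ^ (e - 4) := by
    intro y hy
    have hy0 : (0 : ℝ) < y := hX0.trans hy
    have h0 : (0 : ℝ) ≤ y ^ e := Real.rpow_nonneg hy0.le _
    rw [Real.norm_of_nonneg (mul_nonneg (D19_wt_nonneg X y) h0)]
    calc Wt X y * y ^ e ≤ X ^ 4 / y ^ 4 * y ^ e :=
          mul_le_mul_of_nonneg_right (D19_wt_le X y hX hy0) h0
      _ = X ^ 4 * y ^ (e - 4) := by
          have : y ^ (e - 4) = y ^ e / y ^ 4 := by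
            rw [Real.rpow_sub hy0]
            congr 1
            exact_mod_cast Real.rpow_natCast y 4
          rw [this]
          ring
  have hm : AEStronglyMeasurable (fun y : ℝ => Wt X y * y ^ e) (volume.restrict (Ioi 0)) :=
    hc.aestronglyMeasurable measurableSet_Ioi
  have hI1 : IntegrableOn (fun y : ℝ => Wt X y * y ^ e) (Ioc 0 X) := by
    refine Integrable.mono' hi1 (hm.mono_set Ioc_subset_Ioi_self) ?_
    rw [ae_restrict_iff' measurableSet_Ioc]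
    exact Filter.Eventually.of_forall hb1
  have hI2 : IntegrableOn (fun y : ℝ => Wt X y * y ^ e) (Ioi X) := by
    refine Integrable.mono' hi2 (hm.mono_set (Ioi_subset_Ioi hX0.le)) ?_
    rw [ae_restrict_iff' measurableSet_Ioi]
    exact Filter.Eventually.of_forall hb2
  have hI : IntegrableOn (fun y : ℝ => Wt X y * y ^ e) (Ioi 0) := by
    rw [← hU]
    exact hI1.union hI2
  refine ⟨hI, ?_⟩
  rw [← hU, setIntegral_union (by
    rw [Set.disjoint_left]
    intro y h1 h2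
    exact absurd h1.2 (not_le.2 h2)) measurableSet_Ioi hI1 hI2]
  have h1 : ∫ y in Ioc (0 : ℝ) X, Wt X y * y ^ e ≤ 8 / 5 * X ^ (e + 1) := by
    calc ∫ y in Ioc (0 : ℝ) X, Wt X y * y ^ e ≤ ∫ y in Ioc (0 : ℝ) X, y ^ e :=
          setIntegral_mono_on hI1 hi1 measurableSet_Ioc
            (fun y hy => (Real.le_norm_self _).trans (hb1 y hy))
      _ = X ^ (e + 1) / (e + 1) := by
          rw [← intervalIntegral.integral_of_le hX0.le, integral_rpow (Or.inl (by linarith)),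
            Real.zero_rpow (by linarith), sub_zero]
      _ ≤ 8 / 5 * X ^ (e + 1) := by
          rw [div_eq_mul_inv, mul_comm]
          apply mul_le_mul_of_nonneg_right _ (Real.rpow_nonneg hX0.le _)
          rw [inv_le_comm₀ (by linarith) (by norm_num)]
          norm_num
          linarith
  have h2 : ∫ y in Ioi X, Wt X y * y ^ e ≤ 1 * X ^ (e + 1) := by
    calc ∫ y in Ioi X, Wt X y * y ^ e ≤ ∫ y in Ioi X, X ^ 4 * y ^ (e - 4) :=
          setIntegral_mono_on hI2 hi2 measurableSet_Ioi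
            (fun y hy => (Real.le_norm_self _).trans (hb2 y hy))
      _ = X ^ 4 * (-X ^ (e - 4 + 1) / (e - 4 + 1)) := by
          rw [integral_const_mul, integral_Ioi_rpow_of_lt (by linarith) hX0]
      _ = X ^ (e + 1) / (3 - e) := by
          have h3 : X ^ (e + 1) = X ^ 4 * X ^ (e - 4 + 1) := by
            rw [← Real.rpow_natCast X 4, ← Real.rpow_add hX0]
            congr 1
            push_cast
            ring
          rw [h3, show e - 4 + 1 = -(3 - e) by ring, neg_div_neg_eq, mul_div_assoc]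
      _ ≤ 1 * X ^ (e + 1) := by
          rw [one_mul]
          exact div_le_self (Real.rpow_nonneg hX0.le _) (by linarith)
  have h3 : 0 ≤ X ^ (e + 1) := Real.rpow_nonneg hX0.le _
  linarith

private lemma D19_log4 (x : ℝ) (hx : 0 ≤ x) : Real.log (1 + x) ≤ 4 * x ^ (1 / 4 : ℝ) := by
  have h1 : (0 : ℝ) < 1 + x := by linarith
  have h2 : Real.log (1 + x) = 4 * Real.log ((1 + x) ^ (1 / 4 : ℝ)) := by
    rw [Real.log_rpow h1]
    ring
  have h3 : Real.log ((1 + x) ^ (1 / 4 : ℝ)) ≤ (1 + x) ^ (1 / 4 : ℝ) - 1 :=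
    Real.log_le_sub_one_of_pos (Real.rpow_pos_of_pos h1 _)
  have h4 : (1 + x) ^ (1 / 4 : ℝ) ≤ 1 ^ (1 / 4 : ℝ) + x ^ (1 / 4 : ℝ) :=
    Real.rpow_add_le_add_rpow (by norm_num) hx (by norm_num) (by norm_num)
  rw [Real.one_rpow] at h4
  rw [h2]
  linarith

/-- powers of `y / (n b²)` -/
private lemma D19_pw (y : ℝ) (hy : 0 < y) (n b l : ℕ) (hn : 1 ≤ n) (hb : 1 ≤ b) (hbl : b ≤ l) :
    0 < y / (n * (b : ℝ) ^ 2) ∧
    (y / (n * (b : ℝ) ^ 2)) ^ (1 / 8 : ℝ) ≤ y ^ (1 / 8 : ℝ) ∧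
    (y / (n * (b : ℝ) ^ 2)) ^ (-(1 / 8) : ℝ) ≤ y ^ (-(1 / 8) : ℝ) * (n * (l : ℝ) ^ (1 / 4 : ℝ)) ∧
    (y / (n * (b : ℝ) ^ 2)) ^ (-(1 / 4) : ℝ) ≤
      (y ^ (-(1 / 8) : ℝ)) ^ 2 * (n * ((l : ℝ) ^ (1 / 4 : ℝ)) ^ 2) := by
  have hn' : (1 : ℝ) ≤ n := by exact_mod_cast hn
  have hb' : (1 : ℝ) ≤ b := by exact_mod_cast hb
  have hbl' : (b : ℝ) ≤ l := by exact_mod_cast hbl
  have hl' : (0 : ℝ) < l := by linarith
  have hc1 : (1 : ℝ) ≤ n * (b : ℝ) ^ 2 := by nlinarith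
  have hc0 : (0 : ℝ) < n * (b : ℝ) ^ 2 := by linarith
  have hA : 0 < y / (n * (b : ℝ) ^ 2) := div_pos hy hc0
  have hcle : (n : ℝ) * (b : ℝ) ^ 2 ≤ n * (l : ℝ) ^ 2 := by
    apply mul_le_mul_of_nonneg_left _ (by linarith)
    exact pow_le_pow_left₀ (by linarith) hbl' 2
  have hl14 : ((l : ℝ) ^ (1 / 4 : ℝ)) ^ 2 = (l : ℝ) ^ (1 / 2 : ℝ) := by
    rw [← Real.rpow_natCast, ← Real.rpow_mul hl'.le]
    norm_num
  have hneg : ∀ p : ℝ, (y / (n * (b : ℝ) ^ 2)) ^ (-p) = y ^ (-p) * (n * (b : ℝ) ^ 2) ^ p := by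
    intro p
    rw [Real.div_rpow hy.le hc0.le, Real.rpow_neg hc0.le, div_inv_eq_mul]
  have hnp : ∀ p : ℝ, 0 ≤ p → p ≤ 1 → (n : ℝ) ^ p ≤ n := by
    intro p _ hp1
    calc (n : ℝ) ^ p ≤ (n : ℝ) ^ (1 : ℝ) := Real.rpow_le_rpow_of_exponent_le hn' hp1
      _ = n := Real.rpow_one _
  have hcp : ∀ p : ℝ, 0 ≤ p → p ≤ 1 →
      (n * (b : ℝ) ^ 2) ^ p ≤ n * (l : ℝ) ^ (2 * p) := by
    intro p hp0 hp1
    calc (n * (b : ℝ) ^ 2) ^ p ≤ (n * (l : ℝ) ^ 2) ^ p := Real.rpow_le_rpow hc0.le hcle hp0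
      _ = (n : ℝ) ^ p * (l : ℝ) ^ (2 * p) := by
          rw [Real.mul_rpow (by linarith) (by positivity), ← Real.rpow_natCast (l : ℝ) 2,
            ← Real.rpow_mul hl'.le]
          norm_num
      _ ≤ n * (l : ℝ) ^ (2 * p) :=
          mul_le_mul_of_nonneg_right (hnp p hp0 hp1) (Real.rpow_nonneg hl'.le _)
  refine ⟨hA, ?_, ?_, ?_⟩
  · exact Real.rpow_le_rpow hA.le (div_le_self hy.le hc1) (by norm_num)
  · rw [hneg]
    apply mul_le_mul_of_nonneg_left _ (Real.rpow_nonneg hy.le _)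
    have := hcp (1 / 8) (by norm_num) (by norm_num)
    rwa [show (2 : ℝ) * (1 / 8) = 1 / 4 by norm_num] at this
  · rw [hneg, hl14]
    have h1 : (y ^ (-(1 / 8) : ℝ)) ^ 2 = y ^ (-(1 / 4) : ℝ) := by
      rw [← Real.rpow_natCast, ← Real.rpow_mul hy.le]
      norm_num
    rw [h1]
    apply mul_le_mul_of_nonneg_left _ (Real.rpow_nonneg hy.le _)
    have := hcp (1 / 4) (by norm_num) (by norm_num)
    rwa [show (2 : ℝ) * (1 / 4) = 1 / 2 by norm_num] at this

/-- pointwise bounds -/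
private lemma D19_pt (C : ℝ) (hC : 1 ≤ C)
    (h17 : ∀ Y : ℝ, 0 < Y → 0 ≤ KK Y ∧ |KK Y - Lg Y| ≤ C * Y ^ (-(1 / 4) : ℝ) ∧
      KK Y ≤ C * Y ^ (1 / 8 : ℝ) ∧ |Lg Y| ≤ C * (Y ^ (1 / 8 : ℝ) + Y ^ (-(1 / 8) : ℝ)))
    (m n r l a b : ℕ) (hm : 1 ≤ m) (hn : 1 ≤ n) (hr : 1 ≤ r) (hl : 1 ≤ l)
    (ha : 1 ≤ a) (hal : a ≤ l) (hb : 1 ≤ b) (hbl : b ≤ l) (y : ℝ) (hy : 0 < y) :
    |KK ((y + r) / (m * (a : ℝ) ^ 2)) * KK (y / (n * (b : ℝ) ^ 2)) -
      Lg (y / (m * (a : ℝ) ^ 2)) * Lg (y / (n * (b : ℝ) ^ 2))| ≤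
      6 * C ^ 2 * (((m : ℝ) * n * r) * (l : ℝ) ^ (3 / 4 : ℝ)) *
        (y ^ (-(1 / 8) : ℝ) + y ^ (-(1 / 4) : ℝ) + y ^ (-(3 / 8) : ℝ)) ∧
    |Lg (y / (m * (a : ℝ) ^ 2)) * Lg (y / (n * (b : ℝ) ^ 2))| ≤
      C ^ 2 * (((m : ℝ) * n * r) * (l : ℝ) ^ (3 / 4 : ℝ)) *
        (y ^ (1 / 4 : ℝ) + 2 * y ^ (0 : ℝ) + y ^ (-(1 / 4) : ℝ)) := by
  have hm' : (1 : ℝ) ≤ m := by exact_mod_cast hm
  have hn' : (1 : ℝ) ≤ n := by exact_mod_cast hn
  have hr' : (1 : ℝ) ≤ r := by exact_mod_cast hr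
  have hl' : (1 : ℝ) ≤ l := by exact_mod_cast hl
  have ha' : (1 : ℝ) ≤ a := by exact_mod_cast ha
  obtain ⟨hA0, hA1, hA2, hA3⟩ := D19_pw y hy n b l hn hb hbl
  obtain ⟨hB0, hB1, hB2, hB3⟩ := D19_pw y hy m a l hm ha hal
  set A := y / (n * (b : ℝ) ^ 2) with hA
  set B0 := y / (m * (a : ℝ) ^ 2) with hB0d
  set B := (y + r) / (m * (a : ℝ) ^ 2) with hBd
  have hc1 : (1 : ℝ) ≤ m * (a : ℝ) ^ 2 := by nlinarith
  have hB0B : B0 ≤ B := by
    rw [hB0d, hBd]
    exact div_le_div_of_nonneg_right (by linarith) (by linarith)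
  have hBpos : 0 < B := lt_of_lt_of_le hB0 hB0B
  set P := y ^ (1 / 8 : ℝ) with hP
  set U := y ^ (-(1 / 8) : ℝ) with hU
  set L := (l : ℝ) ^ (1 / 4 : ℝ) with hL
  have hPpos : 0 < P := Real.rpow_pos_of_pos hy _
  have hUpos : 0 < U := Real.rpow_pos_of_pos hy _
  have hPU : P * U = 1 := by
    rw [hP, hU, ← Real.rpow_add hy]
    norm_num
  have hL1 : 1 ≤ L := Real.one_le_rpow hl' (by norm_num)
  have hL3 : (l : ℝ) ^ (3 / 4 : ℝ) = L ^ 3 := by
    rw [hL, ← Real.rpow_natCast, ← Real.rpow_mul (by linarith)]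
    norm_num
  have hU2 : y ^ (-(1 / 4) : ℝ) = U ^ 2 := by
    rw [hU, ← Real.rpow_natCast, ← Real.rpow_mul hy.le]
    norm_num
  have hU3 : y ^ (-(3 / 8) : ℝ) = U ^ 3 := by
    rw [hU, ← Real.rpow_natCast, ← Real.rpow_mul hy.le]
    norm_num
  have hP2 : y ^ (1 / 4 : ℝ) = P ^ 2 := by
    rw [hP, ← Real.rpow_natCast, ← Real.rpow_mul hy.le]
    norm_num
  rw [hL3, hU2, hU3, hP2, Real.rpow_zero]
  obtain ⟨kA0, kA1, kA2, kA3⟩ := h17 A hA0
  obtain ⟨kB0, kB1, kB2, kB3⟩ := h17 B hBpos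
  obtain ⟨_, _, _, kC3⟩ := h17 B0 hB0
  -- bounds of single factors
  have e1 : |KK A - Lg A| ≤ C * (U ^ 2 * (n * L ^ 2)) :=
    kA1.trans (mul_le_mul_of_nonneg_left hA3 (by linarith))
  have e2 : KK B ≤ C * (P + r) := by
    refine kB2.trans (mul_le_mul_of_nonneg_left ?_ (by linarith))
    have h1 : B ≤ y + r := div_le_self (by linarith) hc1
    calc B ^ (1 / 8 : ℝ) ≤ (y + r) ^ (1 / 8 : ℝ) := Real.rpow_le_rpow hBpos.le h1 (by norm_num)
      _ ≤ y ^ (1 / 8 : ℝ) + (r : ℝ) ^ (1 / 8 : ℝ) :=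
          Real.rpow_add_le_add_rpow hy.le (by linarith) (by norm_num) (by norm_num)
      _ ≤ P + r := by
          have : (r : ℝ) ^ (1 / 8 : ℝ) ≤ (r : ℝ) ^ (1 : ℝ) :=
            Real.rpow_le_rpow_of_exponent_le hr' (by norm_num)
          rw [Real.rpow_one] at this
          linarith
  have e3 : |Lg A| ≤ C * (P + U * (n * L)) :=
    kA3.trans (mul_le_mul_of_nonneg_left (add_le_add hA1 hA2) (by linarith))
  have e4 : |KK B - Lg B| ≤ C * (U ^ 2 * (m * L ^ 2)) := by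
    refine kB1.trans (mul_le_mul_of_nonneg_left (le_trans ?_ hB3) (by linarith))
    exact Real.rpow_le_rpow_of_nonpos hB0 hB0B (by norm_num)
  have e5 : |Lg B - Lg B0| ≤ 4 * (r * U ^ 2) := by
    have h1 : Lg B - Lg B0 = Real.log (1 + r / y) := by
      unfold Lg
      rw [hBd, hB0d, Real.log_div (by positivity) (by positivity),
        Real.log_div (by positivity) (by positivity)]
      have h2 : 1 + (r : ℝ) / y = (y + r) / y := by field_simp
      rw [h2, Real.log_div (by positivity) (by positivity)]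
      ring
    have h2 : 0 ≤ Real.log (1 + r / y) := by
      apply Real.log_nonneg
      have : 0 ≤ (r : ℝ) / y := by positivity
      linarith
    rw [h1, abs_of_nonneg h2]
    refine (D19_log4 _ (by positivity)).trans ?_
    apply mul_le_mul_of_nonneg_left _ (by norm_num)
    rw [Real.div_rpow (by linarith) hy.le, div_eq_mul_inv, ← Real.rpow_neg hy.le, hU2]
    apply mul_le_mul_of_nonneg_right _ (by positivity)
    have : (r : ℝ) ^ (1 / 4 : ℝ) ≤ (r : ℝ) ^ (1 : ℝ) :=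
      Real.rpow_le_rpow_of_exponent_le hr' (by norm_num)
    rwa [Real.rpow_one] at this
  have e6 : |Lg B0| ≤ C * (P + U * (m * L)) :=
    kC3.trans (mul_le_mul_of_nonneg_left (add_le_add hB1 hB2) (by linarith))
  -- monomials bounded by `M = m n r L^3`
  set M := (m : ℝ) * n * r * L ^ 3 with hM
  have hmn : (1 : ℝ) ≤ (m : ℝ) * n := one_le_mul_of_one_le_of_one_le hm' hn'
  have hLL : (1 : ℝ) ≤ L ^ 2 := one_le_pow₀ hL1
  have hL23 : L ^ 2 ≤ L ^ 3 := pow_le_pow_right₀ hL1 (by norm_num)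
  have hL13 : L ≤ L ^ 3 := le_self_pow₀ hL1 (by norm_num)
  have hmon : ∀ x z : ℝ, 0 ≤ z → x ≤ (m : ℝ) * n * r → z ≤ L ^ 3 → 0 ≤ x → x * z ≤ M := by
    intro x z hz hx hz3 hx0
    exact mul_le_mul hx hz3 hz (by positivity)
  have hn0 : (n : ℝ) ≤ (m : ℝ) * n * r := by
    calc (n : ℝ) = 1 * n * 1 := by ring
      _ ≤ m * n * r := by
        apply mul_le_mul (mul_le_mul_of_nonneg_right hm' (by linarith)) hr' (by norm_num)
          (by positivity)
  have hm0 : (m : ℝ) ≤ (m : ℝ) * n * r := by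
    calc (m : ℝ) = m * 1 * 1 := by ring
      _ ≤ m * n * r := by
        apply mul_le_mul (mul_le_mul_of_nonneg_left hn' (by linarith)) hr' (by norm_num)
          (by positivity)
  have hr0 : (r : ℝ) ≤ (m : ℝ) * n * r := le_mul_of_one_le_left (by linarith) hmn
  have hnr0 : (n : ℝ) * r ≤ (m : ℝ) * n * r := by
    calc (n : ℝ) * r = 1 * n * r := by ring
      _ ≤ m * n * r := by
        apply mul_le_mul_of_nonneg_right (mul_le_mul_of_nonneg_right hm' (by linarith))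
          (by linarith)
  have hmn0 : (m : ℝ) * n ≤ (m : ℝ) * n * r := le_mul_of_one_le_right (by positivity) hr'
  have h10 : (1 : ℝ) ≤ (m : ℝ) * n * r := one_le_mul_of_one_le_of_one_le hmn hr'
  have hL31 : (1 : ℝ) ≤ L ^ 3 := one_le_pow₀ hL1
  have q1 : (n : ℝ) * L ^ 2 ≤ M := hmon _ _ (by positivity) hn0 hL23 (by positivity)
  have q2 : (n : ℝ) * r * L ^ 2 ≤ M := hmon _ _ (by positivity) hnr0 hL23 (by positivity)
  have q3 : (m : ℝ) * L ^ 2 ≤ M := hmon _ _ (by positivity) hm0 hL23 (by positivity)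
  have q4 : (m : ℝ) * n * L ^ 3 ≤ M := hmon _ _ (by positivity) hmn0 le_rfl (by positivity)
  have q5 : (r : ℝ) * 1 ≤ M := hmon _ _ (by norm_num) hr0 hL31 (by positivity)
  have q6 : (n : ℝ) * r * L ≤ M := hmon _ _ (by positivity) hnr0 hL13 (by positivity)
  have q7 : (n : ℝ) * L ≤ M := hmon _ _ (by positivity) hn0 hL13 (by positivity)
  have q8 : (m : ℝ) * L ≤ M := hmon _ _ (by positivity) hm0 hL13 (by positivity)
  have q9 : (m : ℝ) * n * L ^ 2 ≤ M := hmon _ _ (by positivity) hmn0 hL23 (by positivity)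
  have q10 : (1 : ℝ) * 1 ≤ M := hmon _ _ (by norm_num) h10 hL31 (by norm_num)
  have hM0 : 0 ≤ M := by linarith
  have hPU2 : P * U ^ 2 = U := by
    calc P * U ^ 2 = (P * U) * U := by ring
      _ = U := by rw [hPU, one_mul]
  constructor
  · have key : KK B * KK A - Lg B0 * Lg A =
        KK B * (KK A - Lg A) + (KK B - Lg B) * Lg A + (Lg B - Lg B0) * Lg A := by ring
    have t1 : |KK B * (KK A - Lg A)| ≤ C ^ 2 * (M * (U + U ^ 2)) := by
      rw [abs_mul, abs_of_nonneg kB0]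
      calc KK B * |KK A - Lg A| ≤ (C * (P + r)) * (C * (U ^ 2 * (n * L ^ 2))) :=
            mul_le_mul e2 e1 (abs_nonneg _) (by positivity)
        _ = C ^ 2 * ((n * L ^ 2) * (P * U ^ 2) + (n * r * L ^ 2) * U ^ 2) := by ring
        _ ≤ C ^ 2 * (M * U + M * U ^ 2) := by
            rw [hPU2]
            apply mul_le_mul_of_nonneg_left _ (by positivity)
            exact add_le_add (mul_le_mul_of_nonneg_right q1 hUpos.le)
              (mul_le_mul_of_nonneg_right q2 (by positivity))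
        _ = _ := by ring
    have t2 : |(KK B - Lg B) * Lg A| ≤ C ^ 2 * (M * (U + U ^ 3)) := by
      rw [abs_mul]
      calc |KK B - Lg B| * |Lg A| ≤ (C * (U ^ 2 * (m * L ^ 2))) * (C * (P + U * (n * L))) :=
            mul_le_mul e4 e3 (abs_nonneg _) (by positivity)
        _ = C ^ 2 * ((m * L ^ 2) * (P * U ^ 2) + (m * n * L ^ 3) * U ^ 3) := by ring
        _ ≤ C ^ 2 * (M * U + M * U ^ 3) := by
            rw [hPU2]
            apply mul_le_mul_of_nonneg_left _ (by positivity)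
            exact add_le_add (mul_le_mul_of_nonneg_right q3 hUpos.le)
              (mul_le_mul_of_nonneg_right q4 (by positivity))
        _ = _ := by ring
    have t3 : |(Lg B - Lg B0) * Lg A| ≤ 4 * C ^ 2 * (M * (U + U ^ 3)) := by
      rw [abs_mul]
      have hCC : C ≤ C ^ 2 := by
        rw [pow_two]
        exact le_mul_of_one_le_left (by linarith) hC
      calc |Lg B - Lg B0| * |Lg A| ≤ (4 * (r * U ^ 2)) * (C * (P + U * (n * L))) :=
            mul_le_mul e5 e3 (abs_nonneg _) (by positivity)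
        _ = 4 * C * ((r * 1) * (P * U ^ 2) + (n * r * L) * U ^ 3) := by ring
        _ ≤ 4 * C * (M * U + M * U ^ 3) := by
            rw [hPU2]
            apply mul_le_mul_of_nonneg_left _ (by positivity)
            exact add_le_add (mul_le_mul_of_nonneg_right q5 hUpos.le)
              (mul_le_mul_of_nonneg_right q6 (by positivity))
        _ ≤ 4 * C ^ 2 * (M * U + M * U ^ 3) := by
            apply mul_le_mul_of_nonneg_right _ (by positivity)
            linarith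
        _ = _ := by ring
    rw [key]
    calc |KK B * (KK A - Lg A) + (KK B - Lg B) * Lg A + (Lg B - Lg B0) * Lg A|
        ≤ |KK B * (KK A - Lg A)| + |(KK B - Lg B) * Lg A| + |(Lg B - Lg B0) * Lg A| :=
          abs_add_three _ _ _
      _ ≤ C ^ 2 * (M * (U + U ^ 2)) + C ^ 2 * (M * (U + U ^ 3)) +
          4 * C ^ 2 * (M * (U + U ^ 3)) := by linarith
      _ ≤ 6 * C ^ 2 * M * (U + U ^ 2 + U ^ 3) := by
          have h1 : 0 ≤ C ^ 2 * M * U ^ 2 := by positivity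
          have h2 : 0 ≤ C ^ 2 * M * U ^ 3 := by positivity
          linarith
  · rw [abs_mul]
    calc |Lg B0| * |Lg A| ≤ (C * (P + U * (m * L))) * (C * (P + U * (n * L))) :=
          mul_le_mul e6 e3 (abs_nonneg _) (by positivity)
      _ = C ^ 2 * ((1 * 1) * P ^ 2 + (n * L) * (P * U) + (m * L) * (P * U) +
            (m * n * L ^ 2) * U ^ 2) := by ring
      _ ≤ C ^ 2 * (M * P ^ 2 + M * 1 + M * 1 + M * U ^ 2) := by
          rw [hPU]
          apply mul_le_mul_of_nonneg_left _ (by positivity)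
          exact add_le_add (add_le_add (add_le_add (mul_le_mul_of_nonneg_right q10 (by positivity))
            (mul_le_mul_of_nonneg_right q7 (by norm_num)))
            (mul_le_mul_of_nonneg_right q8 (by norm_num)))
            (mul_le_mul_of_nonneg_right q9 (by positivity))
      _ = _ := by ring

private lemma D19_kp_meas : Measurable kp := by
  have hg : Integrable gk := by
    unfold gk
    have h1 := integrable_exp_neg_mul_sq (b := 1 / 4) (by norm_num)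
    have h2 := h1.const_mul (1 / (2 * √Real.pi))
    refine h2.congr (Filter.Eventually.of_forall fun x => ?_)
    simp only
    congr 2
    ring
  have hmono : Monotone (fun t : ℝ => ∫ x in Iic t, gk x) := by
    intro s t hst
    apply setIntegral_mono_set hg.integrableOn
    · exact Filter.Eventually.of_forall fun x => by
        unfold gk
        simp only [Pi.zero_apply]
        positivity
    · exact (Iic_subset_Iic.2 hst).eventuallyLE
  exact hmono.measurable.comp Real.measurable_log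

/-- `KK` is a.e. strongly measurable along positive functions -/
private lemma D19_KK_meas
    (hs : ∀ Y : ℝ, 0 < Y → Summable (fun k : ℕ => if 1 ≤ k then kp (Y / (k : ℝ) ^ 2) / k else 0))
    (g : ℝ → ℝ) (hg : Measurable g) (hpos : ∀ y : ℝ, 0 < y → 0 < g y) :
    AEStronglyMeasurable (fun y => KK (g y)) (volume.restrict (Ioi 0)) := by
  have h1 : ∀ N : ℕ, AEStronglyMeasurable (fun y => 2 * ∑ k ∈ Finset.range N,
      if 1 ≤ k then kp (g y / (k : ℝ) ^ 2) / k else 0) (volume.restrict (Ioi 0)) := by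
    intro N
    apply Measurable.aestronglyMeasurable
    apply Measurable.const_mul
    apply Finset.measurable_sum
    intro k _
    split_ifs
    · exact (D19_kp_meas.comp (hg.div_const _)).div_const _
    · exact measurable_const
  refine aestronglyMeasurable_of_tendsto_ae atTop h1 ?_
  rw [ae_restrict_iff' measurableSet_Ioi]
  refine Filter.Eventually.of_forall fun y hy => ?_
  exact ((hs (g y) (hpos y hy)).hasSum.tendsto_sum_nat).const_mul 2

/-- D19: replacing `KK` by logarithms -/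
theorem D19_log : ∃ C : ℝ, 1 ≤ C ∧ ∀ (m n r l : ℕ) (f f1 f2 : ℝ → ℂ) (K X : ℝ), 1 ≤ m → 1 ≤ n → 1 ≤ r → 1 ≤ l →
    Flat f f1 f2 K X → 0 ≤ K → 1 ≤ X →
    ‖(∫ y in Ioi (0 : ℝ), f y * ((KK ((y + r) / (m * (lr l m : ℝ) ^ 2)) * KK (y / (n * (lr l n : ℝ) ^ 2)) : ℝ) : ℂ)) -
      ∫ y in Ioi (0 : ℝ), f y * ((Lg (y / (m * (lr l m : ℝ) ^ 2)) * Lg (y / (n * (lr l n : ℝ) ^ 2)) : ℝ) : ℂ)‖ ≤
      C * K * ((m : ℝ) * n * r) * (l : ℝ) ^ (3 / 4 : ℝ) * X ^ (7 / 8 : ℝ) ∧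
    ‖∫ y in Ioi (0 : ℝ), f y * ((Lg (y / (m * (lr l m : ℝ) ^ 2)) * Lg (y / (n * (lr l n : ℝ) ^ 2)) : ℝ) : ℂ)‖ ≤
      C * K * ((m : ℝ) * n * r) * (l : ℝ) ^ (3 / 4 : ℝ) * X ^ (5 / 4 : ℝ) := by
  obtain ⟨C, hC, h17⟩ := D17_KK
  refine ⟨54 * C ^ 2, by nlinarith, ?_⟩
  intro m n r l f f1 f2 K X hm hn hr hl hf hK hX
  have ha := D14_lr_ge hl hm
  have hb := D14_lr_ge hl hn
  set a := lr l m with had
  set b := lr l n with hbd
  have hX0 : (0 : ℝ) < X := by linarith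
  have hm' : (1 : ℝ) ≤ m := by exact_mod_cast hm
  have hn' : (1 : ℝ) ≤ n := by exact_mod_cast hn
  have hr' : (1 : ℝ) ≤ r := by exact_mod_cast hr
  have ha' : (1 : ℝ) ≤ a := by exact_mod_cast ha.1
  have hb' : (1 : ℝ) ≤ b := by exact_mod_cast hb.1
  have hpt := fun y hy => D19_pt C hC (fun Y hY => (h17 Y hY).2) m n r l a b hm hn hr hl ha.1
    ha.2.1 hb.1 hb.2.1 y hy
  set M := ((m : ℝ) * n * r) * (l : ℝ) ^ (3 / 4 : ℝ) with hM
  have hM0 : 0 ≤ M := by positivity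
  -- measurability
  have hfc : ContinuousOn f (Ioi 0) := fun y hy => (hf.d1 y hy).continuousAt.continuousWithinAt
  have hfm : AEStronglyMeasurable f (volume.restrict (Ioi 0)) :=
    hfc.aestronglyMeasurable measurableSet_Ioi
  have hLgc : ∀ c : ℝ, 0 < c → ContinuousOn (fun y : ℝ => Lg (y / c)) (Ioi 0) := by
    intro c hc
    unfold Lg
    apply ContinuousOn.add _ continuousOn_const
    apply ContinuousOn.log (by fun_prop)
    intro y hy
    have : (0 : ℝ) < y := hy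
    positivity
  have hc1 : (0 : ℝ) < m * (a : ℝ) ^ 2 := by positivity
  have hc2 : (0 : ℝ) < n * (b : ℝ) ^ 2 := by positivity
  have hLm : AEStronglyMeasurable (fun y : ℝ => f y *
      ((Lg (y / (m * (a : ℝ) ^ 2)) * Lg (y / (n * (b : ℝ) ^ 2)) : ℝ) : ℂ))
      (volume.restrict (Ioi 0)) := by
    apply hfm.mul
    have h1 : ContinuousOn (fun y : ℝ =>
        (((Lg (y / (m * (a : ℝ) ^ 2)) * Lg (y / (n * (b : ℝ) ^ 2)) : ℝ) : ℂ))) (Ioi 0) :=
      Complex.continuous_ofReal.comp_continuousOn ((hLgc _ hc1).mul (hLgc _ hc2))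
    exact h1.aestronglyMeasurable measurableSet_Ioi
  have hKm : AEStronglyMeasurable (fun y : ℝ => f y *
      ((KK ((y + r) / (m * (a : ℝ) ^ 2)) * KK (y / (n * (b : ℝ) ^ 2)) : ℝ) : ℂ))
      (volume.restrict (Ioi 0)) := by
    apply hfm.mul
    have h1 := D19_KK_meas (fun Y hY => (h17 Y hY).1) (fun y => (y + r) / (m * (a : ℝ) ^ 2))
      ((measurable_id.add_const _).div_const _) (fun y hy => by positivity)
    have h2 := D19_KK_meas (fun Y hY => (h17 Y hY).1) (fun y => y / (n * (b : ℝ) ^ 2))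
      (measurable_id.div_const _) (fun y hy => by positivity)
    exact Complex.continuous_ofReal.comp_aestronglyMeasurable (h1.mul h2)
  -- dominating functions
  have w1 := D19_wt X (-(1 / 8)) hX (by norm_num) (by norm_num)
  have w2 := D19_wt X (-(1 / 4)) hX (by norm_num) (by norm_num)
  have w3 := D19_wt X (-(3 / 8)) hX (by norm_num) (by norm_num)
  have w4 := D19_wt X (1 / 4) hX (by norm_num) (by norm_num)
  have w5 := D19_wt X 0 hX (by norm_num) (by norm_num)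
  set G : ℝ → ℝ := fun y => K * (6 * C ^ 2 * M) * (Wt X y * y ^ (-(1 / 8) : ℝ) +
    Wt X y * y ^ (-(1 / 4) : ℝ) + Wt X y * y ^ (-(3 / 8) : ℝ)) with hG
  set G2 : ℝ → ℝ := fun y => K * (C ^ 2 * M) * (Wt X y * y ^ (1 / 4 : ℝ) +
    2 * (Wt X y * y ^ (0 : ℝ)) + Wt X y * y ^ (-(1 / 4) : ℝ)) with hG2
  have hGi : IntegrableOn G (Ioi 0) := ((w1.1.add w2.1).add w3.1).const_mul _
  have hG2i : IntegrableOn G2 (Ioi 0) := ((w4.1.add (w5.1.const_mul 2)).add w2.1).const_mul _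
  have hGv : ∫ y in Ioi (0 : ℝ), G y ≤ K * (6 * C ^ 2 * M) * (9 * X ^ (7 / 8 : ℝ)) := by
    rw [hG, integral_const_mul]
    apply mul_le_mul_of_nonneg_left _ (by positivity)
    have s12 : IntegrableOn (fun y : ℝ => Wt X y * y ^ (-(1 / 8) : ℝ) +
        Wt X y * y ^ (-(1 / 4) : ℝ)) (Ioi 0) := w1.1.add w2.1
    rw [integral_add s12 w3.1, integral_add w1.1 w2.1]
    have p1 : X ^ ((-(1 / 8) : ℝ) + 1) ≤ X ^ (7 / 8 : ℝ) :=
      Real.rpow_le_rpow_of_exponent_le hX (by norm_num)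
    have p2 : X ^ ((-(1 / 4) : ℝ) + 1) ≤ X ^ (7 / 8 : ℝ) :=
      Real.rpow_le_rpow_of_exponent_le hX (by norm_num)
    have p3 : X ^ ((-(3 / 8) : ℝ) + 1) ≤ X ^ (7 / 8 : ℝ) :=
      Real.rpow_le_rpow_of_exponent_le hX (by norm_num)
    linarith [w1.2, w2.2, w3.2]
  have hG2v : ∫ y in Ioi (0 : ℝ), G2 y ≤ K * (C ^ 2 * M) * (12 * X ^ (5 / 4 : ℝ)) := by
    rw [hG2, integral_const_mul]
    apply mul_le_mul_of_nonneg_left _ (by positivity)
    have s5 : IntegrableOn (fun y : ℝ => 2 * (Wt X y * y ^ (0 : ℝ))) (Ioi 0) := w5.1.const_mul 2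
    have s45 : IntegrableOn (fun y : ℝ => Wt X y * y ^ (1 / 4 : ℝ) +
        2 * (Wt X y * y ^ (0 : ℝ))) (Ioi 0) := w4.1.add s5
    rw [integral_add s45 w2.1, integral_add w4.1 s5, integral_const_mul]
    have p1 : X ^ ((1 / 4 : ℝ) + 1) ≤ X ^ (5 / 4 : ℝ) :=
      Real.rpow_le_rpow_of_exponent_le hX (by norm_num)
    have p2 : X ^ ((0 : ℝ) + 1) ≤ X ^ (5 / 4 : ℝ) :=
      Real.rpow_le_rpow_of_exponent_le hX (by norm_num)
    have p3 : X ^ ((-(1 / 4) : ℝ) + 1) ≤ X ^ (5 / 4 : ℝ) :=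
      Real.rpow_le_rpow_of_exponent_le hX (by norm_num)
    refine (add_le_add (add_le_add w4.2 (mul_le_mul_of_nonneg_left w5.2 (by norm_num))) w2.2).trans ?_
    linarith
  -- pointwise
  have hbd1 : ∀ y ∈ Ioi (0 : ℝ), ‖f y *
      ((KK ((y + r) / (m * (a : ℝ) ^ 2)) * KK (y / (n * (b : ℝ) ^ 2)) : ℝ) : ℂ) -
      f y * ((Lg (y / (m * (a : ℝ) ^ 2)) * Lg (y / (n * (b : ℝ) ^ 2)) : ℝ) : ℂ)‖ ≤ G y := by
    intro y hy
    rw [← mul_sub, ← Complex.ofReal_sub, norm_mul, Complex.norm_real, Real.norm_eq_abs]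
    calc ‖f y‖ * _ ≤ (K * Wt X y) * (6 * C ^ 2 * M *
          (y ^ (-(1 / 8) : ℝ) + y ^ (-(1 / 4) : ℝ) + y ^ (-(3 / 8) : ℝ))) :=
          mul_le_mul (hf.b0 y hy) (hpt y hy).1 (abs_nonneg _)
            (mul_nonneg hK (D19_wt_nonneg X y))
      _ = G y := by
          simp only [hG]
          ring
  have hbd2 : ∀ y ∈ Ioi (0 : ℝ), ‖f y *
      ((Lg (y / (m * (a : ℝ) ^ 2)) * Lg (y / (n * (b : ℝ) ^ 2)) : ℝ) : ℂ)‖ ≤ G2 y := by
    intro y hy
    rw [norm_mul, Complex.norm_real, Real.norm_eq_abs]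
    calc ‖f y‖ * _ ≤ (K * Wt X y) * (C ^ 2 * M *
          (y ^ (1 / 4 : ℝ) + 2 * y ^ (0 : ℝ) + y ^ (-(1 / 4) : ℝ))) :=
          mul_le_mul (hf.b0 y hy) (hpt y hy).2 (abs_nonneg _)
            (mul_nonneg hK (D19_wt_nonneg X y))
      _ = G2 y := by
          simp only [hG2]
          ring
  have hae1 := (ae_restrict_iff' (μ := volume) measurableSet_Ioi).2 (Filter.Eventually.of_forall hbd1)
  have hae2 := (ae_restrict_iff' (μ := volume) measurableSet_Ioi).2 (Filter.Eventually.of_forall hbd2)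
  have hiL : IntegrableOn (fun y : ℝ => f y *
      ((Lg (y / (m * (a : ℝ) ^ 2)) * Lg (y / (n * (b : ℝ) ^ 2)) : ℝ) : ℂ)) (Ioi 0) :=
    Integrable.mono' hG2i hLm hae2
  have hiD : IntegrableOn (fun y : ℝ => f y *
      ((KK ((y + r) / (m * (a : ℝ) ^ 2)) * KK (y / (n * (b : ℝ) ^ 2)) : ℝ) : ℂ) -
      f y * ((Lg (y / (m * (a : ℝ) ^ 2)) * Lg (y / (n * (b : ℝ) ^ 2)) : ℝ) : ℂ)) (Ioi 0) :=
    Integrable.mono' hGi (hKm.sub hLm) hae1
  have hiK : IntegrableOn (fun y : ℝ => f y *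
      ((KK ((y + r) / (m * (a : ℝ) ^ 2)) * KK (y / (n * (b : ℝ) ^ 2)) : ℝ) : ℂ)) (Ioi 0) := by
    have := hiD.add hiL
    refine this.congr (Filter.Eventually.of_forall fun y => ?_)
    simp
  constructor
  · rw [← integral_sub hiK hiL]
    refine (norm_integral_le_of_norm_le hGi hae1).trans (hGv.trans (le_of_eq ?_))
    rw [hM]
    ring
  · refine (norm_integral_le_of_norm_le hG2i hae2).trans (hG2v.trans ?_)
    have h1 : 0 ≤ C ^ 2 * K * M * X ^ (5 / 4 : ℝ) := by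
      have := Real.rpow_nonneg hX0.le (5 / 4)
      positivity
    calc K * (C ^ 2 * M) * (12 * X ^ (5 / 4 : ℝ)) =
          12 * (C ^ 2 * K * M * X ^ (5 / 4 : ℝ)) := by ring
      _ ≤ 54 * (C ^ 2 * K * M * X ^ (5 / 4 : ℝ)) := by linarith
      _ = _ := by
        rw [hM]
        ring

end Pool.Agent.LibF4D
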