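import Mathlib
import Pool.Agent.LibF4D.KDefs
import Pool.Agent.LibF4D.DDefs
import Pool.Agent.LibF4D.D12
import Pool.Agent.LibF4D.D13
import Pool.Agent.LibF4D.D14
import Pool.Agent.LibF4D.D18
import Pool.Agent.LibF4D.D19

/-! Row D20.
Sr = 4∑Tc, 4∑TM by D18, difference of the l-sums by D19: |cr| ≤ r², 1/(l1 l2) ≤ m n/l², ∑ l^{-5/4} < ∞. Both l-sums are absolutely convergent (D19 second part for the Lg-sum; the KK-sum = Lg-sum + difference).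
-/

set_option autoImplicit false

namespace Pool.Agent.LibF4D

open MeasureTheory Set Filter Topology

/-- the coefficient of the l-sum -/
theorem D20_coef {m n r l : ℕ} (hm : 1 ≤ m) (hn : 1 ≤ n) (hr : 1 ≤ r) (hl : 1 ≤ l) :
    ‖(((cr l r : ℝ) / (lr l m * lr l n) : ℝ) : ℂ)‖ ≤ (r : ℝ) ^ 2 * (m * n) * (l : ℝ) ^ (-2 : ℝ) := by
  have h1 := D14_lr_ge hl hm
  have h2 := D14_lr_ge hl hn
  have h3 : |(cr l r : ℝ)| ≤ (r : ℝ) ^ 2 := by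
    have := D14_cr_le (l := l) hr
    exact_mod_cast this
  have hl' : (0 : ℝ) < l := by exact_mod_cast hl
  have hm' : (0 : ℝ) < m := by exact_mod_cast hm
  have hn' : (0 : ℝ) < n := by exact_mod_cast hn
  have ha : (0 : ℝ) < lr l m := by exact_mod_cast h1.1
  have hb : (0 : ℝ) < lr l n := by exact_mod_cast h2.1
  have ha2 : (l : ℝ) ≤ lr l m * m := by exact_mod_cast h1.2.2
  have hb2 : (l : ℝ) ≤ lr l n * n := by exact_mod_cast h2.2.2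
  rw [Complex.norm_real, Real.norm_eq_abs, abs_div, abs_of_pos (mul_pos ha hb)]
  have h4 : 1 / ((lr l m : ℝ) * lr l n) ≤ (m * n) * (l : ℝ) ^ (-2 : ℝ) := by
    have e : (l : ℝ) ^ (-2 : ℝ) = ((l : ℝ) ^ 2)⁻¹ := by
      rw [Real.rpow_neg hl'.le]
      norm_num
    rw [e, ← div_eq_mul_inv, div_le_div_iff₀ (mul_pos ha hb) (by positivity)]
    have h5 := mul_le_mul ha2 hb2 hl'.le (by positivity)
    nlinarith
  calc |(cr l r : ℝ)| / ((lr l m : ℝ) * lr l n) = |(cr l r : ℝ)| * (1 / ((lr l m : ℝ) * lr l n)) := by ring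
    _ ≤ (r : ℝ) ^ 2 * ((m * n) * (l : ℝ) ^ (-2 : ℝ)) :=
        mul_le_mul h3 h4 (by positivity) (by positivity)
    _ = _ := by ring

theorem D20_term {m n r l : ℕ} (hm : 1 ≤ m) (hn : 1 ≤ n) (hr : 1 ≤ r) (hl : 1 ≤ l) (z : ℂ) {D : ℝ}
    (hz : ‖z‖ ≤ D * (l : ℝ) ^ (3 / 4 : ℝ)) :
    ‖(((cr l r : ℝ) / (lr l m * lr l n) : ℝ) : ℂ) * z‖ ≤
      ((r : ℝ) ^ 2 * (m * n) * D) * (l : ℝ) ^ (-(5 / 4) : ℝ) := by
  have hl' : (0 : ℝ) < l := by exact_mod_cast hl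
  rw [norm_mul]
  have h1 := D20_coef hm hn hr hl
  calc _ ≤ ((r : ℝ) ^ 2 * (m * n) * (l : ℝ) ^ (-2 : ℝ)) * (D * (l : ℝ) ^ (3 / 4 : ℝ)) :=
        mul_le_mul h1 hz (norm_nonneg _) (by positivity)
    _ = ((r : ℝ) ^ 2 * (m * n) * D) * ((l : ℝ) ^ (-2 : ℝ) * (l : ℝ) ^ (3 / 4 : ℝ)) := by ring
    _ = _ := by
        rw [← Real.rpow_add hl']
        norm_num

/-- D20: the additive divisor problem -/
theorem D20_final : ∃ C : ℝ, 1 ≤ C ∧ ∀ (m n r : ℕ) (f f1 f2 : ℝ → ℂ) (K X : ℝ), 1 ≤ m → 1 ≤ n → 1 ≤ r →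
    Flat f f1 f2 K X → 0 ≤ K → 1 ≤ X →
    ‖Sr m n r f - MM m n r f‖ ≤ C * K * ((m : ℝ) * n * r) ^ 8 * X ^ (7 / 8 : ℝ) := by
  obtain ⟨C1, hC1, h12⟩ := D12_sum
  obtain ⟨C2, hC2, h19⟩ := D19_log
  set Z : ℝ := ∑' l : ℕ, (l : ℝ) ^ (-(5 / 4) : ℝ) with hZ
  have hZs : Summable (fun l : ℕ => (l : ℝ) ^ (-(5 / 4) : ℝ)) :=
    Real.summable_nat_rpow.mpr (by norm_num)
  have hZ0 : 0 ≤ Z := tsum_nonneg (fun l => by positivity)
  refine ⟨4 * C1 + C2 * Z, by nlinarith [mul_nonneg (zero_le_one.trans hC2) hZ0], ?_⟩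
  intro m n r f f1 f2 K X hm hn hr hf hK hX
  have hm' : (1 : ℝ) ≤ m := by exact_mod_cast hm
  have hn' : (1 : ℝ) ≤ n := by exact_mod_cast hn
  have hr' : (1 : ℝ) ≤ r := by exact_mod_cast hr
  obtain ⟨hs12, hb12⟩ := h12 m n r f f1 f2 K X hm hn hr hf hK hX
  obtain ⟨hs13, he13⟩ := D13_Sr hm hn hr hf hK hX
  obtain ⟨hs18, he18⟩ := D18_main hm hn hr hf hK hX
  -- the two l-sums
  set A : ℕ → ℂ := fun l => if 1 ≤ l then ((cr l r : ℝ) / (lr l m * lr l n) : ℝ) *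
      ∫ y in Ioi (0 : ℝ), f y * ((KK ((y + r) / (m * (lr l m : ℝ) ^ 2)) * KK (y / (n * (lr l n : ℝ) ^ 2)) : ℝ) : ℂ) else 0 with hA
  set B : ℕ → ℂ := fun l => if 1 ≤ l then ((cr l r : ℝ) / (lr l m * lr l n) : ℝ) *
    ∫ y in Ioi (0 : ℝ), f y * ((Lg (y / (m * (lr l m : ℝ) ^ 2)) * Lg (y / (n * (lr l n : ℝ) ^ 2)) : ℝ) : ℂ) else 0 with hB
  have hX1 : 0 ≤ X ^ (7 / 8 : ℝ) := Real.rpow_nonneg (by linarith) _
  have hX2 : 0 ≤ X ^ (5 / 4 : ℝ) := Real.rpow_nonneg (by linarith) _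
  have hAB : ∀ l : ℕ, ‖A l - B l‖ ≤
      ((r : ℝ) ^ 2 * (m * n) * (C2 * K * ((m : ℝ) * n * r) * X ^ (7 / 8 : ℝ))) * (l : ℝ) ^ (-(5 / 4) : ℝ) := by
    intro l
    rcases Nat.eq_zero_or_pos l with h0 | hl0
    · rw [h0]
      simp only [hA, hB]
      simp
    · have hl : 1 ≤ l := hl0
      have h1 := (h19 m n r l f f1 f2 K X hm hn hr hl hf hK hX).1
      simp only [hA, hB]
      rw [if_pos hl, if_pos hl, ← mul_sub]
      apply D20_term hm hn hr hl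
      refine h1.trans (le_of_eq (by ring))
  have hBb : ∀ l : ℕ, ‖B l‖ ≤
      ((r : ℝ) ^ 2 * (m * n) * (C2 * K * ((m : ℝ) * n * r) * X ^ (5 / 4 : ℝ))) * (l : ℝ) ^ (-(5 / 4) : ℝ) := by
    intro l
    rcases Nat.eq_zero_or_pos l with h0 | hl0
    · rw [h0]
      simp only [hB]
      simp
    · have hl : 1 ≤ l := hl0
      have h1 := (h19 m n r l f f1 f2 K X hm hn hr hl hf hK hX).2
      simp only [hB]
      rw [if_pos hl]
      apply D20_term hm hn hr hl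
      refine h1.trans (le_of_eq (by ring))
  have hBs : Summable B := Summable.of_norm_bounded (hZs.mul_left _) hBb
  have hABs : Summable (fun l => A l - B l) := Summable.of_norm_bounded (hZs.mul_left _) hAB
  have hAs : Summable A := by
    have := hABs.add hBs
    simpa using this
  have hdiff : ‖(∑' l, A l) - ∑' l, B l‖ ≤
      ((r : ℝ) ^ 2 * (m * n) * (C2 * K * ((m : ℝ) * n * r) * X ^ (7 / 8 : ℝ))) * Z := by
    rw [← hAs.tsum_sub hBs, hZ, ← tsum_mul_left]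
    exact tsum_of_norm_bounded (hZs.mul_left _).hasSum hAB
  have hTs : Summable (fun c : ℕ => Tc m n r (c + 1) f - TM m n r (c + 1) f) := hs12.of_norm
  have hT : ‖∑' c : ℕ, (Tc m n r (c + 1) f - TM m n r (c + 1) f)‖ ≤
      C1 * K * ((m : ℝ) * n * r) ^ 8 * X ^ (7 / 8 : ℝ) :=
    (norm_tsum_le_tsum_norm hs12).trans hb12
  have hmain : Sr m n r f - MM m n r f =
      4 * ∑' c : ℕ, (Tc m n r (c + 1) f - TM m n r (c + 1) f) +
        (1 / ((m : ℂ) * n)) * ((∑' l, A l) - ∑' l, B l) := by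
    have hMM : MM m n r f = (1 / ((m : ℂ) * n)) * ∑' l, B l := rfl
    rw [hs13.tsum_sub hs18, he13, hMM]
    have h4 : 4 * ((∑' c : ℕ, Tc m n r (c + 1) f) - ∑' c : ℕ, TM m n r (c + 1) f) =
        4 * (∑' c : ℕ, Tc m n r (c + 1) f) - 4 * ∑' c : ℕ, TM m n r (c + 1) f := by ring
    rw [h4, he18]
    ring
  rw [hmain]
  refine (norm_add_le _ _).trans ?_
  have e1 : ‖4 * ∑' c : ℕ, (Tc m n r (c + 1) f - TM m n r (c + 1) f)‖ ≤
      4 * (C1 * K * ((m : ℝ) * n * r) ^ 8 * X ^ (7 / 8 : ℝ)) := by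
    rw [norm_mul]
    have : ‖(4 : ℂ)‖ = 4 := by norm_num
    rw [this]
    exact mul_le_mul_of_nonneg_left hT (by norm_num)
  have e2 : ‖(1 / ((m : ℂ) * n)) * ((∑' l, A l) - ∑' l, B l)‖ ≤
      C2 * Z * K * ((m : ℝ) * n * r) ^ 8 * X ^ (7 / 8 : ℝ) := by
    rw [norm_mul, norm_div, norm_one, norm_mul, Complex.norm_natCast, Complex.norm_natCast]
    have hmn : (0 : ℝ) < (m : ℝ) * n := by positivity
    have h5 : 1 / ((m : ℝ) * n) * ‖(∑' l, A l) - ∑' l, B l‖ ≤ 1 / ((m : ℝ) * n) *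
        (((r : ℝ) ^ 2 * (m * n) * (C2 * K * ((m : ℝ) * n * r) * X ^ (7 / 8 : ℝ))) * Z) :=
      mul_le_mul_of_nonneg_left hdiff (by positivity)
    refine h5.trans ?_
    have h6 : 1 / ((m : ℝ) * n) *
        (((r : ℝ) ^ 2 * (m * n) * (C2 * K * ((m : ℝ) * n * r) * X ^ (7 / 8 : ℝ))) * Z) =
        (C2 * Z * K * X ^ (7 / 8 : ℝ)) * ((r : ℝ) ^ 2 * ((m : ℝ) * n * r)) := by
      field_simp
    rw [h6]
    have h7 : (r : ℝ) ^ 2 * ((m : ℝ) * n * r) ≤ ((m : ℝ) * n * r) ^ 8 := by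
      have hmn1 : (1 : ℝ) ≤ (m : ℝ) * n := by nlinarith
      have hr2 : (r : ℝ) ≤ (m : ℝ) * n * r := by nlinarith
      have hP1 : (1 : ℝ) ≤ (m : ℝ) * n * r := le_trans hr' hr2
      calc (r : ℝ) ^ 2 * ((m : ℝ) * n * r) ≤ ((m : ℝ) * n * r) ^ 2 * ((m : ℝ) * n * r) :=
            mul_le_mul_of_nonneg_right (pow_le_pow_left₀ (by linarith) hr2 2) (by linarith)
        _ = ((m : ℝ) * n * r) ^ 3 := by ring
        _ ≤ ((m : ℝ) * n * r) ^ 8 := pow_le_pow_right₀ hP1 (by norm_num)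
    have hC : 0 ≤ C2 * Z * K * X ^ (7 / 8 : ℝ) := by positivity
    calc (C2 * Z * K * X ^ (7 / 8 : ℝ)) * ((r : ℝ) ^ 2 * ((m : ℝ) * n * r))
        ≤ (C2 * Z * K * X ^ (7 / 8 : ℝ)) * ((m : ℝ) * n * r) ^ 8 := mul_le_mul_of_nonneg_left h7 hC
      _ = _ := by ring
  calc _ ≤ 4 * (C1 * K * ((m : ℝ) * n * r) ^ 8 * X ^ (7 / 8 : ℝ)) +
        C2 * Z * K * ((m : ℝ) * n * r) ^ 8 * X ^ (7 / 8 : ℝ) := add_le_add e1 e2
    _ = _ := by ring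

end Pool.Agent.LibF4D
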